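import Mathlib
import Pool.Agent.IAQ.Ident
import Pool.Agent.IAQ.KW

/-!
# Stabilisers of homomorphisms from a free group: definitions

`g : Fin n → G` is a tuple, `ev g : FreeGroup (Fin n) →* G` the homomorphism it defines,
`Gam g` the stabiliser of `ev g` in `Aut (F_n)`, `act φ g` the action on tuples,
`Mv c` the automorphisms moving only the letter `c`, `NN g` the group generated by the
one-letter moves in `Gam g`.
-/

set_option autoImplicit false

namespace RED

open AFn IAQ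

variable {n : ℕ}

/-- the sign change of the letter `a` -/
def sgHom (a : Fin n) : FreeGroup (Fin n) →* FreeGroup (Fin n) :=
  FreeGroup.lift (fun x => if x = a then (FreeGroup.of a)⁻¹ else FreeGroup.of x)

theorem sgHom_sgHom (a : Fin n) (w : FreeGroup (Fin n)) : sgHom a (sgHom a w) = w := by
  have h : (sgHom a).comp (sgHom a) = MonoidHom.id _ := by
    ext x
    by_cases hx : x = a
    · subst hx; simp [sgHom]
    · simp [sgHom, hx]
  exact DFunLike.congr_fun h w

/-- the automorphism `x_a ↦ x_a⁻¹` -/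
def sg (a : Fin n) : MulAut (FreeGroup (Fin n)) where
  toFun := sgHom a
  invFun := sgHom a
  left_inv := sgHom_sgHom a
  right_inv := sgHom_sgHom a
  map_mul' := map_mul _

theorem sg_apply (a : Fin n) (w : FreeGroup (Fin n)) : sg a w = sgHom a w := rfl

theorem sg_of_self (a : Fin n) : sg a (FreeGroup.of a) = (FreeGroup.of a)⁻¹ := by
  rw [sg_apply]
  simp [sgHom]

theorem sg_of_ne {a x : Fin n} (h : x ≠ a) : sg a (FreeGroup.of x) = FreeGroup.of x := by
  rw [sg_apply]
  simp [sgHom, h]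

theorem sg_mul_self (a : Fin n) : sg a * sg a = 1 := by
  ext w
  exact sgHom_sgHom a w

theorem sg_inv (a : Fin n) : (sg a)⁻¹ = sg a := by
  rw [inv_eq_iff_mul_eq_one, sg_mul_self]

/-- the group of the automorphisms moving only the letter `c` -/
def Mv (c : Fin n) : Subgroup (MulAut (FreeGroup (Fin n))) :=
  Subgroup.closure (Set.range (L c) ∪ Set.range (R c) ∪ {sg c})

/-- the group generated by the moves of the letters of `Y` -/
def MvS (Y : Finset (Fin n)) : Subgroup (MulAut (FreeGroup (Fin n))) :=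
  Subgroup.closure {φ | ∃ y ∈ Y, φ ∈ Mv y}

/-- the moves of the letter `c` by words in the letters of `S` -/
def MvIn (S : Finset (Fin n)) (c : Fin n) : Set (MulAut (FreeGroup (Fin n))) :=
  {φ | ∃ u ∈ fsub S, ∃ v ∈ fsub S, φ = L c u * R c v ∨ φ = L c u * R c v * sg c}

section Tuple

variable {G : Type*} [Group G]

/-- the value of a word -/
def ev (g : Fin n → G) : FreeGroup (Fin n) →* G := FreeGroup.lift g

theorem ev_of (g : Fin n → G) (x : Fin n) : ev g (FreeGroup.of x) = g x := by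
  simp [ev]

/-- the stabiliser of the homomorphism `ev g` -/
def Gam (g : Fin n → G) : Subgroup (MulAut (FreeGroup (Fin n))) where
  carrier := {φ | ∀ w, ev g (φ w) = ev g w}
  one_mem' := fun w => rfl
  mul_mem' := by
    intro a b ha hb w
    rw [MulAut.mul_apply, ha, hb]
  inv_mem' := by
    intro a ha w
    have h := ha (a⁻¹ w)
    rw [← MulAut.mul_apply, mul_inv_cancel] at h
    exact h.symm

theorem mem_Gam {g : Fin n → G} {φ : MulAut (FreeGroup (Fin n))} :
    φ ∈ Gam g ↔ ∀ w, ev g (φ w) = ev g w := Iff.rfl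

/-- the action on tuples -/
def act (φ : MulAut (FreeGroup (Fin n))) (g : Fin n → G) : Fin n → G :=
  fun x => ev g (φ⁻¹ (FreeGroup.of x))

theorem ev_act (φ : MulAut (FreeGroup (Fin n))) (g : Fin n → G) (w : FreeGroup (Fin n)) :
    ev (act φ g) w = ev g (φ⁻¹ w) := by
  have h : ev (act φ g) = (ev g).comp (φ⁻¹ : MulAut (FreeGroup (Fin n))).toMonoidHom := by
    ext x
    rw [ev_of]
    rfl
  exact DFunLike.congr_fun h w

theorem act_one (g : Fin n → G) : act 1 g = g := by
  funext x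
  show ev g ((1 : MulAut (FreeGroup (Fin n)))⁻¹ (FreeGroup.of x)) = g x
  rw [inv_one, MulAut.one_apply, ev_of]

theorem act_mul (φ ψ : MulAut (FreeGroup (Fin n))) (g : Fin n → G) :
    act (φ * ψ) g = act φ (act ψ g) := by
  funext x
  show ev g ((φ * ψ)⁻¹ (FreeGroup.of x)) = ev (act ψ g) (φ⁻¹ (FreeGroup.of x))
  rw [ev_act, mul_inv_rev, MulAut.mul_apply]

theorem act_inv_act (φ : MulAut (FreeGroup (Fin n))) (g : Fin n → G) :
    act φ⁻¹ (act φ g) = g := by
  rw [← act_mul, inv_mul_cancel, act_one]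

theorem mem_Gam_iff {g : Fin n → G} {φ : MulAut (FreeGroup (Fin n))} :
    φ ∈ Gam g ↔ act φ g = g := by
  constructor
  · intro h
    funext x
    have h1 := (Gam g).inv_mem h (FreeGroup.of x)
    rw [ev_of] at h1
    exact h1
  · intro h
    have h1 : φ⁻¹ ∈ Gam g := by
      intro w
      rw [← ev_act, h]
    have h2 := (Gam g).inv_mem h1
    rwa [inv_inv] at h2

theorem Gam_conj {g : Fin n → G} {φ : MulAut (FreeGroup (Fin n))} (hφ : φ ∈ Gam g)
    (ψ : MulAut (FreeGroup (Fin n))) : ψ * φ * ψ⁻¹ ∈ Gam (act ψ g) := by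
  rw [mem_Gam_iff, act_mul, act_mul, act_inv_act, (mem_Gam_iff).1 hφ]

/-- the group generated by the one-letter moves preserving the values -/
def NN (g : Fin n → G) : Subgroup (MulAut (FreeGroup (Fin n))) :=
  Subgroup.closure {φ | φ ∈ Gam g ∧ ∃ c, φ ∈ Mv c}

theorem NN_le (g : Fin n → G) : NN g ≤ Gam g := by
  unfold NN
  rw [Subgroup.closure_le]
  exact fun φ hφ => hφ.1

end Tuple

/-! ### the image -/

section Image

variable {G : Type*} [Group G] (g : Fin n → G) (I : Finset (Fin n)) {T : Type*} [Group T]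
  (f : Gam g →* T)

open Classical in
/-- the value of `f` (and `1` outside `Gam g`) -/
noncomputable def fe (φ : MulAut (FreeGroup (Fin n))) : T :=
  if h : φ ∈ Gam g then f ⟨φ, h⟩ else 1

theorem fe_of_mem {φ : MulAut (FreeGroup (Fin n))} (h : φ ∈ Gam g) : fe g f φ = f ⟨φ, h⟩ :=
  dif_pos h

theorem fe_mul {φ ψ : MulAut (FreeGroup (Fin n))} (h : φ ∈ Gam g) (h' : ψ ∈ Gam g) :
    fe g f (φ * ψ) = fe g f φ * fe g f ψ := by
  rw [fe_of_mem g f h, fe_of_mem g f h', fe_of_mem g f ((Gam g).mul_mem h h'), ← map_mul]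
  rfl

theorem fe_inv {φ : MulAut (FreeGroup (Fin n))} (h : φ ∈ Gam g) :
    fe g f φ⁻¹ = (fe g f φ)⁻¹ := by
  rw [fe_of_mem g f h, fe_of_mem g f ((Gam g).inv_mem h), ← map_inv]
  rfl

theorem fe_one : fe g f 1 = 1 := by
  rw [fe_of_mem g f (Gam g).one_mem]
  exact map_one f

/-- words without the letter `a` and trivial modulo the letters of `I` -/
def UU (a : Fin n) : Subgroup (FreeGroup (Fin n)) where
  carrier := {u | ret Iᶜ u = 1 ∧ kill a u = u}
  one_mem' := ⟨map_one _, map_one _⟩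
  mul_mem' := by
    rintro x y ⟨h1, h2⟩ ⟨h3, h4⟩
    exact ⟨by rw [map_mul, h1, h3, one_mul], by rw [map_mul, h2, h4]⟩
  inv_mem' := by
    rintro x ⟨h1, h2⟩
    exact ⟨by rw [map_inv, h1, inv_one], by rw [map_inv, h2]⟩

/-- the hypotheses on the image -/
structure Hyp : Prop where
  one : ∀ i ∈ I, g i = 1
  S2 : ∀ a, ∀ u ∈ UU I a, ∀ u' ∈ UU I a, Commute (fe g f (R a u)) (fe g f (R a u'))
  A : ∀ i ∈ I, {x | ∃ u ∈ UU I i, x = fe g f (R i u)}.Finite
  B : ∀ i ∈ I, {x | ∃ k ∈ fsub Iᶜ, ev g k = 1 ∧ x = fe g f (R i k)}.Finite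
  O : ∀ j, j ∉ I → ∀ i ∈ I, IsOfFinOrder (fe g f (R j (FreeGroup.of i)))

/-- the image of the moves of the letter `c` -/
def VV (c : Fin n) : Subgroup T :=
  Subgroup.closure {x | ∃ φ, φ ∈ Mv c ∧ φ ∈ Gam g ∧ x = fe g f φ}

/-- the word `v x_c v⁻¹` -/
def qq (c : Fin n) (v : FreeGroup (Fin n)) : FreeGroup (Fin n) := v * FreeGroup.of c * v⁻¹

/-- the elements `Y_j (v)` (with the auxiliary letter `e`) -/
noncomputable def yy (c e j : Fin n) (v : FreeGroup (Fin n)) : T :=
  (fe g f (R e (qq c v)))⁻¹ * (fe g f (R j (FreeGroup.of e)))⁻¹ * fe g f (R e (qq c v)) *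
    fe g f (R j (FreeGroup.of e))

/-- the generators of `WW` -/
def WWs (c : Fin n) : Set T :=
  {x | (∃ i ∈ I, i ≠ c ∧ ∃ v ∈ fsub Iᶜ, x = fe g f (R i (qq c v)) ∨ x = fe g f (L i (qq c v))) ∨
    (∃ j, j ∉ I ∧ ∃ e ∈ I, e ≠ c ∧ ∃ v ∈ fsub Iᶜ, x = yy g f c e j v)}

/-- the column group -/
def WW (c : Fin n) : Subgroup T := Subgroup.closure (WWs g I f c)

/-- the group generated by the moves of the letters of `I ∩ S` by words in `S` and by the
`R j x_i`, `j ∉ I`, `i ∈ I ∩ S` -/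
def HH (S : Finset (Fin n)) : Subgroup T :=
  Subgroup.closure ({x | ∃ i ∈ I, i ∈ S ∧ ∃ φ ∈ MvIn S i, φ ∈ Gam g ∧ x = fe g f φ} ∪
    {x | ∃ j, j ∉ I ∧ ∃ i ∈ I, i ∈ S ∧ x = fe g f (R j (FreeGroup.of i))})

end Image

end RED
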