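import Mathlib
import Pool.Agent.RED.Defs

/-!
# The moves `R a u` and `L a u` with `u` trivial modulo the letters of `I`

`S2L`, `R_cong`, `L_cong`: the values only depend on conjugators modulo the letters of `I`.
`LU`, `LU2`: the values lie in the groups generated by the values at the words `v x_i v⁻¹`.
-/

set_option autoImplicit false

namespace RED

open AFn IAQ

/-! ### words -/

theorem lu_span {α : Type*} [DecidableEq α] (K r : FreeGroup α →* FreeGroup α)
    (V N : Subgroup (FreeGroup α)) (S : Finset α) (hr : ∀ w, r w ∈ V)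
    (hx : ∀ x ∈ S, ∀ v ∈ V, v * K (FreeGroup.of x) * (r (FreeGroup.of x))⁻¹ * v⁻¹ ∈ N)
    {w : FreeGroup α} (hw : w ∈ fsub S) : ∀ v ∈ V, v * K w * (r w)⁻¹ * v⁻¹ ∈ N := by
  unfold fsub at hw
  induction hw using Subgroup.closure_induction with
  | mem x hx' =>
    obtain ⟨y, hy, rfl⟩ := hx'
    exact hx y (Finset.mem_coe.1 hy)
  | one =>
    intro v _
    rw [map_one, map_one, inv_one, mul_one, mul_one, mul_inv_cancel]
    exact N.one_mem
  | mul x y _ _ ihx ihy =>
    intro v hv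
    have h1 := ihx v hv
    have h2 := ihy (v * r x) (V.mul_mem hv (hr x))
    have h3 := N.mul_mem h1 h2
    have e : v * K x * (r x)⁻¹ * v⁻¹ * (v * r x * K y * (r y)⁻¹ * (v * r x)⁻¹) =
        v * K (x * y) * (r (x * y))⁻¹ * v⁻¹ := by
      rw [map_mul, map_mul]
      group
    rwa [e] at h3
  | inv x _ ih =>
    intro v hv
    have h1 := N.inv_mem (ih (v * (r x)⁻¹) (V.mul_mem hv (V.inv_mem (hr x))))
    have e : (v * (r x)⁻¹ * K x * (r x)⁻¹ * (v * (r x)⁻¹)⁻¹)⁻¹ =
        v * K x⁻¹ * (r x⁻¹)⁻¹ * v⁻¹ := by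
      rw [map_inv, map_inv]
      group
    rwa [e] at h1

theorem lu_ret_of {α : Type*} [DecidableEq α] (S : Finset α) (x : α) :
    ret S (FreeGroup.of x) = if x ∈ S then FreeGroup.of x else 1 := by
  simp [ret]

theorem lu_ret_kill {n : ℕ} {I : Finset (Fin n)} {a : Fin n} (ha : a ∈ I)
    (w : FreeGroup (Fin n)) : ret Iᶜ (kill a w) = ret Iᶜ w := by
  have h : (ret Iᶜ).comp (kill a) = ret Iᶜ := by
    ext x
    rw [MonoidHom.comp_apply, kill_of]
    by_cases hx : x = a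
    · subst hx
      rw [if_pos rfl, map_one, lu_ret_of, if_neg (by simpa using ha)]
    · rw [if_neg hx]
  exact DFunLike.congr_fun h w

theorem lu_ret_ret {α : Type*} [DecidableEq α] (S : Finset α) (w : FreeGroup α) :
    ret S (ret S w) = ret S w := ret_eq (ret_mem S w)

theorem lu_kill_ret {n : ℕ} {I : Finset (Fin n)} {a : Fin n} (ha : a ∈ I)
    (w : FreeGroup (Fin n)) : kill a (ret Iᶜ w) = ret Iᶜ w :=
  kill_eq (ret_mem Iᶜ w) (by simpa using ha)

/-- a subgroup containing the `v x_i v⁻¹`, `i ∈ I ∩ S`, `v` without letters of `I`, contains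
the words of `UU` in the letters of `S` -/
theorem lu_word {n : ℕ} {I : Finset (Fin n)} {a : Fin n} (ha : a ∈ I)
    (N : Subgroup (FreeGroup (Fin n))) (S : Finset (Fin n))
    (hN : ∀ i ∈ I, i ∈ S → i ≠ a → ∀ v ∈ fsub Iᶜ, qq i v ∈ N)
    {u : FreeGroup (Fin n)} (hu : u ∈ UU I a) (huS : u ∈ fsub S) : u ∈ N := by
  have h := lu_span (kill a) (ret Iᶜ) (fsub Iᶜ) N S (fun w => ret_mem Iᶜ w) (fun x hx v hv => by
    rw [kill_of, lu_ret_of]
    by_cases hxa : x = a
    · subst hxa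
      rw [if_pos rfl, if_neg (by simpa using ha), inv_one, mul_one, mul_one, mul_inv_cancel]
      exact N.one_mem
    · rw [if_neg hxa]
      by_cases hxI : x ∈ I
      · rw [if_neg (by simpa using hxI), inv_one, mul_one]
        exact hN x hxI hx hxa v hv
      · rw [if_pos (by simpa using hxI), mul_inv_cancel_right, mul_inv_cancel]
        exact N.one_mem) huS 1 (fsub Iᶜ).one_mem
  rw [hu.1, hu.2, inv_one, mul_one, one_mul, mul_one] at h
  exact h

/-- a subgroup containing the `v x_d v⁻¹`, `v` without `a`, contains the words without `a` that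
are trivial when `d` is killed -/
theorem lu_word2 {n : ℕ} {a d : Fin n} (had : a ≠ d) (N : Subgroup (FreeGroup (Fin n)))
    (hN : ∀ v, kill a v = v → qq d v ∈ N)
    {u : FreeGroup (Fin n)} (hu : kill a u = u) (hud : kill d u = 1) : u ∈ N := by
  have huS : u ∈ fsub (Finset.univ : Finset (Fin n)) := by
    have h : ret (Finset.univ : Finset (Fin n)) = MonoidHom.id _ := by
      ext x
      rw [lu_ret_of, if_pos (Finset.mem_univ x)]
      rfl
    have h2 := ret_mem (Finset.univ : Finset (Fin n)) u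
    rw [h] at h2
    exact h2
  have h := lu_span (kill a) ((kill d).comp (kill a))
    ((kill a).eqLocus (MonoidHom.id (FreeGroup (Fin n)))) N Finset.univ
    (fun w => by
      show kill a (kill d (kill a w)) = kill d (kill a w)
      rw [kill_comm, kill_kill])
    (fun x _ v hv => by
      have hv' : kill a v = v := hv
      rw [MonoidHom.comp_apply]
      by_cases hxa : x = a
      · subst hxa
        rw [kill_of_self, map_one, inv_one, mul_one, mul_one, mul_inv_cancel]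
        exact N.one_mem
      · rw [kill_of_ne hxa]
        by_cases hxd : x = d
        · subst hxd
          rw [kill_of_self, inv_one, mul_one]
          exact hN v hv'
        · rw [kill_of_ne hxd, mul_inv_cancel_right, mul_inv_cancel]
          exact N.one_mem) huS 1 (Subgroup.one_mem _)
  rw [MonoidHom.comp_apply, hu, hud, inv_one, mul_one, one_mul, mul_one] at h
  exact h

/-! ### the stabiliser -/

section Stab

variable {n : ℕ} {G : Type*} [Group G]

theorem lu_R_mem (g : Fin n → G) {a : Fin n} {w : FreeGroup (Fin n)}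
    (h : ev g (kill a w) = 1) : R a w ∈ Gam g := by
  have h1 : (ev g).comp (R a w : MulAut (FreeGroup (Fin n))).toMonoidHom = ev g := by
    ext x
    show ev g (R a w (FreeGroup.of x)) = ev g (FreeGroup.of x)
    rw [R_of]
    by_cases hx : x = a
    · rw [if_pos hx, map_mul, h, mul_one]
    · rw [if_neg hx]
  exact fun v => DFunLike.congr_fun h1 v

theorem lu_L_mem (g : Fin n → G) {a : Fin n} {w : FreeGroup (Fin n)}
    (h : ev g (kill a w) = 1) : L a w ∈ Gam g := by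
  have h1 : (ev g).comp (L a w : MulAut (FreeGroup (Fin n))).toMonoidHom = ev g := by
    ext x
    show ev g (L a w (FreeGroup.of x)) = ev g (FreeGroup.of x)
    rw [L_of]
    by_cases hx : x = a
    · rw [if_pos hx, map_mul, map_inv, h, inv_one, one_mul]
    · rw [if_neg hx]
  exact fun v => DFunLike.congr_fun h1 v

theorem lu_sg_mem (g : Fin n → G) {a : Fin n} (h : g a = 1) : sg a ∈ Gam g := by
  have h1 : (ev g).comp (sg a : MulAut (FreeGroup (Fin n))).toMonoidHom = ev g := by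
    ext x
    show ev g (sg a (FreeGroup.of x)) = ev g (FreeGroup.of x)
    by_cases hx : x = a
    · subst hx
      rw [sg_of_self, map_inv, ev_of, h, inv_one]
    · rw [sg_of_ne hx]
  exact fun v => DFunLike.congr_fun h1 v

theorem lu_ev_ret {g : Fin n → G} {I : Finset (Fin n)} (h1 : ∀ i ∈ I, g i = 1)
    (w : FreeGroup (Fin n)) : ev g (ret Iᶜ w) = ev g w := by
  have h : (ev g).comp (ret Iᶜ) = ev g := by
    ext x
    rw [MonoidHom.comp_apply, lu_ret_of]
    by_cases hx : x ∈ I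
    · rw [if_neg (by simpa using hx), map_one, ev_of, h1 x hx]
    · rw [if_pos (by simpa using hx)]
  exact DFunLike.congr_fun h w

theorem lu_ev_UU {g : Fin n → G} {I : Finset (Fin n)} (h1 : ∀ i ∈ I, g i = 1) {a : Fin n}
    {u : FreeGroup (Fin n)} (hu : u ∈ UU I a) : ev g u = 1 := by
  rw [← lu_ev_ret h1, hu.1, map_one]

theorem lu_sg_kill (a : Fin n) (w : FreeGroup (Fin n)) : sg a (kill a w) = kill a w := by
  have h : (sg a : MulAut (FreeGroup (Fin n))).toMonoidHom.comp (kill a) = kill a := by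
    ext x
    show sg a (kill a (FreeGroup.of x)) = kill a (FreeGroup.of x)
    rw [kill_of]
    by_cases hx : x = a
    · rw [if_pos hx, map_one]
    · rw [if_neg hx, sg_of_ne hx]
  exact DFunLike.congr_fun h w

theorem lu_sg_conj_R (a : Fin n) (w : FreeGroup (Fin n)) : sg a * R a w * sg a = L a w := by
  apply IAQ.aut_ext
  intro x
  rw [MulAut.mul_apply, MulAut.mul_apply]
  by_cases hx : x = a
  · subst hx
    rw [sg_of_self, map_inv, R_of_self, map_inv, map_mul, sg_of_self, lu_sg_kill, L_of_self,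
      mul_inv_rev, inv_inv]
  · rw [sg_of_ne hx, R_of_ne hx, sg_of_ne hx, L_of_ne hx]

end Stab

/-! ### the image -/

section Image

variable {n : ℕ} {G : Type*} [Group G] (g : Fin n → G) (I : Finset (Fin n)) {T : Type*}
  [Group T] (f : Gam g →* T)

theorem lu_R_UU (h : Hyp g I f) {a : Fin n} {u : FreeGroup (Fin n)} (hu : u ∈ UU I a) :
    R a u ∈ Gam g := lu_R_mem g (by rw [hu.2]; exact lu_ev_UU h.one hu)

theorem lu_L_UU (h : Hyp g I f) {a : Fin n} {u : FreeGroup (Fin n)} (hu : u ∈ UU I a) :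
    L a u ∈ Gam g := lu_L_mem g (by rw [hu.2]; exact lu_ev_UU h.one hu)

theorem lu_fe_L (h : Hyp g I f) {a : Fin n} (ha : a ∈ I) {u : FreeGroup (Fin n)}
    (hu : u ∈ UU I a) :
    fe g f (L a u) = fe g f (sg a) * fe g f (R a u) * fe g f (sg a) := by
  have h1 : sg a ∈ Gam g := lu_sg_mem g (h.one a ha)
  have h2 := lu_R_UU g I f h hu
  rw [← lu_sg_conj_R, fe_mul g f ((Gam g).mul_mem h1 h2) h1, fe_mul g f h1 h2]

theorem lu_fe_sg (h : Hyp g I f) {a : Fin n} (ha : a ∈ I) :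
    fe g f (sg a) * fe g f (sg a) = 1 := by
  have h1 : sg a ∈ Gam g := lu_sg_mem g (h.one a ha)
  rw [← fe_mul g f h1 h1, sg_mul_self, fe_one]

theorem S2L (h : Hyp g I f) {a : Fin n} (ha : a ∈ I) :
    ∀ u ∈ UU I a, ∀ u' ∈ UU I a, Commute (fe g f (L a u)) (fe g f (L a u')) := by
  intro u hu u' hu'
  have hc := (h.S2 a u hu u' hu').eq
  have hs := lu_fe_sg g I f h ha
  show fe g f (L a u) * fe g f (L a u') = fe g f (L a u') * fe g f (L a u)
  rw [lu_fe_L g I f h ha hu, lu_fe_L g I f h ha hu']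
  have e : ∀ x y s : T, s * s = 1 → s * x * s * (s * y * s) = s * (x * y) * s := by
    intro x y s hs
    calc s * x * s * (s * y * s) = s * x * (s * s) * y * s := by group
      _ = s * (x * y) * s := by rw [hs]; group
  rw [e _ _ _ hs, e _ _ _ hs, hc]

theorem lu_R_mul (h : Hyp g I f) {a : Fin n} {u u' : FreeGroup (Fin n)} (hu : u ∈ UU I a)
    (hu' : u' ∈ UU I a) : fe g f (R a (u * u')) = fe g f (R a u) * fe g f (R a u') := by
  rw [map_mul, fe_mul g f (lu_R_UU g I f h hu) (lu_R_UU g I f h hu')]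

theorem lu_L_mul (h : Hyp g I f) {a : Fin n} {u u' : FreeGroup (Fin n)} (hu : u ∈ UU I a)
    (hu' : u' ∈ UU I a) : fe g f (L a (u * u')) = fe g f (L a u) * fe g f (L a u') := by
  rw [map_mul, fe_mul g f (lu_L_UU g I f h hu) (lu_L_UU g I f h hu')]

theorem lu_R_inv (h : Hyp g I f) {a : Fin n} {u : FreeGroup (Fin n)} (hu : u ∈ UU I a) :
    fe g f (R a u⁻¹) = (fe g f (R a u))⁻¹ := by
  rw [map_inv, fe_inv g f (lu_R_UU g I f h hu)]

theorem lu_L_inv (h : Hyp g I f) {a : Fin n} {u : FreeGroup (Fin n)} (hu : u ∈ UU I a) :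
    fe g f (L a u⁻¹) = (fe g f (L a u))⁻¹ := by
  rw [map_inv, fe_inv g f (lu_L_UU g I f h hu)]

variable {I} in
theorem lu_conj_UU {a : Fin n} {w u : FreeGroup (Fin n)} (hw : kill a w = w)
    (hu : u ∈ UU I a) : w * u * w⁻¹ ∈ UU I a := by
  refine ⟨?_, ?_⟩
  · rw [map_mul, map_mul, hu.1, mul_one, map_inv, mul_inv_cancel]
  · rw [map_mul, map_mul, map_inv, hu.2, hw]

variable {I} in
theorem lu_quot_UU {a : Fin n} {w w' : FreeGroup (Fin n)} (hw : kill a w = w)
    (hw' : kill a w' = w') (hww : ret Iᶜ w = ret Iᶜ w') : w * w'⁻¹ ∈ UU I a := by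
  refine ⟨?_, ?_⟩
  · rw [map_mul, map_inv, hww, mul_inv_cancel]
  · rw [map_mul, map_inv, hw, hw']

/-- `R a (w u w⁻¹)` only depends on `w` modulo the letters of `I` -/
theorem R_cong (h : Hyp g I f) {a : Fin n} {w w' u : FreeGroup (Fin n)} (hw : kill a w = w)
    (hw' : kill a w' = w') (hww : ret Iᶜ w = ret Iᶜ w') (hu : u ∈ UU I a) :
    fe g f (R a (w * u * w⁻¹)) = fe g f (R a (w' * u * w'⁻¹)) := by
  have ht : w * w'⁻¹ ∈ UU I a := lu_quot_UU hw hw' hww
  have hx : w' * u * w'⁻¹ ∈ UU I a := lu_conj_UU hw' hu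
  have e : w * u * w⁻¹ = w * w'⁻¹ * (w' * u * w'⁻¹) * (w * w'⁻¹)⁻¹ := by group
  rw [e, lu_R_mul g I f h ((UU I a).mul_mem ht hx) ((UU I a).inv_mem ht),
    lu_R_mul g I f h ht hx, lu_R_inv g I f h ht, (h.S2 a _ ht _ hx).eq, mul_inv_cancel_right]

theorem L_cong (h : Hyp g I f) {a : Fin n} (ha : a ∈ I) {w w' u : FreeGroup (Fin n)}
    (hw : kill a w = w) (hw' : kill a w' = w') (hww : ret Iᶜ w = ret Iᶜ w')
    (hu : u ∈ UU I a) :
    fe g f (L a (w * u * w⁻¹)) = fe g f (L a (w' * u * w'⁻¹)) := by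
  have ht : w * w'⁻¹ ∈ UU I a := lu_quot_UU hw hw' hww
  have hx : w' * u * w'⁻¹ ∈ UU I a := lu_conj_UU hw' hu
  have e : w * u * w⁻¹ = w * w'⁻¹ * (w' * u * w'⁻¹) * (w * w'⁻¹)⁻¹ := by group
  rw [e, lu_L_mul g I f h ((UU I a).mul_mem ht hx) ((UU I a).inv_mem ht),
    lu_L_mul g I f h ht hx, lu_L_inv g I f h ht, (S2L g I f h ha _ ht _ hx).eq,
    mul_inv_cancel_right]

/-- the words of `UU` with values of `R` and `L` in given groups -/
def luN (h : Hyp g I f) (a : Fin n) (K K' : Subgroup T) : Subgroup (FreeGroup (Fin n)) where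
  carrier := {u | u ∈ UU I a ∧ fe g f (R a u) ∈ K ∧ fe g f (L a u) ∈ K'}
  one_mem' := by
    refine ⟨(UU I a).one_mem, ?_, ?_⟩
    · rw [map_one, fe_one]; exact K.one_mem
    · rw [map_one, fe_one]; exact K'.one_mem
  mul_mem' := by
    rintro x y ⟨h1, h2, h3⟩ ⟨h4, h5, h6⟩
    refine ⟨(UU I a).mul_mem h1 h4, ?_, ?_⟩
    · rw [lu_R_mul g I f h h1 h4]; exact K.mul_mem h2 h5
    · rw [lu_L_mul g I f h h1 h4]; exact K'.mul_mem h3 h6
  inv_mem' := by
    rintro x ⟨h1, h2, h3⟩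
    refine ⟨(UU I a).inv_mem h1, ?_, ?_⟩
    · rw [lu_R_inv g I f h h1]; exact K.inv_mem h2
    · rw [lu_L_inv g I f h h1]; exact K'.inv_mem h3

variable {I} in
theorem lu_of_UU {a d : Fin n} (hd : d ∈ I) (hda : d ≠ a) : FreeGroup.of d ∈ UU I a := by
  refine ⟨?_, kill_of_ne hda⟩
  rw [lu_ret_of, if_neg (by simpa using hd)]

theorem LU (h : Hyp g I f) {a : Fin n} (ha : a ∈ I) (S : Finset (Fin n))
    {u : FreeGroup (Fin n)} (hu : u ∈ UU I a) (huS : u ∈ fsub S) :
    fe g f (R a u) ∈ Subgroup.closure {x | ∃ i ∈ I, i ∈ S ∧ i ≠ a ∧ ∃ v ∈ fsub Iᶜ,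
      x = fe g f (R a (qq i v))} ∧
    fe g f (L a u) ∈ Subgroup.closure {x | ∃ i ∈ I, i ∈ S ∧ i ≠ a ∧ ∃ v ∈ fsub Iᶜ,
      x = fe g f (L a (qq i v))} := by
  have key := lu_word ha (luN g I f h a (Subgroup.closure {x | ∃ i ∈ I, i ∈ S ∧ i ≠ a ∧
    ∃ v ∈ fsub Iᶜ, x = fe g f (R a (qq i v))}) (Subgroup.closure {x | ∃ i ∈ I, i ∈ S ∧ i ≠ a ∧
    ∃ v ∈ fsub Iᶜ, x = fe g f (L a (qq i v))})) S (fun i hi hiS hia v hv => by
      refine ⟨lu_conj_UU (kill_eq hv (by simpa using ha)) (lu_of_UU hi hia), ?_, ?_⟩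
      · exact Subgroup.subset_closure ⟨i, hi, hiS, hia, v, hv, rfl⟩
      · exact Subgroup.subset_closure ⟨i, hi, hiS, hia, v, hv, rfl⟩) hu huS
  exact ⟨key.2.1, key.2.2⟩

theorem LU2 (h : Hyp g I f) {a d : Fin n} (ha : a ∈ I) (hd : d ∈ I) (had : a ≠ d)
    {u : FreeGroup (Fin n)} (hu : kill a u = u) (hud : kill d u = 1) :
    fe g f (R a u) ∈ Subgroup.closure {x | ∃ v ∈ fsub Iᶜ, x = fe g f (R a (qq d v))} ∧
    fe g f (L a u) ∈ Subgroup.closure {x | ∃ v ∈ fsub Iᶜ, x = fe g f (L a (qq d v))} := by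
  have key := lu_word2 had (luN g I f h a
    (Subgroup.closure {x | ∃ v ∈ fsub Iᶜ, x = fe g f (R a (qq d v))})
    (Subgroup.closure {x | ∃ v ∈ fsub Iᶜ, x = fe g f (L a (qq d v))})) (fun v hv => by
      have hdU : FreeGroup.of d ∈ UU I a := lu_of_UU hd had.symm
      refine ⟨lu_conj_UU hv hdU, ?_, ?_⟩
      · exact Subgroup.subset_closure ⟨ret Iᶜ v, ret_mem Iᶜ v,
          R_cong g I f h hv (lu_kill_ret ha v) (lu_ret_ret Iᶜ v).symm hdU⟩
      · exact Subgroup.subset_closure ⟨ret Iᶜ v, ret_mem Iᶜ v,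
          L_cong g I f h ha hv (lu_kill_ret ha v) (lu_ret_ret Iᶜ v).symm hdU⟩) hu hud
  exact ⟨key.2.1, key.2.2⟩

end Image

end RED
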