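import Mathlib
import Pool.Agent.RED.Defs

/-!
# One-letter moves

`Mv c` consists of the `L c u * R c v` and the `L c u * R c v * sg c`; conjugation of moves,
and membership in the stabiliser.
-/

set_option autoImplicit false

namespace RED

open AFn IAQ

variable {n : ℕ}

/-! ### `Pres` -/

theorem pres_iff_comm {a : Fin n} {φ : MulAut (FreeGroup (Fin n))} :
    Pres a φ ↔ φ (FreeGroup.of a) = FreeGroup.of a ∧ ∀ g, kill a (φ g) = φ (kill a g) := by
  constructor
  · rintro ⟨h1, h2⟩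
    refine ⟨h1, fun g => ?_⟩
    have h : (kill a).comp φ.toMonoidHom = (φ.toMonoidHom).comp (kill a) := by
      ext x
      simp only [MonoidHom.comp_apply, MulEquiv.coe_toMonoidHom]
      by_cases hx : x = a
      · subst hx
        rw [h1, kill_of_self, map_one]
      · have h3 := h2 (FreeGroup.of x)
        rw [kill_of_ne hx] at h3 ⊢
        exact h3
    exact DFunLike.congr_fun h g
  · rintro ⟨h1, h2⟩
    exact ⟨h1, fun g => by rw [h2, kill_kill]⟩

theorem Pres.kill_apply {a : Fin n} {φ : MulAut (FreeGroup (Fin n))} (h : Pres a φ)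
    (g : FreeGroup (Fin n)) : kill a (φ g) = φ (kill a g) := (pres_iff_comm.1 h).2 g

/-- a word without `a` is mapped to a word without `a` -/
theorem Pres.killed {a : Fin n} {φ : MulAut (FreeGroup (Fin n))} (h : Pres a φ)
    {g : FreeGroup (Fin n)} (hg : kill a g = g) : kill a (φ g) = φ g := by
  rw [Pres.kill_apply h, hg]

theorem Pres_one (a : Fin n) : Pres a (1 : MulAut (FreeGroup (Fin n))) :=
  ⟨rfl, fun g => kill_kill a g⟩

theorem Pres_mul {a : Fin n} {φ ψ : MulAut (FreeGroup (Fin n))} (h : Pres a φ)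
    (h' : Pres a ψ) : Pres a (φ * ψ) := by
  rw [pres_iff_comm] at h h' ⊢
  refine ⟨?_, fun g => ?_⟩
  · rw [MulAut.mul_apply, h'.1, h.1]
  · rw [MulAut.mul_apply, MulAut.mul_apply, h.2, h'.2]

theorem Pres_inv {a : Fin n} {φ : MulAut (FreeGroup (Fin n))} (h : Pres a φ) :
    Pres a φ⁻¹ := by
  rw [pres_iff_comm] at h ⊢
  refine ⟨?_, fun g => ?_⟩
  · apply φ.injective
    rw [← MulAut.mul_apply, mul_inv_cancel, MulAut.one_apply, h.1]
  · apply φ.injective
    rw [← h.2, ← MulAut.mul_apply, ← MulAut.mul_apply, mul_inv_cancel, MulAut.one_apply,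
      MulAut.one_apply]

theorem pres_sg {a b : Fin n} (hab : a ≠ b) : Pres a (sg b) := by
  refine pres_of (sg_of_ne hab) fun x hx => ?_
  by_cases h : x = b
  · subst h
    rw [sg_of_self, map_inv, kill_of_ne hx]
  · rw [sg_of_ne h, kill_of_ne hx]

/-! ### sign changes -/

theorem sg_kill (a : Fin n) (w : FreeGroup (Fin n)) : sg a (kill a w) = kill a w := by
  have h : (sg a).toMonoidHom.comp (kill a) = kill a := by
    ext x
    simp only [MonoidHom.comp_apply, MulEquiv.coe_toMonoidHom]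
    by_cases hx : x = a
    · subst hx; rw [kill_of_self, map_one]
    · rw [kill_of_ne hx, sg_of_ne hx]
  exact DFunLike.congr_fun h w

theorem sg_fixed {a : Fin n} {w : FreeGroup (Fin n)} (h : kill a w = w) : sg a w = w := by
  rw [← h, sg_kill]

theorem sg_R (a : Fin n) (w : FreeGroup (Fin n)) : sg a * R a w = L a w * sg a := by
  apply aut_ext
  intro x
  rw [MulAut.mul_apply, MulAut.mul_apply]
  by_cases hx : x = a
  · subst hx
    rw [R_of_self, map_mul, sg_of_self, sg_kill, map_inv, L_of_self, mul_inv_rev, inv_inv]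
  · rw [R_of_ne hx, sg_of_ne hx, L_of_ne hx]

theorem sg_L (a : Fin n) (w : FreeGroup (Fin n)) : sg a * L a w = R a w * sg a := by
  have h := sg_R a w
  calc sg a * L a w = sg a * (L a w * sg a) * sg a := by
        rw [mul_assoc, mul_assoc, sg_mul_self, mul_one]
    _ = sg a * (sg a * R a w) * sg a := by rw [h]
    _ = R a w * sg a := by rw [← mul_assoc, sg_mul_self, one_mul]

theorem sg_conj_R (a : Fin n) (w : FreeGroup (Fin n)) : sg a * R a w * sg a = L a w := by
  rw [sg_R, mul_assoc, sg_mul_self, mul_one]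

theorem sg_conj_L (a : Fin n) (w : FreeGroup (Fin n)) : sg a * L a w * sg a = R a w := by
  rw [sg_L, mul_assoc, sg_mul_self, mul_one]

theorem R_sg (a : Fin n) (w : FreeGroup (Fin n)) : R a w * sg a = sg a * L a w :=
  (sg_L a w).symm

theorem L_sg (a : Fin n) (w : FreeGroup (Fin n)) : L a w * sg a = sg a * R a w :=
  (sg_R a w).symm

theorem Pres.conj_sg {a : Fin n} {φ : MulAut (FreeGroup (Fin n))} (h : Pres a φ) :
    φ * sg a * φ⁻¹ = sg a := by
  rw [mul_inv_eq_iff_eq_mul]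
  apply aut_ext
  intro x
  rw [MulAut.mul_apply, MulAut.mul_apply]
  by_cases hx : x = a
  · subst hx
    rw [sg_of_self, map_inv, h.1, sg_of_self]
  · rw [sg_of_ne hx]
    have h3 : FreeGroup.of x = kill a (FreeGroup.of x) := by rw [kill_of_ne hx]
    rw [h3, ← h.2, sg_kill]

/-! ### the group `Mv c` -/

theorem L_mem_Mv (c : Fin n) (u : FreeGroup (Fin n)) : L c u ∈ Mv c :=
  Subgroup.subset_closure (Or.inl (Or.inl ⟨u, rfl⟩))

theorem R_mem_Mv (c : Fin n) (u : FreeGroup (Fin n)) : R c u ∈ Mv c :=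
  Subgroup.subset_closure (Or.inl (Or.inr ⟨u, rfl⟩))

theorem sg_mem_Mv (c : Fin n) : sg c ∈ Mv c :=
  Subgroup.subset_closure (Or.inr rfl)

theorem C_mem_Mv (c : Fin n) (u : FreeGroup (Fin n)) : C c u ∈ Mv c :=
  (Mv c).mul_mem (L_mem_Mv c u) (R_mem_Mv c u)

theorem LR_mul (c : Fin n) (u v u' v' : FreeGroup (Fin n)) :
    L c u * R c v * (L c u' * R c v') = L c (u * u') * R c (v * v') := by
  rw [map_mul, map_mul]
  calc L c u * R c v * (L c u' * R c v') = L c u * (R c v * L c u') * R c v' := by group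
    _ = L c u * (L c u' * R c v) * R c v' := by rw [LR_comm]
    _ = _ := by group

theorem sg_LR (c : Fin n) (u v : FreeGroup (Fin n)) :
    sg c * (L c u * R c v) = L c v * R c u * sg c := by
  rw [← mul_assoc, sg_L, mul_assoc, sg_R, ← mul_assoc, LR_comm]

theorem LR_inv (c : Fin n) (u v : FreeGroup (Fin n)) :
    (L c u * R c v)⁻¹ = L c u⁻¹ * R c v⁻¹ := by
  rw [inv_eq_iff_mul_eq_one, LR_mul, mul_inv_cancel, mul_inv_cancel, map_one, map_one, one_mul]

theorem mem_Mv_iff {c : Fin n} {φ : MulAut (FreeGroup (Fin n))} :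
    φ ∈ Mv c ↔ ∃ u v, φ = L c u * R c v ∨ φ = L c u * R c v * sg c := by
  constructor
  · intro h
    unfold Mv at h
    induction h using Subgroup.closure_induction with
    | mem x hx =>
      rcases hx with (⟨u, rfl⟩ | ⟨u, rfl⟩) | hx
      · exact ⟨u, 1, Or.inl (by rw [map_one, mul_one])⟩
      · exact ⟨1, u, Or.inl (by rw [map_one, one_mul])⟩
      · exact ⟨1, 1, Or.inr (by rw [map_one, map_one, one_mul, one_mul]; exact hx)⟩
    | one => exact ⟨1, 1, Or.inl (by rw [map_one, map_one, one_mul])⟩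
    | mul x y _ _ hx hy =>
      obtain ⟨u, v, h1⟩ := hx
      obtain ⟨u', v', h2⟩ := hy
      rcases h1 with h1 | h1 <;> rcases h2 with h2 | h2
      · exact ⟨u * u', v * v', Or.inl (by rw [h1, h2, LR_mul])⟩
      · exact ⟨u * u', v * v', Or.inr (by rw [h1, h2, ← mul_assoc, LR_mul])⟩
      · refine ⟨u * v', v * u', Or.inr ?_⟩
        rw [h1, h2, mul_assoc, sg_LR, ← mul_assoc, LR_mul]
      · refine ⟨u * v', v * u', Or.inl ?_⟩
        rw [h1, h2, mul_assoc, ← mul_assoc (sg c), sg_LR, mul_assoc (L c v' * R c u'),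
          sg_mul_self, mul_one, LR_mul]
    | inv x _ hx =>
      obtain ⟨u, v, h1⟩ := hx
      rcases h1 with h1 | h1
      · exact ⟨u⁻¹, v⁻¹, Or.inl (by rw [h1, LR_inv])⟩
      · refine ⟨v⁻¹, u⁻¹, Or.inr ?_⟩
        rw [h1, mul_inv_rev, LR_inv, sg_inv, sg_LR]
  · rintro ⟨u, v, h | h⟩
    · rw [h]; exact (Mv c).mul_mem (L_mem_Mv c u) (R_mem_Mv c v)
    · rw [h]
      exact (Mv c).mul_mem ((Mv c).mul_mem (L_mem_Mv c u) (R_mem_Mv c v)) (sg_mem_Mv c)

theorem Mv_fix {c x : Fin n} (h : x ≠ c) {φ : MulAut (FreeGroup (Fin n))}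
    (hφ : φ ∈ Mv c) : φ (FreeGroup.of x) = FreeGroup.of x := by
  obtain ⟨u, v, h1 | h1⟩ := mem_Mv_iff.1 hφ
  · rw [h1, MulAut.mul_apply, R_of_ne h, L_of_ne h]
  · rw [h1, MulAut.mul_apply, MulAut.mul_apply, sg_of_ne h, R_of_ne h, L_of_ne h]

/-- the moves of `c` fix the words without `c` -/
theorem Mv_fixed {c : Fin n} {φ : MulAut (FreeGroup (Fin n))} (hφ : φ ∈ Mv c)
    {w : FreeGroup (Fin n)} (hw : kill c w = w) : φ w = w := by
  obtain ⟨u, v, h1 | h1⟩ := mem_Mv_iff.1 hφ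
  · rw [h1, MulAut.mul_apply, R_fixed _ hw, L_fixed _ hw]
  · rw [h1, MulAut.mul_apply, MulAut.mul_apply, sg_fixed hw, R_fixed _ hw, L_fixed _ hw]

theorem Mv_act {G : Type*} [Group G] (g : Fin n → G) {c x : Fin n} (h : x ≠ c)
    {φ : MulAut (FreeGroup (Fin n))} (hφ : φ ∈ Mv c) : act φ g x = g x := by
  show ev g (φ⁻¹ (FreeGroup.of x)) = g x
  rw [Mv_fix h ((Mv c).inv_mem hφ), ev_of]

theorem Mv_of_form {c : Fin n} {φ : MulAut (FreeGroup (Fin n))}
    {u v : FreeGroup (Fin n)} (hu : kill c u = u) (hv : kill c v = v)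
    (hc : φ (FreeGroup.of c) = u * FreeGroup.of c * v ∨
      φ (FreeGroup.of c) = u * (FreeGroup.of c)⁻¹ * v)
    (hx : ∀ x, x ≠ c → φ (FreeGroup.of x) = FreeGroup.of x) : φ ∈ Mv c := by
  rcases hc with hc | hc
  · refine mem_Mv_iff.2 ⟨u⁻¹, v, Or.inl ?_⟩
    apply aut_ext
    intro x
    by_cases h : x = c
    · subst h
      rw [hc, MulAut.mul_apply, R_of_self, map_mul, L_kill, L_of_self, map_inv, hu, hv, inv_inv]
    · rw [hx x h, MulAut.mul_apply, R_of_ne h, L_of_ne h]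
  · refine mem_Mv_iff.2 ⟨v, u⁻¹, Or.inr ?_⟩
    apply aut_ext
    intro x
    by_cases h : x = c
    · subst h
      rw [hc, MulAut.mul_apply, MulAut.mul_apply, sg_of_self, map_inv, R_of_self, map_inv, map_mul,
        L_kill, L_of_self, map_inv, hu, hv, mul_inv_rev, mul_inv_rev, inv_inv, inv_inv, mul_assoc]
    · rw [hx x h, MulAut.mul_apply, MulAut.mul_apply, sg_of_ne h, R_of_ne h, L_of_ne h]

theorem Mv_conj {c : Fin n} {P φ : MulAut (FreeGroup (Fin n))} (hP : Pres c P)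
    (hφ : φ ∈ Mv c) : P * φ * P⁻¹ ∈ Mv c := by
  obtain ⟨u, v, h1 | h1⟩ := mem_Mv_iff.1 hφ
  · refine mem_Mv_iff.2 ⟨P (kill c u), P (kill c v), Or.inl ?_⟩
    rw [h1, ← hP.conj_R, ← hP.conj_L]
    group
  · refine mem_Mv_iff.2 ⟨P (kill c u), P (kill c v), Or.inr ?_⟩
    have h2 := Pres.conj_sg hP
    rw [h1, ← hP.conj_R, ← hP.conj_L]
    calc P * (L c u * R c v * sg c) * P⁻¹
        = (P * L c u * P⁻¹) * (P * R c v * P⁻¹) * (P * sg c * P⁻¹) := by group
      _ = _ := by rw [h2]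

theorem Mv_pres {a c : Fin n} (hac : a ≠ c) {φ : MulAut (FreeGroup (Fin n))}
    (hφ : φ ∈ Mv c) (h : kill a (φ (FreeGroup.of c)) = φ (FreeGroup.of c)) : Pres a φ := by
  refine pres_of (Mv_fix hac hφ) fun x hx => ?_
  by_cases h1 : x = c
  · rw [h1, h]
  · rw [Mv_fix h1 hφ, kill_of_ne hx]

/-! ### membership in the stabiliser -/

section

variable {G : Type*} [Group G] (g : Fin n → G)

theorem mem_Gam_of_letters {φ : MulAut (FreeGroup (Fin n))}
    (h : ∀ x, ev g (φ (FreeGroup.of x)) = g x) : φ ∈ Gam g := by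
  intro w
  have h1 : (ev g).comp φ.toMonoidHom = ev g := by
    ext x
    rw [MonoidHom.comp_apply, ev_of]
    exact h x
  exact DFunLike.congr_fun h1 w

theorem Mv_mem_Gam_iff {c : Fin n} {φ : MulAut (FreeGroup (Fin n))} (hφ : φ ∈ Mv c) :
    φ ∈ Gam g ↔ ev g (φ (FreeGroup.of c)) = g c := by
  constructor
  · intro h
    rw [h, ev_of]
  · intro h
    refine mem_Gam_of_letters g fun x => ?_
    by_cases hx : x = c
    · rw [hx, h]
    · rw [Mv_fix hx hφ, ev_of]

theorem R_mem_Gam_iff (a : Fin n) (w : FreeGroup (Fin n)) :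
    R a w ∈ Gam g ↔ ev g (kill a w) = 1 := by
  rw [Mv_mem_Gam_iff g (R_mem_Mv a w), R_of_self, map_mul, ev_of, mul_eq_left]

theorem L_mem_Gam_iff (a : Fin n) (w : FreeGroup (Fin n)) :
    L a w ∈ Gam g ↔ ev g (kill a w) = 1 := by
  rw [Mv_mem_Gam_iff g (L_mem_Mv a w), L_of_self, map_mul, ev_of, mul_eq_right, map_inv,
    inv_eq_one]

/-- if the letter `a` has value `1` -/
theorem C_mem_Gam {a : Fin n} (ha : g a = 1) (w : FreeGroup (Fin n)) : C a w ∈ Gam g := by
  rw [Mv_mem_Gam_iff g (C_mem_Mv a w), C_of_self, map_mul, map_mul, ev_of, ha, mul_one,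
    map_inv, inv_mul_cancel]

theorem sg_mem_Gam {a : Fin n} (ha : g a = 1) : sg a ∈ Gam g := by
  rw [Mv_mem_Gam_iff g (sg_mem_Mv a), sg_of_self, map_inv, ev_of, ha, inv_one]

end

end RED
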