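import Mathlib
import Pool.Agent.RED.Defs
import Pool.Agent.RED.MvBasic
import Pool.Agent.RED.LU

/-!
# Commutation relations (module WC)
-/

set_option autoImplicit false

namespace RED

open AFn IAQ

/-- the group theory -/
theorem wc_group {T : Type*} [Group T] {A B X Y : T} (_hAB : Commute A B) (hAX : Commute A X)
    (hBY : Commute B Y) (hXY : Commute X Y) (h : Commute (A * B) (X * Y)) :
    B * X * B⁻¹ * X⁻¹ = A⁻¹ * Y * A * Y⁻¹ ∧ X⁻¹ * B * X * B⁻¹ = A⁻¹ * Y * A * Y⁻¹ := by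
  have e1 : A * B * (X * Y) = X * Y * (A * B) := h
  constructor
  · -- B X Y = A⁻¹ Y A X B
    have e2 : B * X * Y = A⁻¹ * Y * A * X * B := by
      calc B * X * Y = A⁻¹ * (A * B * (X * Y)) := by group
        _ = A⁻¹ * (X * Y * (A * B)) := by rw [e1]
        _ = A⁻¹ * (Y * X * (A * B)) := by rw [hXY.eq]
        _ = A⁻¹ * Y * (X * A) * B := by group
        _ = A⁻¹ * Y * (A * X) * B := by rw [hAX.eq]
        _ = _ := by group
    have e3 : Y * B⁻¹ * X⁻¹ = B⁻¹ * X⁻¹ * Y := by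
      have h1 : Commute Y (B⁻¹ * X⁻¹) := (hBY.symm.inv_right).mul_right (hXY.symm.inv_right)
      have h2 : Y * (B⁻¹ * X⁻¹) = B⁻¹ * X⁻¹ * Y := h1
      rw [← h2, mul_assoc]
    calc B * X * B⁻¹ * X⁻¹ = B * X * (B⁻¹ * X⁻¹ * Y) * Y⁻¹ := by group
      _ = B * X * (Y * B⁻¹ * X⁻¹) * Y⁻¹ := by rw [e3]
      _ = (B * X * Y) * B⁻¹ * X⁻¹ * Y⁻¹ := by group
      _ = (A⁻¹ * Y * A * X * B) * B⁻¹ * X⁻¹ * Y⁻¹ := by rw [e2]
      _ = _ := by group
  · have e2 : X⁻¹ * B * X * Y = A⁻¹ * Y * A * B := by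
      calc X⁻¹ * B * X * Y = A⁻¹ * (A * X⁻¹) * B * X * Y := by group
        _ = A⁻¹ * (X⁻¹ * A) * B * X * Y := by rw [hAX.inv_right.eq]
        _ = A⁻¹ * X⁻¹ * (A * B * (X * Y)) := by group
        _ = A⁻¹ * X⁻¹ * (X * Y * (A * B)) := by rw [e1]
        _ = _ := by group
    calc X⁻¹ * B * X * B⁻¹ = X⁻¹ * B * X * (B⁻¹ * Y) * Y⁻¹ := by group
      _ = X⁻¹ * B * X * (Y * B⁻¹) * Y⁻¹ := by rw [hBY.inv_left.eq]
      _ = (X⁻¹ * B * X * Y) * B⁻¹ * Y⁻¹ := by group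
      _ = (A⁻¹ * Y * A * B) * B⁻¹ * Y⁻¹ := by rw [e2]
      _ = _ := by group

section

variable {n : ℕ} {G : Type*} [Group G] (g : Fin n → G) (I : Finset (Fin n)) {T : Type*}
  [Group T] (f : Gam g →* T)

variable {g I}

/-- `x_e` as a word in `UU` -/
theorem wc_of_UU {a e : Fin n} (he : e ∈ I) (hea : e ≠ a) : FreeGroup.of e ∈ UU I a := by
  refine ⟨?_, kill_of_ne hea⟩
  rw [lu_ret_of, if_neg]
  simpa using he

theorem wc_kill_v {i : Fin n} (hi : i ∈ I) {v : FreeGroup (Fin n)} (hv : v ∈ fsub Iᶜ) :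
    kill i v = v := kill_eq hv (by simpa using hi)

theorem wc_qq_kill {c i : Fin n} (hic : i ≠ c) {v : FreeGroup (Fin n)} (hv : kill i v = v) :
    kill i (qq c v) = qq c v := by
  unfold qq
  rw [map_mul, map_mul, map_inv, hv, kill_of_ne hic.symm]

theorem wc_qq_UU {c i : Fin n} (hc : c ∈ I) (hic : i ≠ c) {v : FreeGroup (Fin n)}
    (hv : kill i v = v) : qq c v ∈ UU I i := by
  refine ⟨?_, wc_qq_kill hic hv⟩
  unfold qq
  rw [map_mul, map_mul, map_inv, (wc_of_UU hc hic.symm).1]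
  group

variable {f}

theorem wc_qq_ev (h : Hyp g I f) {c : Fin n} (hc : c ∈ I) (v : FreeGroup (Fin n)) :
    ev g (qq c v) = 1 := by
  unfold qq
  rw [map_mul, map_mul, map_inv, ev_of, h.one c hc]
  group

/-- `R j x_e` is in the stabiliser -/
theorem wc_X_mem (h : Hyp g I f) {j e : Fin n} (he : e ∈ I) (hej : e ≠ j) :
    R j (FreeGroup.of e) ∈ Gam g := lu_R_UU g I f h (wc_of_UU he hej)

theorem wc_Rq_mem (h : Hyp g I f) {c a : Fin n} (hc : c ∈ I) (hac : a ≠ c)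
    {v : FreeGroup (Fin n)} (hv : kill a v = v) : R a (qq c v) ∈ Gam g := by
  rw [R_mem_Gam_iff, wc_qq_kill hac hv]
  exact wc_qq_ev h hc v

theorem wc_Lq_mem (h : Hyp g I f) {c a : Fin n} (hc : c ∈ I) (hac : a ≠ c)
    {v : FreeGroup (Fin n)} (hv : kill a v = v) : L a (qq c v) ∈ Gam g := by
  rw [L_mem_Gam_iff, wc_qq_kill hac hv]
  exact wc_qq_ev h hc v

variable (g I f)

theorem F2 (h : Hyp g I f) {c j e i : Fin n} (hc : c ∈ I) (he : e ∈ I) (hi : i ∈ I)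
    (hic : i ≠ c) (hie : i ≠ e) (hj : j ∉ I) {v : FreeGroup (Fin n)} (hv : v ∈ fsub Iᶜ) :
    Commute (fe g f (R j (FreeGroup.of e))) (fe g f (R i (qq c v))) ∧
    Commute (fe g f (R j (FreeGroup.of e))) (fe g f (L i (qq c v))) := by
  have hej : e ≠ j := fun hh => hj (hh ▸ he)
  have hcj : c ≠ j := fun hh => hj (hh ▸ hc)
  have hij : i ≠ j := fun hh => hj (hh ▸ hi)
  have hvi : kill i v = v := wc_kill_v hi hv
  have hXm := wc_X_mem h he hej
  have hRm := wc_Rq_mem h hc hic hvi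
  have hLm := wc_Lq_mem h hc hic hvi
  have hP : Pres i (R j (FreeGroup.of e)) := pres_R hij (kill_of_ne hie.symm)
  have hXq : R j (FreeGroup.of e) (qq c v) =
      R j (FreeGroup.of e) v * FreeGroup.of c * (R j (FreeGroup.of e) v)⁻¹ := by
    unfold qq
    rw [map_mul, map_mul, map_inv, R_of_ne hcj]
  have hkv : kill i (R j (FreeGroup.of e) v) = R j (FreeGroup.of e) v := by
    have := hP.2 v
    rwa [hvi] at this
  have hret : ret Iᶜ (R j (FreeGroup.of e) v) = ret Iᶜ v := by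
    have h1 : (ret Iᶜ).comp (R j (FreeGroup.of e)).toMonoidHom = ret Iᶜ := by
      ext x
      rw [MonoidHom.comp_apply, MulEquiv.coe_toMonoidHom, R_of]
      by_cases hx : x = j
      · rw [if_pos hx, map_mul, kill_of_ne hej, (wc_of_UU he hej).1, mul_one]
      · rw [if_neg hx]
    exact DFunLike.congr_fun h1 v
  constructor
  · have e1 := hP.conj_R (qq c v)
    rw [wc_qq_kill hic hvi, hXq] at e1
    have e2 : fe g f (R j (FreeGroup.of e) * R i (qq c v) * (R j (FreeGroup.of e))⁻¹) =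
        fe g f (R i (qq c v)) := by
      rw [e1]
      exact R_cong g I f h hkv hvi hret (wc_of_UU hc hic.symm)
    rw [fe_mul g f ((Gam g).mul_mem hXm hRm) ((Gam g).inv_mem hXm), fe_mul g f hXm hRm,
      fe_inv g f hXm, mul_inv_eq_iff_eq_mul] at e2
    exact e2
  · have e1 := hP.conj_L (qq c v)
    rw [wc_qq_kill hic hvi, hXq] at e1
    have e2 : fe g f (R j (FreeGroup.of e) * L i (qq c v) * (R j (FreeGroup.of e))⁻¹) =
        fe g f (L i (qq c v)) := by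
      rw [e1]
      exact L_cong g I f h hi hkv hvi hret (wc_of_UU hc hic.symm)
    rw [fe_mul g f ((Gam g).mul_mem hXm hLm) ((Gam g).inv_mem hXm), fe_mul g f hXm hLm,
      fe_inv g f hXm, mul_inv_eq_iff_eq_mul] at e2
    exact e2

theorem F3 (h : Hyp g I f) {j j' e e' : Fin n} (he : e ∈ I) (he' : e' ∈ I) (hj : j ∉ I)
    (hj' : j' ∉ I) :
    Commute (fe g f (R j (FreeGroup.of e))) (fe g f (R j' (FreeGroup.of e'))) := by
  have ne : ∀ {x y : Fin n}, x ∈ I → y ∉ I → x ≠ y := fun hx hy hxy => hy (hxy ▸ hx)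
  by_cases hjj : j = j'
  · subst hjj
    exact h.S2 j _ (wc_of_UU he (ne he hj)) _ (wc_of_UU he' (ne he' hj))
  · have h1 := R_comm_R (a := j') (b := j) (Ne.symm hjj) (v := FreeGroup.of e)
      (w := FreeGroup.of e') (kill_of_ne (ne he hj')) (by
        rw [kill_of_ne (ne he' hj'), kill_of_ne (ne he' hj)])
    have m1 := wc_X_mem h he (ne he hj)
    have m2 := wc_X_mem h he' (ne he' hj')
    show fe g f _ * fe g f _ = fe g f _ * fe g f _
    rw [← fe_mul g f m1 m2, ← fe_mul g f m2 m1, h1]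

/-- the exact identity behind `yy_eq` -/
theorem wc_conj {c j e : Fin n} (hec : e ≠ c) (hej : e ≠ j) (hcj : c ≠ j)
    {v : FreeGroup (Fin n)} (hve : kill e v = v) (hvj : kill j v = v) :
    (R j (FreeGroup.of e))⁻¹ * R e (qq c v) * R j (FreeGroup.of e) =
      R e (qq c v) * R j (qq c v) := by
  have hq1 : kill e (qq c v) = qq c v := wc_qq_kill hec hve
  have hq2 : kill j (qq c v) = qq c v := wc_qq_kill hcj.symm hvj
  obtain ⟨q, hq⟩ : ∃ q, q = qq c v := ⟨_, rfl⟩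
  rw [← hq] at hq1 hq2 ⊢
  rw [mul_assoc, inv_mul_eq_iff_eq_mul]
  have f1 : R j (FreeGroup.of e) q = q := R_fixed _ hq2
  have f2 : R e q q = q := R_fixed _ hq1
  apply aut_ext
  intro x
  rw [MulAut.mul_apply, MulAut.mul_apply, MulAut.mul_apply]
  by_cases hxj : x = j
  · subst hxj
    rw [R_of_self, kill_of_ne hej, map_mul, R_of_ne hej.symm, R_of_self, hq1, R_of_self, hq2,
      map_mul, R_of_ne hej.symm, f2, map_mul, R_of_self, kill_of_ne hej, f1]
    group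
  · rw [R_of_ne hxj, R_of_ne hxj]
    by_cases hxe : x = e
    · subst hxe
      rw [R_of_self, hq1, map_mul, R_of_ne hxj, f1]
    · rw [R_of_ne hxe, R_of_ne hxj]

/-- MODULE WC -/
theorem yy_eq (h : Hyp g I f) {c j e : Fin n} (hc : c ∈ I) (he : e ∈ I) (hec : e ≠ c)
    (hj : j ∉ I) {v : FreeGroup (Fin n)} (hv : v ∈ fsub Iᶜ) (hjv : kill j v = v) :
    yy g f c e j v = fe g f (R j (qq c v)) := by
  have ne : ∀ {x y : Fin n}, x ∈ I → y ∉ I → x ≠ y := fun hx hy hxy => hy (hxy ▸ hx)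
  have hve : kill e v = v := wc_kill_v he hv
  have m1 := wc_X_mem h he (ne he hj)
  have m2 := wc_Rq_mem h hc hec hve
  have m3 := wc_Rq_mem h hc (ne hc hj).symm hjv
  have e1 := wc_conj hec (ne he hj) (ne hc hj) hve hjv
  have e2 : fe g f ((R j (FreeGroup.of e))⁻¹ * R e (qq c v) * R j (FreeGroup.of e)) =
      fe g f (R e (qq c v) * R j (qq c v)) := by rw [e1]
  rw [fe_mul g f ((Gam g).mul_mem ((Gam g).inv_mem m1) m2) m1, fe_mul g f ((Gam g).inv_mem m1) m2,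
    fe_inv g f m1, fe_mul g f m2 m3] at e2
  unfold yy
  calc (fe g f (R e (qq c v)))⁻¹ * (fe g f (R j (FreeGroup.of e)))⁻¹ * fe g f (R e (qq c v)) *
        fe g f (R j (FreeGroup.of e))
      = (fe g f (R e (qq c v)))⁻¹ * ((fe g f (R j (FreeGroup.of e)))⁻¹ * fe g f (R e (qq c v)) *
        fe g f (R j (FreeGroup.of e))) := by group
    _ = (fe g f (R e (qq c v)))⁻¹ * (fe g f (R e (qq c v)) * fe g f (R j (qq c v))) := by rw [e2]
    _ = _ := by group

/-- the relations between two auxiliary letters -/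
theorem wc_rel (h : Hyp g I f) {c j e e' : Fin n} (hc : c ∈ I)
    (he : e ∈ I) (he' : e' ∈ I) (hec : e ≠ c) (hec' : e' ≠ c) (hee : e ≠ e') (hj : j ∉ I)
    {v : FreeGroup (Fin n)} (hv : v ∈ fsub Iᶜ) :
    Commute (fe g f (R e' (qq c v))) (fe g f (R e (qq c v)))⁻¹ ∧
    Commute (fe g f (R e' (qq c v))) (fe g f (R j (FreeGroup.of e))) ∧
    Commute (fe g f (R e (qq c v)))⁻¹ (fe g f (R j (FreeGroup.of e'))) ∧
    Commute (fe g f (R j (FreeGroup.of e))) (fe g f (R j (FreeGroup.of e'))) ∧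
    Commute (fe g f (R e' (qq c v)) * (fe g f (R e (qq c v)))⁻¹)
      (fe g f (R j (FreeGroup.of e)) * fe g f (R j (FreeGroup.of e'))) := by
  have ne : ∀ {x y : Fin n}, x ∈ I → y ∉ I → x ≠ y := fun hx hy hxy => hy (hxy ▸ hx)
  have hve : kill e v = v := wc_kill_v he hv
  have hve' : kill e' v = v := wc_kill_v he' hv
  have mR := wc_Rq_mem h hc hec hve
  have mR' := wc_Rq_mem h hc hec' hve'
  have mX := wc_X_mem h he (ne he hj)
  have mY := wc_X_mem h he' (ne he' hj)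
  have hAX := (F2 g I f h hc he he' hec' hee.symm hj hv).1
  have hBY := (F2 g I f h hc he' he hec hee hj hv).1
  have hXY := F3 g I f h he he' hj hj
  -- A and B commute
  have hAB : Commute (fe g f (R e' (qq c v))) (fe g f (R e (qq c v))) := by
    have h1 := R_comm_R (a := e) (b := e') hee (v := qq c v) (w := qq c v)
      (wc_qq_kill hec hve) (by rw [wc_qq_kill hec hve, wc_qq_kill hec' hve'])
    show fe g f _ * fe g f _ = fe g f _ * fe g f _
    rw [← fe_mul g f mR' mR, ← fe_mul g f mR mR', h1]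
  refine ⟨hAB.inv_right, hAX.symm, hBY.symm.inv_left, hXY, ?_⟩
  -- conjugation by P = R e x_{e'}
  set P := R e (FreeGroup.of e') with hPdef
  have mP : P ∈ Gam g := wc_X_mem h he' hee.symm
  have e1 : P * R e' (qq c v) * P⁻¹ =
      R e' (qq c v) * R e (FreeGroup.of e' * (qq c v)⁻¹ * (FreeGroup.of e')⁻¹) :=
    conj_I2 hee.symm (wc_qq_kill hec hve) (wc_qq_kill hec' hve')
  have hqU : (qq c v)⁻¹ ∈ UU I e := (UU I e).inv_mem (wc_qq_UU hc hec hve)
  have e2 : fe g f (R e (FreeGroup.of e' * (qq c v)⁻¹ * (FreeGroup.of e')⁻¹)) =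
      (fe g f (R e (qq c v)))⁻¹ := by
    have h1 := R_cong g I f h (a := e) (w := FreeGroup.of e') (w' := 1) (u := (qq c v)⁻¹)
      (kill_of_ne hee.symm) (map_one _) (by rw [(wc_of_UU he' hee.symm).1, map_one]) hqU
    rw [h1, one_mul, inv_one, mul_one, map_inv, fe_inv g f mR]
  have mZ : R e (FreeGroup.of e' * (qq c v)⁻¹ * (FreeGroup.of e')⁻¹) ∈ Gam g :=
    lu_R_UU g I f h (lu_conj_UU (kill_of_ne hee.symm) hqU)
  have e3 : fe g f P * fe g f (R e' (qq c v)) * (fe g f P)⁻¹ =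
      fe g f (R e' (qq c v)) * (fe g f (R e (qq c v)))⁻¹ := by
    have h1 : fe g f (P * R e' (qq c v) * P⁻¹) = fe g f (R e' (qq c v) *
        R e (FreeGroup.of e' * (qq c v)⁻¹ * (FreeGroup.of e')⁻¹)) := by rw [e1]
    rwa [fe_mul g f ((Gam g).mul_mem mP mR') ((Gam g).inv_mem mP), fe_mul g f mP mR',
      fe_inv g f mP, fe_mul g f mR' mZ, e2] at h1
  have hPj : Pres j P := pres_R (ne he hj).symm (kill_of_ne (ne he' hj))
  have e4 : P * R j (FreeGroup.of e) * P⁻¹ = R j (FreeGroup.of e) * R j (FreeGroup.of e') := by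
    rw [hPj.conj_R, kill_of_ne (ne he hj), hPdef, R_of_self, kill_of_ne hee.symm, map_mul]
  have e5 : fe g f P * fe g f (R j (FreeGroup.of e)) * (fe g f P)⁻¹ =
      fe g f (R j (FreeGroup.of e)) * fe g f (R j (FreeGroup.of e')) := by
    have h1 : fe g f (P * R j (FreeGroup.of e) * P⁻¹) =
      fe g f (R j (FreeGroup.of e) * R j (FreeGroup.of e')) := by rw [e4]
    rwa [fe_mul g f ((Gam g).mul_mem mP mX) ((Gam g).inv_mem mP), fe_mul g f mP mX,
      fe_inv g f mP, fe_mul g f mX mY] at h1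
  rw [← e3, ← e5]
  exact (Commute.conj_iff (fe g f P)).2 hAX.symm

theorem yy_indep (h : Hyp g I f) (hI : 5 ≤ I.card) {c j e e' : Fin n} (hc : c ∈ I)
    (he : e ∈ I) (he' : e' ∈ I) (hec : e ≠ c) (hec' : e' ≠ c) (hj : j ∉ I)
    {v : FreeGroup (Fin n)} (hv : v ∈ fsub Iᶜ) : yy g f c e j v = yy g f c e' j v := by
  by_cases hee : e = e'
  · rw [hee]
  obtain ⟨hAB, hAX, hBY, hXY, hall⟩ := wc_rel g I f h hc he he' hec hec' hee hj hv
  have hall' : Commute (fe g f (R e' (qq c v)) * (fe g f (R e (qq c v)))⁻¹)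
      ((fe g f (R j (FreeGroup.of e)))⁻¹ * (fe g f (R j (FreeGroup.of e')))⁻¹) := by
    have h1 := hall.inv_right
    rwa [mul_inv_rev, ← (hXY.inv_left.inv_right).eq] at h1
  have h1 := (wc_group hAB hAX.inv_right hBY.inv_right (hXY.inv_left.inv_right) hall').1
  unfold yy
  rw [inv_inv, inv_inv] at h1
  rw [inv_inv] at h1
  exact h1

/-- (also MODULE WC) -/
theorem yy_conj (h : Hyp g I f) (hI : 5 ≤ I.card) {c j e : Fin n} (hc : c ∈ I) (he : e ∈ I)
    (hec : e ≠ c) (hj : j ∉ I) {v : FreeGroup (Fin n)} (hv : v ∈ fsub Iᶜ) :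
    fe g f (R j (FreeGroup.of e)) * fe g f (R e (qq c v)) * (fe g f (R j (FreeGroup.of e)))⁻¹ =
      fe g f (R e (qq c v)) * (yy g f c e j v)⁻¹ := by
  obtain ⟨e', he', hne⟩ : ∃ e' ∈ I, e' ∉ ({c, e} : Finset (Fin n)) := by
    by_contra hcon
    push Not at hcon
    have h1 : I ⊆ {c, e} := fun x hx => hcon x hx
    have h2 := Finset.card_le_card h1
    have h3 := Finset.card_le_two (a := c) (b := e)
    omega
  simp only [Finset.mem_insert, Finset.mem_singleton, not_or] at hne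
  obtain ⟨hec', hee'⟩ := hne
  obtain ⟨hAB, hAX, hBY, hXY, hall⟩ := wc_rel g I f h hc he he' hec hec' (Ne.symm hee') hj hv
  obtain ⟨A, hA⟩ : ∃ A, A = fe g f (R e' (qq c v)) := ⟨_, rfl⟩
  obtain ⟨Q, hQ⟩ : ∃ Q, Q = fe g f (R e (qq c v)) := ⟨_, rfl⟩
  obtain ⟨X, hX⟩ : ∃ X, X = fe g f (R j (FreeGroup.of e)) := ⟨_, rfl⟩
  obtain ⟨Y, hY⟩ : ∃ Y, Y = fe g f (R j (FreeGroup.of e')) := ⟨_, rfl⟩
  unfold yy
  rw [← hA, ← hQ] at hAB hall
  rw [← hA, ← hX] at hAX
  rw [← hQ, ← hY] at hBY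
  rw [← hX, ← hY] at hXY hall
  rw [← hQ, ← hX]
  -- with A⁻¹, Q
  have hall' : Commute (A⁻¹ * Q) (X * Y) := by
    have h1 := hall.inv_left
    rw [mul_inv_rev, inv_inv] at h1
    have h2 : Q * A⁻¹ = A⁻¹ * Q := by
      have h3 : Commute A⁻¹ Q⁻¹ := hAB.inv_left
      have h4 := h3.inv_right
      rw [inv_inv] at h4
      exact h4.eq.symm
    rwa [h2] at h1
  have hAQ : Commute A⁻¹ Q := by
    have h3 : Commute A⁻¹ Q⁻¹ := hAB.inv_left
    have h4 := h3.inv_right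
    rwa [inv_inv] at h4
  have hQY : Commute Q Y := by
    have h4 := hBY.inv_left
    rwa [inv_inv] at h4
  obtain ⟨h1, h2⟩ := wc_group hAQ hAX.inv_left hQY hXY hall'
  have h3 : Q * X * Q⁻¹ * X⁻¹ = X⁻¹ * Q * X * Q⁻¹ := by rw [h1, h2]
  -- inverse of both sides
  have h4 : X * Q * X⁻¹ * Q⁻¹ = Q * X⁻¹ * Q⁻¹ * X := by
    have h5 := congrArg (fun t => t⁻¹) h3
    simp only [mul_inv_rev, inv_inv] at h5
    calc X * Q * X⁻¹ * Q⁻¹ = X * (Q * (X⁻¹ * Q⁻¹)) := by group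
      _ = Q * (X⁻¹ * (Q⁻¹ * X)) := h5
      _ = _ := by group
  calc X * Q * X⁻¹ = (X * Q * X⁻¹ * Q⁻¹) * Q := by group
    _ = (Q * X⁻¹ * Q⁻¹ * X) * Q := by rw [h4]
    _ = _ := by group

end

end RED
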