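import Mathlib
import Pool.Agent.RED.MvBasic
import Pool.Agent.RED.LU
import Pool.Agent.RED.WComm

/-!
# Columns and rows: the decompositions `cc1`, `cc2`, `dd1`
-/

set_option autoImplicit false

namespace RED

open AFn IAQ

section Aux

variable {n : ℕ}

private theorem kill_mem' {S S' : Finset (Fin n)} {a : Fin n} (hS : ∀ x ∈ S, x ≠ a → x ∈ S')
    {w : FreeGroup (Fin n)} (hw : w ∈ fsub S) : kill a w ∈ fsub S' := by
  unfold fsub at hw
  induction hw using Subgroup.closure_induction with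
  | mem y hy =>
    obtain ⟨x, hx, rfl⟩ := hy
    by_cases hxa : x = a
    · rw [hxa, kill_of_self]
      exact (fsub S').one_mem
    · rw [kill_of_ne hxa]
      exact of_mem_fsub (hS x (Finset.mem_coe.1 hx) hxa)
  | one => rw [map_one]; exact (fsub S').one_mem
  | mul y z _ _ hy hz => rw [map_mul]; exact (fsub S').mul_mem hy hz
  | inv y _ hy => rw [map_inv]; exact (fsub S').inv_mem hy

private theorem mem_fsub_univ (w : FreeGroup (Fin n)) : w ∈ fsub (Finset.univ : Finset (Fin n)) := by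
  have h := ret_mem (Finset.univ : Finset (Fin n)) w
  have h2 : ret (Finset.univ : Finset (Fin n)) = MonoidHom.id _ := by
    ext x
    simp [ret]
  rw [h2] at h
  exact h

private theorem ev_kill {G : Type*} [Group G] {g : Fin n → G} {d : Fin n} (hd : g d = 1)
    (w : FreeGroup (Fin n)) : ev g (kill d w) = ev g w := by
  have h : (ev g).comp (kill d) = ev g := by
    ext x
    rw [MonoidHom.comp_apply, kill_of]
    by_cases hx : x = d
    · rw [if_pos hx, hx, ev_of, hd, map_one]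
    · rw [if_neg hx]
  exact DFunLike.congr_fun h w

private theorem MvIn_sub_Mv {S : Finset (Fin n)} {c : Fin n} {φ : MulAut (FreeGroup (Fin n))}
    (h : φ ∈ MvIn S c) : φ ∈ Mv c := by
  obtain ⟨u, _, v, _, h1⟩ := h
  exact mem_Mv_iff.2 ⟨u, v, h1⟩

private theorem R_MvIn {S : Finset (Fin n)} {c : Fin n} {w : FreeGroup (Fin n)}
    (hw : w ∈ fsub S) : R c w ∈ MvIn S c :=
  ⟨1, (fsub S).one_mem, w, hw, Or.inl (by rw [map_one, one_mul])⟩

private theorem L_MvIn {S : Finset (Fin n)} {c : Fin n} {w : FreeGroup (Fin n)}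
    (hw : w ∈ fsub S) : L c w ∈ MvIn S c :=
  ⟨w, hw, 1, (fsub S).one_mem, Or.inl (by rw [map_one, mul_one])⟩

end Aux

section Image

variable {n : ℕ} {G : Type*} [Group G] (g : Fin n → G) (I : Finset (Fin n)) {T : Type*}
  [Group T] (f : Gam g →* T)

private theorem split {i d : Fin n} (hd : g d = 1) {S S' : Finset (Fin n)}
    (hS : ∀ x ∈ S, x ≠ d → x ∈ S') {φ : MulAut (FreeGroup (Fin n))} (hφ : φ ∈ MvIn S i)
    (hG : φ ∈ Gam g) :
    ∃ k1 ∈ fsub S, ∃ k2 ∈ fsub S, ∃ ψ ∈ MvIn S' i, kill i k1 = k1 ∧ kill i k2 = k2 ∧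
      kill d k1 = 1 ∧ kill d k2 = 1 ∧ ψ ∈ Gam g ∧ L i k1 ∈ Gam g ∧
      ((R i k2 ∈ Gam g ∧ φ = L i k1 * ψ * R i k2) ∨
        (L i k2 ∈ Gam g ∧ φ = L i k1 * ψ * L i k2)) := by
  obtain ⟨u, hu, v, hv, hφ'⟩ := hφ
  set u0 := kill i u with hu0
  set v0 := kill i v with hv0
  have hu0S : u0 ∈ fsub S := kill_mem' (fun x hx _ => hx) hu
  have hv0S : v0 ∈ fsub S := kill_mem' (fun x hx _ => hx) hv
  have ku0 : kill i u0 = u0 := kill_kill i u
  have kv0 : kill i v0 = v0 := kill_kill i v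
  have hu1 : kill d u0 ∈ fsub S' := kill_mem' hS hu0S
  have hv1 : kill d v0 ∈ fsub S' := kill_mem' hS hv0S
  have hu1S : kill d u0 ∈ fsub S := kill_mem' (fun x hx _ => hx) hu0S
  have hv1S : kill d v0 ∈ fsub S := kill_mem' (fun x hx _ => hx) hv0S
  have c1 : kill i (u0 * (kill d u0)⁻¹) = u0 * (kill d u0)⁻¹ := by
    rw [map_mul, map_inv, kill_comm i d, ku0]
  have c2 : kill i ((kill d v0)⁻¹ * v0) = (kill d v0)⁻¹ * v0 := by
    rw [map_mul, map_inv, kill_comm i d, kv0]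
  have g1 : L i (u0 * (kill d u0)⁻¹) ∈ Gam g := by
    rw [L_mem_Gam_iff, c1, map_mul, map_inv, ev_kill hd, mul_inv_cancel]
  have e2 : ev g ((kill d v0)⁻¹ * v0) = 1 := by
    rw [map_mul, map_inv, ev_kill hd, inv_mul_cancel]
  have gR : R i ((kill d v0)⁻¹ * v0) ∈ Gam g := by rw [R_mem_Gam_iff, c2, e2]
  have gL : L i ((kill d v0)⁻¹ * v0) ∈ Gam g := by rw [L_mem_Gam_iff, c2, e2]
  have eL : L i u = L i (u0 * (kill d u0)⁻¹) * L i (kill d u0) := by
    rw [← map_mul, inv_mul_cancel_right, hu0, L_killed]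
  have eR : R i v = R i (kill d v0) * R i ((kill d v0)⁻¹ * v0) := by
    rw [← map_mul, mul_inv_cancel_left, hv0, R_killed]
  rcases hφ' with hφ' | hφ'
  · refine ⟨u0 * (kill d u0)⁻¹, (fsub S).mul_mem hu0S ((fsub S).inv_mem hu1S),
      (kill d v0)⁻¹ * v0, (fsub S).mul_mem ((fsub S).inv_mem hv1S) hv0S,
      L i (kill d u0) * R i (kill d v0), ⟨_, hu1, _, hv1, Or.inl rfl⟩, c1, c2, ?_, ?_, ?_, g1,
      Or.inl ⟨gR, ?_⟩⟩
    · rw [map_mul, map_inv, kill_kill, mul_inv_cancel]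
    · rw [map_mul, map_inv, kill_kill, inv_mul_cancel]
    · have : L i (kill d u0) * R i (kill d v0) = (L i (u0 * (kill d u0)⁻¹))⁻¹ * φ *
          (R i ((kill d v0)⁻¹ * v0))⁻¹ := by
        rw [hφ', eL, eR]
        group
      rw [this]
      exact (Gam g).mul_mem ((Gam g).mul_mem ((Gam g).inv_mem g1) hG) ((Gam g).inv_mem gR)
    · rw [hφ', eL, eR]
      group
  · have e : φ = L i (u0 * (kill d u0)⁻¹) * (L i (kill d u0) * R i (kill d v0) * sg i) *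
        L i ((kill d v0)⁻¹ * v0) := by
      rw [mul_assoc, mul_assoc (L i (kill d u0) * R i (kill d v0)), ← R_sg, hφ', eL, eR]
      group
    refine ⟨u0 * (kill d u0)⁻¹, (fsub S).mul_mem hu0S ((fsub S).inv_mem hu1S),
      (kill d v0)⁻¹ * v0, (fsub S).mul_mem ((fsub S).inv_mem hv1S) hv0S,
      L i (kill d u0) * R i (kill d v0) * sg i, ⟨_, hu1, _, hv1, Or.inr rfl⟩, c1, c2, ?_, ?_, ?_,
      g1, Or.inr ⟨gL, e⟩⟩
    · rw [map_mul, map_inv, kill_kill, mul_inv_cancel]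
    · rw [map_mul, map_inv, kill_kill, inv_mul_cancel]
    · have : L i (kill d u0) * R i (kill d v0) * sg i = (L i (u0 * (kill d u0)⁻¹))⁻¹ * φ *
          (L i ((kill d v0)⁻¹ * v0))⁻¹ := by
        rw [e]
        group
      rw [this]
      exact (Gam g).mul_mem ((Gam g).mul_mem ((Gam g).inv_mem g1) hG) ((Gam g).inv_mem gL)

private theorem qq_mem {S : Finset (Fin n)} {d : Fin n} (hd : d ∈ S) {v : FreeGroup (Fin n)}
    (hv : v ∈ fsub S) : qq d v ∈ fsub S :=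
  (fsub S).mul_mem ((fsub S).mul_mem hv (of_mem_fsub hd)) ((fsub S).inv_mem hv)

private theorem ev_qq {d : Fin n} (hd : g d = 1) (v : FreeGroup (Fin n)) :
    ev g (qq d v) = 1 := by
  rw [qq, map_mul, map_mul, map_inv, ev_of, hd, mul_one, mul_inv_cancel]

/-- the values of `fe` on row moves in the column group -/
private theorem R_mem_WW (h : Hyp g I f) {i d : Fin n} (hi : i ∈ I) (hd : d ∈ I)
    (hid : i ≠ d) {k : FreeGroup (Fin n)} (hk : kill i k = k) (hkd : kill d k = 1) :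
    fe g f (R i k) ∈ WW g I f d ∧ fe g f (L i k) ∈ WW g I f d := by
  obtain ⟨h1, h2⟩ := LU2 g I f h hi hd hid hk hkd
  constructor
  · refine (Subgroup.closure_mono ?_) h1
    rintro x ⟨v, hv, rfl⟩
    exact Or.inl ⟨i, hi, hid, v, hv, Or.inl rfl⟩
  · refine (Subgroup.closure_mono ?_) h2
    rintro x ⟨v, hv, rfl⟩
    exact Or.inl ⟨i, hi, hid, v, hv, Or.inr rfl⟩

private theorem HH_mem {S : Finset (Fin n)} {i : Fin n} (hi : i ∈ I) (hiS : i ∈ S)
    {φ : MulAut (FreeGroup (Fin n))} (hφ : φ ∈ MvIn S i) (hG : φ ∈ Gam g) :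
    fe g f φ ∈ HH g I f S :=
  Subgroup.subset_closure (Or.inl ⟨i, hi, hiS, φ, hφ, hG, rfl⟩)

private theorem HH_mem_R {S : Finset (Fin n)} {i j : Fin n} (hj : j ∉ I) (hi : i ∈ I)
    (hiS : i ∈ S) : fe g f (R j (FreeGroup.of i)) ∈ HH g I f S :=
  Subgroup.subset_closure (Or.inr ⟨j, hj, i, hi, hiS, rfl⟩)

private theorem exists_other (hI : 5 ≤ I.card) (c d : Fin n) : ∃ e ∈ I, e ≠ c ∧ e ≠ d := by
  by_contra hcon
  push Not at hcon
  have hsub : I ⊆ {c, d} := by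
    intro x hx
    by_cases hxc : x = c
    · simp [hxc]
    · simp [hcon x hx hxc]
  have h1 := Finset.card_le_card hsub
  have h2 : ({c, d} : Finset (Fin n)).card ≤ 2 := Finset.card_le_two
  omega

/-- (CC1) -/
theorem cc1 (h : Hyp g I f) (hI : 5 ≤ I.card) {c d : Fin n} (hc : c ∈ I) (hd : d ∈ I)
    (hcd : c ≠ d) : WW g I f d ≤ (WW g I f d ⊓ HH g I f {c}ᶜ) ⊔ VV g f c := by
  unfold WW
  rw [Subgroup.closure_le]
  have hIc : (Iᶜ : Finset (Fin n)) ⊆ {c}ᶜ := by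
    intro x hx
    rw [Finset.mem_compl] at hx ⊢
    intro hxc
    rw [Finset.mem_singleton] at hxc
    exact hx (hxc ▸ hc)
  have hdc : d ∈ ({c}ᶜ : Finset (Fin n)) := by
    rw [Finset.mem_compl, Finset.mem_singleton]
    exact hcd.symm
  have hq : ∀ v ∈ fsub Iᶜ, qq d v ∈ fsub ({c}ᶜ : Finset (Fin n)) := fun v hv =>
    qq_mem hdc (fsub_mono hIc hv)
  have evq : ∀ (i : Fin n), i ∈ I → i ≠ d → ∀ v ∈ fsub Iᶜ, ev g (kill i (qq d v)) = 1 := by
    intro i hi hid v _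
    rw [ev_kill (h.one i hi), ev_qq g (h.one d hd)]
  intro x hx
  rcases hx with ⟨i, hi, hid, v, hv, hx⟩ | ⟨j, hj, e, he, hed, v, hv, hx⟩
  · have gR : R i (qq d v) ∈ Gam g := (R_mem_Gam_iff g i _).2 (evq i hi hid v hv)
    have gL : L i (qq d v) ∈ Gam g := (L_mem_Gam_iff g i _).2 (evq i hi hid v hv)
    by_cases hic : i = c
    · refine (le_sup_right : VV g f c ≤ _) ?_
      rcases hx with rfl | rfl
      · exact Subgroup.subset_closure ⟨_, hic ▸ MvIn_sub_Mv (R_MvIn (mem_fsub_univ _)), gR, rfl⟩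
      · exact Subgroup.subset_closure ⟨_, hic ▸ MvIn_sub_Mv (L_MvIn (mem_fsub_univ _)), gL, rfl⟩
    · have hic' : i ∈ ({c}ᶜ : Finset (Fin n)) := by
        rw [Finset.mem_compl, Finset.mem_singleton]
        exact hic
      refine (le_sup_left : _ ≤ _ ⊔ VV g f c) ⟨?_, ?_⟩
      · rcases hx with rfl | rfl
        · exact Subgroup.subset_closure (Or.inl ⟨i, hi, hid, v, hv, Or.inl rfl⟩)
        · exact Subgroup.subset_closure (Or.inl ⟨i, hi, hid, v, hv, Or.inr rfl⟩)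
      · rcases hx with rfl | rfl
        · exact HH_mem g I f hi hic' (R_MvIn (hq v hv)) gR
        · exact HH_mem g I f hi hic' (L_MvIn (hq v hv)) gL
  · obtain ⟨e', he', hec', hed'⟩ := exists_other I hI c d
    have h1 := yy_indep g I f h hI hd he he' hed hed' hj hv
    have hec : e' ∈ ({c}ᶜ : Finset (Fin n)) := by
      rw [Finset.mem_compl, Finset.mem_singleton]
      exact hec'
    have gR : R e' (qq d v) ∈ Gam g := (R_mem_Gam_iff g e' _).2 (evq e' he' hed' v hv)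
    have m1 := HH_mem g I f he' hec (R_MvIn (hq v hv)) gR
    have m2 := HH_mem_R g I f hj he' hec
    refine (le_sup_left : _ ≤ _ ⊔ VV g f c) ⟨?_, ?_⟩
    · exact Subgroup.subset_closure (Or.inr ⟨j, hj, e, he, hed, v, hv, hx⟩)
    · rw [hx, h1]
      exact (HH g I f {c}ᶜ).mul_mem ((HH g I f {c}ᶜ).mul_mem ((HH g I f {c}ᶜ).mul_mem
        ((HH g I f {c}ᶜ).inv_mem m1) ((HH g I f {c}ᶜ).inv_mem m2)) m1) m2

/-- (CC2) -/
theorem cc2 (h : Hyp g I f) (hI : 5 ≤ I.card) {c d : Fin n} (hc : c ∈ I) (hd : d ∈ I)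
    (hcd : c ≠ d) : VV g f c ≤ (VV g f c ⊓ HH g I f {d}ᶜ) ⊔ WW g I f d := by
  unfold VV
  rw [Subgroup.closure_le]
  rintro x ⟨φ, hφ, hG, rfl⟩
  have hφ' : φ ∈ MvIn Finset.univ c := by
    obtain ⟨u, v, h1⟩ := mem_Mv_iff.1 hφ
    exact ⟨u, mem_fsub_univ u, v, mem_fsub_univ v, h1⟩
  obtain ⟨k1, _, k2, _, ψ, hψ, c1, c2, d1, d2, gψ, g1, hor⟩ :=
    split g (h.one d hd) (S' := {d}ᶜ) (fun x _ hx => by
      rw [Finset.mem_compl, Finset.mem_singleton]; exact hx) hφ' hG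
  have hcd' : c ∈ ({d}ᶜ : Finset (Fin n)) := by
    rw [Finset.mem_compl, Finset.mem_singleton]
    exact hcd
  have w1 := (R_mem_WW g I f h hc hd hcd c1 d1).2
  have w2 := R_mem_WW g I f h hc hd hcd c2 d2
  have m1 : fe g f (L c k1) ∈ (VV g f c ⊓ HH g I f {d}ᶜ) ⊔ WW g I f d :=
    (le_sup_right : WW g I f d ≤ (VV g f c ⊓ HH g I f {d}ᶜ) ⊔ WW g I f d) w1
  have m2 : fe g f ψ ∈ (VV g f c ⊓ HH g I f {d}ᶜ) ⊔ WW g I f d := by
    refine (le_sup_left : _ ≤ _ ⊔ WW g I f d) ⟨?_, ?_⟩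
    · exact Subgroup.subset_closure ⟨ψ, MvIn_sub_Mv hψ, gψ, rfl⟩
    · exact HH_mem g I f hc hcd' hψ gψ
  rcases hor with ⟨gR, e⟩ | ⟨gL, e⟩
  · rw [e, fe_mul g f ((Gam g).mul_mem g1 gψ) gR, fe_mul g f g1 gψ]
    exact mul_mem (mul_mem m1 m2)
      ((le_sup_right : WW g I f d ≤ (VV g f c ⊓ HH g I f {d}ᶜ) ⊔ WW g I f d) w2.1)
  · rw [e, fe_mul g f ((Gam g).mul_mem g1 gψ) gL, fe_mul g f g1 gψ]
    exact mul_mem (mul_mem m1 m2)
      ((le_sup_right : WW g I f d ≤ (VV g f c ⊓ HH g I f {d}ᶜ) ⊔ WW g I f d) w2.2)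

/-- (DD1) -/
theorem dd1 (h : Hyp g I f) (hI : 5 ≤ I.card) {c d : Fin n} (hc : c ∈ I) (hd : d ∈ I)
    (hcd : c ≠ d) : HH g I f {c}ᶜ ≤ HH g I f {c, d}ᶜ ⊔ (VV g f d ⊓ HH g I f {c}ᶜ) ⊔
      (WW g I f d ⊓ HH g I f {c}ᶜ) := by
  have hdc : d ∈ ({c}ᶜ : Finset (Fin n)) := by
    rw [Finset.mem_compl, Finset.mem_singleton]
    exact hcd.symm
  have l1 : HH g I f {c, d}ᶜ ≤ HH g I f {c, d}ᶜ ⊔ (VV g f d ⊓ HH g I f {c}ᶜ) ⊔
      (WW g I f d ⊓ HH g I f {c}ᶜ) := le_sup_left.trans le_sup_left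
  have l2 : VV g f d ⊓ HH g I f {c}ᶜ ≤ HH g I f {c, d}ᶜ ⊔ (VV g f d ⊓ HH g I f {c}ᶜ) ⊔
      (WW g I f d ⊓ HH g I f {c}ᶜ) := le_sup_right.trans le_sup_left
  have l3 : WW g I f d ⊓ HH g I f {c}ᶜ ≤ HH g I f {c, d}ᶜ ⊔ (VV g f d ⊓ HH g I f {c}ᶜ) ⊔
      (WW g I f d ⊓ HH g I f {c}ᶜ) := le_sup_right
  conv_lhs => unfold HH
  rw [Subgroup.closure_le]
  rintro x (⟨i, hi, hic, φ, hφ, hG, rfl⟩ | ⟨j, hj, i, hi, hic, rfl⟩)
  · have hx := HH_mem g I f hi hic hφ hG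
    by_cases hid : i = d
    · refine l2 ⟨?_, hx⟩
      exact Subgroup.subset_closure ⟨φ, hid ▸ MvIn_sub_Mv hφ, hG, rfl⟩
    · obtain ⟨k1, s1, k2, s2, ψ, hψ, c1, c2, d1, d2, gψ, g1, hor⟩ :=
        split g (h.one d hd) (S' := {c, d}ᶜ) (fun x hx1 hx2 => by
          rw [Finset.mem_compl, Finset.mem_singleton] at hx1
          rw [Finset.mem_compl, Finset.mem_insert, Finset.mem_singleton]
          tauto) hφ hG
      have hicd : i ∈ ({c, d}ᶜ : Finset (Fin n)) := by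
        rw [Finset.mem_compl, Finset.mem_singleton] at hic
        rw [Finset.mem_compl, Finset.mem_insert, Finset.mem_singleton]
        tauto
      have w1 := (R_mem_WW g I f h hi hd hid c1 d1).2
      have w2 := R_mem_WW g I f h hi hd hid c2 d2
      have m1 := l3 ⟨w1, HH_mem g I f hi hic (L_MvIn s1) g1⟩
      have m2 := l1 (HH_mem g I f hi hicd hψ gψ)
      rcases hor with ⟨gR, e⟩ | ⟨gL, e⟩
      · rw [e, fe_mul g f ((Gam g).mul_mem g1 gψ) gR, fe_mul g f g1 gψ]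
        exact mul_mem (mul_mem m1 m2) (l3 ⟨w2.1, HH_mem g I f hi hic (R_MvIn s2) gR⟩)
      · rw [e, fe_mul g f ((Gam g).mul_mem g1 gψ) gL, fe_mul g f g1 gψ]
        exact mul_mem (mul_mem m1 m2) (l3 ⟨w2.2, HH_mem g I f hi hic (L_MvIn s2) gL⟩)
  · by_cases hid : i = d
    · obtain ⟨e, he, hec, hed⟩ := exists_other I hI c d
      have h1 := yy_eq g I f h hd he hed hj (fsub Iᶜ).one_mem (map_one (kill j))
      have h2 : qq d (1 : FreeGroup (Fin n)) = FreeGroup.of d := by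
        rw [qq, one_mul, inv_one, mul_one]
      rw [h2] at h1
      rw [hid]
      refine l3 ⟨?_, HH_mem_R g I f hj hd hdc⟩
      rw [← h1]
      exact Subgroup.subset_closure (Or.inr ⟨j, hj, e, he, hed, 1, (fsub Iᶜ).one_mem, rfl⟩)
    · have hicd : i ∈ ({c, d}ᶜ : Finset (Fin n)) := by
        rw [Finset.mem_compl, Finset.mem_singleton] at hic
        rw [Finset.mem_compl, Finset.mem_insert, Finset.mem_singleton]
        tauto
      exact l1 (HH_mem_R g I f hj hi hicd)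

end Image

end RED
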