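import Mathlib
import Pool.Agent.RED.Defs
import Pool.Agent.RED.MvBasic
import Pool.Agent.RED.LU

/-!
# RED.CC2: the two column groups generate (`ee`), two hyperplane groups generate (`hh`)
-/

set_option autoImplicit false

namespace RED

open AFn IAQ

section Aux

variable {n : ℕ}

private theorem cc2_ret_of (S : Finset (Fin n)) (x : Fin n) :
    ret S (FreeGroup.of x) = if x ∈ S then FreeGroup.of x else 1 := by
  simp [ret]

private theorem cc2_R_MvIn {S : Finset (Fin n)} (i : Fin n) {w : FreeGroup (Fin n)}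
    (hw : w ∈ fsub S) : R i w ∈ MvIn S i :=
  ⟨1, one_mem _, w, hw, Or.inl (by rw [map_one, one_mul])⟩

private theorem cc2_L_MvIn {S : Finset (Fin n)} (i : Fin n) {w : FreeGroup (Fin n)}
    (hw : w ∈ fsub S) : L i w ∈ MvIn S i :=
  ⟨w, hw, 1, one_mem _, Or.inl (by rw [map_one, mul_one])⟩

private theorem cc2_C_MvIn {S : Finset (Fin n)} (i : Fin n) {w : FreeGroup (Fin n)}
    (hw : w ∈ fsub S) : C i w ∈ MvIn S i :=
  ⟨w, hw, w, hw, Or.inl rfl⟩

private theorem cc2_sg_MvIn (S : Finset (Fin n)) (i : Fin n) : sg i ∈ MvIn S i :=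
  ⟨1, one_mem _, 1, one_mem _, Or.inr (by rw [map_one, map_one, one_mul, one_mul])⟩

private theorem cc2_mem_univ (w : FreeGroup (Fin n)) : w ∈ fsub (Finset.univ : Finset (Fin n)) := by
  have h : fsub (Finset.univ : Finset (Fin n)) = ⊤ := by
    unfold fsub
    rw [Finset.coe_univ, Set.image_univ]
    exact FreeGroup.closure_range_of _
  rw [h]
  trivial

private theorem cc2_MvIn_univ {i : Fin n} {φ : MulAut (FreeGroup (Fin n))} :
    φ ∈ MvIn Finset.univ i ↔ φ ∈ Mv i := by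
  rw [mem_Mv_iff]
  constructor
  · rintro ⟨u, -, v, -, h⟩
    exact ⟨u, v, h⟩
  · rintro ⟨u, v, h⟩
    exact ⟨u, cc2_mem_univ u, v, cc2_mem_univ v, h⟩

private theorem cc2_of_compl {b c : Fin n} (h : b ≠ c) :
    FreeGroup.of b ∈ fsub ({c}ᶜ : Finset (Fin n)) :=
  of_mem_fsub (by simpa using h)

private theorem cc2_compl {I : Finset (Fin n)} {c : Fin n} (hc : c ∈ I) {v : FreeGroup (Fin n)}
    (hv : v ∈ fsub Iᶜ) : v ∈ fsub ({c}ᶜ : Finset (Fin n)) :=
  fsub_mono (Finset.compl_subset_compl.2 (Finset.singleton_subset_iff.2 hc)) hv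

end Aux

section Image

variable {n : ℕ} {G : Type*} [Group G] (g : Fin n → G) (I : Finset (Fin n)) {T : Type*}
  [Group T] (f : Gam g →* T)

private theorem cc2_ev_ret (h1 : ∀ i ∈ I, g i = 1) (w : FreeGroup (Fin n)) :
    ev g (ret Iᶜ w) = ev g w := by
  have h : (ev g).comp (ret Iᶜ) = ev g := by
    ext x
    rw [MonoidHom.comp_apply, cc2_ret_of]
    by_cases hx : x ∈ I
    · rw [if_neg (by simpa using hx), map_one, ev_of, h1 x hx]
    · rw [if_pos (by simpa using hx)]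
  exact DFunLike.congr_fun h w

private theorem cc2_R_qq_Gam {a c : Fin n} (hc : g c = 1) (v : FreeGroup (Fin n)) :
    R a (qq c v) ∈ Gam g := by
  rw [R_mem_Gam_iff]
  unfold qq
  rw [map_mul, map_mul, map_inv, map_mul, map_mul, map_inv, kill_of]
  by_cases h : c = a
  · rw [if_pos h, map_one, mul_one, mul_inv_cancel]
  · rw [if_neg h, ev_of, hc, mul_one, mul_inv_cancel]

private theorem cc2_L_qq_Gam {a c : Fin n} (hc : g c = 1) (v : FreeGroup (Fin n)) :
    L a (qq c v) ∈ Gam g := by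
  rw [L_mem_Gam_iff]
  unfold qq
  rw [map_mul, map_mul, map_inv, map_mul, map_mul, map_inv, kill_of]
  by_cases h : c = a
  · rw [if_pos h, map_one, mul_one, mul_inv_cancel]
  · rw [if_neg h, ev_of, hc, mul_one, mul_inv_cancel]

private theorem cc2_qq_one (c : Fin n) : qq c (1 : FreeGroup (Fin n)) = FreeGroup.of c := by
  unfold qq
  rw [one_mul, inv_one, mul_one]

private theorem cc2_R_Gam {a c : Fin n} (hc : g c = 1) : R a (FreeGroup.of c) ∈ Gam g := by
  have := cc2_R_qq_Gam g (a := a) hc 1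
  rwa [cc2_qq_one] at this

private theorem cc2_L_Gam {a c : Fin n} (hc : g c = 1) : L a (FreeGroup.of c) ∈ Gam g := by
  have := cc2_L_qq_Gam g (a := a) hc 1
  rwa [cc2_qq_one] at this

private theorem cc2_R_Mv (c : Fin n) (w : FreeGroup (Fin n)) : R c w ∈ Mv c :=
  Subgroup.subset_closure (Or.inl (Or.inr ⟨w, rfl⟩))

private theorem cc2_VV {c : Fin n} {φ : MulAut (FreeGroup (Fin n))} (h : φ ∈ Mv c)
    (h' : φ ∈ Gam g) : fe g f φ ∈ VV g f c :=
  Subgroup.subset_closure ⟨φ, h, h', rfl⟩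

private theorem cc2_HH {S : Finset (Fin n)} {i : Fin n} (hi : i ∈ I) (hiS : i ∈ S)
    {φ : MulAut (FreeGroup (Fin n))} (hφ : φ ∈ MvIn S i) (hg : φ ∈ Gam g) :
    fe g f φ ∈ HH g I f S :=
  Subgroup.subset_closure (Or.inl ⟨i, hi, hiS, φ, hφ, hg, rfl⟩)

private theorem cc2_HH' {S : Finset (Fin n)} {i j : Fin n} (hi : i ∈ I) (hiS : i ∈ S)
    (hj : j ∉ I) : fe g f (R j (FreeGroup.of i)) ∈ HH g I f S :=
  Subgroup.subset_closure (Or.inr ⟨j, hj, i, hi, hiS, rfl⟩)

private theorem cc2_HH_mono {S S' : Finset (Fin n)} (h : S ⊆ S') :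
    HH g I f S ≤ HH g I f S' := by
  unfold HH
  rw [Subgroup.closure_le]
  rintro x (⟨i, hi, hiS, φ, ⟨u, hu, v, hv, hφ⟩, hφg, rfl⟩ | ⟨j, hj, i, hi, hiS, rfl⟩)
  · exact cc2_HH g I f hi (h hiS) ⟨u, fsub_mono h hu, v, fsub_mono h hv, hφ⟩ hφg
  · exact cc2_HH' g I f hi (h hiS) hj

private theorem cc2_exists {c d : Fin n} (hI : 5 ≤ I.card) :
    ∃ e ∈ I, e ≠ c ∧ e ≠ d := by
  have h1 : ({c, d} : Finset (Fin n)).card < I.card := by
    have := Finset.card_le_two (a := c) (b := d)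
    omega
  obtain ⟨e, he, he'⟩ := Finset.exists_mem_notMem_of_card_lt_card h1
  rw [Finset.mem_insert, Finset.mem_singleton, not_or] at he'
  exact ⟨e, he, he'.1, he'.2⟩

private theorem cc2_yy {c j e : Fin n} (hc : g c = 1) (he : g e = 1) (hec : e ≠ c) (hje : j ≠ e)
    (hjc : j ≠ c) : yy g f c e j 1 = fe g f (R j (FreeGroup.of c)) := by
  have h1 := conj_I2 (a := e) (d := j) (Ne.symm hje) (w := FreeGroup.of c)
    (kill_of_ne (Ne.symm hjc)) (kill_of_ne (Ne.symm hec))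
  have gX : R j (FreeGroup.of e) ∈ Gam g := cc2_R_Gam g he
  have gB : R e (FreeGroup.of c) ∈ Gam g := cc2_R_Gam g hc
  rw [map_mul (R j), map_mul (R j), map_inv (R j), map_inv (R j)] at h1
  have h2 : (R j (FreeGroup.of c))⁻¹ = (R j (FreeGroup.of e))⁻¹ * (R e (FreeGroup.of c))⁻¹ *
      (R e (FreeGroup.of c) * (R j (FreeGroup.of e) * (R j (FreeGroup.of c))⁻¹ *
        (R j (FreeGroup.of e))⁻¹)) * R j (FreeGroup.of e) := by
    group
  rw [← h1] at h2
  have h3 : R j (FreeGroup.of c) = (R e (FreeGroup.of c))⁻¹ * (R j (FreeGroup.of e))⁻¹ *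
      R e (FreeGroup.of c) * R j (FreeGroup.of e) := by
    rw [← inv_inv (R j (FreeGroup.of c)), h2]
    group
  unfold yy
  rw [cc2_qq_one, h3, fe_mul g f (mul_mem (mul_mem (inv_mem gB) (inv_mem gX)) gB) gX,
    fe_mul g f (mul_mem (inv_mem gB) (inv_mem gX)) gB, fe_mul g f (inv_mem gB) (inv_mem gX),
    fe_inv g f gB, fe_inv g f gX]

/-- the rotation `x_i ↦ x_c`, `x_c ↦ x_i⁻¹` -/
private theorem cc2_rot {i c : Fin n} (hic : i ≠ c) :
    ∃ σ : MulAut (FreeGroup (Fin n)),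
      σ = R i (FreeGroup.of c) * R c (FreeGroup.of i)⁻¹ * L i (FreeGroup.of c)⁻¹ ∧
      (∀ φ ∈ Mv i, σ * φ * σ⁻¹ ∈ Mv c) := by
  refine ⟨_, rfl, ?_⟩
  obtain ⟨σ, hσ⟩ : ∃ σ, σ =
    R i (FreeGroup.of c) * R c (FreeGroup.of i)⁻¹ * L i (FreeGroup.of c)⁻¹ := ⟨_, rfl⟩
  rw [← hσ]
  have k1' : kill i (FreeGroup.of c)⁻¹ = (FreeGroup.of c)⁻¹ := by
    rw [map_inv, kill_of_ne hic.symm]
  have k2' : kill c (FreeGroup.of i)⁻¹ = (FreeGroup.of i)⁻¹ := by
    rw [map_inv, kill_of_ne hic]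
  have a1 : R c (FreeGroup.of i)⁻¹ (FreeGroup.of i) = FreeGroup.of i := R_of_ne hic _
  have a2 : R c (FreeGroup.of i)⁻¹ (FreeGroup.of c) = FreeGroup.of c * (FreeGroup.of i)⁻¹ := by
    rw [R_of_self, k2']
  have b1 : R i (FreeGroup.of c) (FreeGroup.of i) = FreeGroup.of i * FreeGroup.of c := by
    rw [R_of_self, kill_of_ne hic.symm]
  have b2 : R i (FreeGroup.of c) (FreeGroup.of c) = FreeGroup.of c := R_of_ne hic.symm _
  have s1 : σ (FreeGroup.of i) = FreeGroup.of c := by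
    rw [hσ, MulAut.mul_apply, MulAut.mul_apply, L_of_self, k1', inv_inv,
      map_mul (R c (FreeGroup.of i)⁻¹), a1, a2, map_mul (R i (FreeGroup.of c)),
      map_mul (R i (FreeGroup.of c)), map_inv (R i (FreeGroup.of c)), b1, b2]
    group
  have s2 : σ (FreeGroup.of c) = (FreeGroup.of i)⁻¹ := by
    rw [hσ, MulAut.mul_apply, MulAut.mul_apply, L_of_ne hic.symm, a2,
      map_mul (R i (FreeGroup.of c)), map_inv (R i (FreeGroup.of c)), b1, b2]
    group
  have s3 : ∀ x, x ≠ i → x ≠ c → σ (FreeGroup.of x) = FreeGroup.of x := by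
    intro x hx hx'
    rw [hσ, MulAut.mul_apply, MulAut.mul_apply, L_of_ne hx, R_of_ne hx', R_of_ne hx]
  have t1 : σ⁻¹ (FreeGroup.of c) = FreeGroup.of i := by
    rw [← s1, ← MulAut.mul_apply, inv_mul_cancel, MulAut.one_apply]
  have t2 : σ⁻¹ (FreeGroup.of i) = (FreeGroup.of c)⁻¹ := by
    have : FreeGroup.of i = σ (FreeGroup.of c)⁻¹ := by rw [map_inv, s2, inv_inv]
    rw [this, ← MulAut.mul_apply, inv_mul_cancel, MulAut.one_apply]
  have t3 : ∀ x, x ≠ i → x ≠ c → σ⁻¹ (FreeGroup.of x) = FreeGroup.of x := by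
    intro x hx hx'
    conv_lhs => rw [← s3 x hx hx']
    rw [← MulAut.mul_apply, inv_mul_cancel, MulAut.one_apply]
  -- words without `x_i` go to words without `x_c`
  have k1 : ∀ w, kill c (σ (kill i w)) = σ (kill i w) := by
    intro w
    have h : ((kill c).comp σ.toMonoidHom).comp (kill i) = (σ.toMonoidHom).comp (kill i) := by
      ext x
      rw [MonoidHom.comp_apply, MonoidHom.comp_apply, MonoidHom.comp_apply, kill_of]
      by_cases hx : x = i
      · rw [if_pos hx, map_one, map_one]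
      · rw [if_neg hx]
        by_cases hx' : x = c
        · subst hx'
          change kill x (σ (FreeGroup.of x)) = σ (FreeGroup.of x)
          rw [s2, map_inv, kill_of_ne hic]
        · change kill c (σ (FreeGroup.of x)) = σ (FreeGroup.of x)
          rw [s3 x hx hx', kill_of_ne hx']
    exact DFunLike.congr_fun h w
  intro φ hφ
  rw [mem_Mv_iff] at hφ
  obtain ⟨u, v, hφ⟩ := hφ
  have hx : ∀ x, x ≠ i → φ (FreeGroup.of x) = FreeGroup.of x := by
    intro x hx
    rcases hφ with h | h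
    · rw [h, MulAut.mul_apply, R_of_ne hx, L_of_ne hx]
    · rw [h, MulAut.mul_apply, MulAut.mul_apply, sg_of_ne hx, R_of_ne hx, L_of_ne hx]
  have hi : φ (FreeGroup.of i) = (kill i u)⁻¹ * FreeGroup.of i * kill i v ∨
      φ (FreeGroup.of i) = (kill i v)⁻¹ * (FreeGroup.of i)⁻¹ * kill i u := by
    rcases hφ with h | h
    · left
      rw [h, MulAut.mul_apply, R_of_self, map_mul, L_kill, L_of_self]
    · right
      rw [h, MulAut.mul_apply, MulAut.mul_apply, sg_of_self, map_inv, R_of_self, map_inv,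
        map_mul, L_kill, L_of_self]
      group
  have hxx : ∀ x, x ≠ c → (σ * φ * σ⁻¹) (FreeGroup.of x) = FreeGroup.of x := by
    intro x hxc
    rw [MulAut.mul_apply, MulAut.mul_apply]
    by_cases hxi : x = i
    · subst hxi
      rw [t2, map_inv, hx c (Ne.symm hic), map_inv, s2, inv_inv]
    · rw [t3 x hxi hxc, hx x hxi, s3 x hxi hxc]
  rcases hi with h | h
  · refine Mv_of_form (u := (σ (kill i u))⁻¹) (v := σ (kill i v)) (by rw [map_inv, k1])
      (k1 v) (Or.inl ?_) hxx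
    rw [MulAut.mul_apply, MulAut.mul_apply, t1, h, map_mul, map_mul, map_inv, s1]
  · refine Mv_of_form (u := (σ (kill i v))⁻¹) (v := σ (kill i u)) (by rw [map_inv, k1])
      (k1 u) (Or.inr ?_) hxx
    rw [MulAut.mul_apply, MulAut.mul_apply, t1, h, map_mul, map_mul, map_inv, map_inv, s1]

theorem ee (h : Hyp g I f) (hI : 5 ≤ I.card) {c : Fin n} (hc : c ∈ I) :
    VV g f c ⊔ WW g I f c = HH g I f Finset.univ := by
  apply le_antisymm
  · refine sup_le ?_ ?_
    · unfold VV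
      rw [Subgroup.closure_le]
      rintro x ⟨φ, hφ, hφg, rfl⟩
      exact cc2_HH g I f hc (Finset.mem_univ c) (cc2_MvIn_univ.2 hφ) hφg
    · unfold WW
      rw [Subgroup.closure_le]
      rintro x (⟨i, hi, hic, v, hv, rfl | rfl⟩ | ⟨j, hj, e, he, hec, v, hv, rfl⟩)
      · exact cc2_HH g I f hi (Finset.mem_univ i) (cc2_R_MvIn i (cc2_mem_univ _))
          (cc2_R_qq_Gam g (h.one c hc) v)
      · exact cc2_HH g I f hi (Finset.mem_univ i) (cc2_L_MvIn i (cc2_mem_univ _))
          (cc2_L_qq_Gam g (h.one c hc) v)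
      · have h1 : fe g f (R e (qq c v)) ∈ HH g I f Finset.univ :=
          cc2_HH g I f he (Finset.mem_univ e) (cc2_R_MvIn e (cc2_mem_univ _))
            (cc2_R_qq_Gam g (h.one c hc) v)
        have h2 : fe g f (R j (FreeGroup.of e)) ∈ HH g I f Finset.univ :=
          cc2_HH' g I f he (Finset.mem_univ e) hj
        exact mul_mem (mul_mem (mul_mem (inv_mem h1) (inv_mem h2)) h1) h2
  · have hK1 : VV g f c ≤ VV g f c ⊔ WW g I f c := le_sup_left
    have hK2 : WW g I f c ≤ VV g f c ⊔ WW g I f c := le_sup_right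
    -- `r_j (x_c)`
    have hjc : ∀ j, j ∉ I → fe g f (R j (FreeGroup.of c)) ∈ VV g f c ⊔ WW g I f c := by
      intro j hj
      obtain ⟨e, he, hec, -⟩ := cc2_exists I (c := c) (d := c) hI
      have h1 := cc2_yy g f (h.one c hc) (h.one e he) hec (j := j) (fun e' => hj (e' ▸ he))
        (fun e' => hj (e' ▸ hc))
      rw [← h1]
      exact hK2 (Subgroup.subset_closure (Or.inr ⟨j, hj, e, he, hec, 1, one_mem _, rfl⟩))
    have key : HH g I f Finset.univ ≤ VV g f c ⊔ WW g I f c := by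
      rw [HH, Subgroup.closure_le]
      rintro x (⟨i, hi, -, φ, hφ, hφg, rfl⟩ | ⟨j, hj, i, hi, -, rfl⟩)
      · rw [cc2_MvIn_univ] at hφ
        by_cases hic : i = c
        · subst hic
          exact hK1 (cc2_VV g f hφ hφg)
        · obtain ⟨σ, hσ, hσM⟩ := cc2_rot (n := n) hic
          have g1 : R i (FreeGroup.of c) ∈ Gam g := cc2_R_Gam g (h.one c hc)
          have g2 : R c (FreeGroup.of i)⁻¹ ∈ Gam g := by
            rw [map_inv]
            exact inv_mem (cc2_R_Gam g (h.one i hi))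
          have g3 : L i (FreeGroup.of c)⁻¹ ∈ Gam g := by
            rw [map_inv]
            exact inv_mem (cc2_L_Gam g (h.one c hc))
          have gσ : σ ∈ Gam g := by
            rw [hσ]
            exact mul_mem (mul_mem g1 g2) g3
          have fσ : fe g f σ ∈ VV g f c ⊔ WW g I f c := by
            rw [hσ, fe_mul g f (mul_mem g1 g2) g3, fe_mul g f g1 g2]
            refine mul_mem (mul_mem (hK2 ?_) (hK1 ?_)) (hK2 ?_)
            · exact Subgroup.subset_closure (Or.inl ⟨i, hi, hic, 1, one_mem _, Or.inl (by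
                rw [cc2_qq_one])⟩)
            · exact cc2_VV g f (cc2_R_Mv c _) g2
            · rw [map_inv, fe_inv g f (cc2_L_Gam g (h.one c hc))]
              exact inv_mem (Subgroup.subset_closure (Or.inl ⟨i, hi, hic, 1, one_mem _,
                Or.inr (by rw [cc2_qq_one])⟩))
          have e1 : φ = σ⁻¹ * (σ * φ * σ⁻¹) * σ := by group
          have gc : σ * φ * σ⁻¹ ∈ Gam g := mul_mem (mul_mem gσ hφg) (inv_mem gσ)
          rw [e1, fe_mul g f (mul_mem (inv_mem gσ) gc) gσ, fe_mul g f (inv_mem gσ) gc,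
            fe_inv g f gσ]
          exact mul_mem (mul_mem (inv_mem fσ) (hK1 (cc2_VV g f (hσM φ hφ) gc))) fσ
      · by_cases hic : i = c
        · subst hic
          exact hjc j hj
        · have hjc' : j ≠ c := fun e => hj (e ▸ hc)
          have hji : j ≠ i := fun e => hj (e ▸ hi)
          have h1 := conj_I2 (a := c) (d := j) (Ne.symm hjc') (w := FreeGroup.of i)
            (kill_of_ne (Ne.symm hji)) (kill_of_ne hic)
          have gj : R j (FreeGroup.of c) ∈ Gam g := cc2_R_Gam g (h.one c hc)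
          have gc : R c (FreeGroup.of i) ∈ Gam g := cc2_R_Gam g (h.one i hi)
          have h2 : R j (FreeGroup.of c * (FreeGroup.of i)⁻¹ * (FreeGroup.of c)⁻¹) =
              (R c (FreeGroup.of i))⁻¹ *
                (R j (FreeGroup.of c) * R c (FreeGroup.of i) * (R j (FreeGroup.of c))⁻¹) := by
            rw [h1]
            group
          have h3 := R_cong g I f h (a := j) (w := FreeGroup.of c) (w' := 1)
            (u := (FreeGroup.of i)⁻¹) (kill_of_ne (Ne.symm hjc')) (map_one _)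
            (by rw [cc2_ret_of, if_neg (by simpa using hc), map_one])
            ⟨by rw [map_inv, cc2_ret_of, if_neg (by simpa using hi), inv_one],
              by rw [map_inv, kill_of_ne (Ne.symm hji)]⟩
          rw [one_mul, inv_one, mul_one, h2, map_inv, fe_inv g f (cc2_R_Gam g (h.one i hi)),
            fe_mul g f (inv_mem gc) (mul_mem (mul_mem gj gc) (inv_mem gj)),
            fe_mul g f (mul_mem gj gc) (inv_mem gj), fe_mul g f gj gc, fe_inv g f gc,
            fe_inv g f gj] at h3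
          change fe g f (R j (FreeGroup.of i)) ∈ VV g f c ⊔ WW g I f c
          rw [← inv_mem_iff, ← h3]
          have m1 : fe g f (R c (FreeGroup.of i)) ∈ VV g f c ⊔ WW g I f c :=
            hK1 (cc2_VV g f (cc2_R_Mv c _) gc)
          exact mul_mem (inv_mem m1) (mul_mem (mul_mem (hjc j hj) m1) (inv_mem (hjc j hj)))
    exact key

/-- `r_c (x_d)` and `l_c (x_d)` -/
private theorem cc2_cd (h : Hyp g I f) (hI : 5 ≤ I.card) {c d : Fin n} (hc : c ∈ I)
    (hd : d ∈ I) (hcd : c ≠ d) :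
    fe g f (R c (FreeGroup.of d)) ∈ HH g I f {c}ᶜ ⊔ HH g I f {d}ᶜ ∧
    fe g f (L c (FreeGroup.of d)) ∈ HH g I f {c}ᶜ ⊔ HH g I f {d}ᶜ := by
  obtain ⟨e, he, hec, hed⟩ := cc2_exists I (c := c) (d := d) hI
  have hK1 : HH g I f {c}ᶜ ≤ HH g I f {c}ᶜ ⊔ HH g I f {d}ᶜ := le_sup_left
  have hK2 : HH g I f {d}ᶜ ≤ HH g I f {c}ᶜ ⊔ HH g I f {d}ᶜ := le_sup_right
  have ge : R e (FreeGroup.of d) ∈ Gam g := cc2_R_Gam g (h.one d hd)
  have fe1 : fe g f (R e (FreeGroup.of d)) ∈ HH g I f {c}ᶜ ⊔ HH g I f {d}ᶜ :=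
    hK1 (cc2_HH g I f he (by simpa using hec) (cc2_R_MvIn e (cc2_of_compl (Ne.symm hcd))) ge)
  have hP : Pres c (R e (FreeGroup.of d)) := pres_R (Ne.symm hec) (kill_of_ne (Ne.symm hcd))
  have hval : R e (FreeGroup.of d) (kill c (FreeGroup.of e)) =
      FreeGroup.of e * FreeGroup.of d := by
    rw [kill_of_ne hec, R_of_self, kill_of_ne (Ne.symm hed)]
  constructor
  · have h1 := hP.conj_R (FreeGroup.of e)
    rw [hval, map_mul] at h1
    have h2 : R c (FreeGroup.of d) = (R c (FreeGroup.of e))⁻¹ *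
        (R e (FreeGroup.of d) * R c (FreeGroup.of e) * (R e (FreeGroup.of d))⁻¹) := by
      rw [h1]
      group
    have gc : R c (FreeGroup.of e) ∈ Gam g := cc2_R_Gam g (h.one e he)
    have m1 : fe g f (R c (FreeGroup.of e)) ∈ HH g I f {c}ᶜ ⊔ HH g I f {d}ᶜ :=
      hK2 (cc2_HH g I f hc (by simpa using hcd) (cc2_R_MvIn c (cc2_of_compl hed)) gc)
    rw [h2, fe_mul g f (inv_mem gc) (mul_mem (mul_mem ge gc) (inv_mem ge)),
      fe_mul g f (mul_mem ge gc) (inv_mem ge), fe_mul g f ge gc, fe_inv g f gc, fe_inv g f ge]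
    exact mul_mem (inv_mem m1) (mul_mem (mul_mem fe1 m1) (inv_mem fe1))
  · have h1 := hP.conj_L (FreeGroup.of e)
    rw [hval, map_mul] at h1
    have h2 : L c (FreeGroup.of d) = (L c (FreeGroup.of e))⁻¹ *
        (R e (FreeGroup.of d) * L c (FreeGroup.of e) * (R e (FreeGroup.of d))⁻¹) := by
      rw [h1]
      group
    have gc : L c (FreeGroup.of e) ∈ Gam g := cc2_L_Gam g (h.one e he)
    have m1 : fe g f (L c (FreeGroup.of e)) ∈ HH g I f {c}ᶜ ⊔ HH g I f {d}ᶜ :=
      hK2 (cc2_HH g I f hc (by simpa using hcd) (cc2_L_MvIn c (cc2_of_compl hed)) gc)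
    rw [h2, fe_mul g f (inv_mem gc) (mul_mem (mul_mem ge gc) (inv_mem ge)),
      fe_mul g f (mul_mem ge gc) (inv_mem ge), fe_mul g f ge gc, fe_inv g f gc, fe_inv g f ge]
    exact mul_mem (inv_mem m1) (mul_mem (mul_mem fe1 m1) (inv_mem fe1))

/-- `c_i (x_b)` -/
private theorem cc2_C (h : Hyp g I f) (hI : 5 ≤ I.card) {c d : Fin n} (hc : c ∈ I)
    (hd : d ∈ I) (hcd : c ≠ d) {i : Fin n} (hi : i ∈ I) (u : FreeGroup (Fin n)) :
    fe g f (C i u) ∈ HH g I f {c}ᶜ ⊔ HH g I f {d}ᶜ := by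
  have hK1 : HH g I f {c}ᶜ ≤ HH g I f {c}ᶜ ⊔ HH g I f {d}ᶜ := le_sup_left
  have hK2 : HH g I f {d}ᶜ ≤ HH g I f {c}ᶜ ⊔ HH g I f {d}ᶜ := le_sup_right
  have hG : ∀ w, C i w ∈ Gam g := C_mem_Gam g (h.one i hi)
  have hu : u ∈ Subgroup.closure (Set.range (FreeGroup.of : Fin n → FreeGroup (Fin n))) := by
    rw [FreeGroup.closure_range_of]
    trivial
  induction hu using Subgroup.closure_induction with
  | one => rw [map_one, fe_one]; exact one_mem _
  | mul x y _ _ hx hy =>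
    rw [map_mul, fe_mul g f (hG x) (hG y)]
    exact mul_mem hx hy
  | inv x _ hx =>
    rw [map_inv, fe_inv g f (hG x)]
    exact inv_mem hx
  | mem x hx =>
    obtain ⟨b, rfl⟩ := hx
    by_cases hbi : b = i
    · have h1 : C i (FreeGroup.of b) = 1 := by
        rw [← C_killed, kill_of, if_pos hbi, map_one]
      rw [h1, fe_one]
      exact one_mem _
    by_cases h1 : i ≠ c ∧ b ≠ c
    · exact hK1 (cc2_HH g I f hi (by simpa using h1.1) (cc2_C_MvIn i (cc2_of_compl h1.2)) (hG _))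
    by_cases h2 : i ≠ d ∧ b ≠ d
    · exact hK2 (cc2_HH g I f hi (by simpa using h2.1) (cc2_C_MvIn i (cc2_of_compl h2.2)) (hG _))
    have h3 : (i = c ∧ b = d) ∨ (i = d ∧ b = c) := by
      by_cases hic : i = c
      · left
        refine ⟨hic, ?_⟩
        by_contra hbd
        exact h2 ⟨by rw [hic]; exact hcd, hbd⟩
      · right
        have hbc : b = c := by
          by_contra hbc
          exact h1 ⟨hic, hbc⟩
        refine ⟨?_, hbc⟩
        by_contra hid
        exact h2 ⟨hid, by rw [hbc]; exact hcd⟩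
    rcases h3 with ⟨rfl, rfl⟩ | ⟨rfl, rfl⟩
    · have h4 := cc2_cd g I f h hI hc hd hcd
      rw [C_eq, fe_mul g f (cc2_L_Gam g (h.one b hd)) (cc2_R_Gam g (h.one b hd))]
      exact mul_mem h4.2 h4.1
    · have h4 := cc2_cd g I f h hI hd hc (Ne.symm hcd)
      rw [sup_comm] at h4
      rw [C_eq, fe_mul g f (cc2_L_Gam g (h.one b hc)) (cc2_R_Gam g (h.one b hc))]
      exact mul_mem h4.2 h4.1

/-- `r_i (v x_i' v⁻¹)` -/
private theorem cc2_Rqq (h : Hyp g I f) (hI : 5 ≤ I.card) {c d : Fin n} (hc : c ∈ I)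
    (hd : d ∈ I) (hcd : c ≠ d) {i b : Fin n} (hi : i ∈ I) (hb : b ∈ I) (hbi : b ≠ i)
    {v : FreeGroup (Fin n)} (hv : v ∈ fsub Iᶜ) :
    fe g f (R i (qq b v)) ∈ HH g I f {c}ᶜ ⊔ HH g I f {d}ᶜ := by
  have hK1 : HH g I f {c}ᶜ ≤ HH g I f {c}ᶜ ⊔ HH g I f {d}ᶜ := le_sup_left
  have hK2 : HH g I f {d}ᶜ ≤ HH g I f {c}ᶜ ⊔ HH g I f {d}ᶜ := le_sup_right
  have hR : fe g f (R i (FreeGroup.of b)) ∈ HH g I f {c}ᶜ ⊔ HH g I f {d}ᶜ := by
    have gR : R i (FreeGroup.of b) ∈ Gam g := cc2_R_Gam g (h.one b hb)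
    by_cases h1 : i ≠ c ∧ b ≠ c
    · exact hK1 (cc2_HH g I f hi (by simpa using h1.1) (cc2_R_MvIn i (cc2_of_compl h1.2)) gR)
    by_cases h2 : i ≠ d ∧ b ≠ d
    · exact hK2 (cc2_HH g I f hi (by simpa using h2.1) (cc2_R_MvIn i (cc2_of_compl h2.2)) gR)
    have h3 : (i = c ∧ b = d) ∨ (i = d ∧ b = c) := by
      by_cases hic : i = c
      · left
        refine ⟨hic, ?_⟩
        by_contra hbd
        exact h2 ⟨by rw [hic]; exact hcd, hbd⟩
      · right
        have hbc : b = c := by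
          by_contra hbc
          exact h1 ⟨hic, hbc⟩
        refine ⟨?_, hbc⟩
        by_contra hid
        exact h2 ⟨hid, by rw [hbc]; exact hcd⟩
    rcases h3 with ⟨rfl, rfl⟩ | ⟨rfl, rfl⟩
    · exact (cc2_cd g I f h hI hc hd hcd).1
    · have h4 := (cc2_cd g I f h hI hd hc (Ne.symm hcd)).1
      rwa [sup_comm] at h4
  have hiI : i ∉ Iᶜ := by simpa using hi
  have hP : Pres i (C b v⁻¹) :=
    pres_C (Ne.symm hbi) (by rw [map_inv, kill_eq hv hiI])
  have hbI : b ∉ Iᶜ := by simpa using hb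
  have h1 := hP.conj_R (FreeGroup.of b)
  have hk : kill b v⁻¹ = v⁻¹ := by rw [map_inv, kill_eq hv hbI]
  rw [kill_of_ne hbi, C_of_self, hk, inv_inv] at h1
  have gC : C b v⁻¹ ∈ Gam g := C_mem_Gam g (h.one b hb) _
  have gR : R i (FreeGroup.of b) ∈ Gam g := cc2_R_Gam g (h.one b hb)
  unfold qq
  rw [← h1, fe_mul g f (mul_mem gC gR) (inv_mem gC), fe_mul g f gC gR, fe_inv g f gC]
  have m1 := cc2_C g I f h hI hc hd hcd hb v⁻¹
  exact mul_mem (mul_mem m1 hR) (inv_mem m1)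

theorem hh (h : Hyp g I f) (hI : 5 ≤ I.card) {c d : Fin n} (hc : c ∈ I) (hd : d ∈ I)
    (hcd : c ≠ d) : HH g I f {c}ᶜ ⊔ HH g I f {d}ᶜ = HH g I f Finset.univ := by
  apply le_antisymm
  · exact sup_le (cc2_HH_mono g I f (Finset.subset_univ _))
      (cc2_HH_mono g I f (Finset.subset_univ _))
  have hK1 : HH g I f {c}ᶜ ≤ HH g I f {c}ᶜ ⊔ HH g I f {d}ᶜ := le_sup_left
  have hK2 : HH g I f {d}ᶜ ≤ HH g I f {c}ᶜ ⊔ HH g I f {d}ᶜ := le_sup_right
  -- elements in both hyperplane groups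
  have hboth : ∀ i ∈ I, ∀ φ, φ ∈ Gam g → (i ≠ c → φ ∈ MvIn {c}ᶜ i) → (i ≠ d → φ ∈ MvIn {d}ᶜ i) →
      fe g f φ ∈ HH g I f {c}ᶜ ⊔ HH g I f {d}ᶜ := by
    intro i hi φ hφ h1 h2
    by_cases hic : i = c
    · have hid : i ≠ d := by rw [hic]; exact hcd
      exact hK2 (cc2_HH g I f hi (by simpa using hid) (h2 hid) hφ)
    · exact hK1 (cc2_HH g I f hi (by simpa using hic) (h1 hic) hφ)
  have key : HH g I f Finset.univ ≤ HH g I f {c}ᶜ ⊔ HH g I f {d}ᶜ := by
    rw [HH, Subgroup.closure_le]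
    rintro x (⟨i, hi, -, φ, ⟨u, -, v, -, hφ⟩, hφg, rfl⟩ | ⟨j, hj, i, hi, -, rfl⟩)
    · have gs : sg i ∈ Gam g := sg_mem_Gam g (h.one i hi)
      have gC : C i u ∈ Gam g := C_mem_Gam g (h.one i hi) u
      have ms : fe g f (sg i) ∈ HH g I f {c}ᶜ ⊔ HH g I f {d}ᶜ :=
        hboth i hi _ gs (fun _ => cc2_sg_MvIn _ i) (fun _ => cc2_sg_MvIn _ i)
      have mC := cc2_C g I f h hI hc hd hcd hi u
      have e1 : L i u * R i v = C i u * R i (u⁻¹ * v) := by
        rw [C_eq, map_mul, map_inv]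
        group
      -- the word `k`
      have main : ∀ k, R i k ∈ Gam g → fe g f (R i k) ∈ HH g I f {c}ᶜ ⊔ HH g I f {d}ᶜ := by
        intro k hk
        have hiI : i ∉ Iᶜ := by simpa using hi
        obtain ⟨k', hk'⟩ : ∃ k', k' = kill i k := ⟨_, rfl⟩
        have hkk : kill i k' = k' := by rw [hk', kill_kill]
        rw [← R_killed, ← hk'] at hk ⊢
        have hev : ev g k' = 1 := by
          have := (R_mem_Gam_iff g i k').1 hk
          rwa [hkk] at this
        obtain ⟨kJ, hkJ⟩ : ∃ kJ, kJ = ret Iᶜ k' := ⟨_, rfl⟩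
        have hkJm : kJ ∈ fsub Iᶜ := by rw [hkJ]; exact ret_mem _ _
        have hkJk : kill i kJ = kJ := kill_eq hkJm hiI
        have hkJ1 : ev g kJ = 1 := by rw [hkJ, cc2_ev_ret g I h.one, hev]
        have gJ : R i kJ ∈ Gam g := by rw [R_mem_Gam_iff, hkJk, hkJ1]
        have hU : k' * kJ⁻¹ ∈ UU I i := by
          refine ⟨?_, ?_⟩
          · rw [map_mul, map_inv, ret_eq hkJm, ← hkJ, mul_inv_cancel]
          · rw [map_mul, map_inv, hkk, hkJk]
        have gU : R i (k' * kJ⁻¹) ∈ Gam g := by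
          rw [R_mem_Gam_iff, hU.2, map_mul, map_inv, hev, hkJ1, inv_one, mul_one]
        have e2 : R i k' = R i (k' * kJ⁻¹) * R i kJ := by
          rw [← map_mul]
          group
        rw [e2, fe_mul g f gU gJ]
        refine mul_mem ?_ ?_
        · have h1 := (LU g I f h hi Finset.univ hU (cc2_mem_univ _)).1
          refine (Subgroup.closure_le _).2 ?_ h1
          rintro x ⟨b, hb, -, hbi, w, hw, rfl⟩
          exact cc2_Rqq g I f h hI hc hd hcd hi hb hbi hw
        · exact hboth i hi _ gJ (fun _ => cc2_R_MvIn i (cc2_compl hc hkJm))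
            (fun _ => cc2_R_MvIn i (cc2_compl hd hkJm))
      have hLR : L i u * R i v ∈ Gam g →
          fe g f (L i u * R i v) ∈ HH g I f {c}ᶜ ⊔ HH g I f {d}ᶜ := by
        intro hg
        have gR : R i (u⁻¹ * v) ∈ Gam g := by
          have : R i (u⁻¹ * v) = (C i u)⁻¹ * (L i u * R i v) := by rw [e1]; group
          rw [this]
          exact mul_mem (inv_mem gC) hg
        rw [e1, fe_mul g f gC gR]
        exact mul_mem mC (main _ gR)
      rcases hφ with rfl | rfl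
      · exact hLR hφg
      · have hg : L i u * R i v ∈ Gam g := by
          have : L i u * R i v = L i u * R i v * sg i * (sg i)⁻¹ := by group
          rw [this]
          exact mul_mem hφg (inv_mem gs)
        rw [fe_mul g f hg gs]
        exact mul_mem (hLR hg) ms
    · by_cases hic : i = c
      · have hid : i ≠ d := by rw [hic]; exact hcd
        exact hK2 (cc2_HH' g I f hi (by simpa using hid) hj)
      · exact hK1 (cc2_HH' g I f hi (by simpa using hic) hj)
  exact key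

end Image

end RED
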