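import Mathlib

/-!
# The glue lemma (a finite form of Tavgen's rank reduction)
-/

set_option autoImplicit false

namespace RED

open Pointwise commutatorElement

section Sets

variable {T : Type*} [Group T]

theorem glue_set_comm {H N : Subgroup T} (h : ∀ x ∈ H, ∀ v ∈ N, x * v * x⁻¹ ∈ N) {A : Set T}
    (hA : A ⊆ (H : Set T)) : Commute A (N : Set T) := by
  show A * (N : Set T) = (N : Set T) * A
  exact Subgroup.set_mul_normalizer_comm A N
    (hA.trans (fun x hx => (Subgroup.le_normalizer_iff.2 h) hx))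

theorem glue_exhaust (H M A B : Subgroup T) [Finite H] (hM : M ≤ H) (hA : A ≤ H) (hB : B ≤ H)
    (hH : H ≤ M ⊔ A ⊔ B) (cA : Commute (M : Set T) (A : Set T))
    (cB : Commute (M : Set T) (B : Set T)) :
    ∃ L, ∀ k, L ≤ k → (M : Set T) * ((A : Set T) * (B : Set T)) ^ k = (H : Set T) := by
  have h1 : (1 : T) ∈ (A : Set T) * (B : Set T) := ⟨1, A.one_mem, 1, B.one_mem, mul_one 1⟩
  have hsup : M ⊔ A ⊔ B = Subgroup.closure ((M : Set T) ∪ A ∪ B) := by
    rw [Subgroup.closure_union, Subgroup.closure_union, Subgroup.closure_eq,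
      Subgroup.closure_eq, Subgroup.closure_eq]
  have cAB : ∀ k, Commute (M : Set T) (((A : Set T) * (B : Set T)) ^ k) := fun k =>
    (cA.mul_right cB).pow_right k
  have hMM : ∀ k, (M : Set T) * ((A : Set T) * (B : Set T)) ^ k * (M : Set T) =
      (M : Set T) * ((A : Set T) * (B : Set T)) ^ k := by
    intro k
    rw [mul_assoc, ← (cAB k).eq, ← mul_assoc, coe_mul_coe]
  have hA1 : (A : Set T) ⊆ (A : Set T) * (B : Set T) := fun x hx =>
    ⟨x, hx, 1, B.one_mem, mul_one x⟩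
  have hB1 : (B : Set T) ⊆ (A : Set T) * (B : Set T) := fun x hx =>
    ⟨1, A.one_mem, x, hx, one_mul x⟩
  have step : ∀ x k, x ∈ (M : Set T) * ((A : Set T) * (B : Set T)) ^ k →
      ∀ y ∈ (M : Set T) ∪ A ∪ B, ∃ l, x * y ∈ (M : Set T) * ((A : Set T) * (B : Set T)) ^ l := by
    rintro x k hx y ((hy | hy) | hy)
    · refine ⟨k, ?_⟩
      rw [← hMM k]
      exact Set.mul_mem_mul hx hy
    · refine ⟨k + 1, ?_⟩
      rw [pow_succ, ← mul_assoc]
      exact Set.mul_mem_mul hx (hA1 hy)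
    · refine ⟨k + 1, ?_⟩
      rw [pow_succ, ← mul_assoc]
      exact Set.mul_mem_mul hx (hB1 hy)
  have hinv : ∀ y ∈ (M : Set T) ∪ A ∪ B, y⁻¹ ∈ (M : Set T) ∪ A ∪ B := by
    rintro y ((hy | hy) | hy)
    · exact Or.inl (Or.inl (M.inv_mem hy))
    · exact Or.inl (Or.inr (A.inv_mem hy))
    · exact Or.inr (B.inv_mem hy)
  have key : ∀ x ∈ M ⊔ A ⊔ B, ∃ k, x ∈ (M : Set T) * ((A : Set T) * (B : Set T)) ^ k := by
    intro x hx
    rw [hsup] at hx
    induction hx using Subgroup.closure_induction_right with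
    | one => exact ⟨0, ⟨1, M.one_mem, 1, by simp, mul_one 1⟩⟩
    | mul_right x _ y hy ih =>
      obtain ⟨k, hk⟩ := ih
      exact step x k hk y hy
    | mul_inv_cancel x _ y hy ih =>
      obtain ⟨k, hk⟩ := ih
      exact step x k hk _ (hinv y hy)
  have key2 : ∀ x : H, ∃ k, (x : T) ∈ (M : Set T) * ((A : Set T) * (B : Set T)) ^ k :=
    fun x => key x (hH x.2)
  choose κ hκ using key2
  obtain ⟨L, hL⟩ := (Set.finite_range κ).bddAbove
  refine ⟨L, fun k hk => Set.Subset.antisymm ?_ ?_⟩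
  · have hABH : (A : Set T) * (B : Set T) ⊆ (H : Set T) := by
      rintro _ ⟨a, ha, b, hb, rfl⟩
      exact H.mul_mem (hA ha) (hB hb)
    have hpow : ∀ k, ((A : Set T) * (B : Set T)) ^ k ⊆ (H : Set T) := by
      intro k
      induction k with
      | zero => intro x hx; simp at hx; subst hx; exact H.one_mem
      | succ k ih =>
        rw [pow_succ]
        rintro _ ⟨a, ha, b, hb, rfl⟩
        exact H.mul_mem (ih ha) (hABH hb)
    rintro _ ⟨a, ha, b, hb, rfl⟩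
    exact H.mul_mem (hM ha) (hpow k hb)
  · intro x hx
    have h2 := hκ ⟨x, hx⟩
    have h3 : κ ⟨x, hx⟩ ≤ k := (hL ⟨⟨x, hx⟩, rfl⟩).trans hk
    exact Set.mul_subset_mul_left (Set.pow_subset_pow_right h1 h3) h2

theorem glue_pow_fin {s : Set T} (h : s.Finite) (k : ℕ) : (s ^ k).Finite := by
  induction k with
  | zero => rw [pow_zero]; exact Set.finite_one
  | succ k ih => rw [pow_succ]; exact Set.Finite.mul ih h

/-- the case of finite `H1`, `H2` -/
theorem glue_fin (E H1 H2 M V1 W1 Vn Wn : Subgroup T)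
    [Finite V1] [Finite W1] [Finite Vn] [Finite Wn] [Finite H1] [Finite H2]
    (hH : H1 ⊔ H2 = E)
    (n1 : ∀ h ∈ H1, ∀ v ∈ Vn, h * v * h⁻¹ ∈ Vn) (n2 : ∀ h ∈ H1, ∀ v ∈ Wn, h * v * h⁻¹ ∈ Wn)
    (n3 : ∀ h ∈ H2, ∀ v ∈ V1, h * v * h⁻¹ ∈ V1) (n4 : ∀ h ∈ H2, ∀ v ∈ W1, h * v * h⁻¹ ∈ W1)
    (hM1 : M ≤ H1) (hM2 : M ≤ H2)
    (d1 : H1 ≤ M ⊔ (V1 ⊓ H1) ⊔ (W1 ⊓ H1)) (d2 : H2 ≤ M ⊔ (Vn ⊓ H2) ⊔ (Wn ⊓ H2))
    (c1 : W1 ≤ (W1 ⊓ H1) ⊔ Vn) (c2 : Vn ≤ (Vn ⊓ H2) ⊔ W1)
    (c3 : V1 ≤ (V1 ⊓ H1) ⊔ Wn) (c4 : Wn ≤ (Wn ⊓ H2) ⊔ V1) : Finite E := by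
  -- the two descriptions of the upper and lower groups
  have U1 : ((V1 ⊓ H1 : Subgroup T) : Set T) * (Wn : Set T) =
      ((Wn ⊓ H2 : Subgroup T) : Set T) * (V1 : Set T) := by
    rw [← Subgroup.coe_mul_of_left_le_normalizer_right _ _
        ((inf_le_right : V1 ⊓ H1 ≤ H1).trans (Subgroup.le_normalizer_iff.2 n2)),
      ← Subgroup.coe_mul_of_left_le_normalizer_right _ _
        ((inf_le_right : Wn ⊓ H2 ≤ H2).trans (Subgroup.le_normalizer_iff.2 n3))]
    congr 1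
    exact le_antisymm (sup_le (inf_le_left.trans le_sup_right) c4)
      (sup_le (inf_le_left.trans le_sup_right) c3)
  have U2 : ((W1 ⊓ H1 : Subgroup T) : Set T) * (Vn : Set T) =
      ((Vn ⊓ H2 : Subgroup T) : Set T) * (W1 : Set T) := by
    rw [← Subgroup.coe_mul_of_left_le_normalizer_right _ _
        ((inf_le_right : W1 ⊓ H1 ≤ H1).trans (Subgroup.le_normalizer_iff.2 n1)),
      ← Subgroup.coe_mul_of_left_le_normalizer_right _ _
        ((inf_le_right : Vn ⊓ H2 ≤ H2).trans (Subgroup.le_normalizer_iff.2 n4))]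
    congr 1
    exact le_antisymm (sup_le (inf_le_left.trans le_sup_right) c2)
      (sup_le (inf_le_left.trans le_sup_right) c1)
  -- `M` normalises the pieces
  have nMV : ∀ x ∈ M, ∀ v ∈ V1 ⊓ H1, x * v * x⁻¹ ∈ V1 ⊓ H1 := fun x hx v hv =>
    ⟨n3 x (hM2 hx) v hv.1, H1.mul_mem (H1.mul_mem (hM1 hx) hv.2) (H1.inv_mem (hM1 hx))⟩
  have nMW : ∀ x ∈ M, ∀ v ∈ W1 ⊓ H1, x * v * x⁻¹ ∈ W1 ⊓ H1 := fun x hx v hv =>
    ⟨n4 x (hM2 hx) v hv.1, H1.mul_mem (H1.mul_mem (hM1 hx) hv.2) (H1.inv_mem (hM1 hx))⟩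
  have nMVn : ∀ x ∈ M, ∀ v ∈ Vn ⊓ H2, x * v * x⁻¹ ∈ Vn ⊓ H2 := fun x hx v hv =>
    ⟨n1 x (hM1 hx) v hv.1, H2.mul_mem (H2.mul_mem (hM2 hx) hv.2) (H2.inv_mem (hM2 hx))⟩
  have nMWn : ∀ x ∈ M, ∀ v ∈ Wn ⊓ H2, x * v * x⁻¹ ∈ Wn ⊓ H2 := fun x hx v hv =>
    ⟨n2 x (hM1 hx) v hv.1, H2.mul_mem (H2.mul_mem (hM2 hx) hv.2) (H2.inv_mem (hM2 hx))⟩
  obtain ⟨L1, hL1⟩ := glue_exhaust H1 M (V1 ⊓ H1) (W1 ⊓ H1) hM1 inf_le_right inf_le_right d1
    (glue_set_comm nMV subset_rfl) (glue_set_comm nMW subset_rfl)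
  obtain ⟨L2, hL2⟩ := glue_exhaust H2 M (Wn ⊓ H2) (Vn ⊓ H2) hM2 inf_le_right inf_le_right
    (d2.trans (le_of_eq (sup_right_comm _ _ _)))
    (glue_set_comm nMWn subset_rfl) (glue_set_comm nMVn subset_rfl)
  set k := max L1 L2 with hk
  set Y : Set T := (M : Set T) * (((V1 ⊓ H1 : Subgroup T) : Set T) * (Wn : Set T) *
    (((W1 ⊓ H1 : Subgroup T) : Set T) * (Vn : Set T))) ^ k with hY
  have e1 : Y = (H1 : Set T) * ((Wn : Set T) * (Vn : Set T)) ^ k := by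
    have hc1 : Commute ((V1 ⊓ H1 : Subgroup T) : Set T) (Wn : Set T) :=
      glue_set_comm n2 (fun x hx => hx.2)
    have hc2 : Commute ((V1 ⊓ H1 : Subgroup T) : Set T) (Vn : Set T) :=
      glue_set_comm n1 (fun x hx => hx.2)
    have hc3 : Commute ((W1 ⊓ H1 : Subgroup T) : Set T) (Wn : Set T) :=
      glue_set_comm n2 (fun x hx => hx.2)
    have hc4 : Commute ((W1 ⊓ H1 : Subgroup T) : Set T) (Vn : Set T) :=
      glue_set_comm n1 (fun x hx => hx.2)
    have e2 : ((V1 ⊓ H1 : Subgroup T) : Set T) * (Wn : Set T) *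
        (((W1 ⊓ H1 : Subgroup T) : Set T) * (Vn : Set T)) =
        (((V1 ⊓ H1 : Subgroup T) : Set T) * ((W1 ⊓ H1 : Subgroup T) : Set T)) *
        ((Wn : Set T) * (Vn : Set T)) := by
      rw [mul_assoc, ← mul_assoc (Wn : Set T), ← hc3.eq, mul_assoc, mul_assoc]
    rw [hY, e2, ((hc1.mul_right hc2).mul_left (hc3.mul_right hc4)).mul_pow, ← mul_assoc,
      hL1 k (le_max_left _ _)]
  have e2 : Y = (H2 : Set T) * ((V1 : Set T) * (W1 : Set T)) ^ k := by
    have hc1 : Commute ((Wn ⊓ H2 : Subgroup T) : Set T) (V1 : Set T) :=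
      glue_set_comm n3 (fun x hx => hx.2)
    have hc2 : Commute ((Wn ⊓ H2 : Subgroup T) : Set T) (W1 : Set T) :=
      glue_set_comm n4 (fun x hx => hx.2)
    have hc3 : Commute ((Vn ⊓ H2 : Subgroup T) : Set T) (V1 : Set T) :=
      glue_set_comm n3 (fun x hx => hx.2)
    have hc4 : Commute ((Vn ⊓ H2 : Subgroup T) : Set T) (W1 : Set T) :=
      glue_set_comm n4 (fun x hx => hx.2)
    have e2 : ((Wn ⊓ H2 : Subgroup T) : Set T) * (V1 : Set T) *
        (((Vn ⊓ H2 : Subgroup T) : Set T) * (W1 : Set T)) =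
        (((Wn ⊓ H2 : Subgroup T) : Set T) * ((Vn ⊓ H2 : Subgroup T) : Set T)) *
        ((V1 : Set T) * (W1 : Set T)) := by
      rw [mul_assoc, ← mul_assoc (V1 : Set T), ← hc3.eq, mul_assoc, mul_assoc]
    rw [hY, U1, U2, e2, ((hc1.mul_right hc2).mul_left (hc3.mul_right hc4)).mul_pow, ← mul_assoc,
      hL2 k (le_max_right _ _)]
  have s1 : ∀ h ∈ H1, ∀ y ∈ Y, h * y ∈ Y := by
    intro h hh y hy
    rw [e1] at hy ⊢
    obtain ⟨a, ha, b, hb, rfl⟩ := hy
    exact ⟨h * a, H1.mul_mem hh ha, b, hb, mul_assoc _ _ _⟩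
  have s2 : ∀ h ∈ H2, ∀ y ∈ Y, h * y ∈ Y := by
    intro h hh y hy
    rw [e2] at hy ⊢
    obtain ⟨a, ha, b, hb, rfl⟩ := hy
    exact ⟨h * a, H2.mul_mem hh ha, b, hb, mul_assoc _ _ _⟩
  have s3 : ∀ e ∈ E, ∀ y ∈ Y, e * y ∈ Y := by
    intro e he
    rw [← hH, ← Subgroup.closure_eq H1, ← Subgroup.closure_eq H2, ← Subgroup.closure_union] at he
    induction he using Subgroup.closure_induction_left with
    | one => intro y hy; rwa [one_mul]
    | mul_left x hx y _ ih =>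
      intro z hz
      rw [mul_assoc]
      rcases hx with hx | hx
      · exact s1 x hx _ (ih z hz)
      · exact s2 x hx _ (ih z hz)
    | inv_mul_cancel x hx y _ ih =>
      intro z hz
      rw [mul_assoc]
      rcases hx with hx | hx
      · exact s1 _ (H1.inv_mem hx) _ (ih z hz)
      · exact s2 _ (H2.inv_mem hx) _ (ih z hz)
  have hone : (1 : T) ∈ Y := by
    rw [e1]
    refine ⟨1, H1.one_mem, 1, ?_, mul_one 1⟩
    exact Set.one_mem_pow ⟨1, Wn.one_mem, 1, Vn.one_mem, mul_one 1⟩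
  have hfin : Y.Finite := by
    rw [e1]
    refine Set.Finite.mul (Set.toFinite _) ?_
    have h2 : ((Wn : Set T) * (Vn : Set T)).Finite := Set.Finite.mul (Set.toFinite _) (Set.toFinite _)
    exact glue_pow_fin h2 k
  have hsub : (E : Set T) ⊆ Y := by
    intro e he
    have := s3 e he 1 hone
    rwa [mul_one] at this
  exact (hfin.subset hsub).to_subtype

/-- a group whose centre has finite index and which is generated by two finite subgroups -/
theorem glue_schur (V W : Subgroup T) [Finite V] [Finite W] (hVW : V ⊔ W = ⊤)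
    (hZ : Finite (T ⧸ Subgroup.center T)) : Finite T := by
  classical
  have h1 : Finite (commutatorSet T) := by
    have hfin : (Set.range (fun p : (T ⧸ Subgroup.center T) × (T ⧸ Subgroup.center T) =>
        ⁅p.1.out, p.2.out⁆)).Finite := Set.finite_range _
    refine (hfin.subset ?_).to_subtype
    rintro _ ⟨x, y, rfl⟩
    refine ⟨(QuotientGroup.mk x, QuotientGroup.mk y), ?_⟩
    obtain ⟨z, hz⟩ := QuotientGroup.mk_out_eq_mul (Subgroup.center T) x
    obtain ⟨w, hw⟩ := QuotientGroup.mk_out_eq_mul (Subgroup.center T) y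
    have cz := Subgroup.mem_center_iff.1 z.2
    have cw := Subgroup.mem_center_iff.1 w.2
    show ⁅(QuotientGroup.mk x : T ⧸ Subgroup.center T).out,
      (QuotientGroup.mk y : T ⧸ Subgroup.center T).out⁆ = ⁅x, y⁆
    rw [hz, hw, commutatorElement_def, commutatorElement_def]
    have e1 : x * (z : T) * (y * (w : T)) = x * y * ((z : T) * (w : T)) := by
      rw [mul_assoc x, ← mul_assoc (z : T), ← cz y]
      simp only [mul_assoc]
    have e2 : (x * (z : T))⁻¹ * (y * (w : T))⁻¹ = (x⁻¹ * y⁻¹) * ((z : T) * (w : T))⁻¹ := by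
      have e0 : y * (w : T) * (x * (z : T)) = (z : T) * (w : T) * (y * x) := by
        calc y * (w : T) * (x * (z : T)) = y * ((w : T) * x) * (z : T) := by group
          _ = y * (x * (w : T)) * (z : T) := by rw [cw x]
          _ = (y * x) * ((w : T) * (z : T)) := by group
          _ = (y * x * (z : T)) * (w : T) := by rw [cz (w : T)]; group
          _ = (z : T) * ((y * x) * (w : T)) := by rw [cz (y * x)]; group
          _ = (z : T) * (w : T) * (y * x) := by rw [cw (y * x)]; group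
      rw [← mul_inv_rev, ← mul_inv_rev, ← mul_inv_rev, e0]
    have e3 : ((z : T) * (w : T)) * (x⁻¹ * y⁻¹) = (x⁻¹ * y⁻¹) * ((z : T) * (w : T)) := by
      rw [mul_assoc, ← cw (x⁻¹ * y⁻¹), ← mul_assoc, ← cz (x⁻¹ * y⁻¹)]
      simp only [mul_assoc]
    calc x * (z : T) * (y * (w : T)) * (x * (z : T))⁻¹ * (y * (w : T))⁻¹
        = (x * (z : T) * (y * (w : T))) * ((x * (z : T))⁻¹ * (y * (w : T))⁻¹) := by
          rw [mul_assoc]
      _ = x * y * (((z : T) * (w : T)) * (x⁻¹ * y⁻¹)) * ((z : T) * (w : T))⁻¹ := by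
          rw [e1, e2]; simp only [mul_assoc]
      _ = x * y * x⁻¹ * y⁻¹ := by
          rw [e3]; group
  have h2 : Finite (_root_.commutator T) := inferInstance
  have h3 : Finite (Abelianization T) := by
    have hs : V.map (Abelianization.of) ⊔ W.map (Abelianization.of) = ⊤ := by
      rw [← Subgroup.map_sup, hVW]
      exact Subgroup.map_top_of_surjective _ (QuotientGroup.mk'_surjective _)
    have hc : ((V.map (Abelianization.of) ⊔ W.map (Abelianization.of) :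
        Subgroup (Abelianization T)) : Set (Abelianization T)) =
        (V.map (Abelianization.of) : Subgroup (Abelianization T)) *
        (W.map (Abelianization.of) : Subgroup (Abelianization T)) := Subgroup.mul_normal _ _
    have hf : ((V.map (Abelianization.of) : Subgroup (Abelianization T)) *
        (W.map (Abelianization.of) : Subgroup (Abelianization T)) :
        Set (Abelianization T)).Finite := by
      refine Set.Finite.mul ?_ ?_
      · exact (Set.toFinite (V : Set T)).image _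
      · exact (Set.toFinite (W : Set T)).image _
    rw [← hc, hs] at hf
    exact Set.finite_univ_iff.1 hf
  have h4 : Finite (T ⧸ _root_.commutator T) := h3
  exact Finite.of_equiv _ (Subgroup.groupEquivQuotientProdSubgroup
    (s := _root_.commutator T)).symm

end Sets

/-- MODULE GL -/
theorem glue_main {T : Type*} [Group T] (E H1 H2 M V1 W1 Vn Wn : Subgroup T)
    [Finite V1] [Finite W1] [Finite Vn] [Finite Wn]
    (hE1 : Vn ⊔ Wn = E) (hE2 : V1 ⊔ W1 = E) (hH1 : H1 ≤ E) (hH2 : H2 ≤ E) (hH : H1 ⊔ H2 = E)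
    (n1 : ∀ h ∈ H1, ∀ v ∈ Vn, h * v * h⁻¹ ∈ Vn) (n2 : ∀ h ∈ H1, ∀ v ∈ Wn, h * v * h⁻¹ ∈ Wn)
    (n3 : ∀ h ∈ H2, ∀ v ∈ V1, h * v * h⁻¹ ∈ V1) (n4 : ∀ h ∈ H2, ∀ v ∈ W1, h * v * h⁻¹ ∈ W1)
    (hM1 : M ≤ H1) (hM2 : M ≤ H2)
    (d1 : H1 ≤ M ⊔ (V1 ⊓ H1) ⊔ (W1 ⊓ H1)) (d2 : H2 ≤ M ⊔ (Vn ⊓ H2) ⊔ (Wn ⊓ H2))
    (c1 : W1 ≤ (W1 ⊓ H1) ⊔ Vn) (c2 : Vn ≤ (Vn ⊓ H2) ⊔ W1)
    (c3 : V1 ≤ (V1 ⊓ H1) ⊔ Wn) (c4 : Wn ≤ (Wn ⊓ H2) ⊔ V1) : Finite E := by
  classical
  have hV1 : V1 ≤ E := hE2 ▸ le_sup_left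
  have hW1 : W1 ≤ E := hE2 ▸ le_sup_right
  have hVn : Vn ≤ E := hE1 ▸ le_sup_left
  have hWn : Wn ≤ E := hE1 ▸ le_sup_right
  have hM : M ≤ E := hM1.trans hH1
  set q : E →* (E ⧸ Subgroup.center E) := QuotientGroup.mk' (Subgroup.center E) with hq
  set Φ : Subgroup T → Subgroup (E ⧸ Subgroup.center E) := fun K => (K.subgroupOf E).map q
    with hΦ
  have P1 : ∀ {K K' : Subgroup T}, K ≤ K' → Φ K ≤ Φ K' := fun h =>
    Subgroup.map_mono (Subgroup.comap_mono h)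
  have P2 : ∀ {A B : Subgroup T}, A ≤ E → B ≤ E → Φ (A ⊔ B) = Φ A ⊔ Φ B := by
    intro A B hA hB
    simp only [hΦ]
    rw [Subgroup.subgroupOf_sup hA hB, Subgroup.map_sup]
  have P3 : ∀ {A B : Subgroup T}, Φ (A ⊓ B) ≤ Φ A ⊓ Φ B := fun {A B} =>
    le_inf (P1 inf_le_left) (P1 inf_le_right)
  have P4 : ∀ (K : Subgroup T), Finite K → Finite (Φ K) := by
    intro K hK
    have h1 : ((fun x : E => (x : T)) ⁻¹' (K : Set T)).Finite :=
      (Set.toFinite (K : Set T)).preimage (Subtype.val_injective.injOn)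
    exact (h1.image q).to_subtype
  have P5 : ∀ {H V : Subgroup T}, (∀ h ∈ H, ∀ v ∈ V, h * v * h⁻¹ ∈ V) →
      ∀ h ∈ Φ H, ∀ v ∈ Φ V, h * v * h⁻¹ ∈ Φ V := by
    rintro H V h _ ⟨x, hx, rfl⟩ _ ⟨y, hy, rfl⟩
    refine ⟨x * y * x⁻¹, ?_, by simp⟩
    exact h x hx y hy
  have P7 : ∀ {H V W : Subgroup T}, Finite V → Finite W → V ⊔ W = E → H ≤ E →
      (∀ h ∈ H, ∀ v ∈ V, h * v * h⁻¹ ∈ V) → (∀ h ∈ H, ∀ v ∈ W, h * v * h⁻¹ ∈ W) →
      Finite (Φ H) := by
    intro H V W fV fW hVW hHE nV nW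
    have hpre : ∀ x : Φ H, ∃ h : T, ∃ hh : h ∈ H, q ⟨h, hHE hh⟩ = x.1 := by
      rintro ⟨_, ⟨x, hx, rfl⟩⟩
      exact ⟨x.1, hx, rfl⟩
    choose pr hpr hpr2 using hpre
    let F : Φ H → (V → V) × (W → W) := fun x =>
      (fun v => ⟨pr x * v.1 * (pr x)⁻¹, nV _ (hpr x) v.1 v.2⟩,
        fun w => ⟨pr x * w.1 * (pr x)⁻¹, nW _ (hpr x) w.1 w.2⟩)
    apply Finite.of_injective F
    intro x y hxy
    have h1 : ∀ v ∈ V, pr x * v * (pr x)⁻¹ = pr y * v * (pr y)⁻¹ := fun v hv =>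
      congrArg Subtype.val (congrFun (congrArg Prod.fst hxy) ⟨v, hv⟩)
    have h2 : ∀ v ∈ W, pr x * v * (pr x)⁻¹ = pr y * v * (pr y)⁻¹ := fun v hv =>
      congrArg Subtype.val (congrFun (congrArg Prod.snd hxy) ⟨v, hv⟩)
    have h3 : ∀ v, pr x * v * (pr x)⁻¹ = pr y * v * (pr y)⁻¹ ↔
        v ∈ Subgroup.centralizer {(pr y)⁻¹ * pr x} := by
      intro v
      rw [Subgroup.mem_centralizer_singleton_iff]
      constructor
      · intro h
        have h' : pr x * v = pr y * v * (pr y)⁻¹ * pr x := by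
          rw [← h]; group
        rw [mul_assoc, h']; group
      · intro h
        have h' : pr x * v = pr y * (v * ((pr y)⁻¹ * pr x)) := by
          rw [h]; group
        rw [h']; group
    have h4 : E ≤ Subgroup.centralizer {(pr y)⁻¹ * pr x} := by
      rw [← hVW]
      exact sup_le (fun v hv => (h3 v).1 (h1 v hv)) (fun v hv => (h3 v).1 (h2 v hv))
    apply Subtype.ext
    rw [← hpr2 x, ← hpr2 y]
    symm
    rw [hq, QuotientGroup.mk'_apply, QuotientGroup.mk'_apply, QuotientGroup.eq,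
      Subgroup.mem_center_iff]
    intro e
    apply Subtype.ext
    have h5 := Subgroup.mem_centralizer_singleton_iff.1 (h4 e.2)
    exact h5
  have := P4 V1 inferInstance
  have := P4 W1 inferInstance
  have := P4 Vn inferInstance
  have := P4 Wn inferInstance
  have : Finite (Φ H1) := P7 inferInstance inferInstance hE1 hH1 n1 n2
  have : Finite (Φ H2) := P7 inferInstance inferInstance hE2 hH2 n3 n4
  have hsurj : Function.Surjective q := QuotientGroup.mk'_surjective _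
  have hE : Φ E = ⊤ := by
    simp only [hΦ]
    rw [Subgroup.subgroupOf_self]
    exact Subgroup.map_top_of_surjective _ hsurj
  have c : ∀ {A B C H : Subgroup T}, B ≤ E → C ≤ E → A ≤ (B ⊓ H) ⊔ C →
      Φ A ≤ (Φ B ⊓ Φ H) ⊔ Φ C := by
    intro A B C H hB hC h
    refine (P1 h).trans ?_
    rw [P2 (inf_le_left.trans hB) hC]
    exact sup_le_sup_right P3 _
  have d : ∀ {A B C M : Subgroup T}, B ≤ E → C ≤ E → M ≤ E → A ≤ M ⊔ (B ⊓ A) ⊔ (C ⊓ A) →
      Φ A ≤ Φ M ⊔ (Φ B ⊓ Φ A) ⊔ (Φ C ⊓ Φ A) := by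
    intro A B C M hB hC hM h
    refine (P1 h).trans ?_
    rw [P2 (sup_le hM (inf_le_left.trans hB)) (inf_le_left.trans hC),
      P2 hM (inf_le_left.trans hB)]
    exact sup_le_sup (sup_le_sup_left P3 _) P3
  have hfin : Finite (Φ E) := glue_fin (Φ E) (Φ H1) (Φ H2) (Φ M) (Φ V1) (Φ W1) (Φ Vn) (Φ Wn)
    (by rw [← P2 hH1 hH2, hH]) (P5 n1) (P5 n2) (P5 n3) (P5 n4) (P1 hM1) (P1 hM2)
    (d hV1 hW1 hM d1) (d hVn hWn hM d2) (c hW1 hVn c1) (c hVn hW1 c2) (c hV1 hWn c3)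
    (c hWn hV1 c4)
  have hQ : Finite (E ⧸ Subgroup.center E) := by
    rw [hE] at hfin
    exact Finite.of_equiv _ Subgroup.topEquiv.toEquiv
  have : Finite (V1.subgroupOf E) := ((Set.toFinite (V1 : Set T)).preimage
    (Subtype.val_injective.injOn)).to_subtype
  have : Finite (W1.subgroupOf E) := ((Set.toFinite (W1 : Set T)).preimage
    (Subtype.val_injective.injOn)).to_subtype
  refine glue_schur (V1.subgroupOf E) (W1.subgroupOf E) ?_ hQ
  rw [← Subgroup.subgroupOf_sup hV1 hW1, hE2, Subgroup.subgroupOf_self]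

end RED
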