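import Pool.Agent.RED.Defs

/-!
# Moves of a letter from moves of another letter, the value of which is the value of a word
-/

set_option autoImplicit false

namespace RED

open AFn IAQ

namespace Ky

variable {n : ℕ}

/-- `sg b * L b k = R b k * sg b` -/
theorem R_mul_sg (b : Fin n) {k : FreeGroup (Fin n)} (hk : kill b k = k) :
    R b k * sg b = sg b * L b k := by
  have hsk : ∀ w : FreeGroup (Fin n), kill b w = w → sg b w = w := by
    intro w hw
    have h : (sg b).toMonoidHom.comp (kill b) = kill b := by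
      ext x
      by_cases hx : x = b
      · subst hx
        show sg x (kill x (FreeGroup.of x)) = kill x (FreeGroup.of x)
        rw [kill_of_self, map_one]
      · show sg b (kill b (FreeGroup.of x)) = kill b (FreeGroup.of x)
        rw [kill_of_ne hx, sg_of_ne hx]
    have h2 := DFunLike.congr_fun h w
    have h3 : sg b (kill b w) = kill b w := h2
    rwa [hw] at h3
  apply aut_ext
  intro x
  rw [MulAut.mul_apply, MulAut.mul_apply]
  by_cases hx : x = b
  · subst hx
    rw [sg_of_self, map_inv, R_of_self, L_of_self, hk, map_mul, map_inv, hsk k hk, sg_of_self]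
    group
  · rw [sg_of_ne hx, R_of_ne hx, L_of_ne hx, sg_of_ne hx]

theorem R_sg (b : Fin n) (k : FreeGroup (Fin n)) : R b k * sg b = sg b * L b k := by
  rw [← R_killed, ← L_killed]
  exact R_mul_sg b (kill_kill _ _)

theorem sg_R (b : Fin n) (k : FreeGroup (Fin n)) : sg b * R b k = L b k * sg b := by
  have h := R_sg b k
  calc sg b * R b k = sg b * (R b k * sg b) * (sg b)⁻¹ := by group
    _ = (sg b * sg b) * L b k * (sg b)⁻¹ := by rw [h]; group
    _ = L b k * sg b := by rw [sg_mul_self, one_mul, sg_inv]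

theorem sg_L (b : Fin n) (k : FreeGroup (Fin n)) : sg b * L b k = R b k * sg b :=
  (R_sg b k).symm

/-- the form of the moves of the letter `c` -/
theorem mv_form {c : Fin n} {φ : MulAut (FreeGroup (Fin n))} (hφ : φ ∈ Mv c) :
    ∃ u v, φ = L c u * R c v ∨ φ = L c u * R c v * sg c := by
  unfold Mv at hφ
  induction hφ using Subgroup.closure_induction with
  | mem x hx =>
    rcases hx with (⟨u, rfl⟩ | ⟨v, rfl⟩) | hx
    · exact ⟨u, 1, Or.inl (by rw [map_one, mul_one])⟩
    · exact ⟨1, v, Or.inl (by rw [map_one, one_mul])⟩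
    · refine ⟨1, 1, Or.inr ?_⟩
      rw [map_one, map_one, one_mul, one_mul]
      exact hx
  | one => exact ⟨1, 1, Or.inl (by rw [map_one, map_one, one_mul])⟩
  | mul x y _ _ hx hy =>
    obtain ⟨u, v, hx⟩ := hx
    obtain ⟨u', v', hy⟩ := hy
    have hc : ∀ a b, R c a * L c b = L c b * R c a := fun a b => (LR_comm c b a).symm
    have hA : ∀ X, L c u * R c v * (L c u' * R c v' * X) = L c (u * u') * R c (v * v') * X := by
      intro X
      calc L c u * R c v * (L c u' * R c v' * X) = L c u * (R c v * L c u') * R c v' * X := by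
            group
        _ = L c (u * u') * R c (v * v') * X := by
            rw [hc, map_mul, map_mul]
            group
    have hB : ∀ X, L c u * R c v * sg c * (L c u' * R c v' * X) =
        L c (u * v') * R c (v * u') * (sg c * X) := by
      intro X
      calc L c u * R c v * sg c * (L c u' * R c v' * X) =
            L c u * R c v * (sg c * L c u') * R c v' * X := by group
        _ = L c u * R c v * R c u' * (sg c * R c v') * X := by rw [sg_L]; group
        _ = L c u * (R c v * (R c u' * L c v')) * (sg c * X) := by rw [sg_R]; group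
        _ = L c (u * v') * R c (v * u') * (sg c * X) := by
            rw [← mul_assoc (R c v), ← map_mul, hc, map_mul (L c)]
            group
    rcases hx with hx | hx <;> rcases hy with hy | hy
    · refine ⟨u * u', v * v', Or.inl ?_⟩
      have := hA 1
      rw [mul_one, mul_one] at this
      rw [hx, hy, this]
    · exact ⟨u * u', v * v', Or.inr (by rw [hx, hy, hA])⟩
    · refine ⟨u * v', v * u', Or.inr ?_⟩
      have := hB 1
      rw [mul_one, mul_one] at this
      rw [hx, hy, this]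
    · refine ⟨u * v', v * u', Or.inl ?_⟩
      rw [hx, hy, hB, sg_mul_self, mul_one]
  | inv x _ hx =>
    obtain ⟨u, v, hx⟩ := hx
    rcases hx with hx | hx
    · refine ⟨u⁻¹, v⁻¹, Or.inl ?_⟩
      rw [hx, mul_inv_rev, map_inv, map_inv, ← map_inv (R c), ← map_inv (L c), LR_comm]
    · refine ⟨v⁻¹, u⁻¹, Or.inr ?_⟩
      calc x⁻¹ = sg c * (R c v⁻¹ * L c u⁻¹) := by
            rw [hx, map_inv, map_inv, mul_inv_rev, mul_inv_rev, sg_inv]
        _ = (sg c * L c u⁻¹) * R c v⁻¹ := by rw [← LR_comm]; group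
        _ = R c u⁻¹ * (sg c * R c v⁻¹) := by rw [sg_L]; group
        _ = R c u⁻¹ * L c v⁻¹ * sg c := by rw [sg_R]; group
        _ = L c v⁻¹ * R c u⁻¹ * sg c := by rw [← LR_comm]

variable {G : Type*} [Group G] {g : Fin n → G}

theorem mem_Gam_of {φ : MulAut (FreeGroup (Fin n))}
    (h : ∀ x, ev g (φ (FreeGroup.of x)) = g x) : φ ∈ Gam g := by
  have h1 : (ev g).comp φ.toMonoidHom = ev g := by
    ext x
    rw [ev_of]
    exact h x
  exact fun w => DFunLike.congr_fun h1 w

/-- two automorphisms which agree on the letters different from `e` agree on words without `e` -/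
theorem agree {e : Fin n} {φ ψ : MulAut (FreeGroup (Fin n))}
    (h : ∀ x, x ≠ e → φ (FreeGroup.of x) = ψ (FreeGroup.of x)) {r : FreeGroup (Fin n)}
    (hr : kill e r = r) : φ r = ψ r := by
  have h1 : φ.toMonoidHom.comp (kill e) = ψ.toMonoidHom.comp (kill e) := by
    ext x
    show φ (kill e (FreeGroup.of x)) = ψ (kill e (FreeGroup.of x))
    by_cases hx : x = e
    · subst hx
      rw [kill_of_self, map_one, map_one]
    · rw [kill_of_ne hx, h x hx]
  have h2 : φ (kill e r) = ψ (kill e r) := DFunLike.congr_fun h1 r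
  rwa [hr] at h2

/-- automorphisms which fix the letters different from `e` fix the words without `e` -/
theorem fix_of {e : Fin n} {φ : MulAut (FreeGroup (Fin n))}
    (h : ∀ x, x ≠ e → φ (FreeGroup.of x) = FreeGroup.of x) {r : FreeGroup (Fin n)}
    (hr : kill e r = r) : φ r = r :=
  agree (ψ := 1) (fun x hx => by rw [h x hx, MulAut.one_apply]) hr

/-- `z ↦ P z Q` with `z = x_e y⁻¹` -/
theorem exists_em {e : Fin n} {y : FreeGroup (Fin n)} (hye : kill e y = y)
    (hg : ev g y = g e) {P Q : FreeGroup (Fin n)}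
    (hP : kill e P = P) (hQ : kill e Q = Q) (hPQ : ev g P * ev g Q = 1) :
    ∃ θ : MulAut (FreeGroup (Fin n)), (θ ∈ Mv e ∧ θ ∈ Gam g) ∧
      θ (FreeGroup.of e) =
        P * (FreeGroup.of e * y⁻¹) * Q * y ∧
      ∀ x, x ≠ e → θ (FreeGroup.of x) = FreeGroup.of x := by
  have hv : kill e (y⁻¹ * Q * y) =
      y⁻¹ * Q * y := by
    rw [map_mul, map_mul, map_inv, hye, hQ]
  have h1 : (L e P⁻¹ * R e (y⁻¹ * Q * y)) (FreeGroup.of e) =
      P * (FreeGroup.of e * y⁻¹) * Q * y := by
    rw [MulAut.mul_apply, R_of_self, hv, map_mul, L_of_self, L_fixed _ hv, map_inv, hP]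
    group
  have h2 : ∀ x, x ≠ e →
      (L e P⁻¹ * R e (y⁻¹ * Q * y)) (FreeGroup.of x) =
        FreeGroup.of x := by
    intro x hx
    rw [MulAut.mul_apply, R_of_ne hx, L_of_ne hx]
  refine ⟨_, ⟨?_, ?_⟩, h1, h2⟩
  · exact (Mv e).mul_mem (Subgroup.subset_closure (Or.inl (Or.inl ⟨_, rfl⟩)))
      (Subgroup.subset_closure (Or.inl (Or.inr ⟨_, rfl⟩)))
  · apply mem_Gam_of
    intro x
    by_cases hx : x = e
    · subst hx
      rw [h1]
      simp only [map_mul, map_inv, ev_of]
      rw [hg, mul_inv_cancel, mul_one, hPQ, one_mul]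
    · rw [h2 x hx, ev_of]

/-- `z ↦ P z⁻¹ Q` with `z = x_e y⁻¹` -/
theorem exists_em' {e : Fin n} {y : FreeGroup (Fin n)} (hye : kill e y = y)
    (hg : ev g y = g e) {P Q : FreeGroup (Fin n)}
    (hP : kill e P = P) (hQ : kill e Q = Q) (hPQ : ev g P * ev g Q = 1) :
    ∃ θ : MulAut (FreeGroup (Fin n)), (θ ∈ Mv e ∧ θ ∈ Gam g) ∧
      θ (FreeGroup.of e) =
        P * (FreeGroup.of e * y⁻¹)⁻¹ * Q * y ∧
      ∀ x, x ≠ e → θ (FreeGroup.of x) = FreeGroup.of x := by
  have hu : kill e (Q * y) = Q * y := by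
    rw [map_mul, hye, hQ]
  have hv : kill e (P * y)⁻¹ = (P * y)⁻¹ := by
    rw [map_inv, map_mul, hye, hP]
  have h1 : (L e (Q * y) * R e (P * y)⁻¹ * sg e)
      (FreeGroup.of e) =
      P * (FreeGroup.of e * y⁻¹)⁻¹ * Q * y := by
    rw [MulAut.mul_apply, MulAut.mul_apply, sg_of_self, map_inv, map_inv, R_of_self, hv, map_mul,
      L_of_self, L_fixed _ hv, hu]
    group
  have h2 : ∀ x, x ≠ e →
      (L e (Q * y) * R e (P * y)⁻¹ * sg e) (FreeGroup.of x) =
        FreeGroup.of x := by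
    intro x hx
    rw [MulAut.mul_apply, MulAut.mul_apply, sg_of_ne hx, R_of_ne hx, L_of_ne hx]
  refine ⟨_, ⟨?_, ?_⟩, h1, h2⟩
  · exact (Mv e).mul_mem ((Mv e).mul_mem (Subgroup.subset_closure (Or.inl (Or.inl ⟨_, rfl⟩)))
      (Subgroup.subset_closure (Or.inl (Or.inr ⟨_, rfl⟩))))
      (Subgroup.subset_closure (Or.inr rfl))
  · apply mem_Gam_of
    intro x
    by_cases hx : x = e
    · subst hx
      rw [h1]
      simp only [map_mul, map_inv, ev_of]
      rw [hg, mul_inv_cancel, inv_one, mul_one, hPQ, one_mul]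
    · rw [h2 x hx, ev_of]

/-- the letter `e` is replaced by `y` -/
def rr (e : Fin n) (y : FreeGroup (Fin n)) : FreeGroup (Fin n) →* FreeGroup (Fin n) :=
  FreeGroup.lift (fun x => if x = e then y else FreeGroup.of x)

theorem rr_self (e : Fin n) (y : FreeGroup (Fin n)) : rr e y (FreeGroup.of e) = y := by
  simp [rr]

theorem rr_ne {e x : Fin n} (y : FreeGroup (Fin n)) (h : x ≠ e) :
    rr e y (FreeGroup.of x) = FreeGroup.of x := by simp [rr, h]

theorem rr_fix {e : Fin n} (y : FreeGroup (Fin n)) {w : FreeGroup (Fin n)}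
    (hw : kill e w = w) : rr e y w = w := by
  have h : (rr e y).comp (kill e) = kill e := by
    ext x
    show rr e y (kill e (FreeGroup.of x)) = kill e (FreeGroup.of x)
    by_cases hx : x = e
    · subst hx
      rw [kill_of_self, map_one]
    · rw [kill_of_ne hx, rr_ne _ hx]
  have h2 : rr e y (kill e w) = kill e w := DFunLike.congr_fun h w
  rwa [hw] at h2

theorem rr_rr {e : Fin n} {y : FreeGroup (Fin n)} (hye : kill e y = y)
    (w : FreeGroup (Fin n)) : rr e y (rr e y w) = rr e y w := by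
  have h : (rr e y).comp (rr e y) = rr e y := by
    ext x
    by_cases hx : x = e
    · subst hx
      show rr x y (rr x y (FreeGroup.of x)) = rr x y (FreeGroup.of x)
      rw [rr_self, rr_fix y hye]
    · show rr e y (rr e y (FreeGroup.of x)) = rr e y (FreeGroup.of x)
      rw [rr_ne _ hx, rr_ne _ hx]
  exact DFunLike.congr_fun h w

theorem kill_rr {e : Fin n} {y : FreeGroup (Fin n)} (hye : kill e y = y)
    (w : FreeGroup (Fin n)) : kill e (rr e y w) = rr e y w := by
  have h : (kill e).comp (rr e y) = rr e y := by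
    ext x
    by_cases hx : x = e
    · subst hx
      show kill x (rr x y (FreeGroup.of x)) = rr x y (FreeGroup.of x)
      rw [rr_self, hye]
    · show kill e (rr e y (FreeGroup.of x)) = rr e y (FreeGroup.of x)
      rw [rr_ne _ hx, kill_of_ne hx]
  exact DFunLike.congr_fun h w

theorem kill_b_rr {b e : Fin n} {y : FreeGroup (Fin n)} (hyb : kill b y = y)
    {w : FreeGroup (Fin n)} (hw : kill b w = w) : kill b (rr e y w) = rr e y w := by
  have h : ((kill b).comp (rr e y)).comp (kill b) = (rr e y).comp (kill b) := by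
    ext x
    show kill b (rr e y (kill b (FreeGroup.of x))) = rr e y (kill b (FreeGroup.of x))
    by_cases hx : x = b
    · subst hx
      rw [kill_of_self, map_one, map_one]
    · rw [kill_of_ne hx]
      by_cases hx2 : x = e
      · subst hx2
        rw [rr_self, hyb]
      · rw [rr_ne _ hx2, kill_of_ne hx]
  have h2 : kill b (rr e y (kill b w)) = rr e y (kill b w) := DFunLike.congr_fun h w
  rwa [hw] at h2

theorem ev_rr {e : Fin n} {y : FreeGroup (Fin n)} (hg : ev g y = g e)
    (w : FreeGroup (Fin n)) :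
    ev g (rr e y w) = ev g w := by
  have h : (ev g).comp (rr e y) = ev g := by
    ext x
    by_cases hx : x = e
    · subst hx
      show ev g (rr x y (FreeGroup.of x)) = ev g (FreeGroup.of x)
      rw [rr_self, ev_of, hg]
    · show ev g (rr e y (FreeGroup.of x)) = ev g (FreeGroup.of x)
      rw [rr_ne _ hx]
  exact DFunLike.congr_fun h w

/-- (2) of the plan, for `R` and `L` -/
theorem twist {b e : Fin n} (hbe : b ≠ e) {y : FreeGroup (Fin n)} (hyb : kill b y = y)
    (hye : kill e y = y) (hg : ev g y = g e)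
    (Cl : Subgroup (MulAut (FreeGroup (Fin n)))) (hCl : ∀ θ, θ ∈ Mv e → θ ∈ Gam g → θ ∈ Cl)
    (M : FreeGroup (Fin n) →* MulAut (FreeGroup (Fin n)))
    (hM : M (FreeGroup.of e * y⁻¹) ∈ Cl)
    (hM2 : ∀ φ, Pres b φ → ∀ w, φ * M w * φ⁻¹ = M (φ (kill b w)))
    {k : FreeGroup (Fin n)} (hk : kill b k = k) (hk2 : rr e y k = 1) : M k ∈ Cl := by
  have hz : kill b (FreeGroup.of e * y⁻¹) =
      FreeGroup.of e * y⁻¹ := by
    rw [map_mul, map_inv, kill_of_ne hbe.symm, hyb]
  have h1 : ∀ w, kill b w = w → kill e w = w →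
      M (w * (FreeGroup.of e * y⁻¹) * w⁻¹) ∈ Cl := by
    intro w hwb hwe
    obtain ⟨θ, ⟨hθ1, hθ2⟩, hθe, hθx⟩ := exists_em (g := g) hye hg (P := w) (Q := w⁻¹) hwe
      (by rw [map_inv, hwe]) (by rw [map_inv, mul_inv_cancel])
    have hp : Pres b θ := by
      refine pres_of (hθx b hbe) fun x hx => ?_
      by_cases hx2 : x = e
      · subst hx2
        rw [hθe, map_mul, map_mul, map_mul, hz, map_inv, hwb, hyb]
      · rw [hθx x hx2, kill_of_ne hx]
    have h2 := hM2 θ hp (FreeGroup.of e * y⁻¹)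
    have h3 : θ (FreeGroup.of e * y⁻¹) =
        w * (FreeGroup.of e * y⁻¹) * w⁻¹ := by
      rw [map_mul, map_inv, hθe, fix_of hθx hye]
      group
    rw [hz, h3] at h2
    rw [← h2]
    exact Cl.mul_mem (Cl.mul_mem (hCl θ hθ1 hθ2) hM) (Cl.inv_mem (hCl θ hθ1 hθ2))
  have h2 : ∀ w : FreeGroup (Fin n), ∀ v, kill b v = v → kill e v = v →
      M (v * kill b w * (rr e y (kill b w))⁻¹ * v⁻¹) ∈ Cl := by
    intro w
    induction w using FreeGroup.induction_on with
    | C1 =>
      intro v _ _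
      have : v * kill b 1 * (rr e y (kill b 1))⁻¹ * v⁻¹ = 1 := by
        rw [map_one, map_one]
        group
      rw [this, map_one]
      exact Cl.one_mem
    | of x =>
      intro v hvb hve
      show M (v * kill b (FreeGroup.of x) * (rr e y (kill b (FreeGroup.of x)))⁻¹ * v⁻¹) ∈ Cl
      by_cases hx : x = b
      · subst hx
        have : v * kill x (FreeGroup.of x) * (rr e y (kill x (FreeGroup.of x)))⁻¹ * v⁻¹ =
            1 := by
          rw [kill_of_self, map_one]
          group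
        rw [this, map_one]
        exact Cl.one_mem
      · rw [kill_of_ne hx]
        by_cases hx2 : x = e
        · subst hx2
          have h3 := h1 v hvb hve
          rw [rr_self]
          rw [← mul_assoc] at h3
          exact h3
        · have : v * FreeGroup.of x * (rr e y (FreeGroup.of x))⁻¹ * v⁻¹ = 1 := by
            rw [rr_ne _ hx2]
            group
          rw [this, map_one]
          exact Cl.one_mem
    | inv_of x ih =>
      intro v hvb hve
      have hy : kill b (rr e y (kill b (FreeGroup.of x))) =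
          rr e y (kill b (FreeGroup.of x)) := kill_b_rr hyb (kill_kill _ _)
      have h3 := ih (v * (rr e y (kill b (FreeGroup.of x)))⁻¹)
        (by rw [map_mul, map_inv, hvb, hy]) (by rw [map_mul, map_inv, hve, kill_rr hye])
      have h4 := Cl.inv_mem h3
      rw [← map_inv] at h4
      have h5 : (v * (rr e y (kill b (FreeGroup.of x)))⁻¹ * kill b (FreeGroup.of x) *
          (rr e y (kill b (FreeGroup.of x)))⁻¹ *
          (v * (rr e y (kill b (FreeGroup.of x)))⁻¹)⁻¹)⁻¹ =
          v * kill b (FreeGroup.of x)⁻¹ * (rr e y (kill b (FreeGroup.of x)⁻¹))⁻¹ * v⁻¹ := by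
        rw [map_inv (kill b), map_inv (rr e y)]
        group
      have h6 : M (v * kill b (FreeGroup.of x)⁻¹ *
          (rr e y (kill b (FreeGroup.of x)⁻¹))⁻¹ * v⁻¹) ∈ Cl := by
        rw [← h5]
        exact h4
      exact h6
    | mul w1 w2 ih1 ih2 =>
      intro v hvb hve
      have hy : kill b (rr e y (kill b w1)) = rr e y (kill b w1) :=
        kill_b_rr hyb (kill_kill _ _)
      have h3 := ih1 v hvb hve
      have h4 := ih2 (v * rr e y (kill b w1)) (by rw [map_mul, hvb, hy])
        (by rw [map_mul, hve, kill_rr hye])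
      have h5 := Cl.mul_mem h3 h4
      rw [← map_mul] at h5
      have h6 : v * kill b w1 * (rr e y (kill b w1))⁻¹ * v⁻¹ *
          (v * rr e y (kill b w1) * kill b w2 * (rr e y (kill b w2))⁻¹ *
            (v * rr e y (kill b w1))⁻¹) =
          v * kill b (w1 * w2) * (rr e y (kill b (w1 * w2)))⁻¹ * v⁻¹ := by
        rw [map_mul (kill b), map_mul (rr e y)]
        group
      rw [h6] at h5
      exact h5
  have h3 := h2 k 1 (map_one _) (map_one _)
  rw [hk, hk2] at h3
  simpa using h3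

/-- (4) of the plan -/
theorem main {b e : Fin n} (hbe : b ≠ e) {y : FreeGroup (Fin n)} (hyb : kill b y = y)
    (hye : kill e y = y) (hg : ev g y = g e)
    (Cl : Subgroup (MulAut (FreeGroup (Fin n)))) (hCl : ∀ θ, θ ∈ Mv e → θ ∈ Gam g → θ ∈ Cl)
    (hR : R b (FreeGroup.of e * y⁻¹) ∈ Cl)
    {ψ : MulAut (FreeGroup (Fin n))} (hψ : ψ ∈ Gam g)
    (hx : ∀ x, x ≠ b → ψ (FreeGroup.of x) = FreeGroup.of x)
    (hke : kill e (ψ (FreeGroup.of b)) = ψ (FreeGroup.of b))
    (hm2 : ∃ m2 : MulAut (FreeGroup (Fin n)), m2 ∈ Cl ∧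
      (∀ x, x ≠ e → m2 (FreeGroup.of x) = FreeGroup.of x) ∧
      R b (FreeGroup.of e * y⁻¹)
        (m2 (FreeGroup.of e * y⁻¹)) =
        (FreeGroup.of b * (FreeGroup.of e * y⁻¹))⁻¹ *
          ψ (FreeGroup.of b)) : ψ ∈ Cl := by
  obtain ⟨z, hz⟩ : ∃ z, z = FreeGroup.of e * y⁻¹ := ⟨_, rfl⟩
  have hze : FreeGroup.of e = z * y := by rw [hz]; group
  obtain ⟨m2, hm2, hm2x, hm2z⟩ := hm2
  rw [← hz] at hR hm2z
  have hzb : kill b z = z := by
    rw [hz, map_mul, map_inv, kill_of_ne hbe.symm, hyb]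
  -- `ψ⁻¹ x_b` has no letter `e`
  obtain ⟨r, hr⟩ : ∃ r, r = ψ⁻¹ (FreeGroup.of b) := ⟨_, rfl⟩
  have hψr : ψ r = FreeGroup.of b := by
    rw [hr, ← MulAut.mul_apply, mul_inv_cancel, MulAut.one_apply]
  have hcomm : ∀ w, kill e (ψ w) = ψ (kill e w) := by
    have h1 : (kill e).comp ψ.toMonoidHom = ψ.toMonoidHom.comp (kill e) := by
      ext x
      show kill e (ψ (FreeGroup.of x)) = ψ (kill e (FreeGroup.of x))
      by_cases hxe : x = e
      · subst hxe
        rw [hx x hbe.symm, kill_of_self, map_one]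
      · rw [kill_of_ne hxe]
        by_cases hxb : x = b
        · subst hxb
          exact hke
        · rw [hx x hxb, kill_of_ne hxe]
    exact fun w => DFunLike.congr_fun h1 w
  have hre : kill e r = r := by
    apply ψ.injective
    rw [← hcomm, hψr, kill_of_ne hbe]
  have hevr : ev g r = g b := by
    rw [hr, (Gam g).inv_mem hψ, ev_of]
  -- the moves `m4` and `eps`
  obtain ⟨m4, ⟨hm41, hm42⟩, hm4e, hm4x⟩ := exists_em (g := g) hye hg (P := 1)
    (Q := (FreeGroup.of b)⁻¹ * r) (map_one _)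
    (by rw [map_mul, map_inv, kill_of_ne hbe, hre])
    (by rw [map_one, one_mul, map_mul, map_inv, ev_of, hevr, inv_mul_cancel])
  obtain ⟨eps, ⟨hε1, hε2⟩, hεe, hεx⟩ := exists_em' (g := g) hye hg (P := 1) (Q := 1)
    (map_one _) (map_one _) (by rw [map_one, one_mul])
  rw [← hz] at hm4e hεe
  have hRb : R b z (FreeGroup.of b) = FreeGroup.of b * z := by rw [R_of_self, hzb]
  have hRz : R b z z = z := R_fixed z hzb
  have hRx : ∀ x, x ≠ b → R b z (FreeGroup.of x) = FreeGroup.of x := fun x h => R_of_ne h z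
  have hm3b : (R b z * m2 * R b z) (FreeGroup.of b) = ψ (FreeGroup.of b) := by
    rw [MulAut.mul_apply, MulAut.mul_apply, hRb, map_mul, hm2x b hbe, map_mul, hRb, hm2z]
    group
  have hm3x : ∀ x, x ≠ b → x ≠ e → (R b z * m2 * R b z) (FreeGroup.of x) = FreeGroup.of x := by
    intro x hxb hxe
    rw [MulAut.mul_apply, MulAut.mul_apply, hRx x hxb, hm2x x hxe, hRx x hxb]
  have hm3z : (R b z * m2 * R b z) z = (FreeGroup.of b * z)⁻¹ * ψ (FreeGroup.of b) := by
    rw [MulAut.mul_apply, MulAut.mul_apply, hRz, hm2z]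
  have hm3r : (R b z * m2 * R b z) r = FreeGroup.of b := by
    rw [← hψr]
    apply agree _ hre
    intro x hxe
    by_cases hxb : x = b
    · subst hxb
      exact hm3b
    · rw [hm3x x hxb hxe, hx x hxb]
  have hψy : ψ y = y := fix_of hx hyb
  have hm3y : (R b z * m2 * R b z) y = y := by
    rw [MulAut.mul_apply, MulAut.mul_apply, R_fixed z hyb, fix_of hm2x hye, R_fixed z hyb]
  have hfin : ψ * eps = R b z * m2 * R b z * m4 := by
    apply aut_ext
    intro x
    rw [MulAut.mul_apply, MulAut.mul_apply]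
    by_cases hxe : x = e
    · subst hxe
      rw [hεe, hm4e, map_mul, map_mul, map_mul, map_mul, map_mul, map_mul, map_one, map_one,
        map_mul, hm3z, hm3r, map_inv (R b z * m2 * R b z), hm3b, hm3y, hψy, map_inv ψ]
      have hψz : ψ z = z := by
        rw [hz, map_mul, map_inv, hx x hbe.symm, hψy]
      rw [hψz]
      group
    · rw [hεx x hxe, hm4x x hxe]
      by_cases hxb : x = b
      · subst hxb
        exact hm3b.symm
      · rw [hx x hxb, hm3x x hxb hxe]
  have hψe : ψ = R b z * m2 * R b z * m4 * eps⁻¹ := by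
    rw [← hfin]
    group
  rw [hψe]
  exact Cl.mul_mem (Cl.mul_mem (Cl.mul_mem (Cl.mul_mem hR hm2) hR) (hCl m4 hm41 hm42))
    (Cl.inv_mem (hCl eps hε1 hε2))

end Ky

open Ky in
/-- MODULE A2 -/
theorem key {n : ℕ} {G : Type*} [Group G] {g : Fin n → G} {b e : Fin n} (hbe : b ≠ e)
    {w : FreeGroup (Fin n)} (hwb : kill b w = w) (hwe : kill e w = w) (hg : ev g w = g e)
    {ψ : MulAut (FreeGroup (Fin n))} (hψ : ψ ∈ Mv b) (hψg : ψ ∈ Gam g) :
    ψ ∈ Subgroup.closure
      (({R b (FreeGroup.of e * w⁻¹), L b (FreeGroup.of e * w⁻¹)} :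
        Set (MulAut (FreeGroup (Fin n)))) ∪ {φ | φ ∈ Mv e ∧ φ ∈ Gam g}) := by
  obtain ⟨y, hy⟩ : ∃ y, y = w := ⟨_, rfl⟩
  rw [← hy] at hwb hwe hg ⊢
  have hyb := hwb
  have hye := hwe
  obtain ⟨Cl, hCle⟩ : ∃ Cl, Cl = Subgroup.closure
      (({R b (FreeGroup.of e * y⁻¹),
        L b (FreeGroup.of e * y⁻¹)} : Set (MulAut (FreeGroup (Fin n)))) ∪
        {φ | φ ∈ Mv e ∧ φ ∈ Gam g}) := ⟨_, rfl⟩
  rw [← hCle]
  have hR : R b (FreeGroup.of e * y⁻¹) ∈ Cl := by
    rw [hCle]
    exact Subgroup.subset_closure (Or.inl (Or.inl rfl))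
  have hL : L b (FreeGroup.of e * y⁻¹) ∈ Cl := by
    rw [hCle]
    exact Subgroup.subset_closure (Or.inl (Or.inr rfl))
  have hCl : ∀ θ, θ ∈ Mv e → θ ∈ Gam g → θ ∈ Cl := by
    intro θ h1 h2
    rw [hCle]
    exact Subgroup.subset_closure (Or.inr ⟨h1, h2⟩)
  have hRk : ∀ k, kill b k = k → rr e y k = 1 → R b k ∈ Cl := fun k h1 h2 =>
    twist hbe hyb hye hg Cl hCl (R b) hR (fun φ hφ w => hφ.conj_R w) h1 h2
  have hLk : ∀ k, kill b k = k → rr e y k = 1 → L b k ∈ Cl := fun k h1 h2 =>
    twist hbe hyb hye hg Cl hCl (L b) hL (fun φ hφ w => hφ.conj_L w) h1 h2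
  obtain ⟨u1, v1, h1⟩ := mv_form hψ
  obtain ⟨u, hu⟩ : ∃ u, u = kill b u1 := ⟨_, rfl⟩
  obtain ⟨v, hv⟩ : ∃ v, v = kill b v1 := ⟨_, rfl⟩
  have hub : kill b u = u := by rw [hu, kill_kill]
  have hvb : kill b v = v := by rw [hv, kill_kill]
  rw [← L_killed b u1, ← R_killed b v1, ← hu, ← hv] at h1
  obtain ⟨p, hp⟩ : ∃ p, p = rr e y u := ⟨_, rfl⟩
  obtain ⟨q, hq⟩ : ∃ q, q = rr e y v := ⟨_, rfl⟩
  have hpb : kill b p = p := by rw [hp]; exact kill_b_rr hyb hub
  have hqb : kill b q = q := by rw [hq]; exact kill_b_rr hyb hvb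
  have hpe : kill e p = p := by rw [hp]; exact kill_rr hye u
  have hqe : kill e q = q := by rw [hq]; exact kill_rr hye v
  have hgp : ev g p = ev g u := by rw [hp]; exact ev_rr hg u
  have hgq : ev g q = ev g v := by rw [hq]; exact ev_rr hg v
  have hk1 : L b (u * p⁻¹) ∈ Cl := hLk _ (by rw [map_mul, map_inv, hub, hpb])
    (by rw [map_mul, map_inv, hp, rr_rr hye, mul_inv_cancel])
  have hzb : kill b (FreeGroup.of e * y⁻¹) =
      FreeGroup.of e * y⁻¹ := by
    rw [map_mul, map_inv, kill_of_ne hbe.symm, hyb]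
  obtain ⟨z, hz⟩ : ∃ z, z = FreeGroup.of e * y⁻¹ := ⟨_, rfl⟩
  have hRb : R b z (FreeGroup.of b) = FreeGroup.of b * z := by
    rw [R_of_self, hz, hzb]
  have hRz : R b z z = z := R_fixed z (by rw [hz, hzb])
  have hRp : R b z p = p := R_fixed z hpb
  have hRq : R b z q = q := R_fixed z hqb
  rcases h1 with h1 | h1
  · -- sign `+`
    obtain ⟨ψ0, hψ0⟩ : ∃ ψ0, ψ0 = L b p * R b q := ⟨_, rfl⟩
    have hψe : ψ = L b (u * p⁻¹) * ψ0 * R b (q⁻¹ * v) := by
      rw [h1, hψ0, map_mul, map_mul, map_inv, map_inv]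
      group
    have h0b : ψ0 (FreeGroup.of b) = p⁻¹ * FreeGroup.of b * q := by
      rw [hψ0, MulAut.mul_apply, R_of_self, hqb, map_mul, L_of_self, L_fixed p hqb, hpb]
    have h0x : ∀ x, x ≠ b → ψ0 (FreeGroup.of x) = FreeGroup.of x := by
      intro x hx
      rw [hψ0, MulAut.mul_apply, R_of_ne hx, L_of_ne hx]
    have hψb : ψ (FreeGroup.of b) = u⁻¹ * FreeGroup.of b * v := by
      rw [h1, MulAut.mul_apply, R_of_self, hvb, map_mul, L_of_self, L_fixed u hvb, hub]
    have hval : (ev g p)⁻¹ * g b * ev g q = g b := by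
      have h2 := hψg (FreeGroup.of b)
      rw [hψb, map_mul, map_mul, map_inv, ev_of] at h2
      rw [hgp, hgq]
      exact h2
    have h0g : ψ0 ∈ Gam g := by
      apply mem_Gam_of
      intro x
      by_cases hx : x = b
      · subst hx
        rw [h0b, map_mul, map_mul, map_inv, ev_of]
        exact hval
      · rw [h0x x hx, ev_of]
    have h0 : ψ0 ∈ Cl := by
      refine main hbe hyb hye hg Cl hCl hR h0g h0x ?_ ?_
      · rw [h0b, map_mul, map_mul, map_inv, hpe, hqe, kill_of_ne hbe]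
      · obtain ⟨m2, ⟨a1, a2⟩, a3, a4⟩ := exists_em' (g := g) hye hg
          (P := (FreeGroup.of b)⁻¹ * p⁻¹ * FreeGroup.of b) (Q := q)
          (by rw [map_mul, map_mul, map_inv, map_inv, hpe, kill_of_ne hbe]) hqe
          (by
            rw [map_mul, map_mul, map_inv, map_inv, ev_of]
            have : (g b)⁻¹ * (ev g p)⁻¹ * g b * ev g q = (g b)⁻¹ * ((ev g p)⁻¹ * g b * ev g q) := by
              group
            rw [this, hval, inv_mul_cancel])
        refine ⟨m2, hCl m2 a1 a2, a4, ?_⟩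
        rw [← hz] at a3
        have a5 : m2 z = (FreeGroup.of b)⁻¹ * p⁻¹ * FreeGroup.of b * z⁻¹ * q := by
          conv_lhs => rw [hz]
          rw [map_mul, map_inv, a3, fix_of a4 hye]
          group
        rw [← hz, a5, h0b]
        simp only [map_mul, map_inv, hRb, hRz, hRp, hRq]
        group
    rw [hψe]
    refine Cl.mul_mem (Cl.mul_mem hk1 h0) (hRk _ (by rw [map_mul, map_inv, hqb, hvb]) ?_)
    rw [map_mul, map_inv, hq, rr_rr hye, inv_mul_cancel]
  · -- sign `-`
    obtain ⟨ψ0, hψ0⟩ : ∃ ψ0, ψ0 = L b p * R b q * sg b := ⟨_, rfl⟩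
    have hψe : ψ = L b (u * p⁻¹) * ψ0 * L b (q⁻¹ * v) := by
      have h2 : R b (q⁻¹ * v) * sg b = sg b * L b (q⁻¹ * v) :=
        R_mul_sg b (by rw [map_mul, map_inv, hqb, hvb])
      calc ψ = L b (u * p⁻¹) * (L b p * R b q) * (R b (q⁻¹ * v) * sg b) := by
            rw [h1, map_mul (L b), map_mul (R b), map_inv, map_inv]
            group
        _ = L b (u * p⁻¹) * ψ0 * L b (q⁻¹ * v) := by
            rw [h2, hψ0]
            group
    have h0b : ψ0 (FreeGroup.of b) = q⁻¹ * (FreeGroup.of b)⁻¹ * p := by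
      rw [hψ0, MulAut.mul_apply, MulAut.mul_apply, sg_of_self, map_inv, map_inv, R_of_self, hqb,
        map_mul, L_of_self, L_fixed p hqb, hpb]
      group
    have h0x : ∀ x, x ≠ b → ψ0 (FreeGroup.of x) = FreeGroup.of x := by
      intro x hx
      rw [hψ0, MulAut.mul_apply, MulAut.mul_apply, sg_of_ne hx, R_of_ne hx, L_of_ne hx]
    have hψb : ψ (FreeGroup.of b) = v⁻¹ * (FreeGroup.of b)⁻¹ * u := by
      rw [h1, MulAut.mul_apply, MulAut.mul_apply, sg_of_self, map_inv, map_inv, R_of_self, hvb,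
        map_mul, L_of_self, L_fixed u hvb, hub]
      group
    have hval : (ev g q)⁻¹ * (g b)⁻¹ * ev g p = g b := by
      have h2 := hψg (FreeGroup.of b)
      rw [hψb, map_mul, map_mul, map_inv, map_inv, ev_of] at h2
      rw [hgp, hgq]
      exact h2
    have h0g : ψ0 ∈ Gam g := by
      apply mem_Gam_of
      intro x
      by_cases hx : x = b
      · subst hx
        rw [h0b, map_mul, map_mul, map_inv, map_inv, ev_of]
        exact hval
      · rw [h0x x hx, ev_of]
    have h0 : ψ0 ∈ Cl := by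
      refine main hbe hyb hye hg Cl hCl hR h0g h0x ?_ ?_
      · rw [h0b, map_mul, map_mul, map_inv, map_inv, hpe, hqe, kill_of_ne hbe]
      · obtain ⟨m2, ⟨a1, a2⟩, a3, a4⟩ := exists_em (g := g) hye hg
          (P := (FreeGroup.of b)⁻¹ * q⁻¹) (Q := (FreeGroup.of b)⁻¹ * p)
          (by rw [map_mul, map_inv, map_inv, hqe, kill_of_ne hbe])
          (by rw [map_mul, map_inv, hpe, kill_of_ne hbe])
          (by
            rw [map_mul, map_mul, map_inv, map_inv, ev_of]
            have : (g b)⁻¹ * (ev g q)⁻¹ * ((g b)⁻¹ * ev g p) =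
                (g b)⁻¹ * ((ev g q)⁻¹ * (g b)⁻¹ * ev g p) := by
              group
            rw [this, hval, inv_mul_cancel])
        refine ⟨m2, hCl m2 a1 a2, a4, ?_⟩
        rw [← hz] at a3
        have a5 : m2 z = (FreeGroup.of b)⁻¹ * q⁻¹ * z * ((FreeGroup.of b)⁻¹ * p) := by
          conv_lhs => rw [hz]
          rw [map_mul, map_inv, a3, fix_of a4 hye]
          group
        rw [← hz, a5, h0b]
        simp only [map_mul, map_inv, hRb, hRz, hRp, hRq]
        group
    rw [hψe]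
    refine Cl.mul_mem (Cl.mul_mem hk1 h0) (hLk _ (by rw [map_mul, map_inv, hqb, hvb]) ?_)
    rw [map_mul, map_inv, hq, rr_rr hye, inv_mul_cancel]

end RED
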