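import Mathlib
import Pool.Agent.RED.Defs
import Pool.Agent.RED.MvBasic

/-!
# The image of the moves of one letter is finite and normalised
-/

set_option autoImplicit false

namespace RED

open AFn IAQ
open scoped Pointwise

section aux

variable {n : ℕ}

theorem vf_pres_comm {c : Fin n} {P : MulAut (FreeGroup (Fin n))} (hP : Pres c P)
    (w : FreeGroup (Fin n)) : kill c (P w) = P (kill c w) := by
  have h : (kill c).comp P.toMonoidHom = (P.toMonoidHom).comp (kill c) := by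
    ext x
    by_cases hx : x = c
    · subst hx
      simp only [MonoidHom.comp_apply, MulEquiv.coe_toMonoidHom]
      rw [hP.1, kill_of_self, map_one]
    · simp only [MonoidHom.comp_apply, MulEquiv.coe_toMonoidHom]
      have h1 := hP.2 (FreeGroup.of x)
      rw [kill_of_ne hx] at h1 ⊢
      exact h1
  exact DFunLike.congr_fun h w

theorem vf_pres_inv {c : Fin n} {P : MulAut (FreeGroup (Fin n))} (hP : Pres c P) :
    Pres c P⁻¹ := by
  have h0 : ∀ w, P (P⁻¹ w) = w := fun w => by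
    rw [← MulAut.mul_apply, mul_inv_cancel, MulAut.one_apply]
  refine ⟨?_, fun w => ?_⟩
  · apply P.injective
    show P (P⁻¹ (FreeGroup.of c)) = P (FreeGroup.of c)
    rw [h0, hP.1]
  · apply P.injective
    show P (kill c (P⁻¹ (kill c w))) = P (P⁻¹ (kill c w))
    rw [← vf_pres_comm hP, h0, kill_kill]

theorem vf_pres_mul {c : Fin n} {P Q : MulAut (FreeGroup (Fin n))} (hP : Pres c P)
    (hQ : Pres c Q) : Pres c (P * Q) := by
  refine ⟨?_, fun w => ?_⟩
  · rw [MulAut.mul_apply, hQ.1, hP.1]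
  · rw [MulAut.mul_apply, vf_pres_comm hP, hQ.2]

theorem vf_pres_sg {a b : Fin n} (hab : a ≠ b) : Pres a (sg b) := by
  refine pres_of (sg_of_ne hab) fun x hx => ?_
  by_cases h : x = b
  · subst h
    rw [sg_of_self, map_inv, kill_of_ne hx]
  · rw [sg_of_ne h, kill_of_ne hx]

theorem vf_sg_R (a : Fin n) (w : FreeGroup (Fin n)) : L a w = sg a * R a w * sg a := by
  apply aut_ext
  intro x
  rw [MulAut.mul_apply, MulAut.mul_apply]
  by_cases hx : x = a
  · subst hx
    have h1 : sg x (kill x w) = kill x w := by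
      have h2 : (sg x).toMonoidHom.comp (kill x) = kill x := by
        ext y
        by_cases hy : y = x
        · subst hy
          simp only [MonoidHom.comp_apply, MulEquiv.coe_toMonoidHom]
          rw [kill_of_self, map_one]
        · simp only [MonoidHom.comp_apply, MulEquiv.coe_toMonoidHom]
          rw [kill_of_ne hy, sg_of_ne hy]
      exact DFunLike.congr_fun h2 w
    rw [sg_of_self, map_inv, R_of_self, mul_inv_rev, map_mul, map_inv, map_inv, h1, sg_of_self,
      inv_inv, L_of_self]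
  · rw [sg_of_ne hx, R_of_ne hx, sg_of_ne hx, L_of_ne hx]

end aux

section Image

variable {n : ℕ} {G : Type*} [Group G] (g : Fin n → G) (I : Finset (Fin n)) {T : Type*}
  [Group T] (f : Gam g →* T)

variable {g I f}

theorem vf_ev_ret (h : Hyp g I f) (w : FreeGroup (Fin n)) : ev g (ret Iᶜ w) = ev g w := by
  have h2 : (ev g).comp (ret Iᶜ) = ev g := by
    ext x
    simp only [MonoidHom.comp_apply]
    by_cases hx : x ∈ I
    · have h3 : ret Iᶜ (FreeGroup.of x) = 1 := by simp [ret, hx]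
      rw [h3, map_one, ev_of, h.one x hx]
    · have h3 : ret Iᶜ (FreeGroup.of x) = FreeGroup.of x := by simp [ret, hx]
      rw [h3]
  exact DFunLike.congr_fun h2 w

theorem vf_ev_kill (h : Hyp g I f) {c : Fin n} (hc : c ∈ I) (w : FreeGroup (Fin n)) :
    ev g (kill c w) = ev g w := by
  have h2 : (ev g).comp (kill c) = ev g := by
    ext x
    simp only [MonoidHom.comp_apply]
    by_cases hx : x = c
    · subst hx
      rw [kill_of_self, map_one, ev_of, h.one x hc]
    · rw [kill_of_ne hx]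
  exact DFunLike.congr_fun h2 w

/-- the values of the `R c k` -/
theorem vf_finR (h : Hyp g I f) {c : Fin n} (hc : c ∈ I) :
    {x | ∃ k, ev g k = 1 ∧ x = fe g f (R c k)}.Finite := by
  refine Set.Finite.subset ((h.A c hc).mul (h.B c hc)) ?_
  rintro x ⟨k, hk, rfl⟩
  have hcI : c ∉ Iᶜ := fun hh => (Finset.mem_compl.mp hh) hc
  have e1 : ev g (ret Iᶜ (kill c k)) = 1 := by
    rw [vf_ev_ret h, vf_ev_kill h hc, hk]
  have e2 : kill c (ret Iᶜ (kill c k)) = ret Iᶜ (kill c k) := kill_eq (ret_mem _ _) hcI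
  have e3 : R c k = R c (kill c k * (ret Iᶜ (kill c k))⁻¹) * R c (ret Iᶜ (kill c k)) := by
    rw [← map_mul, inv_mul_cancel_right, R_killed]
  have e4 : ev g (kill c k * (ret Iᶜ (kill c k))⁻¹) = 1 := by
    rw [map_mul, map_inv, e1, vf_ev_kill h hc, hk, inv_one, mul_one]
  rw [e3, fe_mul g f ((R_mem_Gam_iff g c _).2 (by rw [vf_ev_kill h hc, e4]))
    ((R_mem_Gam_iff g c _).2 (by rw [vf_ev_kill h hc, e1]))]
  refine Set.mul_mem_mul ⟨_, ⟨?_, ?_⟩, rfl⟩ ⟨_, ret_mem _ _, e1, rfl⟩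
  · rw [map_mul, map_inv, ret_eq (ret_mem Iᶜ (kill c k)), mul_inv_cancel]
  · rw [map_mul, map_inv, kill_kill, e2]

/-- the values of the `L c k` -/
theorem vf_finL (h : Hyp g I f) {c : Fin n} (hc : c ∈ I) :
    {x | ∃ k, ev g k = 1 ∧ x = fe g f (L c k)}.Finite := by
  refine Set.Finite.subset ((vf_finR h hc).image (fun y => fe g f (sg c) * y * fe g f (sg c))) ?_
  rintro x ⟨k, hk, rfl⟩
  refine ⟨_, ⟨k, hk, rfl⟩, ?_⟩
  have hs : sg c ∈ Gam g := sg_mem_Gam g (h.one c hc)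
  have hR : R c k ∈ Gam g := (R_mem_Gam_iff g c _).2 (by rw [vf_ev_kill h hc, hk])
  show fe g f (sg c) * fe g f (R c k) * fe g f (sg c) = fe g f (L c k)
  rw [vf_sg_R, fe_mul g f ((Gam g).mul_mem hs hR) hs, fe_mul g f hs hR]

/-- the values of the `C c k`, `k` in the kernel -/
theorem vf_finC1 (h : Hyp g I f) {c : Fin n} (hc : c ∈ I) :
    {x | ∃ k, ev g k = 1 ∧ x = fe g f (C c k)}.Finite := by
  refine Set.Finite.subset ((vf_finL h hc).mul (vf_finR h hc)) ?_
  rintro x ⟨k, hk, rfl⟩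
  have hR : R c k ∈ Gam g := (R_mem_Gam_iff g c _).2 (by rw [vf_ev_kill h hc, hk])
  have hL : L c k ∈ Gam g := (L_mem_Gam_iff g c _).2 (by rw [vf_ev_kill h hc, hk])
  rw [C_eq, fe_mul g f hL hR]
  exact Set.mul_mem_mul ⟨k, hk, rfl⟩ ⟨k, hk, rfl⟩

open Classical in
/-- the values of the `C c u` -/
theorem vf_finC [Finite G] (h : Hyp g I f) {c : Fin n} (hc : c ∈ I) :
    {x | ∃ u, x = fe g f (C c u)}.Finite := by
  have hfin : (Set.univ : Set G).Finite := Set.finite_univ
  let rp : G → T := fun q => if hq : ∃ u, ev g u = q then fe g f (C c hq.choose) else 1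
  refine Set.Finite.subset ((hfin.image rp).mul (vf_finC1 h hc)) ?_
  rintro x ⟨u, rfl⟩
  have hq : ∃ u', ev g u' = ev g u := ⟨u, rfl⟩
  have hr : rp (ev g u) = fe g f (C c hq.choose) := dif_pos hq
  have e1 : C c u = C c hq.choose * C c (hq.choose⁻¹ * u) := by
    rw [← map_mul, mul_inv_cancel_left]
  have hcG : ∀ w, C c w ∈ Gam g := C_mem_Gam g (h.one c hc)
  rw [e1, fe_mul g f (hcG _) (hcG _)]
  refine Set.mul_mem_mul ⟨ev g u, Set.mem_univ _, hr⟩ ⟨_, ?_, rfl⟩
  rw [map_mul, map_inv, hq.choose_spec, inv_mul_cancel]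

/-- the set of the values of the moves of the letter `c` -/
theorem vf_finV [Finite G] (h : Hyp g I f) {c : Fin n} (hc : c ∈ I) :
    {x | ∃ φ, φ ∈ Mv c ∧ φ ∈ Gam g ∧ x = fe g f φ}.Finite := by
  have hs : sg c ∈ Gam g := sg_mem_Gam g (h.one c hc)
  have hcG : ∀ w, C c w ∈ Gam g := C_mem_Gam g (h.one c hc)
  have key : ∀ u v, L c u * R c v ∈ Gam g →
      fe g f (L c u * R c v) ∈ {x | ∃ u, x = fe g f (C c u)} *
        {x | ∃ k, ev g k = 1 ∧ x = fe g f (R c k)} := by
    intro u v huv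
    have e1 : L c u * R c v = C c u * R c (u⁻¹ * v) := by
      rw [C_eq, mul_assoc, ← map_mul, mul_inv_cancel_left]
    rw [e1] at huv ⊢
    have hR : R c (u⁻¹ * v) ∈ Gam g := by
      have := (Gam g).mul_mem ((Gam g).inv_mem (hcG u)) huv
      rwa [inv_mul_cancel_left] at this
    rw [fe_mul g f (hcG _) hR]
    refine Set.mul_mem_mul ⟨u, rfl⟩ ⟨_, ?_, rfl⟩
    have h2 := (R_mem_Gam_iff g c _).1 hR
    rwa [vf_ev_kill h hc] at h2
  refine Set.Finite.subset ((((vf_finC h hc).mul (vf_finR h hc))).mul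
    (Set.toFinite ({1, fe g f (sg c)} : Set T))) ?_
  rintro x ⟨φ, hφ, hφg, rfl⟩
  obtain ⟨u, v, huv | huv⟩ := mem_Mv_iff.1 hφ
  · rw [huv] at hφg ⊢
    rw [← mul_one (fe g f (L c u * R c v))]
    exact Set.mul_mem_mul (key u v hφg) (Set.mem_insert _ _)
  · rw [huv] at hφg ⊢
    have h1 : L c u * R c v ∈ Gam g := by
      have := (Gam g).mul_mem hφg ((Gam g).inv_mem hs)
      rwa [mul_inv_cancel_right] at this
    rw [fe_mul g f h1 hs]
    exact Set.mul_mem_mul (key u v h1) (Set.mem_insert_of_mem _ rfl)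

variable (g f) in
/-- `VV` consists of the values of the moves -/
theorem vf_VV_eq (c : Fin n) {x : T} (hx : x ∈ VV g f c) :
    ∃ φ, φ ∈ Mv c ∧ φ ∈ Gam g ∧ x = fe g f φ := by
  unfold VV at hx
  induction hx using Subgroup.closure_induction with
  | mem x hx => exact hx
  | one => exact ⟨1, (Mv c).one_mem, (Gam g).one_mem, (fe_one g f).symm⟩
  | mul x y _ _ hx hy =>
    obtain ⟨φ, h1, h2, rfl⟩ := hx
    obtain ⟨ψ, h3, h4, rfl⟩ := hy
    exact ⟨φ * ψ, (Mv c).mul_mem h1 h3, (Gam g).mul_mem h2 h4, (fe_mul g f h2 h4).symm⟩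
  | inv x _ hx =>
    obtain ⟨φ, h1, h2, rfl⟩ := hx
    exact ⟨φ⁻¹, (Mv c).inv_mem h1, (Gam g).inv_mem h2, (fe_inv g f h2).symm⟩

variable (g f) in
theorem vf_mem_VV {c : Fin n} {φ : MulAut (FreeGroup (Fin n))} (h1 : φ ∈ Mv c)
    (h2 : φ ∈ Gam g) : fe g f φ ∈ VV g f c :=
  Subgroup.subset_closure ⟨φ, h1, h2, rfl⟩

variable (g f) in
/-- conjugation by the value of an automorphism which preserves the letter `c` -/
theorem vf_conj {c : Fin n} {P : MulAut (FreeGroup (Fin n))} (hP : Pres c P) (hPg : P ∈ Gam g)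
    {y : T} (hy : y ∈ VV g f c) : fe g f P * y * (fe g f P)⁻¹ ∈ VV g f c := by
  obtain ⟨φ, h1, h2, rfl⟩ := vf_VV_eq g f c hy
  rw [← fe_mul g f hPg h2, ← fe_inv g f hPg, ← fe_mul g f ((Gam g).mul_mem hPg h2)
    ((Gam g).inv_mem hPg)]
  exact vf_mem_VV g f (Mv_conj hP h1)
    ((Gam g).mul_mem ((Gam g).mul_mem hPg h2) ((Gam g).inv_mem hPg))

variable (g I f)

/-- MODULE VF, file Pool/Agent/RED/VFin.lean -/
theorem VV_finite [Finite G] (h : Hyp g I f) {c : Fin n} (hc : c ∈ I) :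
    Finite (VV g f c) :=
  ((vf_finV h hc).subset fun _ hx => vf_VV_eq g f c hx).to_subtype

theorem VV_norm (h : Hyp g I f) {c : Fin n} (hc : c ∈ I) :
    ∀ x ∈ HH g I f {c}ᶜ, ∀ y ∈ VV g f c, x * y * x⁻¹ ∈ VV g f c := by
  have gen : ∀ x, x ∈ ({x | ∃ i ∈ I, i ∈ ({c}ᶜ : Finset (Fin n)) ∧
      ∃ φ ∈ MvIn {c}ᶜ i, φ ∈ Gam g ∧ x = fe g f φ} ∪
      {x | ∃ j, j ∉ I ∧ ∃ i ∈ I, i ∈ ({c}ᶜ : Finset (Fin n)) ∧
        x = fe g f (R j (FreeGroup.of i))} : Set T) →
      ∃ P, Pres c P ∧ P ∈ Gam g ∧ x = fe g f P := by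
    rintro x (⟨i, hi, hic, φ, hφ, hφg, rfl⟩ | ⟨j, hj, i, hi, hic, rfl⟩)
    · refine ⟨φ, ?_, hφg, rfl⟩
      have hci : c ≠ i := fun hh => by
        rw [hh] at hic
        exact (Finset.mem_compl.mp hic) (Finset.mem_singleton_self i)
      obtain ⟨u, hu, v, hv, hφ⟩ := hφ
      have hcc : c ∉ ({c}ᶜ : Finset (Fin n)) := fun hh =>
        (Finset.mem_compl.mp hh) (Finset.mem_singleton_self c)
      have h1 : Pres c (L i u * R i v) :=
        vf_pres_mul (pres_L hci (kill_eq hu hcc)) (pres_R hci (kill_eq hv hcc))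
      rcases hφ with hφ | hφ
      · rw [hφ]; exact h1
      · rw [hφ]; exact vf_pres_mul h1 (vf_pres_sg hci)
    · have hci : i ≠ c := fun hh => by
        rw [hh] at hic
        exact (Finset.mem_compl.mp hic) (Finset.mem_singleton_self c)
      have hcj : c ≠ j := fun hh => hj (hh ▸ hc)
      have hij : i ≠ j := fun hh => hj (hh ▸ hi)
      refine ⟨R j (FreeGroup.of i), pres_R hcj (kill_of_ne hci), ?_, rfl⟩
      rw [R_mem_Gam_iff, kill_of_ne hij, ev_of, h.one i hi]
  intro x hx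
  unfold HH at hx
  have key : (∀ y ∈ VV g f c, x * y * x⁻¹ ∈ VV g f c) ∧
      (∀ y ∈ VV g f c, x⁻¹ * y * x ∈ VV g f c) := by
    induction hx using Subgroup.closure_induction with
    | mem x hx =>
      obtain ⟨P, h1, h2, rfl⟩ := gen x hx
      refine ⟨fun y hy => vf_conj g f h1 h2 hy, fun y hy => ?_⟩
      have h3 := vf_conj g f (vf_pres_inv h1) ((Gam g).inv_mem h2) hy
      rwa [fe_inv g f h2, inv_inv] at h3
    | one =>
      refine ⟨fun y hy => ?_, fun y hy => ?_⟩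
      · rwa [one_mul, inv_one, mul_one]
      · rwa [mul_one, inv_one, one_mul]
    | mul x x' _ _ hx hx' =>
      refine ⟨fun y hy => ?_, fun y hy => ?_⟩
      · have h1 := hx.1 _ (hx'.1 y hy)
        rw [mul_inv_rev]
        simpa only [mul_assoc] using h1
      · have h1 := hx'.2 _ (hx.2 y hy)
        rw [mul_inv_rev]
        simpa only [mul_assoc] using h1
    | inv x _ hx =>
      refine ⟨fun y hy => ?_, fun y hy => ?_⟩
      · rw [inv_inv]
        exact hx.2 y hy
      · rw [inv_inv]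
        exact hx.1 y hy
  exact key.1

end Image

end RED
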