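import Pool.Agent.RED.WComm
import Pool.Agent.IAQ.Stein

/-!
# The column group is finite and commutative
-/

set_option autoImplicit false

namespace RED

open AFn IAQ

section Image

variable {n : ℕ} {G : Type*} [Group G] (g : Fin n → G) (I : Finset (Fin n)) {T : Type*}
  [Group T] (f : Gam g →* T)

/-! ### words -/

theorem wcc_notMem {I : Finset (Fin n)} {i : Fin n} (hi : i ∈ I) : i ∉ Iᶜ := by
  simp [hi]

theorem wcc_kill {I : Finset (Fin n)} {i : Fin n} (hi : i ∈ I) {v : FreeGroup (Fin n)}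
    (hv : v ∈ fsub Iᶜ) : kill i v = v := kill_eq hv (wcc_notMem hi)

theorem wcc_kill_qq {I : Finset (Fin n)} {i c : Fin n} (hi : i ∈ I) (hic : i ≠ c)
    {v : FreeGroup (Fin n)} (hv : v ∈ fsub Iᶜ) : kill i (qq c v) = qq c v := by
  unfold qq
  rw [map_mul, map_mul, map_inv, wcc_kill hi hv, kill_of_ne (Ne.symm hic)]

theorem wcc_qq_UU {I : Finset (Fin n)} {i c : Fin n} (hi : i ∈ I) (hc : c ∈ I) (hic : i ≠ c)
    {v : FreeGroup (Fin n)} (hv : v ∈ fsub Iᶜ) : qq c v ∈ UU I i := by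
  refine ⟨?_, wcc_kill_qq hi hic hv⟩
  have h1 : ret Iᶜ (FreeGroup.of c) = 1 := by simp [ret, hc]
  unfold qq
  rw [map_mul, map_mul, map_inv, h1, mul_one, mul_inv_cancel]

theorem wcc_ev_ret {g : Fin n → G} {I : Finset (Fin n)} (h1 : ∀ i ∈ I, g i = 1)
    (w : FreeGroup (Fin n)) : ev g (ret Iᶜ w) = ev g w := by
  have h : (ev g).comp (ret Iᶜ) = ev g := by
    ext x
    by_cases hx : x ∈ I
    · simp [ret, hx, ev, h1 x hx]
    · simp [ret, hx, ev]
  exact DFunLike.congr_fun h w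

theorem wcc_UU_ev {g : Fin n → G} {I : Finset (Fin n)} (h1 : ∀ i ∈ I, g i = 1) {a : Fin n}
    {u : FreeGroup (Fin n)} (hu : u ∈ UU I a) : ev g (kill a u) = 1 := by
  rw [hu.2, ← wcc_ev_ret h1 u, hu.1, map_one]

theorem wcc_R_mem {g : Fin n → G} {I : Finset (Fin n)} (h1 : ∀ i ∈ I, g i = 1) {a : Fin n}
    {u : FreeGroup (Fin n)} (hu : u ∈ UU I a) : R a u ∈ Gam g :=
  lu_R_mem g (wcc_UU_ev h1 hu)

theorem wcc_L_mem {g : Fin n → G} {I : Finset (Fin n)} (h1 : ∀ i ∈ I, g i = 1) {a : Fin n}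
    {u : FreeGroup (Fin n)} (hu : u ∈ UU I a) : L a u ∈ Gam g :=
  lu_L_mem g (wcc_UU_ev h1 hu)

/-- the images of commuting elements commute -/
theorem wcc_commute {φ ψ : MulAut (FreeGroup (Fin n))} (hφ : φ ∈ Gam g) (hψ : ψ ∈ Gam g)
    (h : φ * ψ = ψ * φ) : Commute (fe g f φ) (fe g f ψ) := by
  unfold Commute SemiconjBy
  rw [← fe_mul g f hφ hψ, h, fe_mul g f hψ hφ]

/-! ### exact commutation -/

theorem wcc_LL {a b : Fin n} (hab : a ≠ b) {v w : FreeGroup (Fin n)} (hv : kill a v = v)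
    (hw : kill b (kill a w) = kill a w) : L b v * L a w = L a w * L b v := by
  have h := (pres_L hab hv).conj_L w
  rw [L_fixed v hw, L_killed, mul_inv_eq_iff_eq_mul] at h
  exact h

theorem wcc_LR {a b : Fin n} (hab : a ≠ b) {v w : FreeGroup (Fin n)} (hv : kill a v = v)
    (hw : kill b (kill a w) = kill a w) : L b v * R a w = R a w * L b v := by
  have h := (pres_L hab hv).conj_R w
  rw [L_fixed v hw, R_killed, mul_inv_eq_iff_eq_mul] at h
  exact h

/-- the row elements -/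
def IsRow (i c : Fin n) (v : FreeGroup (Fin n)) (x : T) : Prop :=
  x = fe g f (R i (qq c v)) ∨ x = fe g f (L i (qq c v))

theorem wcc_row_row (h : Hyp g I f) {c i i' : Fin n} (hc : c ∈ I) (hi : i ∈ I) (hi' : i' ∈ I)
    (hic : i ≠ c) (hic' : i' ≠ c) {v v' : FreeGroup (Fin n)} (hv : v ∈ fsub Iᶜ)
    (hv' : v' ∈ fsub Iᶜ) {x y : T} (hx : IsRow g f i c v x) (hy : IsRow g f i' c v' y) :
    Commute x y := by
  have hu := wcc_qq_UU hi hc hic hv
  have hu' := wcc_qq_UU hi' hc hic' hv'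
  have hR := wcc_R_mem h.one hu
  have hL := wcc_L_mem h.one hu
  have hR' := wcc_R_mem h.one hu'
  have hL' := wcc_L_mem h.one hu'
  by_cases hii : i = i'
  · subst hii
    rcases hx with rfl | rfl <;> rcases hy with rfl | rfl
    · exact h.S2 i _ hu _ hu'
    · exact (wcc_commute g f hL' hR (LR_comm i _ _)).symm
    · exact wcc_commute g f hL hR' (LR_comm i _ _)
    · exact S2L g I f h hi _ hu _ hu'
  · have k1 : kill i (qq c v') = qq c v' := wcc_kill_qq hi hic hv'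
    have k2 : kill i' (qq c v) = qq c v := wcc_kill_qq hi' hic' hv
    have k3 : kill i' (kill i (qq c v)) = kill i (qq c v) := by
      rw [wcc_kill_qq hi hic hv, k2]
    have k4 : kill i (kill i' (qq c v')) = kill i' (qq c v') := by
      rw [wcc_kill_qq hi' hic' hv', k1]
    rcases hx with rfl | rfl <;> rcases hy with rfl | rfl
    · exact (wcc_commute g f hR' hR (R_comm_R hii k1 k3)).symm
    · exact (wcc_commute g f hL' hR (wcc_LR hii k1 k3)).symm
    · exact wcc_commute g f hL hR' (wcc_LR (Ne.symm hii) k2 k4)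
    · exact (wcc_commute g f hL' hL (wcc_LL hii k1 k3)).symm

theorem wcc_row_X (h : Hyp g I f) {c j e i : Fin n} (hc : c ∈ I) (he : e ∈ I) (hi : i ∈ I)
    (hic : i ≠ c) (hie : i ≠ e) (hj : j ∉ I) {v : FreeGroup (Fin n)} (hv : v ∈ fsub Iᶜ) {x : T}
    (hx : IsRow g f i c v x) : Commute (fe g f (R j (FreeGroup.of e))) x := by
  rcases hx with rfl | rfl
  · exact (F2 g I f h hc he hi hic hie hj hv).1
  · exact (F2 g I f h hc he hi hic hie hj hv).2

theorem wcc_exists {I : Finset (Fin n)} (hI : 5 ≤ I.card) (c i : Fin n) :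
    ∃ e ∈ I, e ≠ c ∧ e ≠ i := by
  have h1 : ({c, i} : Finset (Fin n)).card ≤ 2 := Finset.card_le_two
  have h2 : 0 < (I \ {c, i}).card := by
    have := Finset.le_card_sdiff ({c, i} : Finset (Fin n)) I
    omega
  obtain ⟨e, he⟩ := Finset.card_pos.1 h2
  rw [Finset.mem_sdiff, Finset.mem_insert, Finset.mem_singleton, not_or] at he
  exact ⟨e, he.1, he.2.1, he.2.2⟩

theorem wcc_comm_yy {x B X : T} (h1 : Commute x B) (h2 : Commute x X) :
    Commute x (B⁻¹ * X⁻¹ * B * X) :=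
  ((h1.inv_right.mul_right h2.inv_right).mul_right h1).mul_right h2

theorem wcc_row_yy (h : Hyp g I f) (hI : 5 ≤ I.card) {c i j e : Fin n} (hc : c ∈ I)
    (hi : i ∈ I) (hic : i ≠ c) (hj : j ∉ I) (he : e ∈ I) (hec : e ≠ c)
    {v v' : FreeGroup (Fin n)} (hv : v ∈ fsub Iᶜ) (hv' : v' ∈ fsub Iᶜ) {x : T}
    (hx : IsRow g f i c v x) : Commute x (yy g f c e j v') := by
  obtain ⟨e', he', hec', hei'⟩ := wcc_exists hI c i
  rw [yy_indep g I f h hI hc he he' hec hec' hj hv']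
  exact wcc_comm_yy (wcc_row_row g I f h hc hi he' hic hec' hv hv' hx (Or.inl rfl))
    (wcc_row_X g I f h hc he' hi hic (Ne.symm hei') hj hv hx).symm

theorem wcc_yy_yy (h : Hyp g I f) (hI : 5 ≤ I.card) {c j j' e e' : Fin n} (hc : c ∈ I)
    (hj : j ∉ I) (hj' : j' ∉ I) (he : e ∈ I) (he' : e' ∈ I) (hec : e ≠ c) (hec' : e' ≠ c)
    {v v' : FreeGroup (Fin n)} (hv : v ∈ fsub Iᶜ) (hv' : v' ∈ fsub Iᶜ) :
    Commute (yy g f c e j v) (yy g f c e' j' v') := by
  obtain ⟨e2, he2, hec2, hee2⟩ := wcc_exists hI c e'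
  rw [yy_indep g I f h hI hc he he2 hec hec2 hj hv]
  have h1 : Commute (fe g f (R e2 (qq c v))) (yy g f c e' j' v') :=
    wcc_row_yy g I f h hI hc he2 hec2 hj' he' hec' hv hv' (Or.inl rfl)
  have h2 : Commute (fe g f (R j (FreeGroup.of e2))) (fe g f (R e' (qq c v'))) :=
    wcc_row_X g I f h hc he2 he' hec' (Ne.symm hee2) hj hv' (Or.inl rfl)
  have h3 : Commute (fe g f (R j (FreeGroup.of e2))) (fe g f (R j' (FreeGroup.of e'))) :=
    F3 g I f h he2 he' hj hj'
  have h4 : Commute (fe g f (R j (FreeGroup.of e2))) (yy g f c e' j' v') := wcc_comm_yy h2 h3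
  exact (wcc_comm_yy h1.symm h4.symm).symm

/-- MODULE WC2, file Pool/Agent/RED/WComm2.lean -/
theorem WW_comm (h : Hyp g I f) (hI : 5 ≤ I.card) {c : Fin n} (hc : c ∈ I) :
    ∀ x ∈ WWs g I f c, ∀ y ∈ WWs g I f c, Commute x y := by
  rintro x (⟨i, hi, hic, v, hv, hx⟩ | ⟨j, hj, e, he, hec, v, hv, rfl⟩) y
    (⟨i', hi', hic', v', hv', hy⟩ | ⟨j', hj', e', he', hec', v', hv', rfl⟩)
  · exact wcc_row_row g I f h hc hi hi' hic hic' hv hv' hx hy
  · exact wcc_row_yy g I f h hI hc hi hic hj' he' hec' hv hv' hx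
  · exact (wcc_row_yy g I f h hI hc hi' hic' hj he hec hv' hv hy).symm
  · exact wcc_yy_yy g I f h hI hc hj hj' he he' hec hec' hv hv'

/-! ### finiteness -/

theorem wcc_sg_kill (a : Fin n) (w : FreeGroup (Fin n)) : sg a (kill a w) = kill a w := by
  have h : (sgHom a).comp (kill a) = kill a := by
    ext x
    by_cases hx : x = a
    · subst hx; simp [kill, sgHom]
    · simp [kill, sgHom, hx]
  exact DFunLike.congr_fun h w

theorem wcc_sgR (a : Fin n) (w : FreeGroup (Fin n)) : sg a * R a w * sg a = L a w := by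
  apply aut_ext
  intro x
  rw [MulAut.mul_apply, MulAut.mul_apply]
  by_cases hx : x = a
  · subst hx
    rw [sg_of_self, map_inv, R_of_self, mul_inv_rev, map_mul, map_inv, map_inv, wcc_sg_kill,
      sg_of_self, inv_inv, L_of_self]
  · rw [sg_of_ne hx, R_of_ne hx, sg_of_ne hx, L_of_ne hx]

theorem wcc_fe_pow {I : Finset (Fin n)} (h1 : ∀ i ∈ I, g i = 1) {a : Fin n}
    {u : FreeGroup (Fin n)} (hu : u ∈ UU I a) (k : ℕ) :
    fe g f (R a u) ^ k = fe g f (R a (u ^ k)) := by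
  induction k with
  | zero => rw [pow_zero, pow_zero, map_one, fe_one]
  | succ k ih =>
    rw [pow_succ, pow_succ, ih, map_mul,
      fe_mul g f (wcc_R_mem h1 ((UU I a).pow_mem hu k)) (wcc_R_mem h1 hu)]

theorem wcc_finOrder_R (h : Hyp g I f) {i : Fin n} (hi : i ∈ I) {u : FreeGroup (Fin n)}
    (hu : u ∈ UU I i) : IsOfFinOrder (fe g f (R i u)) := by
  rw [← finite_powers]
  refine (h.A i hi).subset ?_
  rintro x ⟨k, rfl⟩
  exact ⟨u ^ k, (UU I i).pow_mem hu k, wcc_fe_pow g f h.one hu k⟩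

theorem wcc_fe_L (h : Hyp g I f) {i : Fin n} (hi : i ∈ I) {u : FreeGroup (Fin n)}
    (hu : u ∈ UU I i) :
    fe g f (L i u) = fe g f (sg i) * fe g f (R i u) * fe g f (sg i) := by
  have hs : sg i ∈ Gam g := lu_sg_mem g (h.one i hi)
  have hR := wcc_R_mem h.one hu
  rw [← wcc_sgR, fe_mul g f ((Gam g).mul_mem hs hR) hs, fe_mul g f hs hR]

theorem wcc_sg_sq (h : Hyp g I f) {i : Fin n} (hi : i ∈ I) :
    fe g f (sg i) * fe g f (sg i) = 1 := by
  have hs : sg i ∈ Gam g := lu_sg_mem g (h.one i hi)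
  rw [← fe_mul g f hs hs, sg_mul_self, fe_one]

theorem wcc_finOrder_L (h : Hyp g I f) {i : Fin n} (hi : i ∈ I) {u : FreeGroup (Fin n)}
    (hu : u ∈ UU I i) : IsOfFinOrder (fe g f (L i u)) := by
  have h1 : (fe g f (sg i))⁻¹ = fe g f (sg i) :=
    inv_eq_of_mul_eq_one_left (wcc_sg_sq g I f h hi)
  rw [wcc_fe_L g I f h hi hu]
  have h2 := wcc_finOrder_R g I f h hi hu
  obtain ⟨k, hk, h3⟩ := isOfFinOrder_iff_pow_eq_one.1 h2
  refine isOfFinOrder_iff_pow_eq_one.2 ⟨k, hk, ?_⟩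
  nth_rewrite 2 [← h1]
  rw [conj_pow, h3, mul_one, mul_inv_cancel]

theorem WW_finite (h : Hyp g I f) (hI : 5 ≤ I.card) {c : Fin n} (hc : c ∈ I) :
    Finite (WW g I f c) := by
  have hcomm := WW_comm g I f h hI hc
  refine (Stein.closure_finite_of_comm (T := WWs g I f c) ?_ (fun x hx y hy => (hcomm x hx y hy).eq)
    ?_).to_subtype
  · -- finiteness of the set of generators
    have f1 : (⋃ i ∈ (I : Set (Fin n)), {x | ∃ u ∈ UU I i, x = fe g f (R i u)}).Finite :=
      I.finite_toSet.biUnion fun i hi => h.A i hi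
    have f2 : (⋃ i ∈ (I : Set (Fin n)), (fun x => fe g f (sg i) * x * fe g f (sg i)) ''
        {x | ∃ u ∈ UU I i, x = fe g f (R i u)}).Finite :=
      I.finite_toSet.biUnion fun i hi => (h.A i hi).image _
    have f3 : (⋃ j ∈ (Set.univ : Set (Fin n)), ⋃ e ∈ (I : Set (Fin n)),
        (fun x => x⁻¹ * (fe g f (R j (FreeGroup.of e)))⁻¹ * x * fe g f (R j (FreeGroup.of e))) ''
        {x | ∃ u ∈ UU I e, x = fe g f (R e u)}).Finite :=
      Set.finite_univ.biUnion fun j _ => I.finite_toSet.biUnion fun e he => (h.A e he).image _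
    refine ((f1.union f2).union f3).subset ?_
    rintro x (⟨i, hi, hic, v, hv, hx⟩ | ⟨j, hj, e, he, hec, v, hv, rfl⟩)
    · have hu := wcc_qq_UU hi hc hic hv
      rcases hx with rfl | rfl
      · refine Or.inl (Or.inl ?_)
        rw [Set.mem_iUnion₂]
        exact ⟨i, hi, _, hu, rfl⟩
      · refine Or.inl (Or.inr ?_)
        rw [Set.mem_iUnion₂]
        exact ⟨i, hi, fe g f (R i (qq c v)), ⟨_, hu, rfl⟩, (wcc_fe_L g I f h hi hu).symm⟩
    · have hu := wcc_qq_UU he hc hec hv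
      refine Or.inr ?_
      rw [Set.mem_iUnion₂]
      refine ⟨j, Set.mem_univ j, ?_⟩
      rw [Set.mem_iUnion₂]
      exact ⟨e, he, fe g f (R e (qq c v)), ⟨_, hu, rfl⟩, rfl⟩
  · rintro x (⟨i, hi, hic, v, hv, hx⟩ | ⟨j, hj, e, he, hec, v, hv, rfl⟩)
    · have hu := wcc_qq_UU hi hc hic hv
      rcases hx with rfl | rfl
      · exact wcc_finOrder_R g I f h hi hu
      · exact wcc_finOrder_L g I f h hi hu
    · have hu := wcc_qq_UU he hc hec hv
      have hB := wcc_finOrder_R g I f h he hu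
      set B : T := fe g f (R e (qq c v)) with hBd
      set X : T := fe g f (R j (FreeGroup.of e)) with hXd
      have hy : yy g f c e j v = B⁻¹ * (X⁻¹ * B * X) := by
        unfold yy
        rw [← hBd, ← hXd]
        group
      have h1 : Commute B (yy g f c e j v) :=
        wcc_row_yy g I f h hI hc he hec hj he hec hv hv (Or.inl rfl)
      have h2 : Commute B (X⁻¹ * B * X) := by
        have h3 : X⁻¹ * B * X = B * yy g f c e j v := by
          rw [hy, mul_inv_cancel_left]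
        rw [h3]
        exact (Commute.refl B).mul_right h1
      rw [hy]
      refine h2.inv_left.isOfFinOrder_mul hB.inv ?_
      obtain ⟨k, hk, h3⟩ := isOfFinOrder_iff_pow_eq_one.1 hB
      refine isOfFinOrder_iff_pow_eq_one.2 ⟨k, hk, ?_⟩
      have h4 : (X⁻¹ * B * X) ^ k = X⁻¹ * B ^ k * X := by
        have h5 := conj_pow (i := k) (a := X⁻¹) (b := B)
        rwa [inv_inv] at h5
      rw [h4, h3, mul_one, inv_mul_cancel]

end Image

end RED
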