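import Mathlib
import Pool.Agent.RED.Defs
import Pool.Agent.RED.MvBasic
import Pool.Agent.RED.LU

/-!
# Generators of the group `HH {c}ᶜ`
-/

set_option autoImplicit false

namespace RED

open AFn IAQ

section Words

variable {n : ℕ}

private theorem fsub_map {S : Finset (Fin n)} (F : FreeGroup (Fin n) →* FreeGroup (Fin n))
    (P : Subgroup (FreeGroup (Fin n))) (hF : ∀ x ∈ S, F (FreeGroup.of x) ∈ P)
    {w : FreeGroup (Fin n)} (hw : w ∈ fsub S) : F w ∈ P := by
  unfold fsub at hw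
  induction hw using Subgroup.closure_induction with
  | mem y hy =>
    obtain ⟨x, hx, rfl⟩ := hy
    exact hF x (Finset.mem_coe.1 hx)
  | one => rw [map_one]; exact P.one_mem
  | mul y z _ _ hy hz => rw [map_mul]; exact P.mul_mem hy hz
  | inv y _ hy => rw [map_inv]; exact P.inv_mem hy

theorem hg_kill_mem {S : Finset (Fin n)} (a : Fin n) {w : FreeGroup (Fin n)}
    (hw : w ∈ fsub S) : kill a w ∈ fsub S := by
  refine fsub_map (kill a) (fsub S) (fun x hx => ?_) hw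
  rw [kill_of]
  by_cases h : x = a
  · rw [if_pos h]; exact (fsub S).one_mem
  · rw [if_neg h]; exact of_mem_fsub hx

theorem hg_ret_mem {S : Finset (Fin n)} (W : Finset (Fin n)) {w : FreeGroup (Fin n)}
    (hw : w ∈ fsub S) : ret W w ∈ fsub S := by
  refine fsub_map (ret W) (fsub S) (fun x hx => ?_) hw
  by_cases h : x ∈ W
  · have e : ret W (FreeGroup.of x) = FreeGroup.of x := by simp [ret, h]
    rw [e]; exact of_mem_fsub hx
  · have e : ret W (FreeGroup.of x) = 1 := by simp [ret, h]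
    rw [e]; exact (fsub S).one_mem

variable {G : Type*} [Group G]

theorem hg_ev_ret {g : Fin n → G} {I : Finset (Fin n)} (hI : ∀ i ∈ I, g i = 1)
    (w : FreeGroup (Fin n)) : ev g (ret Iᶜ w) = ev g w := by
  have h : (ev g).comp (ret Iᶜ) = ev g := by
    ext x
    rw [MonoidHom.comp_apply]
    by_cases hx : x ∈ I
    · have e : ret Iᶜ (FreeGroup.of x) = 1 := by simp [ret, hx]
      rw [e, map_one, ev_of, hI x hx]
    · have e : ret Iᶜ (FreeGroup.of x) = FreeGroup.of x := by simp [ret, hx]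
      rw [e]
  exact DFunLike.congr_fun h w

end Words

section Image

variable {n : ℕ} {G : Type*} [Group G] (g : Fin n → G) (I : Finset (Fin n)) {T : Type*}
  [Group T] (f : Gam g →* T)

/-- generators of `HH {c}ᶜ` -/
def genHH (c : Fin n) : Set T :=
  {x | (∃ i ∈ I, i ≠ c ∧ x = fe g f (sg i)) ∨
    (∃ i ∈ I, i ≠ c ∧ ∃ b, b ≠ c ∧ b ≠ i ∧ x = fe g f (C i (FreeGroup.of b))) ∨
    (∃ i ∈ I, i ≠ c ∧ ∃ k ∈ fsub Iᶜ, ev g k = 1 ∧ x = fe g f (R i k)) ∨
    (∃ i ∈ I, i ≠ c ∧ ∃ i2 ∈ I, i2 ≠ c ∧ i2 ≠ i ∧ x = fe g f (R i (FreeGroup.of i2))) ∨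
    (∃ j, j ∉ I ∧ ∃ i ∈ I, i ≠ c ∧ x = fe g f (R j (FreeGroup.of i)))}

/-- the partial conjugations by words without `x_c` -/
private theorem C_mem (h : Hyp g I f) {c i : Fin n} (hi : i ∈ I) (hic : i ≠ c)
    {w : FreeGroup (Fin n)} (hw : w ∈ fsub ({c}ᶜ : Finset (Fin n))) :
    fe g f (C i w) ∈ Subgroup.closure (genHH g I f c) := by
  have hG : ∀ w, C i w ∈ Gam g := fun w => C_mem_Gam g (h.one i hi) w
  unfold fsub at hw
  induction hw using Subgroup.closure_induction with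
  | mem y hy =>
    obtain ⟨x, hx, rfl⟩ := hy
    have hxc : x ≠ c := by
      intro e
      rw [Finset.mem_coe, Finset.mem_compl, Finset.mem_singleton] at hx
      exact hx e
    by_cases hxi : x = i
    · subst hxi
      rw [← C_killed, kill_of_self, map_one, fe_one]
      exact Subgroup.one_mem _
    · exact Subgroup.subset_closure (Or.inr (Or.inl ⟨i, hi, hic, x, hxc, hxi, rfl⟩))
  | one => rw [map_one, fe_one]; exact Subgroup.one_mem _
  | mul y z _ _ hy hz =>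
    rw [map_mul, fe_mul g f (hG _) (hG _)]
    exact Subgroup.mul_mem _ hy hz
  | inv y _ hy =>
    rw [map_inv, fe_inv g f (hG _)]
    exact Subgroup.inv_mem _ hy

/-- `R i (v x_i2 v⁻¹)` -/
private theorem Rq_mem (h : Hyp g I f) {c i i2 : Fin n} (hc : c ∈ I) (hi : i ∈ I)
    (hi2 : i2 ∈ I) (hic : i ≠ c) (hi2c : i2 ≠ c) (hii : i2 ≠ i) {v : FreeGroup (Fin n)}
    (hv : v ∈ fsub Iᶜ) :
    fe g f (R i (qq i2 v)) ∈ Subgroup.closure (genHH g I f c) := by
  have hG : ∀ w, C i2 w ∈ Gam g := fun w => C_mem_Gam g (h.one i2 hi2) w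
  have hki : kill i v = v := kill_eq hv (by simpa using hi)
  have hki2 : kill i2 v = v := kill_eq hv (by simpa using hi2)
  have hvc : v ∈ fsub ({c}ᶜ : Finset (Fin n)) := by
    refine fsub_mono ?_ hv
    intro x hx
    rw [Finset.mem_compl] at hx
    rw [Finset.mem_compl, Finset.mem_singleton]
    rintro rfl
    exact hx hc
  have hR : R i (FreeGroup.of i2) ∈ Gam g := by
    rw [R_mem_Gam_iff, kill_of_ne hii, ev_of, h.one i2 hi2]
  have hP : Pres i (C i2 v⁻¹) := pres_C hii.symm (by rw [map_inv, hki])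
  have e := hP.conj_R (FreeGroup.of i2)
  have hk' : kill i2 v⁻¹ = v⁻¹ := by rw [map_inv, hki2]
  rw [kill_of_ne hii, C_of_self, hk', inv_inv] at e
  have e2 : R i (qq i2 v) = C i2 v⁻¹ * R i (FreeGroup.of i2) * C i2 v := by
    unfold qq
    rw [← e, map_inv, inv_inv]
  rw [e2, fe_mul g f ((Gam g).mul_mem (hG _) hR) (hG _), fe_mul g f (hG _) hR]
  refine Subgroup.mul_mem _ (Subgroup.mul_mem _ ?_ ?_) ?_
  · exact C_mem g I f h hi2 hi2c ((fsub _).inv_mem hvc)
  · exact Subgroup.subset_closure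
      (Or.inr (Or.inr (Or.inr (Or.inl ⟨i, hi, hic, i2, hi2, hi2c, hii, rfl⟩))))
  · exact C_mem g I f h hi2 hi2c hvc

/-- the transvections `R i w` -/
private theorem R_mem (h : Hyp g I f) {c i : Fin n} (hc : c ∈ I) (hi : i ∈ I) (hic : i ≠ c)
    {w : FreeGroup (Fin n)} (hw : w ∈ fsub ({c}ᶜ : Finset (Fin n))) (hkw : kill i w = w)
    (hgw : ev g w = 1) : fe g f (R i w) ∈ Subgroup.closure (genHH g I f c) := by
  obtain ⟨w', hw'⟩ : ∃ w', w' = ret Iᶜ w := ⟨_, rfl⟩
  have h1 : w' ∈ fsub Iᶜ := by rw [hw']; exact ret_mem _ _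
  have h2 : kill i w' = w' := kill_eq h1 (by simpa using hi)
  have h3 : ev g w' = 1 := by rw [hw', hg_ev_ret h.one, hgw]
  have h4 : w * w'⁻¹ ∈ UU I i := by
    refine ⟨?_, ?_⟩
    · rw [map_mul, map_inv, ← hw', ret_eq h1, mul_inv_cancel]
    · rw [map_mul, map_inv, hkw, h2]
  have h5 : w * w'⁻¹ ∈ fsub ({c}ᶜ : Finset (Fin n)) := by
    refine (fsub _).mul_mem hw ((fsub _).inv_mem ?_)
    rw [hw']
    exact hg_ret_mem _ hw
  have e : R i w = R i (w * w'⁻¹) * R i w' := by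
    rw [← map_mul, inv_mul_cancel_right]
  have hG1 : R i (w * w'⁻¹) ∈ Gam g := by
    rw [R_mem_Gam_iff, h4.2, map_mul, map_inv, hgw, h3, inv_one, mul_one]
  have hG2 : R i w' ∈ Gam g := by rw [R_mem_Gam_iff, h2, h3]
  rw [e, fe_mul g f hG1 hG2]
  refine Subgroup.mul_mem _ ?_ ?_
  · have h6 := (LU g I f h hi {c}ᶜ h4 h5).1
    refine (Subgroup.closure_le _).2 ?_ h6
    rintro x ⟨i2, hi2, hi2c, hii, v, hv, rfl⟩
    rw [Finset.mem_compl, Finset.mem_singleton] at hi2c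
    exact Rq_mem g I f h hc hi hi2 hic hi2c hii hv
  · exact Subgroup.subset_closure (Or.inr (Or.inr (Or.inl ⟨i, hi, hic, w', h1, h3, rfl⟩)))

/-- the moves `L i u * R i v` -/
private theorem LR_mem (h : Hyp g I f) {c i : Fin n} (hc : c ∈ I) (hi : i ∈ I) (hic : i ≠ c)
    {u v : FreeGroup (Fin n)} (hu : u ∈ fsub ({c}ᶜ : Finset (Fin n)))
    (hv : v ∈ fsub ({c}ᶜ : Finset (Fin n))) (hG : L i u * R i v ∈ Gam g) :
    fe g f (L i u * R i v) ∈ Subgroup.closure (genHH g I f c) := by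
  have hgi : g i = 1 := h.one i hi
  have hCG : ∀ w, C i w ∈ Gam g := fun w => C_mem_Gam g hgi w
  obtain ⟨u', hu'⟩ : ∃ u', u' = kill i u := ⟨_, rfl⟩
  obtain ⟨v', hv'⟩ : ∃ v', v' = kill i v := ⟨_, rfl⟩
  have hkw : kill i (u'⁻¹ * v') = u'⁻¹ * v' := by
    rw [map_mul, map_inv, hu', hv', kill_kill, kill_kill]
  have e : L i u * R i v = C i u' * R i (u'⁻¹ * v') := by
    rw [C_eq, map_mul, map_inv, ← L_killed i u, ← R_killed i v, ← hu', ← hv']
    group
  have hG2 : R i (u'⁻¹ * v') ∈ Gam g := by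
    have h1 : R i (u'⁻¹ * v') = (C i u')⁻¹ * (L i u * R i v) := by rw [e]; group
    rw [h1]
    exact (Gam g).mul_mem ((Gam g).inv_mem (hCG _)) hG
  have hev : ev g (u'⁻¹ * v') = 1 := by
    have h1 := hG2
    rwa [R_mem_Gam_iff, hkw] at h1
  rw [e, fe_mul g f (hCG _) hG2]
  refine Subgroup.mul_mem _ ?_ ?_
  · refine C_mem g I f h hi hic ?_
    rw [hu']
    exact hg_kill_mem i hu
  · refine R_mem g I f h hc hi hic ?_ hkw hev
    rw [hu', hv']
    exact (fsub _).mul_mem ((fsub _).inv_mem (hg_kill_mem i hu)) (hg_kill_mem i hv)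

theorem HH_gen (h : Hyp g I f) {c : Fin n} (hc : c ∈ I) :
    HH g I f {c}ᶜ ≤ Subgroup.closure (genHH g I f c) := by
  unfold HH
  rw [Subgroup.closure_le]
  rintro x (⟨i, hi, hic, φ, ⟨u, hu, v, hv, hφ⟩, hφG, rfl⟩ | ⟨j, hj, i, hi, hic, rfl⟩)
  · rw [Finset.mem_compl, Finset.mem_singleton] at hic
    rcases hφ with rfl | rfl
    · exact LR_mem g I f h hc hi hic hu hv hφG
    · have hsg : sg i ∈ Gam g := sg_mem_Gam g (h.one i hi)
      have hLR : L i u * R i v ∈ Gam g := by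
        have e : L i u * R i v = L i u * R i v * sg i * (sg i)⁻¹ := by group
        rw [e]
        exact (Gam g).mul_mem hφG ((Gam g).inv_mem hsg)
      rw [SetLike.mem_coe, fe_mul g f hLR hsg]
      exact Subgroup.mul_mem _ (LR_mem g I f h hc hi hic hu hv hLR)
        (Subgroup.subset_closure (Or.inl ⟨i, hi, hic, rfl⟩))
  · rw [Finset.mem_compl, Finset.mem_singleton] at hic
    exact Subgroup.subset_closure (Or.inr (Or.inr (Or.inr (Or.inr ⟨j, hj, i, hi, hic, rfl⟩))))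

end Image

end RED
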