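import Pool.Agent.RED.MvBasic
import Pool.Agent.RED.LU
import Pool.Agent.RED.WComm

/-!
# The column group is normalised by the sign changes and the partial conjugations
-/

set_option autoImplicit false

namespace RED

open AFn IAQ

namespace WNb

section Words

variable {n : ℕ} {I : Finset (Fin n)}

theorem kv {i : Fin n} (hi : i ∈ I) {v : FreeGroup (Fin n)} (hv : v ∈ fsub Iᶜ) :
    kill i v = v :=
  kill_eq hv (by simpa using hi)

theorem kq {i c : Fin n} (hi : i ∈ I) (hic : i ≠ c) {v : FreeGroup (Fin n)}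
    (hv : v ∈ fsub Iᶜ) : kill i (qq c v) = qq c v := by
  unfold qq
  rw [map_mul, map_mul, map_inv, kv hi hv, kill_of_ne hic.symm]

theorem rof {c : Fin n} (hc : c ∈ I) : ret Iᶜ (FreeGroup.of c) = 1 := by
  simp [ret, hc]

theorem rq {c : Fin n} (hc : c ∈ I) {v : FreeGroup (Fin n)} (hv : v ∈ fsub Iᶜ) :
    ret Iᶜ (qq c v) = 1 := by
  unfold qq
  rw [map_mul, map_mul, map_inv, ret_eq hv, rof hc, mul_one, mul_inv_cancel]

theorem qUU {i c : Fin n} (hi : i ∈ I) (hc : c ∈ I) (hic : i ≠ c) {v : FreeGroup (Fin n)}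
    (hv : v ∈ fsub Iᶜ) : qq c v ∈ UU I i := ⟨rq hc hv, kq hi hic hv⟩

theorem jv_mem {j : Fin n} (hj : j ∉ I) {v : FreeGroup (Fin n)} (hv : v ∈ fsub Iᶜ) :
    FreeGroup.of j * v ∈ fsub Iᶜ :=
  (fsub Iᶜ).mul_mem (of_mem_fsub (by simpa using hj)) hv

theorem exists_aux (hI : 5 ≤ I.card) (c i b : Fin n) : ∃ e ∈ I, e ≠ c ∧ e ≠ i ∧ e ≠ b := by
  by_contra hcon
  push Not at hcon
  have h1 : I ⊆ {c, i, b} := by
    intro e he
    simp only [Finset.mem_insert, Finset.mem_singleton]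
    by_contra h2
    push Not at h2
    exact h2.2.2 (hcon e he h2.1 h2.2.1)
  have h2 := Finset.card_le_card h1
  have h3 : ({c, i, b} : Finset (Fin n)).card ≤ 3 := Finset.card_le_three
  omega

/-! ### the sign changes -/

theorem wsg_fix (i : Fin n) {w : FreeGroup (Fin n)} (hw : kill i w = w) : sg i w = w := by
  have h : ((sg i : MulAut (FreeGroup (Fin n))).toMonoidHom).comp (kill i) = kill i := by
    ext x
    rw [MonoidHom.comp_apply, MulEquiv.coe_toMonoidHom, kill_of]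
    by_cases hx : x = i
    · rw [if_pos hx, map_one]
    · rw [if_neg hx, sg_of_ne hx]
  have h1 := DFunLike.congr_fun h w
  rw [MonoidHom.comp_apply, MulEquiv.coe_toMonoidHom, hw] at h1
  exact h1

theorem wsg_R (i : Fin n) (w : FreeGroup (Fin n)) : sg i * R i w * (sg i)⁻¹ = L i w := by
  rw [sg_inv]
  apply aut_ext
  intro x
  rw [MulAut.mul_apply, MulAut.mul_apply]
  by_cases hx : x = i
  · subst hx
    rw [sg_of_self, map_inv, R_of_self, mul_inv_rev, map_mul, map_inv, map_inv, sg_of_self,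
      wsg_fix x (kill_kill x w), L_of_self, inv_inv]
  · rw [sg_of_ne hx, R_of_ne hx, sg_of_ne hx, L_of_ne hx]

theorem wsg_L (i : Fin n) (w : FreeGroup (Fin n)) : sg i * L i w * (sg i)⁻¹ = R i w := by
  rw [← wsg_R, sg_inv]
  have h := sg_mul_self i
  calc sg i * (sg i * R i w * sg i) * sg i = (sg i * sg i) * R i w * (sg i * sg i) := by group
    _ = R i w := by rw [h, one_mul, mul_one]

theorem wpres_sg {a i : Fin n} (hai : a ≠ i) : Pres a (sg i) := by
  refine pres_of (sg_of_ne hai) fun x hx => ?_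
  by_cases h : x = i
  · subst h
    rw [sg_of_self, map_inv, kill_of_ne hx]
  · rw [sg_of_ne h, kill_of_ne hx]

/-! ### the partial conjugations -/

theorem C_R {i b : Fin n} (hbi : b ≠ i) {q : FreeGroup (Fin n)} (hi : kill i q = q)
    (hb : kill b q = q) :
    C i (FreeGroup.of b) * R b q * (C i (FreeGroup.of b))⁻¹ =
      C i (FreeGroup.of b * q⁻¹ * (FreeGroup.of b)⁻¹) * R b q := by
  have h1 := (pres_R hbi.symm hi).conj_C (FreeGroup.of b)
  rw [kill_of_ne hbi, R_of_self, hb] at h1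
  have h2 : R b q * (C i (FreeGroup.of b))⁻¹ * (R b q)⁻¹ =
      (C i (FreeGroup.of b * q))⁻¹ := by
    rw [← h1]
    group
  calc C i (FreeGroup.of b) * R b q * (C i (FreeGroup.of b))⁻¹ =
        C i (FreeGroup.of b) * (R b q * (C i (FreeGroup.of b))⁻¹ * (R b q)⁻¹) * R b q := by
        group
    _ = C i (FreeGroup.of b * q⁻¹ * (FreeGroup.of b)⁻¹) * R b q := by
        rw [h2, ← map_inv, ← map_mul, mul_inv_rev, mul_assoc]

theorem C_L {i b : Fin n} (hbi : b ≠ i) {q : FreeGroup (Fin n)} (hi : kill i q = q)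
    (hb : kill b q = q) :
    C i (FreeGroup.of b) * L b q * (C i (FreeGroup.of b))⁻¹ = C i q * L b q := by
  have h1 := (pres_L hbi.symm hi).conj_C (FreeGroup.of b)
  rw [kill_of_ne hbi, L_of_self, hb] at h1
  have h2 : L b q * (C i (FreeGroup.of b))⁻¹ * (L b q)⁻¹ =
      (C i (q⁻¹ * FreeGroup.of b))⁻¹ := by
    rw [← h1]
    group
  calc C i (FreeGroup.of b) * L b q * (C i (FreeGroup.of b))⁻¹ =
        C i (FreeGroup.of b) * (L b q * (C i (FreeGroup.of b))⁻¹ * (L b q)⁻¹) * L b q := by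
        group
    _ = C i q * L b q := by
        rw [h2, ← map_inv, ← map_mul, mul_inv_rev, inv_inv, mul_inv_cancel_left]

end Words

section Img

variable {n : ℕ} {G : Type*} [Group G] (g : Fin n → G) (I : Finset (Fin n)) {T : Type*}
  [Group T] (f : Gam g →* T)

variable {g I f}

theorem evq (h : Hyp g I f) {c : Fin n} (hc : c ∈ I) (v : FreeGroup (Fin n)) :
    ev g (qq c v) = 1 := by
  unfold qq
  rw [map_mul, map_mul, map_inv, ev_of, h.one c hc, mul_one, mul_inv_cancel]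

theorem RG (h : Hyp g I f) {i c : Fin n} (hi : i ∈ I) (hc : c ∈ I) (hic : i ≠ c)
    {v : FreeGroup (Fin n)} (hv : v ∈ fsub Iᶜ) : R i (qq c v) ∈ Gam g :=
  (R_mem_Gam_iff g i _).2 (by rw [kq hi hic hv, evq h hc])

theorem LG (h : Hyp g I f) {i c : Fin n} (hi : i ∈ I) (hc : c ∈ I) (hic : i ≠ c)
    {v : FreeGroup (Fin n)} (hv : v ∈ fsub Iᶜ) : L i (qq c v) ∈ Gam g :=
  (L_mem_Gam_iff g i _).2 (by rw [kq hi hic hv, evq h hc])

theorem XG (h : Hyp g I f) {j e : Fin n} (he : e ∈ I) (hj : j ∉ I) :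
    R j (FreeGroup.of e) ∈ Gam g := by
  have hne : e ≠ j := fun h1 => hj (h1 ▸ he)
  rw [R_mem_Gam_iff, kill_of_ne hne, ev_of, h.one e he]

variable (g f) in
theorem fe_conj {P φ : MulAut (FreeGroup (Fin n))} (hP : P ∈ Gam g) (hφ : φ ∈ Gam g) :
    fe g f P * fe g f φ * (fe g f P)⁻¹ = fe g f (P * φ * P⁻¹) := by
  rw [fe_mul g f ((Gam g).mul_mem hP hφ) ((Gam g).inv_mem hP), fe_mul g f hP hφ, fe_inv g f hP]

variable (g f) in
theorem fe_comm {P φ : MulAut (FreeGroup (Fin n))} (hP : P ∈ Gam g) (hφ : φ ∈ Gam g)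
    (h : P * φ * P⁻¹ = φ) : Commute (fe g f P) (fe g f φ) := by
  have h1 := fe_conj g f hP hφ
  rw [h, mul_inv_eq_iff_eq_mul] at h1
  exact h1

theorem yy_comm {c e j : Fin n} {v : FreeGroup (Fin n)} {t : T}
    (h1 : Commute t (fe g f (R e (qq c v)))) (h2 : Commute t (fe g f (R j (FreeGroup.of e)))) :
    t * yy g f c e j v * t⁻¹ = yy g f c e j v := by
  have h3 : Commute t (yy g f c e j v) := by
    unfold yy
    exact ((h1.inv_right.mul_right h2.inv_right).mul_right h1).mul_right h2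
  rw [h3.eq, mul_inv_cancel_right]

theorem Rmem {i c : Fin n} (hi : i ∈ I) (hic : i ≠ c) {v : FreeGroup (Fin n)}
    (hv : v ∈ fsub Iᶜ) : fe g f (R i (qq c v)) ∈ WW g I f c :=
  Subgroup.subset_closure (Or.inl ⟨i, hi, hic, v, hv, Or.inl rfl⟩)

theorem Lmem {i c : Fin n} (hi : i ∈ I) (hic : i ≠ c) {v : FreeGroup (Fin n)}
    (hv : v ∈ fsub Iᶜ) : fe g f (L i (qq c v)) ∈ WW g I f c :=
  Subgroup.subset_closure (Or.inl ⟨i, hi, hic, v, hv, Or.inr rfl⟩)

theorem Ymem {j e c : Fin n} (hj : j ∉ I) (he : e ∈ I) (hec : e ≠ c) {v : FreeGroup (Fin n)}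
    (hv : v ∈ fsub Iᶜ) : yy g f c e j v ∈ WW g I f c :=
  Subgroup.subset_closure (Or.inr ⟨j, hj, e, he, hec, v, hv, rfl⟩)

/-- the value on `C i w`, for `w` of value `1` -/
theorem fe_C {i : Fin n} {w : FreeGroup (Fin n)} (hw : ev g (kill i w) = 1) :
    fe g f (C i w) = fe g f (L i w) * fe g f (R i w) := by
  rw [C_eq, fe_mul g f ((L_mem_Gam_iff g i w).2 hw) ((R_mem_Gam_iff g i w).2 hw)]

/-- `C i (w q⁻¹ w⁻¹)` for `w` in the letters `≠ i`, with retraction `v'` -/
theorem fe_C_conj (h : Hyp g I f) {i c : Fin n} (hi : i ∈ I) (hc : c ∈ I) (hic : i ≠ c)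
    {v : FreeGroup (Fin n)} (hv : v ∈ fsub Iᶜ) {w w' : FreeGroup (Fin n)} (hw : kill i w = w)
    (hw' : w' ∈ fsub Iᶜ) (hww : ret Iᶜ w = w') :
    fe g f (C i (w * (qq c v)⁻¹ * w⁻¹)) =
      (fe g f (L i (qq c (w' * v))))⁻¹ * (fe g f (R i (qq c (w' * v))))⁻¹ := by
  have hv' : w' * v ∈ fsub Iᶜ := (fsub Iᶜ).mul_mem hw' hv
  have hu : (qq c v)⁻¹ ∈ UU I i := (UU I i).inv_mem (qUU hi hc hic hv)
  have e1 : w' * (qq c v)⁻¹ * w'⁻¹ = (qq c (w' * v))⁻¹ := by
    unfold qq
    group
  have hww' : ret Iᶜ w = ret Iᶜ w' := by rw [hww, ret_eq hw']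
  rw [fe_C, R_cong g I f h hw (kv hi hw') hww' hu, L_cong g I f h hi hw (kv hi hw') hww' hu, e1,
    map_inv, map_inv, fe_inv g f (RG h hi hc hic hv'), fe_inv g f (LG h hi hc hic hv')]
  have e2 : kill i (w * (qq c v)⁻¹ * w⁻¹) = w * (qq c v)⁻¹ * w⁻¹ := by
    rw [map_mul, map_mul, map_inv, map_inv, hw, kq hi hic hv]
  rw [e2, map_mul, map_mul, map_inv, map_inv, evq h hc, inv_one, mul_one, mul_inv_cancel]

end Img

end WNb

open WNb

section Image

variable {n : ℕ} {G : Type*} [Group G] (g : Fin n → G) (I : Finset (Fin n)) {T : Type*}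
  [Group T] (f : Gam g →* T)

/-- MODULE WNb -/
theorem WN_sg (h : Hyp g I f) (hI : 5 ≤ I.card) {c i : Fin n} (hc : c ∈ I) (hi : i ∈ I)
    (hic : i ≠ c) : ∀ y ∈ WWs g I f c, fe g f (sg i) * y * (fe g f (sg i))⁻¹ ∈ WW g I f c := by
  have hs : sg i ∈ Gam g := sg_mem_Gam g (h.one i hi)
  rintro y (⟨a, ha, hac, v, hv, rfl | rfl⟩ | ⟨j, hj, e, he, hec, v, hv, rfl⟩)
  · rw [fe_conj g f hs (RG h ha hc hac hv)]
    by_cases hai : a = i
    · subst hai
      rw [wsg_R]
      exact Lmem ha hac hv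
    · rw [(wpres_sg hai).conj_R, kq ha hac hv, wsg_fix i (kq hi hic hv)]
      exact Rmem ha hac hv
  · rw [fe_conj g f hs (LG h ha hc hac hv)]
    by_cases hai : a = i
    · subst hai
      rw [wsg_L]
      exact Rmem ha hac hv
    · rw [(wpres_sg hai).conj_L, kq ha hac hv, wsg_fix i (kq hi hic hv)]
      exact Lmem ha hac hv
  · obtain ⟨e', he', hec', hei', -⟩ := exists_aux hI c i i
    rw [yy_indep g I f h hI hc he he' hec hec' hj hv, yy_comm]
    · exact Ymem hj he' hec' hv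
    · refine fe_comm g f hs (RG h he' hc hec' hv) ?_
      rw [(wpres_sg hei').conj_R, kq he' hec' hv, wsg_fix i (kq hi hic hv)]
    · have hji : j ≠ i := fun h1 => hj (h1 ▸ hi)
      have hje : e' ≠ j := fun h1 => hj (h1 ▸ he')
      refine fe_comm g f hs (XG h he' hj) ?_
      rw [(wpres_sg hji).conj_R, kill_of_ne hje, sg_of_ne hei']

theorem WN_C (h : Hyp g I f) (hI : 5 ≤ I.card) {c i b : Fin n} (hc : c ∈ I) (hi : i ∈ I)
    (hic : i ≠ c) (hbc : b ≠ c) (hbi : b ≠ i) : ∀ y ∈ WWs g I f c,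
    fe g f (C i (FreeGroup.of b)) * y * (fe g f (C i (FreeGroup.of b)))⁻¹ ∈ WW g I f c := by
  have hs : ∀ w, C i w ∈ Gam g := fun w => C_mem_Gam g (h.one i hi) w
  have hkb : kill i (FreeGroup.of b) = FreeGroup.of b := kill_of_ne hbi
  rintro y (⟨a, ha, hac, v, hv, hy⟩ | ⟨j, hj, e, he, hec, v, hv, rfl⟩)
  · by_cases hai : a = i
    · subst hai
      have key : fe g f (R a (FreeGroup.of b * qq c v * (FreeGroup.of b)⁻¹)) ∈ WW g I f c ∧
          fe g f (L a (FreeGroup.of b * qq c v * (FreeGroup.of b)⁻¹)) ∈ WW g I f c := by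
        by_cases hb : b ∈ I
        · have h1 := R_cong g I f h hkb (map_one (kill a)) (by rw [rof hb, map_one])
            (qUU ha hc hac hv)
          have h2 := L_cong g I f h ha hkb (map_one (kill a)) (by rw [rof hb, map_one])
            (qUU ha hc hac hv)
          rw [one_mul, inv_one, mul_one] at h1 h2
          rw [h1, h2]
          exact ⟨Rmem ha hac hv, Lmem ha hac hv⟩
        · have e1 : FreeGroup.of b * qq c v * (FreeGroup.of b)⁻¹ = qq c (FreeGroup.of b * v) := by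
            unfold qq
            group
          rw [e1]
          exact ⟨Rmem ha hac (jv_mem hb hv), Lmem ha hac (jv_mem hb hv)⟩
      rcases hy with rfl | rfl
      · rw [fe_conj g f (hs _) (RG h ha hc hac hv), C_conj_R]
        exact key.1
      · rw [fe_conj g f (hs _) (LG h ha hc hac hv), C_conj_L]
        exact key.2
    · by_cases hab : a = b
      · subst hab
        rcases hy with rfl | rfl
        · rw [fe_conj g f (hs _) (RG h ha hc hac hv), C_R hai (kq hi hic hv) (kq ha hac hv),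
            fe_mul g f (hs _) (RG h ha hc hac hv),
            fe_C_conj h hi hc hic hv hkb (fsub Iᶜ).one_mem (rof ha), one_mul]
          exact mul_mem (mul_mem (inv_mem (Lmem hi hic hv)) (inv_mem (Rmem hi hic hv)))
            (Rmem ha hac hv)
        · rw [fe_conj g f (hs _) (LG h ha hc hac hv), C_L hai (kq hi hic hv) (kq ha hac hv),
            fe_mul g f (hs _) (LG h ha hc hac hv),
            fe_C (by rw [kq hi hic hv, evq h hc])]
          exact mul_mem (mul_mem (Lmem hi hic hv) (Rmem hi hic hv)) (Lmem ha hac hv)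
      · have hP : Pres a (C i (FreeGroup.of b)) := pres_C hai (kill_of_ne (Ne.symm hab))
        rcases hy with rfl | rfl
        · rw [fe_conj g f (hs _) (RG h ha hc hac hv), hP.conj_R, kq ha hac hv,
            C_fixed _ (kq hi hic hv)]
          exact Rmem ha hac hv
        · rw [fe_conj g f (hs _) (LG h ha hc hac hv), hP.conj_L, kq ha hac hv,
            C_fixed _ (kq hi hic hv)]
          exact Lmem ha hac hv
  · obtain ⟨e', he', hec', hei', heb'⟩ := exists_aux hI c i b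
    rw [yy_indep g I f h hI hc he he' hec hec' hj hv]
    clear hec he e
    have hji : j ≠ i := fun h1 => hj (h1 ▸ hi)
    have hje : e' ≠ j := fun h1 => hj (h1 ▸ he')
    have hB : Commute (fe g f (C i (FreeGroup.of b))) (fe g f (R e' (qq c v))) := by
      refine fe_comm g f (hs _) (RG h he' hc hec' hv) ?_
      rw [(pres_C hei' (kill_of_ne heb'.symm)).conj_R, kq he' hec' hv, C_fixed _ (kq hi hic hv)]
    by_cases hbj : b = j
    · subst hbj
      -- the names of the plan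
      set t := fe g f (C i (FreeGroup.of b)) with ht
      set B := fe g f (R e' (qq c v)) with hBdef
      set X := fe g f (R b (FreeGroup.of e')) with hX
      set Z := fe g f (C i (FreeGroup.of b * (FreeGroup.of e')⁻¹ * (FreeGroup.of b)⁻¹)) with hZ
      have hXG : R b (FreeGroup.of e') ∈ Gam g := XG h he' hj
      have h1 : t * X * t⁻¹ = Z * X := by
        rw [ht, hX, fe_conj g f (hs _) hXG, C_R hbi (kill_of_ne hei') (kill_of_ne hje),
          fe_mul g f (hs _) hXG]
      have h2 : t * B * t⁻¹ = B := by rw [hB.eq, mul_inv_cancel_right]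
      have hkw : kill i (FreeGroup.of b * FreeGroup.of e' * (FreeGroup.of b)⁻¹) =
          FreeGroup.of b * FreeGroup.of e' * (FreeGroup.of b)⁻¹ := by
        rw [map_mul, map_mul, map_inv, hkb, kill_of_ne hei']
      have h3 : B⁻¹ * Z⁻¹ * B = fe g f (C i (FreeGroup.of b * (FreeGroup.of e' * (qq c v)⁻¹) *
          (FreeGroup.of b)⁻¹)) := by
        have hq' : kill i (qq c v)⁻¹ = (qq c v)⁻¹ := by rw [map_inv, kq hi hic hv]
        have hq'' : kill e' (qq c v)⁻¹ = (qq c v)⁻¹ := by rw [map_inv, kq he' hec' hv]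
        have h4 := (pres_R (Ne.symm hei') hq').conj_C
          (FreeGroup.of b * FreeGroup.of e' * (FreeGroup.of b)⁻¹)
        have h4' : R e' (qq c v)⁻¹ (FreeGroup.of b * FreeGroup.of e' * (FreeGroup.of b)⁻¹) =
            FreeGroup.of b * (FreeGroup.of e' * (qq c v)⁻¹) * (FreeGroup.of b)⁻¹ := by
          rw [map_mul, map_mul, map_inv (R e' (qq c v)⁻¹), R_of_self, R_of_ne heb'.symm, hq'']
        rw [hkw, h4'] at h4
        rw [← h4, map_inv, inv_inv]
        have hRG := RG h he' hc hec' hv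
        rw [fe_mul g f ((Gam g).mul_mem ((Gam g).inv_mem hRG) (hs _)) hRG,
          fe_mul g f ((Gam g).inv_mem hRG) (hs _), fe_inv g f hRG, hZ, ← fe_inv g f (hs _),
          ← map_inv]
        have h13 : (FreeGroup.of b * (FreeGroup.of e')⁻¹ * (FreeGroup.of b)⁻¹)⁻¹ =
            FreeGroup.of b * FreeGroup.of e' * (FreeGroup.of b)⁻¹ := by
          group
        rw [h13]
      have h5 : B⁻¹ * Z⁻¹ * B * Z = (fe g f (L i (qq c (FreeGroup.of b * v))))⁻¹ *
          (fe g f (R i (qq c (FreeGroup.of b * v))))⁻¹ := by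
        rw [h3, hZ, ← fe_mul g f (hs _) (hs _), ← map_mul]
        have h6 : FreeGroup.of b * (FreeGroup.of e' * (qq c v)⁻¹) * (FreeGroup.of b)⁻¹ *
            (FreeGroup.of b * (FreeGroup.of e')⁻¹ * (FreeGroup.of b)⁻¹) =
            (FreeGroup.of b * FreeGroup.of e') * (qq c v)⁻¹ *
              (FreeGroup.of b * FreeGroup.of e')⁻¹ := by
          group
        rw [h6]
        refine fe_C_conj h hi hc hic hv ?_ (of_mem_fsub (by simpa using hj)) ?_
        · rw [map_mul, hkb, kill_of_ne hei']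
        · rw [map_mul, rof he', mul_one, ret_eq (of_mem_fsub (by simpa using hj))]
      have h7 : Commute X (B⁻¹ * Z⁻¹ * B * Z) := by
        have h8 := F2 g I f h hc he' hi hic hei'.symm hj (jv_mem hj hv)
        rw [h5]
        exact h8.2.inv_right.mul_right h8.1.inv_right
      have h9 : t * yy g f c e' b v * t⁻¹ = yy g f c e' b v * (B⁻¹ * Z⁻¹ * B * Z) := by
        have h10 : t * yy g f c e' b v * t⁻¹ =
            (t * B * t⁻¹)⁻¹ * (t * X * t⁻¹)⁻¹ * (t * B * t⁻¹) * (t * X * t⁻¹) := by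
          unfold yy
          rw [← hBdef, ← hX]
          group
        rw [h10, h1, h2]
        have h11 : yy g f c e' b v = B⁻¹ * X⁻¹ * B * X := rfl
        rw [h11]
        have h12 : X⁻¹ * (B⁻¹ * Z⁻¹ * B * Z) * X = B⁻¹ * Z⁻¹ * B * Z := by
          rw [mul_assoc, ← h7.eq, inv_mul_cancel_left]
        calc B⁻¹ * (Z * X)⁻¹ * B * (Z * X) =
              (B⁻¹ * X⁻¹ * B * X) * (X⁻¹ * (B⁻¹ * Z⁻¹ * B * Z) * X) := by group
          _ = _ := by rw [h12]
      rw [h9, h5]
      exact mul_mem (Ymem hj he' hec' hv) (mul_mem (inv_mem (Lmem hi hic (jv_mem hj hv)))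
        (inv_mem (Rmem hi hic (jv_mem hj hv))))
    · rw [yy_comm hB]
      · exact Ymem hj he' hec' hv
      · refine fe_comm g f (hs _) (XG h he' hj) ?_
        rw [(pres_C hji (kill_of_ne (fun h1 => hbj h1))).conj_R, kill_of_ne hje,
          C_of_ne hei']

end Image

end RED
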