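import Mathlib
import Pool.Agent.RED.LU
import Pool.Agent.RED.WComm

/-!
# The column group is normalised by `R i x_k`, `i, k ∈ I`
-/

set_option autoImplicit false

namespace RED

open AFn IAQ

section Image

variable {n : ℕ} {G : Type*} [Group G] (g : Fin n → G) (I : Finset (Fin n)) {T : Type*}
  [Group T] (f : Gam g →* T)

theorem wnc_fe_conj {φ ψ : MulAut (FreeGroup (Fin n))} (h1 : φ ∈ Gam g) (h2 : ψ ∈ Gam g) :
    fe g f φ * fe g f ψ * (fe g f φ)⁻¹ = fe g f (φ * ψ * φ⁻¹) := by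
  rw [fe_mul g f ((Gam g).mul_mem h1 h2) ((Gam g).inv_mem h1), fe_mul g f h1 h2, fe_inv g f h1]

variable {I} in
theorem wnc_q_UU {a c : Fin n} (ha : a ∈ I) (hc : c ∈ I) (hca : c ≠ a)
    {v : FreeGroup (Fin n)} (hv : v ∈ fsub Iᶜ) : qq c v ∈ UU I a :=
  lu_conj_UU (kill_eq hv (by simpa using ha)) (lu_of_UU hc hca)

theorem wnc_mem_R {c a : Fin n} (ha : a ∈ I) (hac : a ≠ c) {v : FreeGroup (Fin n)}
    (hv : v ∈ fsub Iᶜ) : fe g f (R a (qq c v)) ∈ WW g I f c :=
  Subgroup.subset_closure (Or.inl ⟨a, ha, hac, v, hv, Or.inl rfl⟩)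

theorem wnc_mem_L {c a : Fin n} (ha : a ∈ I) (hac : a ≠ c) {v : FreeGroup (Fin n)}
    (hv : v ∈ fsub Iᶜ) : fe g f (L a (qq c v)) ∈ WW g I f c :=
  Subgroup.subset_closure (Or.inl ⟨a, ha, hac, v, hv, Or.inr rfl⟩)

variable {I} in
/-- a letter of `I` different from three given ones -/
theorem wnc_pick (hI : 5 ≤ I.card) (a b c : Fin n) : ∃ e ∈ I, e ≠ a ∧ e ≠ b ∧ e ≠ c := by
  have h1 : (I \ {a, b, c}).Nonempty := by
    rw [← Finset.card_pos]
    have h2 : ({a, b, c} : Finset (Fin n)).card ≤ 3 := Finset.card_le_three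
    have h3 := Finset.le_card_sdiff ({a, b, c} : Finset (Fin n)) I
    omega
  obtain ⟨e, he⟩ := h1
  rw [Finset.mem_sdiff] at he
  simp only [Finset.mem_insert, Finset.mem_singleton, not_or] at he
  exact ⟨e, he.1, he.2.1, he.2.2.1, he.2.2.2⟩

theorem WN_RR (h : Hyp g I f) (hI : 5 ≤ I.card) {c i i2 : Fin n} (hc : c ∈ I) (hi : i ∈ I)
    (hi2 : i2 ∈ I) (hic : i ≠ c) (hi2c : i2 ≠ c) (hii : i2 ≠ i) : ∀ y ∈ WWs g I f c,
    fe g f (R i (FreeGroup.of i2)) * y * (fe g f (R i (FreeGroup.of i2)))⁻¹ ∈ WW g I f c := by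
  intro y hy
  have hφ : R i (FreeGroup.of i2) ∈ Gam g :=
    lu_R_mem g (by rw [kill_of_ne hii, ev_of, h.one i2 hi2])
  rcases hy with ⟨a, ha, hac, v, hv, hy⟩ | ⟨j, hj, e, he, hec, v, hv, rfl⟩
  · have hqa : qq c v ∈ UU I a := wnc_q_UU ha hc (Ne.symm hac) hv
    have hqi : qq c v ∈ UU I i := wnc_q_UU hi hc (Ne.symm hic) hv
    have hqi2 : qq c v ∈ UU I i2 := wnc_q_UU hi2 hc (Ne.symm hi2c) hv
    by_cases hai : a = i
    · subst hai
      rcases hy with rfl | rfl
      · -- `R` with `R`, same letter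
        rw [wnc_fe_conj g f hφ (lu_R_UU g I f h hqa)]
        have e1 : R a (FreeGroup.of i2) * R a (qq c v) * (R a (FreeGroup.of i2))⁻¹ =
            R a (FreeGroup.of i2 * qq c v * (FreeGroup.of i2)⁻¹) := by
          rw [map_mul, map_mul, map_inv]
        rw [e1, R_cong g I f h (w := FreeGroup.of i2) (w' := 1) (kill_of_ne hii) (map_one _)
          (by rw [lu_ret_of, if_neg (by simpa using hi2), map_one]) hqa]
        rw [one_mul, inv_one, mul_one]
        exact wnc_mem_R g I f ha hac hv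
      · rw [wnc_fe_conj g f hφ (lu_L_UU g I f h hqa), ← LR_comm, mul_inv_cancel_right]
        exact wnc_mem_L g I f ha hac hv
    · by_cases hai2 : a = i2
      · subst hai2
        rcases hy with rfl | rfl
        · rw [wnc_fe_conj g f hφ (lu_R_UU g I f h hqa), conj_I2 hii hqi.2 hqa.2]
          have hq' : FreeGroup.of a * (qq c v)⁻¹ * (FreeGroup.of a)⁻¹ ∈ UU I i :=
            lu_conj_UU (kill_of_ne hii) ((UU I i).inv_mem hqi)
          rw [fe_mul g f (lu_R_UU g I f h hqa) (lu_R_UU g I f h hq'),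
            R_cong g I f h (w := FreeGroup.of a) (w' := 1) (kill_of_ne hii) (map_one _)
              (by rw [lu_ret_of, if_neg (by simpa using hi2), map_one])
              ((UU I i).inv_mem hqi)]
          rw [one_mul, inv_one, mul_one, lu_R_inv g I f h hqi]
          exact (WW g I f c).mul_mem (wnc_mem_R g I f ha hac hv)
            ((WW g I f c).inv_mem (wnc_mem_R g I f hi hic hv))
        · have e1 : R i (FreeGroup.of a) * L a (qq c v) * (R i (FreeGroup.of a))⁻¹ =
              L a (qq c v) * R i (qq c v) := by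
            rw [mul_inv_eq_iff_eq_mul]
            apply aut_ext
            intro x
            simp only [MulAut.mul_apply]
            by_cases hxa : x = a
            · subst hxa
              rw [L_of_self, map_mul, map_inv, R_of_ne hii, R_of_ne hii, L_of_self, hqa.2,
                R_fixed _ hqi.2]
            · by_cases hxi : x = i
              · subst hxi
                rw [L_of_ne hxa, R_of_self, map_mul, map_mul, R_of_self, kill_of_ne hii,
                  R_of_ne hii, map_mul, L_of_ne hxa, hqi.2, L_fixed _ hqa.2, L_of_self, hqa.2]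
                group
              · rw [L_of_ne hxa, R_of_ne hxi, R_of_ne hxi, L_of_ne hxa]
          rw [wnc_fe_conj g f hφ (lu_L_UU g I f h hqa), e1,
            fe_mul g f (lu_L_UU g I f h hqa) (lu_R_UU g I f h hqi)]
          exact (WW g I f c).mul_mem (wnc_mem_L g I f ha hac hv) (wnc_mem_R g I f hi hic hv)
      · have hp : Pres a (R i (FreeGroup.of i2)) :=
          pres_R hai (kill_of_ne (Ne.symm hai2))
        rcases hy with rfl | rfl
        · rw [wnc_fe_conj g f hφ (lu_R_UU g I f h hqa), hp.conj_R, hqa.2, R_fixed _ hqi.2]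
          exact wnc_mem_R g I f ha hac hv
        · rw [wnc_fe_conj g f hφ (lu_L_UU g I f h hqa), hp.conj_L, hqa.2, R_fixed _ hqi.2]
          exact wnc_mem_L g I f ha hac hv
  · obtain ⟨e', he', hec', hei', hei2'⟩ := wnc_pick hI c i i2
    rw [yy_indep g I f h hI hc he he' hec hec' hj hv]
    have hji : j ≠ i := by
      rintro rfl
      exact hj hi
    have hji2 : j ≠ i2 := by
      rintro rfl
      exact hj hi2
    have hje : j ≠ e' := by
      rintro rfl
      exact hj he'
    have hqe : qq c v ∈ UU I e' := wnc_q_UU he' hc (Ne.symm hec') hv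
    have hqi : qq c v ∈ UU I i := wnc_q_UU hi hc (Ne.symm hic) hv
    have hB : R e' (qq c v) ∈ Gam g := lu_R_UU g I f h hqe
    have hX : R j (FreeGroup.of e') ∈ Gam g :=
      lu_R_mem g (by rw [kill_of_ne (Ne.symm hje), ev_of, h.one e' he'])
    have c1 : fe g f (R i (FreeGroup.of i2)) * fe g f (R e' (qq c v)) *
        (fe g f (R i (FreeGroup.of i2)))⁻¹ = fe g f (R e' (qq c v)) := by
      rw [wnc_fe_conj g f hφ hB, (pres_R hei' (kill_of_ne (Ne.symm hei2'))).conj_R, hqe.2,
        R_fixed _ hqi.2]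
    have c2 : fe g f (R i (FreeGroup.of i2)) * fe g f (R j (FreeGroup.of e')) *
        (fe g f (R i (FreeGroup.of i2)))⁻¹ = fe g f (R j (FreeGroup.of e')) := by
      rw [wnc_fe_conj g f hφ hX, (pres_R hji (kill_of_ne (Ne.symm hji2))).conj_R,
        kill_of_ne (Ne.symm hje), R_of_ne hei']
    have key : ∀ φ B X : T, φ * B * φ⁻¹ = B → φ * X * φ⁻¹ = X →
        φ * (B⁻¹ * X⁻¹ * B * X) * φ⁻¹ = B⁻¹ * X⁻¹ * B * X := by
      intro φ B X h1 h2
      calc φ * (B⁻¹ * X⁻¹ * B * X) * φ⁻¹ = (φ * B * φ⁻¹)⁻¹ * (φ * X * φ⁻¹)⁻¹ *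
            (φ * B * φ⁻¹) * (φ * X * φ⁻¹) := by group
        _ = _ := by rw [h1, h2]
    have e2 : fe g f (R i (FreeGroup.of i2)) * yy g f c e' j v *
        (fe g f (R i (FreeGroup.of i2)))⁻¹ = yy g f c e' j v := key _ _ _ c1 c2
    rw [e2]
    exact Subgroup.subset_closure (Or.inr ⟨j, hj, e', he', hec', v, hv, rfl⟩)

end Image

end RED
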