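import Pool.Agent.RED.MvBasic
import Pool.Agent.RED.LU
import Pool.Agent.RED.WComm

/-!
# Conjugation of the column group by `R i k`, `k` a relation in the letters outside `I`
-/

set_option autoImplicit false

namespace RED

open AFn IAQ

/-- killing `c` after `R a w`, when `c` kills `w` -/
theorem wnk_kill_R {n : ℕ} {a c : Fin n} (hac : a ≠ c) {w : FreeGroup (Fin n)}
    (hw : kill c (kill a w) = 1) (u : FreeGroup (Fin n)) : kill c (R a w u) = kill c u := by
  have h : (kill c).comp (R a w).toMonoidHom = kill c := by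
    ext x
    rw [MonoidHom.comp_apply, MulEquiv.coe_toMonoidHom, R_of]
    by_cases hx : x = a
    · rw [if_pos hx, map_mul, hw, mul_one]
    · rw [if_neg hx]
  exact DFunLike.congr_fun h u

/-- the group theory of the conjugation of `[B⁻¹, X⁻¹]` -/
theorem wnk_group {T : Type*} [Group T] {P B X Z W : T} (hPB : Commute P B)
    (hPX : P * X * P⁻¹ = Z * X) (hBZ : B⁻¹ * Z⁻¹ * B * Z = W) (hXW : Commute X W) :
    P * (B⁻¹ * X⁻¹ * B * X) * P⁻¹ = (B⁻¹ * X⁻¹ * B * X) * W := by
  have h1 : P * B * P⁻¹ = B := by rw [hPB.eq, mul_inv_cancel_right]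
  have h2 : P * (B⁻¹ * X⁻¹ * B * X) * P⁻¹ =
      (P * B * P⁻¹)⁻¹ * (P * X * P⁻¹)⁻¹ * (P * B * P⁻¹) * (P * X * P⁻¹) := by group
  rw [h2, h1, hPX]
  have h3 : B⁻¹ * (Z * X)⁻¹ * B * (Z * X) = B⁻¹ * X⁻¹ * B * ((B⁻¹ * Z⁻¹ * B * Z) * X) := by
    group
  rw [h3, hBZ, ← hXW.eq]
  group

variable {n : ℕ} {G : Type*} [Group G] (g : Fin n → G) (I : Finset (Fin n)) {T : Type*}
  [Group T] (f : Gam g →* T)

/-- MODULE WNc2, file Pool/Agent/RED/WNc2.lean -/
theorem WN_Rk (h : Hyp g I f) (hI : 5 ≤ I.card) {c i : Fin n} (hc : c ∈ I) (hi : i ∈ I)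
    (hic : i ≠ c) {k : FreeGroup (Fin n)} (hk : k ∈ fsub Iᶜ) (hk1 : ev g k = 1) :
    ∀ y ∈ WWs g I f c, fe g f (R i k) * y * (fe g f (R i k))⁻¹ ∈ WW g I f c := by
  have hkk : ∀ a ∈ I, kill a k = k := fun a ha => wc_kill_v ha hk
  have mP : R i k ∈ Gam g := (R_mem_Gam_iff g i k).2 (by rw [hkk i hi, hk1])
  have hcomm : ∀ y, Commute (fe g f (R i k)) y →
      fe g f (R i k) * y * (fe g f (R i k))⁻¹ = y := by
    intro y hy
    rw [hy.eq, mul_inv_cancel_right]
  -- `R i k` commutes with `R a q` and `L a q`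
  have hcR : ∀ a ∈ I, a ≠ c → a ≠ i → ∀ v ∈ fsub Iᶜ,
      Commute (fe g f (R i k)) (fe g f (R a (qq c v))) := by
    intro a ha hac hai v hv
    have hva : kill a v = v := wc_kill_v ha hv
    have hq := wc_qq_kill (c := c) hac hva
    have hqi := wc_qq_kill (c := c) hic (wc_kill_v hi hv)
    have mR := wc_Rq_mem h hc hac hva
    have hp : Pres a (R i k) := pres_R hai (hkk a ha)
    have h1 := hp.conj_R (qq c v)
    rw [hq, R_fixed k hqi] at h1
    have h2 := congrArg (fe g f) h1
    rw [fe_mul g f ((Gam g).mul_mem mP mR) ((Gam g).inv_mem mP), fe_mul g f mP mR,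
      fe_inv g f mP, mul_inv_eq_iff_eq_mul] at h2
    exact h2
  have hcL : ∀ a ∈ I, a ≠ c → a ≠ i → ∀ v ∈ fsub Iᶜ,
      Commute (fe g f (R i k)) (fe g f (L a (qq c v))) := by
    intro a ha hac hai v hv
    have hva : kill a v = v := wc_kill_v ha hv
    have hq := wc_qq_kill (c := c) hac hva
    have hqi := wc_qq_kill (c := c) hic (wc_kill_v hi hv)
    have mR := wc_Lq_mem h hc hac hva
    have hp : Pres a (R i k) := pres_R hai (hkk a ha)
    have h1 := hp.conj_L (qq c v)
    rw [hq, R_fixed k hqi] at h1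
    have h2 := congrArg (fe g f) h1
    rw [fe_mul g f ((Gam g).mul_mem mP mR) ((Gam g).inv_mem mP), fe_mul g f mP mR,
      fe_inv g f mP, mul_inv_eq_iff_eq_mul] at h2
    exact h2
  intro y hy
  have hy' : y ∈ WW g I f c := Subgroup.subset_closure hy
  rcases hy with ⟨a, ha, hac, v, hv, rfl | rfl⟩ | ⟨j, hj, e', he', hec', v, hv, rfl⟩
  · by_cases hai : a = i
    · subst hai
      have mR := wc_Rq_mem h hc hac (wc_kill_v ha hv)
      have h1 : R a k * R a (qq c v) * (R a k)⁻¹ = R a (qq c (k * v)) := by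
        rw [R_inv, ← map_mul, ← map_mul]
        congr 1
        unfold qq
        group
      have h2 := congrArg (fe g f) h1
      rw [fe_mul g f ((Gam g).mul_mem mP mR) ((Gam g).inv_mem mP), fe_mul g f mP mR,
        fe_inv g f mP] at h2
      rw [h2]
      exact Subgroup.subset_closure (Or.inl ⟨a, ha, hac, k * v, (fsub Iᶜ).mul_mem hk hv,
        Or.inl rfl⟩)
    · rw [hcomm _ (hcR a ha hac hai v hv)]
      exact hy'
  · by_cases hai : a = i
    · subst hai
      have mL := wc_Lq_mem h hc hac (wc_kill_v ha hv)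
      have h1 := congrArg (fe g f) (LR_comm a (qq c v) k)
      rw [fe_mul g f mL mP, fe_mul g f mP mL] at h1
      rw [hcomm _ h1.symm]
      exact hy'
    · rw [hcomm _ (hcL a ha hac hai v hv)]
      exact hy'
  · -- choose the auxiliary letter different from `i`
    obtain ⟨e, he, hec, hei⟩ : ∃ e ∈ I, e ≠ c ∧ e ≠ i := by
      have h1 : 0 < ((I.erase c).erase i).card := by
        have h2 := Finset.pred_card_le_card_erase (s := I) (a := c)
        have h3 := Finset.pred_card_le_card_erase (s := I.erase c) (a := i)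
        omega
      obtain ⟨b, hb⟩ := Finset.card_pos.1 h1
      rw [Finset.mem_erase, Finset.mem_erase] at hb
      exact ⟨b, hb.2.2, hb.2.1, hb.1⟩
    rw [yy_indep g I f h hI hc he' he hec' hec hj hv] at hy' ⊢
    have hej : e ≠ j := fun hh => hj (hh ▸ he)
    have hcj : c ≠ j := fun hh => hj (hh ▸ hc)
    have hij : i ≠ j := fun hh => hj (hh ▸ hi)
    have hve : kill e v = v := wc_kill_v he hv
    have hvi : kill i v = v := wc_kill_v hi hv
    have hvc : kill c v = v := wc_kill_v hc hv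
    have mX := wc_X_mem h he hej
    have mB := wc_Rq_mem h hc hec hve
    obtain ⟨q, hq⟩ : ∃ q, q = qq c v := ⟨_, rfl⟩
    have hqe : kill e q = q := hq ▸ wc_qq_kill hec hve
    have hqi : kill i q = q := hq ▸ wc_qq_kill hic hvi
    have hqc : kill c q = 1 := by
      rw [hq]
      unfold qq
      rw [map_mul, map_mul, map_inv, kill_of_self, mul_one, mul_inv_cancel]
    rw [← hq] at mB
    -- the words
    have hPX : Pres i (R j (FreeGroup.of e)) := pres_R hij (kill_of_ne hei)
    have hPc : Pres c (R j (FreeGroup.of e)) := pres_R hcj (kill_of_ne hec)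
    have hPB : Pres i (R e q⁻¹) := pres_R (Ne.symm hei) (by rw [map_inv, hqi])
    obtain ⟨k', hk'⟩ : ∃ k', k' = R j (FreeGroup.of e) k := ⟨_, rfl⟩
    obtain ⟨k'', hk''⟩ : ∃ k'', k'' = R e q⁻¹ k' := ⟨_, rfl⟩
    have k1 : kill i k' = k' := by
      have := hPX.2 k
      rwa [hkk i hi, ← hk'] at this
    have k2 : kill c k' = k' := by
      have := hPc.2 k
      rwa [hkk c hc, ← hk'] at this
    have k3 : kill i k'' = k'' := by
      have := hPB.2 k'
      rwa [k1, ← hk''] at this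
    have k4 : kill c k'' = k' := by
      rw [hk'', wnk_kill_R hec (by rw [map_inv, hqe, map_inv, hqc, inv_one]), k2]
    have v1 : ev g k' = 1 := by rw [hk', mX k, hk1]
    have mB' : R e q⁻¹ ∈ Gam g := by
      rw [← R_inv]
      exact (Gam g).inv_mem mB
    have v2 : ev g k'' = 1 := by rw [hk'', mB' k', v1]
    have w1 : kill i (k * k'⁻¹) = k * k'⁻¹ := by rw [map_mul, map_inv, hkk i hi, k1]
    have w2 : kill i (k'' * k'⁻¹) = k'' * k'⁻¹ := by rw [map_mul, map_inv, k3, k1]
    have w3 : kill c (k'' * k'⁻¹) = 1 := by rw [map_mul, map_inv, k4, k2, mul_inv_cancel]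
    have mZ : R i (k * k'⁻¹) ∈ Gam g :=
      (R_mem_Gam_iff g i _).2 (by rw [w1, map_mul, map_inv, hk1, v1, inv_one, mul_one])
    have mW : R i (k'' * k'⁻¹) ∈ Gam g :=
      (R_mem_Gam_iff g i _).2 (by rw [w2, map_mul, map_inv, v2, v1, inv_one, mul_one])
    -- `W` is in the closure of the `R i (qq c v)`
    have hW := (LU2 g I f h hi hc hic w2 w3).1
    have hle : Subgroup.closure {x | ∃ v ∈ fsub Iᶜ, x = fe g f (R i (qq c v))} ≤
        WW g I f c := by
      rw [Subgroup.closure_le]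
      rintro x ⟨v, hv, rfl⟩
      exact Subgroup.subset_closure (Or.inl ⟨i, hi, hic, v, hv, Or.inl rfl⟩)
    have hXW : Commute (fe g f (R j (FreeGroup.of e))) (fe g f (R i (k'' * k'⁻¹))) := by
      have hle2 : Subgroup.closure {x | ∃ v ∈ fsub Iᶜ, x = fe g f (R i (qq c v))} ≤
          Subgroup.centralizer {fe g f (R j (FreeGroup.of e))} := by
        rw [Subgroup.closure_le]
        rintro x ⟨v, hv, rfl⟩
        rw [SetLike.mem_coe, Subgroup.mem_centralizer_singleton_iff]
        exact (F2 g I f h hc he hi hic (Ne.symm hei) hj hv).1.symm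
      exact ((Subgroup.mem_centralizer_singleton_iff).1 (hle2 hW)).symm
    have e1 : fe g f (R i k) * fe g f (R j (FreeGroup.of e)) * (fe g f (R i k))⁻¹ =
        fe g f (R i (k * k'⁻¹)) * fe g f (R j (FreeGroup.of e)) := by
      have h1 : R i k * R j (FreeGroup.of e) * (R i k)⁻¹ =
          R i (k * k'⁻¹) * R j (FreeGroup.of e) := by
        have h2 := hPX.conj_R k⁻¹
        have h3 : kill i k⁻¹ = k⁻¹ := by rw [map_inv, hkk i hi]
        have h4 : R j (FreeGroup.of e) k⁻¹ = k'⁻¹ := by rw [map_inv, hk']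
        rw [h3, h4] at h2
        rw [map_mul, ← h2, R_inv i k]
        group
      have h3 := congrArg (fe g f) h1
      rw [fe_mul g f ((Gam g).mul_mem mP mX) ((Gam g).inv_mem mP), fe_mul g f mP mX,
        fe_inv g f mP, fe_mul g f mZ mX] at h3
      exact h3
    have e2 : (fe g f (R e q))⁻¹ * (fe g f (R i (k * k'⁻¹)))⁻¹ * fe g f (R e q) *
        fe g f (R i (k * k'⁻¹)) = fe g f (R i (k'' * k'⁻¹)) := by
      have h1 : (R e q)⁻¹ * (R i (k * k'⁻¹))⁻¹ * R e q * R i (k * k'⁻¹) =
          R i (k'' * k'⁻¹) := by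
        have h2 := hPB.conj_R (k' * k⁻¹)
        have h3 : kill i (k' * k⁻¹) = k' * k⁻¹ := by rw [map_mul, map_inv, k1, hkk i hi]
        have h4' : R e q⁻¹ k⁻¹ = k⁻¹ := R_fixed _ (by rw [map_inv, hkk e he])
        have h4 : R e q⁻¹ (k' * k⁻¹) = k'' * k⁻¹ := by
          rw [map_mul, ← hk'', h4']
        rw [h3, h4, R_inv, inv_inv] at h2
        have h5 : (R i (k * k'⁻¹))⁻¹ = R i (k' * k⁻¹) := by
          rw [R_inv, mul_inv_rev, inv_inv]
        rw [h5, R_inv e q, h2, ← map_mul]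
        congr 1
        group
      have h6 := congrArg (fe g f) h1
      rw [fe_mul g f ((Gam g).mul_mem ((Gam g).mul_mem ((Gam g).inv_mem mB)
        ((Gam g).inv_mem mZ)) mB) mZ, fe_mul g f ((Gam g).mul_mem ((Gam g).inv_mem mB)
        ((Gam g).inv_mem mZ)) mB, fe_mul g f ((Gam g).inv_mem mB) ((Gam g).inv_mem mZ),
        fe_inv g f mB, fe_inv g f mZ] at h6
      exact h6
    have hPBc := hcR e he hec hei v hv
    have key := wnk_group (hq ▸ hPBc) e1 e2 hXW
    have hyy : yy g f c e j v = (fe g f (R e q))⁻¹ * (fe g f (R j (FreeGroup.of e)))⁻¹ *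
        fe g f (R e q) * fe g f (R j (FreeGroup.of e)) := by
      rw [hq]
      rfl
    rw [hyy] at hy' ⊢
    rw [key]
    exact (WW g I f c).mul_mem hy' (hle hW)

end RED
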