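import Pool.Agent.RED.MvBasic
import Pool.Agent.RED.LU
import Pool.Agent.RED.WComm

/-!
# Conjugation of the column group by `R j x_i`
-/

set_option autoImplicit false

namespace RED

open AFn IAQ

/-- conjugation of `R b q` by the partial conjugation `C i x_b` -/
theorem wnd_ident {α : Type*} [DecidableEq α] {i b : α} (hib : i ≠ b) {q : FreeGroup α}
    (hi : kill i q = q) (hb : kill b q = q) :
    C i (FreeGroup.of b) * R b q * (C i (FreeGroup.of b))⁻¹ =
      C i (FreeGroup.of b * q⁻¹ * (FreeGroup.of b)⁻¹) * R b q := by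
  rw [mul_inv_eq_iff_eq_mul]
  have h1 : ∀ w, C i w q = q := fun w => C_fixed w hi
  have h2 : ∀ w, R b w q = q := fun w => R_fixed w hb
  have h3 : kill i (FreeGroup.of b * q⁻¹ * (FreeGroup.of b)⁻¹) =
      FreeGroup.of b * q⁻¹ * (FreeGroup.of b)⁻¹ := by
    rw [map_mul, map_mul, map_inv, map_inv, hi, kill_of_ne hib.symm]
  obtain ⟨w, hw⟩ : ∃ w, w = FreeGroup.of b * q⁻¹ * (FreeGroup.of b)⁻¹ := ⟨_, rfl⟩
  rw [← hw] at h3 ⊢
  have k1 : R b q (FreeGroup.of b) = FreeGroup.of b * q := by rw [R_of_self, hb]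
  have k2 : C i (FreeGroup.of b) (FreeGroup.of i) =
      (FreeGroup.of b)⁻¹ * FreeGroup.of i * FreeGroup.of b := by
    rw [C_of_self, kill_of_ne hib.symm]
  have k3 : C i w (FreeGroup.of i) = w⁻¹ * FreeGroup.of i * w := by rw [C_of_self, h3]
  have k4 : ∀ w', C i w' (FreeGroup.of b) = FreeGroup.of b := fun w' => C_of_ne hib.symm w'
  have k5 : ∀ w', R b w' (FreeGroup.of i) = FreeGroup.of i := fun w' => R_of_ne hib w'
  apply aut_ext
  intro x
  rw [MulAut.mul_apply, MulAut.mul_apply, MulAut.mul_apply]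
  by_cases hxb : x = b
  · subst hxb
    rw [k1, map_mul, h1, k4, k1, map_mul, h1, k4]
  · by_cases hxi : x = i
    · subst hxi
      have e1 : R b q ((FreeGroup.of b)⁻¹ * FreeGroup.of x * FreeGroup.of b) =
          (FreeGroup.of b * q)⁻¹ * FreeGroup.of x * (FreeGroup.of b * q) := by
        rw [map_mul, map_mul, map_inv, k1, k5]
      have e2 : C x w ((FreeGroup.of b * q)⁻¹ * FreeGroup.of x * (FreeGroup.of b * q)) =
          (FreeGroup.of b * q)⁻¹ * (w⁻¹ * FreeGroup.of x * w) * (FreeGroup.of b * q) := by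
        rw [map_mul, map_mul, map_inv, map_mul, h1, k4, k3]
      rw [k5, k2, e1, e2, hw]
      group
    · rw [R_of_ne hxb, C_of_ne hxi, R_of_ne hxb, C_of_ne hxi]

variable {n : ℕ} {G : Type*} [Group G] (g : Fin n → G) (I : Finset (Fin n)) {T : Type*}
  [Group T] (f : Gam g →* T)

theorem wnd_ret {I : Finset (Fin n)} {i : Fin n} (hi : i ∈ I) : ret Iᶜ (FreeGroup.of i) = 1 := by
  have : ¬ i ∈ Iᶜ := by
    rw [Finset.mem_compl]
    exact not_not.2 hi
  simp [ret, hi]

theorem wnd_kill {I : Finset (Fin n)} {c i : Fin n} (hi : i ∈ I) (hic : i ≠ c)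
    {v : FreeGroup (Fin n)} (hv : v ∈ fsub Iᶜ) : kill i (qq c v) = qq c v := by
  have h1 : kill i v = v := kill_eq hv (by
    rw [Finset.mem_compl]
    exact not_not.2 hi)
  rw [qq, map_mul, map_mul, map_inv, h1, kill_of_ne hic.symm]

theorem wnd_qq_mem {I : Finset (Fin n)} {c i : Fin n} (hc : c ∈ I) (hi : i ∈ I) (hic : i ≠ c)
    {v : FreeGroup (Fin n)} (hv : v ∈ fsub Iᶜ) : qq c v ∈ UU I i := by
  refine ⟨?_, wnd_kill hi hic hv⟩
  rw [qq, map_mul, map_mul, map_inv, wnd_ret hc, mul_one, mul_inv_cancel]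

theorem wnd_of_mem {I : Finset (Fin n)} {i a : Fin n} (hi : i ∈ I) (hia : i ≠ a) :
    FreeGroup.of i ∈ UU I a := ⟨wnd_ret hi, kill_of_ne hia⟩

theorem wnd_ev {c : Fin n} (hc : g c = 1) (v : FreeGroup (Fin n)) : ev g (qq c v) = 1 := by
  rw [qq, map_mul, map_mul, map_inv, ev_of, hc, mul_one, mul_inv_cancel]

theorem wnd_comm (h : Hyp g I f) (hI : 5 ≤ I.card) {c i j : Fin n} (hc : c ∈ I) (hi : i ∈ I)
    (hic : i ≠ c) (hj : j ∉ I) {v : FreeGroup (Fin n)} (hv : v ∈ fsub Iᶜ) :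
    Commute (fe g f (R j (FreeGroup.of i))) (fe g f (C i (qq c v))) := by
  obtain ⟨b, hb, hbc, hbi⟩ : ∃ b ∈ I, b ≠ c ∧ b ≠ i := by
    have h1 : 0 < ((I.erase c).erase i).card := by
      have h2 := Finset.pred_card_le_card_erase (s := I) (a := c)
      have h3 := Finset.pred_card_le_card_erase (s := I.erase c) (a := i)
      omega
    obtain ⟨b, hb⟩ := Finset.card_pos.1 h1
    rw [Finset.mem_erase, Finset.mem_erase] at hb
    exact ⟨b, hb.2.2, hb.2.1, hb.1⟩
  have hij : i ≠ j := by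
    rintro rfl
    exact hj hi
  have hbj : b ≠ j := by
    rintro rfl
    exact hj hb
  have hgi : g i = 1 := h.one i hi
  have hgb : g b = 1 := h.one b hb
  have hgc : g c = 1 := h.one c hc
  obtain ⟨q, hq⟩ : ∃ q, q = qq c v := ⟨_, rfl⟩
  have hqi : kill i q = q := hq ▸ wnd_kill hi hic hv
  have hqb : kill b q = q := hq ▸ wnd_kill hb hbc hv
  have hqU : q ∈ UU I i := hq ▸ wnd_qq_mem hc hi hic hv
  have hevq : ev g q = 1 := hq ▸ wnd_ev g hgc v
  -- memberships
  have mRb : R b q ∈ Gam g := (R_mem_Gam_iff g b q).2 (by rw [hqb, hevq])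
  have mC : ∀ w, C i w ∈ Gam g := fun w => C_mem_Gam g hgi w
  have mR : ∀ {a : Fin n} {w : FreeGroup (Fin n)}, kill a w = w → ev g w = 1 → R a w ∈ Gam g :=
    fun h1 h2 => (R_mem_Gam_iff g _ _).2 (by rw [h1, h2])
  have mL : ∀ {a : Fin n} {w : FreeGroup (Fin n)}, kill a w = w → ev g w = 1 → L a w ∈ Gam g :=
    fun h1 h2 => (L_mem_Gam_iff g _ _).2 (by rw [h1, h2])
  have mX : R j (FreeGroup.of i) ∈ Gam g := mR (kill_of_ne hij) (by rw [ev_of, hgi])
  have mZ : R j (FreeGroup.of b) ∈ Gam g := mR (kill_of_ne hbj) (by rw [ev_of, hgb])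
  -- `c_i (x_b q⁻¹ x_b⁻¹) = c_i (q)⁻¹`
  obtain ⟨w, hw⟩ : ∃ w, w = FreeGroup.of b * q⁻¹ * (FreeGroup.of b)⁻¹ := ⟨_, rfl⟩
  have hqi' : kill i q⁻¹ = q⁻¹ := by rw [map_inv, hqi]
  have hwi : kill i w = w := by
    rw [hw, map_mul, map_mul, map_inv, map_inv, hqi, kill_of_ne hbi]
  have hevw : ev g w = 1 := by
    rw [hw, map_mul, map_mul, map_inv, map_inv, hevq, ev_of, hgb]
    simp
  have e1 : fe g f (R i w) = fe g f (R i q⁻¹) := by
    have := R_cong g I f h (a := i) (w := FreeGroup.of b) (w' := 1) (u := q⁻¹) (kill_of_ne hbi)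
      (map_one _) (by rw [wnd_ret hb, map_one]) ((UU I i).inv_mem hqU)
    rw [hw, this, one_mul, inv_one, mul_one]
  have e2 : fe g f (L i w) = fe g f (L i q⁻¹) := by
    have := L_cong g I f h hi (w := FreeGroup.of b) (w' := 1) (u := q⁻¹) (kill_of_ne hbi)
      (map_one _) (by rw [wnd_ret hb, map_one]) ((UU I i).inv_mem hqU)
    rw [hw, this, one_mul, inv_one, mul_one]
  have hevq' : ev g q⁻¹ = 1 := by rw [map_inv, hevq, inv_one]
  have e3 : fe g f (C i w) = (fe g f (C i q))⁻¹ := by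
    rw [← fe_inv g f (mC q), C_inv, C_eq, C_eq, fe_mul g f (mL hwi hevw) (mR hwi hevw), e1, e2,
      fe_mul g f (mL hqi' hevq') (mR hqi' hevq')]
  -- `c_i (q)⁻¹` is a commutator
  have e4 : (fe g f (C i q))⁻¹ = fe g f (C i (FreeGroup.of b)) * fe g f (R b q) *
      (fe g f (C i (FreeGroup.of b)))⁻¹ * (fe g f (R b q))⁻¹ := by
    have h1 := congrArg (fe g f) (wnd_ident (i := i) (b := b) hbi.symm hqi hqb)
    rw [← hw, fe_mul g f ((Gam g).mul_mem (mC _) mRb) ((Gam g).inv_mem (mC _)),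
      fe_mul g f (mC _) mRb, fe_inv g f (mC _), fe_mul g f (mC _) mRb, e3] at h1
    rw [h1]
    group
  -- `X` commutes with its entries
  obtain ⟨X, hX⟩ : ∃ X, X = fe g f (R j (FreeGroup.of i)) := ⟨_, rfl⟩
  have c1 : Commute X (fe g f (R b q)) := by
    rw [hX, hq]
    exact (F2 g I f h hc hi hb hbc hbi hj hv).1
  have c2 : Commute X (fe g f (R j (FreeGroup.of b))) := by
    rw [hX]
    exact h.S2 j _ (wnd_of_mem hi hij) _ (wnd_of_mem hb hbj)
  have c3 : Commute X (fe g f (C i (FreeGroup.of b))) := by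
    have h1 := congrArg (fe g f) (conj_I3 (a := i) (d := j) hij (w := FreeGroup.of b)
      (kill_of_ne hbj) (kill_of_ne hbi))
    have h2 : R j (FreeGroup.of i * (FreeGroup.of b)⁻¹ * (FreeGroup.of i)⁻¹ * FreeGroup.of b) =
        R j (FreeGroup.of i) * (R j (FreeGroup.of b))⁻¹ * (R j (FreeGroup.of i))⁻¹ *
          R j (FreeGroup.of b) := by
      rw [map_mul, map_mul, map_mul, map_inv, map_inv]
    have h3 : fe g f (R j (FreeGroup.of i) * (R j (FreeGroup.of b))⁻¹ *
        (R j (FreeGroup.of i))⁻¹ * R j (FreeGroup.of b)) = 1 := by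
      rw [fe_mul g f ((Gam g).mul_mem ((Gam g).mul_mem mX ((Gam g).inv_mem mZ))
        ((Gam g).inv_mem mX)) mZ, fe_mul g f ((Gam g).mul_mem mX ((Gam g).inv_mem mZ))
        ((Gam g).inv_mem mX), fe_mul g f mX ((Gam g).inv_mem mZ), fe_inv g f mX, fe_inv g f mZ,
        ← hX, (c2.inv_right).eq]
      group
    have mW : R j (FreeGroup.of i) * (R j (FreeGroup.of b))⁻¹ * (R j (FreeGroup.of i))⁻¹ *
          R j (FreeGroup.of b) ∈ Gam g := (Gam g).mul_mem ((Gam g).mul_mem ((Gam g).mul_mem mX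
            ((Gam g).inv_mem mZ)) ((Gam g).inv_mem mX)) mZ
    rw [h2, fe_mul g f mW (mC _), h3, one_mul,
      fe_mul g f ((Gam g).mul_mem mX (mC _)) ((Gam g).inv_mem mX), fe_mul g f mX (mC _),
      fe_inv g f mX, ← hX, mul_inv_eq_iff_eq_mul] at h1
    exact h1
  rw [← hX, ← hq]
  rw [← Commute.inv_right_iff, e4]
  exact ((c3.mul_right c1).mul_right c3.inv_right).mul_right c1.inv_right

/-- MODULE WNd, file Pool/Agent/RED/WNd.lean -/
theorem WN_Rj (h : Hyp g I f) (hI : 5 ≤ I.card) {c i j : Fin n} (hc : c ∈ I) (hi : i ∈ I)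
    (hic : i ≠ c) (hj : j ∉ I) : ∀ y ∈ WWs g I f c,
    fe g f (R j (FreeGroup.of i)) * y * (fe g f (R j (FreeGroup.of i)))⁻¹ ∈ WW g I f c := by
  have hcomm : ∀ y, Commute (fe g f (R j (FreeGroup.of i))) y →
      fe g f (R j (FreeGroup.of i)) * y * (fe g f (R j (FreeGroup.of i)))⁻¹ = y := by
    intro y hy
    rw [hy.eq, mul_inv_cancel_right]
  intro y hy
  have hy' : y ∈ WW g I f c := Subgroup.subset_closure hy
  rcases hy with ⟨a, ha, hac, v, hv, rfl | rfl⟩ | ⟨j', hj', e, he, hec, v, hv, rfl⟩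
  · by_cases hai : a = i
    · subst hai
      rw [yy_conj g I f h hI hc ha hac hj hv]
      exact (WW g I f c).mul_mem hy' ((WW g I f c).inv_mem
        (Subgroup.subset_closure (Or.inr ⟨j, hj, a, ha, hac, v, hv, rfl⟩)))
    · rw [hcomm _ (F2 g I f h hc hi ha hac hai hj hv).1]
      exact hy'
  · by_cases hai : a = i
    · subst hai
      have hga : g a = 1 := h.one a ha
      have hqa : kill a (qq c v) = qq c v := wnd_kill ha hac hv
      have hev : ev g (qq c v) = 1 := wnd_ev g (h.one c hc) v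
      have mR : R a (qq c v) ∈ Gam g := (R_mem_Gam_iff g _ _).2 (by rw [hqa, hev])
      have mL : L a (qq c v) ∈ Gam g := (L_mem_Gam_iff g _ _).2 (by rw [hqa, hev])
      have h1 : fe g f (C a (qq c v)) = fe g f (L a (qq c v)) * fe g f (R a (qq c v)) := by
        rw [C_eq, fe_mul g f mL mR]
      have h2 := hcomm _ (wnd_comm g I f h hI hc ha hac hj hv)
      have h3 := yy_conj g I f h hI hc ha hac hj hv
      obtain ⟨X, hX⟩ : ∃ X, X = fe g f (R j (FreeGroup.of a)) := ⟨_, rfl⟩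
      rw [← hX] at h2 h3 ⊢
      have h4 : fe g f (L a (qq c v)) = fe g f (C a (qq c v)) * (fe g f (R a (qq c v)))⁻¹ := by
        rw [h1, mul_inv_cancel_right]
      have h5 : X * fe g f (L a (qq c v)) * X⁻¹ = (X * fe g f (C a (qq c v)) * X⁻¹) *
          (X * fe g f (R a (qq c v)) * X⁻¹)⁻¹ := by
        rw [h4]
        group
      rw [h5, h2, h3, h1]
      have mem1 : fe g f (R a (qq c v)) ∈ WW g I f c :=
        Subgroup.subset_closure (Or.inl ⟨a, ha, hac, v, hv, Or.inl rfl⟩)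
      have mem2 : yy g f c a j v ∈ WW g I f c :=
        Subgroup.subset_closure (Or.inr ⟨j, hj, a, ha, hac, v, hv, rfl⟩)
      exact (WW g I f c).mul_mem ((WW g I f c).mul_mem hy' mem1)
        ((WW g I f c).inv_mem ((WW g I f c).mul_mem mem1 ((WW g I f c).inv_mem mem2)))
    · rw [hcomm _ (F2 g I f h hc hi ha hac hai hj hv).2]
      exact hy'
  · obtain ⟨b, hb, hbc, hbi⟩ : ∃ b ∈ I, b ≠ c ∧ b ≠ i := by
      have h1 : 0 < ((I.erase c).erase i).card := by
        have h2 := Finset.pred_card_le_card_erase (s := I) (a := c)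
        have h3 := Finset.pred_card_le_card_erase (s := I.erase c) (a := i)
        omega
      obtain ⟨b, hb⟩ := Finset.card_pos.1 h1
      rw [Finset.mem_erase, Finset.mem_erase] at hb
      exact ⟨b, hb.2.2, hb.2.1, hb.1⟩
    have h1 : Commute (fe g f (R j (FreeGroup.of i))) (yy g f c e j' v) := by
      rw [yy_indep g I f h hI hc he hb hec hbc hj' hv, yy]
      have h2 := (F2 g I f h hc hi hb hbc hbi hj hv).1
      have h3 := F3 g I f h hi hb hj hj'
      exact ((h2.inv_right.mul_right h3.inv_right).mul_right h2).mul_right h3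
    rw [hcomm _ h1]
    exact hy'

end RED
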