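import Mathlib
import Pool.Agent.RED.HHGen
import Pool.Agent.RED.WNb
import Pool.Agent.RED.WNc
import Pool.Agent.RED.WNc2
import Pool.Agent.RED.WNd
import Pool.Agent.RED.WComm2

/-!
# The group `HH {c}ᶜ` normalises `WW c`
-/

set_option autoImplicit false

namespace RED

open AFn IAQ

/-- an element conjugating the generators of a finite subgroup into it normalises it -/
private theorem norm_of_gens {T : Type*} [Group T] {S : Set T} [hf : Finite (Subgroup.closure S)]
    {s : T} (hs : ∀ y ∈ S, s * y * s⁻¹ ∈ Subgroup.closure S) :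
    (∀ y ∈ Subgroup.closure S, s * y * s⁻¹ ∈ Subgroup.closure S) ∧
      ∀ y ∈ Subgroup.closure S, s⁻¹ * y * s ∈ Subgroup.closure S := by
  have h1 : ∀ y ∈ Subgroup.closure S, s * y * s⁻¹ ∈ Subgroup.closure S := by
    intro y hy
    induction hy using Subgroup.closure_induction with
    | mem y hy => exact hs y hy
    | one =>
      rw [mul_one, mul_inv_cancel]
      exact Subgroup.one_mem _
    | mul y z _ _ hy hz =>
      have e : s * (y * z) * s⁻¹ = s * y * s⁻¹ * (s * z * s⁻¹) := by group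
      rw [e]
      exact Subgroup.mul_mem _ hy hz
    | inv y _ hy =>
      have e : s * y⁻¹ * s⁻¹ = (s * y * s⁻¹)⁻¹ := by group
      rw [e]
      exact Subgroup.inv_mem _ hy
  refine ⟨h1, fun y hy => ?_⟩
  have hinj : Function.Injective (fun y : Subgroup.closure S =>
      (⟨s * y.1 * s⁻¹, h1 y.1 y.2⟩ : Subgroup.closure S)) := by
    intro y z hyz
    have h2 : s * y.1 * s⁻¹ = s * z.1 * s⁻¹ := congrArg Subtype.val hyz
    exact Subtype.ext (mul_left_cancel (mul_right_cancel h2))
  obtain ⟨z, hz⟩ := (Finite.surjective_of_injective hinj) ⟨y, hy⟩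
  have h3 : s * z.1 * s⁻¹ = y := congrArg Subtype.val hz
  have e : s⁻¹ * y * s = z.1 := by rw [← h3]; group
  rw [e]
  exact z.2

section Image

variable {n : ℕ} {G : Type*} [Group G] (g : Fin n → G) (I : Finset (Fin n)) {T : Type*}
  [Group T] (f : Gam g →* T)

theorem WW_norm (h : Hyp g I f) (hI : 5 ≤ I.card) {c : Fin n} (hc : c ∈ I) :
    ∀ x ∈ HH g I f {c}ᶜ, ∀ y ∈ WW g I f c, x * y * x⁻¹ ∈ WW g I f c := by
  have hfin : Finite (Subgroup.closure (WWs g I f c)) := WW_finite g I f h hI hc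
  have key : ∀ x ∈ Subgroup.closure (genHH g I f c),
      (∀ y ∈ WW g I f c, x * y * x⁻¹ ∈ WW g I f c) ∧
        ∀ y ∈ WW g I f c, x⁻¹ * y * x ∈ WW g I f c := by
    intro x hx
    induction hx using Subgroup.closure_induction with
    | mem s hs =>
      refine norm_of_gens ?_
      rcases hs with ⟨i, hi, hic, rfl⟩ | ⟨i, hi, hic, b, hbc, hbi, rfl⟩ |
        ⟨i, hi, hic, k, hk, hk1, rfl⟩ | ⟨i, hi, hic, i2, hi2, hi2c, hii, rfl⟩ |
        ⟨j, hj, i, hi, hic, rfl⟩
      · exact WN_sg g I f h hI hc hi hic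
      · exact WN_C g I f h hI hc hi hic hbc hbi
      · exact WN_Rk g I f h hI hc hi hic hk hk1
      · exact WN_RR g I f h hI hc hi hi2 hic hi2c hii
      · exact WN_Rj g I f h hI hc hi hic hj
    | one =>
      refine ⟨fun y hy => ?_, fun y hy => ?_⟩
      · simpa using hy
      · simpa using hy
    | mul a b _ _ ha hb =>
      refine ⟨fun y hy => ?_, fun y hy => ?_⟩
      · have e : a * b * y * (a * b)⁻¹ = a * (b * y * b⁻¹) * a⁻¹ := by group
        rw [e]
        exact ha.1 _ (hb.1 _ hy)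
      · have e : (a * b)⁻¹ * y * (a * b) = b⁻¹ * (a⁻¹ * y * a) * b := by group
        rw [e]
        exact hb.2 _ (ha.2 _ hy)
    | inv a _ ha =>
      refine ⟨fun y hy => ?_, fun y hy => ?_⟩
      · rw [inv_inv]
        exact ha.2 _ hy
      · rw [inv_inv]
        exact ha.1 _ hy
  intro x hx
  exact (key x (HH_gen g I f h hc hx)).1

end Image

end RED
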