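import Mathlib
import Pool.Agent.RED.MvBasic
import Pool.Agent.RED.Key
import Pool.Agent.RED.Glue
import Pool.Agent.RED.VFin
import Pool.Agent.RED.WComm2
import Pool.Agent.RED.WNorm
import Pool.Agent.RED.CC
import Pool.Agent.RED.CC2

/-!
# The group generated by the images of the one-letter moves is finite
-/

set_option autoImplicit false

namespace RED

open AFn IAQ

variable {n : ℕ} {G : Type*} [Group G] (g : Fin n → G) (I : Finset (Fin n)) {T : Type*}
  [Group T] (f : Gam g →* T)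

theorem mem_fsub_univ (w : FreeGroup (Fin n)) : w ∈ fsub (Finset.univ : Finset (Fin n)) := by
  induction w using FreeGroup.induction_on with
  | C1 => exact Subgroup.one_mem _
  | of x => exact of_mem_fsub (Finset.mem_univ x)
  | inv_of x hx => exact Subgroup.inv_mem _ hx
  | mul x y hx hy => exact Subgroup.mul_mem _ hx hy

theorem MvIn_mono {S S' : Finset (Fin n)} (h : S ⊆ S') (c : Fin n) : MvIn S c ⊆ MvIn S' c := by
  rintro φ ⟨u, hu, v, hv, hφ⟩
  exact ⟨u, fsub_mono h hu, v, fsub_mono h hv, hφ⟩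

theorem HH_mono {S S' : Finset (Fin n)} (h : S ⊆ S') : HH g I f S ≤ HH g I f S' := by
  unfold HH
  rw [Subgroup.closure_le]
  rintro x (⟨i, hi, hiS, φ, hφ, hφg, rfl⟩ | ⟨j, hj, i, hi, hiS, rfl⟩)
  · exact Subgroup.subset_closure (Or.inl ⟨i, hi, h hiS, φ, MvIn_mono h i hφ, hφg, rfl⟩)
  · exact Subgroup.subset_closure (Or.inr ⟨j, hj, i, hi, h hiS, rfl⟩)

theorem fe_mem_HH_of_mem {i : Fin n} (hi : i ∈ I) {φ : MulAut (FreeGroup (Fin n))}
    (hφ : φ ∈ Mv i) (hφg : φ ∈ Gam g) : fe g f φ ∈ HH g I f Finset.univ := by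
  obtain ⟨u, v, h⟩ := mem_Mv_iff.1 hφ
  exact Subgroup.subset_closure (Or.inl ⟨i, hi, Finset.mem_univ i, φ,
    ⟨u, mem_fsub_univ u, v, mem_fsub_univ v, h⟩, hφg, rfl⟩)

/-- `C_e(x_j) R_j(x_e) C_e(x_j)⁻¹ = L_j(x_e)⁻¹` -/
theorem C_conj_R_L {e j : Fin n} (hej : e ≠ j) :
    C e (FreeGroup.of j) * R j (FreeGroup.of e) * (C e (FreeGroup.of j))⁻¹ =
      (L j (FreeGroup.of e))⁻¹ := by
  have hL : (L j (FreeGroup.of e))⁻¹ = L j (FreeGroup.of e)⁻¹ := (map_inv (L j) _).symm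
  rw [mul_inv_eq_iff_eq_mul, hL]
  apply aut_ext
  intro x
  rw [MulAut.mul_apply, MulAut.mul_apply]
  by_cases hxj : x = j
  · subst hxj
    rw [R_of_self, kill_of_ne hej, map_mul, C_of_ne hej.symm, C_of_self, kill_of_ne hej.symm,
      L_of_self, map_inv, kill_of_ne hej]
    group
  · rw [R_of_ne hxj]
    by_cases hxe : x = e
    · subst hxe
      rw [C_of_self, kill_of_ne hej.symm, map_mul, map_mul, map_inv, L_of_self, L_of_ne hxj,
        map_inv, kill_of_ne hxj]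
      group
    · rw [C_of_ne hxe, L_of_ne hxj]

theorem R_of_mem_Gam {j e : Fin n} (hej : e ≠ j) (he : g e = 1) :
    R j (FreeGroup.of e) ∈ Gam g := by
  rw [R_mem_Gam_iff, kill_of_ne hej, ev_of, he]

theorem L_of_mem_Gam {j e : Fin n} (hej : e ≠ j) (he : g e = 1) :
    L j (FreeGroup.of e) ∈ Gam g := by
  rw [L_mem_Gam_iff, kill_of_ne hej, ev_of, he]

theorem fe_R_mem_HH {j e : Fin n} (hj : j ∉ I) (he : e ∈ I) :
    fe g f (R j (FreeGroup.of e)) ∈ HH g I f Finset.univ :=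
  Subgroup.subset_closure (Or.inr ⟨j, hj, e, he, Finset.mem_univ e, rfl⟩)

theorem fe_L_mem_HH {j e : Fin n} (hj : j ∉ I) (he : e ∈ I) (hge : g e = 1) :
    fe g f (L j (FreeGroup.of e)) ∈ HH g I f Finset.univ := by
  have hej : e ≠ j := fun h => hj (h ▸ he)
  have hCg : C e (FreeGroup.of j) ∈ Gam g := C_mem_Gam g hge _
  have hC : fe g f (C e (FreeGroup.of j)) ∈ HH g I f Finset.univ := by
    refine fe_mem_HH_of_mem g I f he ?_ hCg
    rw [C_eq]
    exact mem_Mv_iff.2 ⟨_, _, Or.inl rfl⟩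
  have h1 := congrArg (fe g f) (C_conj_R_L hej)
  rw [fe_mul g f ((Gam g).mul_mem hCg (R_of_mem_Gam g hej hge)) ((Gam g).inv_mem hCg),
    fe_mul g f hCg (R_of_mem_Gam g hej hge), fe_inv g f hCg,
    fe_inv g f (L_of_mem_Gam g hej hge)] at h1
  have h2 := Subgroup.mul_mem _ (Subgroup.mul_mem _ hC (fe_R_mem_HH g I f hj he))
    (Subgroup.inv_mem _ hC)
  rw [h1] at h2
  exact (Subgroup.inv_mem_iff _).1 h2

theorem fe_mem_HH (h1 : ∀ i ∈ I, g i = 1) {e : Fin n} (he : e ∈ I) {c : Fin n}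
    {φ : MulAut (FreeGroup (Fin n))} (hφ : φ ∈ Mv c) (hφg : φ ∈ Gam g) :
    fe g f φ ∈ HH g I f Finset.univ := by
  by_cases hc : c ∈ I
  · exact fe_mem_HH_of_mem g I f hc hφ hφg
  have hce : e ≠ c := fun h => hc (h ▸ he)
  have hk := key hce.symm (w := 1) (map_one _) (map_one _)
    (show ev g 1 = g e by rw [map_one, h1 e he]) hφ hφg
  rw [inv_one, mul_one] at hk
  have key2 : φ ∈ Gam g ∧ fe g f φ ∈ HH g I f Finset.univ := by
    clear hφ hφg
    induction hk using Subgroup.closure_induction with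
    | mem x hx =>
      rcases hx with (hx | hx) | hx
      · subst hx
        exact ⟨R_of_mem_Gam g hce (h1 e he), fe_R_mem_HH g I f hc he⟩
      · rw [Set.mem_singleton_iff] at hx
        subst hx
        exact ⟨L_of_mem_Gam g hce (h1 e he), fe_L_mem_HH g I f hc he (h1 e he)⟩
      · exact ⟨hx.2, fe_mem_HH_of_mem g I f he hx.1 hx.2⟩
    | one => exact ⟨(Gam g).one_mem, by rw [fe_one]; exact Subgroup.one_mem _⟩
    | mul x y _ _ hx hy =>
      exact ⟨(Gam g).mul_mem hx.1 hy.1, by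
        rw [fe_mul g f hx.1 hy.1]; exact Subgroup.mul_mem _ hx.2 hy.2⟩
    | inv x _ hx =>
      exact ⟨(Gam g).inv_mem hx.1, by
        rw [fe_inv g f hx.1]; exact Subgroup.inv_mem _ hx.2⟩
  exact key2.2

theorem HH_univ_finite [Finite G] (h : Hyp g I f) (hI : 5 ≤ I.card) :
    Finite (HH g I f Finset.univ) := by
  obtain ⟨c, hc, d, hd, hcd⟩ := Finset.one_lt_card.1 (show 1 < I.card by omega)
  have := VV_finite g I f h hc
  have := VV_finite g I f h hd
  have := WW_finite g I f h hI hc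
  have := WW_finite g I f h hI hd
  have hMc : ({c, d}ᶜ : Finset (Fin n)) ⊆ {c}ᶜ :=
    Finset.compl_subset_compl.2 (Finset.singleton_subset_iff.2 (Finset.mem_insert_self c {d}))
  have hMd : ({c, d}ᶜ : Finset (Fin n)) ⊆ {d}ᶜ :=
    Finset.compl_subset_compl.2 (Finset.singleton_subset_iff.2
      (Finset.mem_insert_of_mem (Finset.mem_singleton_self d)))
  have hd2 := dd1 g I f h hI hd hc hcd.symm
  rw [Finset.pair_comm d c] at hd2
  exact glue_main (HH g I f Finset.univ) (HH g I f {c}ᶜ) (HH g I f {d}ᶜ) (HH g I f {c, d}ᶜ)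
    (VV g f d) (WW g I f d) (VV g f c) (WW g I f c)
    (ee g I f h hI hc) (ee g I f h hI hd)
    (HH_mono g I f (Finset.subset_univ _)) (HH_mono g I f (Finset.subset_univ _))
    (hh g I f h hI hc hd hcd)
    (VV_norm g I f h hc) (WW_norm g I f h hI hc) (VV_norm g I f h hd) (WW_norm g I f h hI hd)
    (HH_mono g I f hMc) (HH_mono g I f hMd)
    (dd1 g I f h hI hc hd hcd) hd2
    (cc1 g I f h hI hc hd hcd) (cc2 g I f h hI hc hd hcd)
    (cc2 g I f h hI hd hc hcd.symm) (cc1 g I f h hI hd hc hcd.symm)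

/-- MODULE BM -/
theorem all_finite [Finite G] (h : Hyp g I f) (hI : 5 ≤ I.card) :
    Finite (Subgroup.closure {x | ∃ φ, φ ∈ Gam g ∧ (∃ c, φ ∈ Mv c) ∧ x = fe g f φ}) := by
  have := HH_univ_finite g I f h hI
  obtain ⟨e, he⟩ : I.Nonempty := Finset.card_pos.1 (by omega)
  have hle : Subgroup.closure {x | ∃ φ, φ ∈ Gam g ∧ (∃ c, φ ∈ Mv c) ∧ x = fe g f φ} ≤
      HH g I f Finset.univ := by
    rw [Subgroup.closure_le]
    rintro x ⟨φ, hφg, ⟨c, hφ⟩, rfl⟩
    exact fe_mem_HH g I f h.one he hφ hφg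
  exact Finite.of_injective (Subgroup.inclusion hle) (Subgroup.inclusion_injective hle)

end RED
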