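import Pool.Agent.RED.Defs
import Pool.Agent.IAQ.Nielsen

/-!
# Generators of the automorphism group

The automorphism group of a free group is generated by the transvections `x_a ↦ x_a x_b` and the
sign changes (Nielsen's theorem without permutations).
-/

set_option autoImplicit false

namespace RED

open AFn IAQ

namespace GTop

variable {n : ℕ}

/-- the group generated by the transvections and the sign changes -/
def KK (n : ℕ) : Subgroup (MulAut (FreeGroup (Fin n))) := Subgroup.closure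
    ({φ : MulAut (FreeGroup (Fin n)) | ∃ a b, a ≠ b ∧ φ = R a (FreeGroup.of b)} ∪
      {φ | ∃ a, φ = sg a})

theorem R_mem {a b : Fin n} (h : a ≠ b) : R a (FreeGroup.of b) ∈ KK n :=
  Subgroup.subset_closure (Or.inl ⟨a, b, h, rfl⟩)

theorem sg_mem (a : Fin n) : sg a ∈ KK n := Subgroup.subset_closure (Or.inr ⟨a, rfl⟩)

theorem Rinv_mem {a b : Fin n} (h : a ≠ b) : R a (FreeGroup.of b)⁻¹ ∈ KK n := by
  rw [map_inv]
  exact (KK n).inv_mem (R_mem h)

theorem kill_ne {a b : Fin n} (h : a ≠ b) : kill a (FreeGroup.of b) = FreeGroup.of b := by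
  rw [kill_of, if_neg h.symm]

theorem L_eq {a b : Fin n} (h : a ≠ b) :
    L a (FreeGroup.of b)⁻¹ = sg a * R a (FreeGroup.of b)⁻¹ * sg a := by
  apply aut_ext
  intro x
  rw [MulAut.mul_apply, MulAut.mul_apply]
  by_cases hx : x = a
  · subst hx
    rw [L_of_self, sg_of_self, map_inv (R x (FreeGroup.of b)⁻¹), R_of_self, map_inv (sg x),
      map_mul (sg x), sg_of_self, map_inv (kill x), kill_ne h, map_inv (sg x), sg_of_ne h.symm,
      mul_inv_rev, inv_inv, inv_inv]
  · rw [L_of_ne hx, sg_of_ne hx, R_of_ne hx, sg_of_ne hx]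

theorem L_mem {a b : Fin n} (h : a ≠ b) : L a (FreeGroup.of b)⁻¹ ∈ KK n := by
  rw [L_eq h]
  exact (KK n).mul_mem ((KK n).mul_mem (sg_mem a) (Rinv_mem h)) (sg_mem a)

/-- the automorphism permuting the letters -/
def pm (σ : Equiv.Perm (Fin n)) : MulAut (FreeGroup (Fin n)) := FreeGroup.freeGroupCongr σ

theorem pm_of (σ : Equiv.Perm (Fin n)) (x : Fin n) : pm σ (FreeGroup.of x) = FreeGroup.of (σ x) := by
  simp [pm]

theorem swap_eq {i c : Fin n} (h : i ≠ c) :
    pm (Equiv.swap i c) = sg i *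
      (R i (FreeGroup.of c) * R c (FreeGroup.of i)⁻¹ * L i (FreeGroup.of c)⁻¹) := by
  apply aut_ext
  intro x
  rw [MulAut.mul_apply, MulAut.mul_apply, MulAut.mul_apply, pm_of]
  by_cases hx : x = i
  · subst hx
    rw [Equiv.swap_apply_left, L_of_self, map_inv (kill x), kill_ne h, inv_inv,
      map_mul (R c (FreeGroup.of x)⁻¹), R_of_self, R_of_ne h, map_inv (kill c), kill_ne h.symm,
      inv_mul_cancel_right, R_of_ne h.symm, sg_of_ne h.symm]
  · rw [L_of_ne hx]
    by_cases hxc : x = c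
    · subst hxc
      rw [Equiv.swap_apply_right, R_of_self, map_inv (kill x), kill_ne h.symm,
        map_mul (R i (FreeGroup.of x)), map_inv (R i (FreeGroup.of x)), R_of_ne hx, R_of_self,
        kill_ne h, mul_inv_rev, mul_inv_cancel_left, map_inv (sg i), sg_of_self, inv_inv]
    · rw [Equiv.swap_apply_of_ne_of_ne hx hxc, R_of_ne hxc, R_of_ne hx, sg_of_ne hx]

theorem pm_mul (σ τ : Equiv.Perm (Fin n)) : pm (σ * τ) = pm σ * pm τ := by
  apply aut_ext
  intro x
  rw [MulAut.mul_apply, pm_of, pm_of, pm_of, Equiv.Perm.mul_apply]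

theorem pm_one : pm (1 : Equiv.Perm (Fin n)) = 1 := by
  apply aut_ext
  intro x
  rw [pm_of]
  rfl

theorem pm_mem (σ : Equiv.Perm (Fin n)) : pm σ ∈ KK n := by
  induction σ using Equiv.Perm.swap_induction_on with
  | one => rw [pm_one]; exact (KK n).one_mem
  | swap_mul f x y hxy ih =>
    rw [pm_mul, swap_eq hxy]
    exact (KK n).mul_mem ((KK n).mul_mem (sg_mem x) ((KK n).mul_mem
      ((KK n).mul_mem (R_mem hxy) (Rinv_mem hxy.symm)) (L_mem hxy))) ih

end GTop

open GTop

theorem gen_top (n : ℕ) : Subgroup.closure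
    ({φ : MulAut (FreeGroup (Fin n)) | ∃ a b, a ≠ b ∧ φ = R a (FreeGroup.of b)} ∪
      {φ | ∃ a, φ = sg a}) = ⊤ := by
  rw [eq_top_iff]
  intro φ _
  have h1 := nielsen_gen n φ
  refine (Subgroup.closure_le (KK n)).2 ?_ h1
  rintro g (⟨a, b, hab, h2, h3⟩ | ⟨a, h2, h3⟩ | ⟨σ, h2⟩)
  · have e : g = R a (FreeGroup.of b) := by
      apply aut_ext
      intro x
      by_cases hx : x = a
      · subst hx
        rw [h2, R_of_self, kill_ne hab]
      · rw [h3 x hx, R_of_ne hx]
    rw [e]
    exact R_mem hab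
  · have e : g = sg a := by
      apply aut_ext
      intro x
      by_cases hx : x = a
      · subst hx
        rw [h2, sg_of_self]
      · rw [h3 x hx, sg_of_ne hx]
    rw [e]
    exact sg_mem a
  · have e : g = pm σ := by
      apply aut_ext
      intro x
      rw [h2, pm_of]
    rw [e]
    exact pm_mem σ

end RED
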