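import Mathlib
import Pool.Agent.RED.Defs

/-!
# Small generating sets of letters
-/

set_option autoImplicit false

namespace RED

open AFn IAQ

/-- every finite subset of `G` contains at most `d` elements generating the same subgroup -/
def GB (G : Type*) [Group G] (d : ℕ) : Prop :=
  ∀ S : Finset G, ∃ M : Finset G, M ⊆ S ∧ M.card ≤ d ∧
    ∀ x ∈ S, x ∈ Subgroup.closure (M : Set G)

theorem GB.subgroup {G : Type*} [Group G] {d : ℕ} (h : GB G d) (K : Subgroup G) : GB K d := by
  classical
  intro S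
  obtain ⟨M, h1, h2, h3⟩ := h (S.image Subtype.val)
  have hK : ∀ x ∈ M, x ∈ K := by
    intro x hx
    obtain ⟨y, -, rfl⟩ := Finset.mem_image.1 (h1 hx)
    exact y.2
  have hM : ((M.subtype (· ∈ K)).image Subtype.val) = M := by
    ext x
    rw [Finset.mem_image]
    constructor
    · rintro ⟨y, hy, rfl⟩
      exact Finset.mem_subtype.1 hy
    · intro hx
      exact ⟨⟨x, hK x hx⟩, Finset.mem_subtype.2 hx, rfl⟩
  refine ⟨M.subtype (· ∈ K), ?_, ?_, ?_⟩
  · intro x hx
    obtain ⟨y, hy, hyx⟩ := Finset.mem_image.1 (h1 (Finset.mem_subtype.1 hx))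
    rwa [← Subtype.ext hyx]
  · refine le_trans (Finset.card_subtype _ _).le (le_trans (Finset.card_filter_le _ _) h2)
  · intro x hx
    have h4 := h3 x.1 (Finset.mem_image_of_mem _ hx)
    rw [← hM, Finset.coe_image, ← Subgroup.coe_subtype, ← MonoidHom.map_closure] at h4
    obtain ⟨y, hy, hyx⟩ := Subgroup.mem_map.1 h4
    rwa [← Subtype.ext hyx]

theorem closure_chain {G : Type*} [Group G] [Finite G] (S : Finset G) :
    ∃ M : Finset G, M ⊆ S ∧
      2 ^ M.card ≤ Nat.card (Subgroup.closure (M : Set G)) ∧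
      ∀ x ∈ S, x ∈ Subgroup.closure (M : Set G) := by
  classical
  induction S using Finset.induction_on with
  | empty =>
    refine ⟨∅, Finset.Subset.refl _, ?_, fun x hx => absurd hx (Finset.notMem_empty x)⟩
    rw [Finset.card_empty, pow_zero]
    exact Nat.card_pos
  | insert a s ha ih =>
    obtain ⟨M, h1, h2, h3⟩ := ih
    by_cases h : a ∈ Subgroup.closure (M : Set G)
    · refine ⟨M, h1.trans (Finset.subset_insert a s), h2, fun x hx => ?_⟩
      rcases Finset.mem_insert.1 hx with hx | hx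
      · rw [hx]; exact h
      · exact h3 x hx
    · have haM : a ∉ M := fun h' => ha (h1 h')
      have hle : Subgroup.closure (M : Set G) ≤
          Subgroup.closure ((insert a M : Finset G) : Set G) := by
        refine Subgroup.closure_mono ?_
        intro x hx
        exact Finset.mem_coe.2 (Finset.mem_insert_of_mem (Finset.mem_coe.1 hx))
      have hamem : a ∈ Subgroup.closure ((insert a M : Finset G) : Set G) :=
        Subgroup.subset_closure (Finset.mem_coe.2 (Finset.mem_insert_self a M))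
      refine ⟨insert a M, Finset.insert_subset_insert a h1, ?_, fun x hx => ?_⟩
      · rw [Finset.card_insert_of_notMem haM, pow_succ]
        obtain ⟨A, hA⟩ : ∃ A, A = Subgroup.closure (M : Set G) := ⟨_, rfl⟩
        obtain ⟨B, hB⟩ : ∃ B, B = Subgroup.closure ((insert a M : Finset G) : Set G) := ⟨_, rfl⟩
        rw [← hA] at h2 hle h
        rw [← hB] at hle hamem
        rw [← hB]
        have hdvd : Nat.card A ∣ Nat.card B := Subgroup.card_dvd_of_le hle
        obtain ⟨k, hk⟩ := hdvd
        have hk1 : k ≠ 1 := by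
          intro hk1
          rw [hk1, mul_one] at hk
          have : A = B := Subgroup.eq_of_le_of_card_ge hle (le_of_eq hk)
          exact h (this ▸ hamem)
        have hk0 : k ≠ 0 := by
          intro hk0
          rw [hk0, mul_zero] at hk
          exact (Nat.card_pos (α := B)).ne' hk
        have hk2 : 2 ≤ k := by omega
        rw [hk]
        exact Nat.mul_le_mul h2 hk2
      · rcases Finset.mem_insert.1 hx with hx | hx
        · rw [hx]; exact hamem
        · exact hle (h3 x hx)

/-- the logarithmic bound -/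
theorem GB_of_card {G : Type*} [Group G] [Finite G] {d : ℕ}
    (hd : Nat.card G < 2 ^ (d + 1)) : GB G d := by
  intro S
  obtain ⟨M, h1, h2, h3⟩ := closure_chain S
  refine ⟨M, h1, ?_, h3⟩
  have h4 : 2 ^ M.card < 2 ^ (d + 1) :=
    lt_of_le_of_lt (h2.trans (Subgroup.card_le_card_group _)) hd
  have h5 := (Nat.pow_lt_pow_iff_right (by norm_num : 1 < 2)).1 h4
  omega

variable {n : ℕ} {G : Type*} [Group G]

/-- the image of `fsub M` is the subgroup generated by the values of the letters of `M` -/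
theorem exists_word_iff (g : Fin n → G) (M : Finset (Fin n)) (h : G) :
    (∃ w ∈ fsub M, ev g w = h) ↔ h ∈ Subgroup.closure (g '' (M : Set (Fin n))) := by
  have e : (fsub M).map (ev g) = Subgroup.closure (g '' (M : Set (Fin n))) := by
    unfold fsub
    rw [MonoidHom.map_closure]
    congr 1
    ext y
    constructor
    · rintro ⟨_, ⟨x, hx, rfl⟩, rfl⟩
      exact ⟨x, hx, (ev_of g x).symm⟩
    · rintro ⟨x, hx, rfl⟩
      exact ⟨FreeGroup.of x, ⟨x, hx, rfl⟩, ev_of g x⟩
  rw [← e, Subgroup.mem_map]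

theorem exists_gen_sub {d : ℕ} (hd : GB G d) (g : Fin n → G)
    (S : Finset (Fin n)) :
    ∃ M : Finset (Fin n), M ⊆ S ∧ M.card ≤ d ∧ ∀ x ∈ S, ∃ w ∈ fsub M, ev g w = g x := by
  classical
  obtain ⟨T, h1, h2, h3⟩ := hd (S.image g)
  have hex : ∀ t : T, ∃ x, x ∈ S ∧ g x = t := by
    intro t
    obtain ⟨x, hx, hxt⟩ := Finset.mem_image.1 (h1 t.2)
    exact ⟨x, hx, hxt⟩
  choose r hr1 hr2 using hex
  refine ⟨Finset.univ.image r, ?_, ?_, ?_⟩
  · intro x hx
    obtain ⟨t, -, rfl⟩ := Finset.mem_image.1 hx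
    exact hr1 t
  · refine Finset.card_image_le.trans ?_
    rw [Finset.card_univ, Fintype.card_coe]
    exact h2
  · intro x hx
    rw [exists_word_iff]
    refine Subgroup.closure_mono ?_ (h3 (g x) (Finset.mem_image_of_mem g hx))
    intro t ht
    have ht' : t ∈ T := ht
    exact ⟨r ⟨t, ht'⟩, Finset.mem_coe.2 (Finset.mem_image_of_mem r (Finset.mem_univ _)),
      hr2 ⟨t, ht'⟩⟩

/-- `d` letters can be given generating values -/
theorem exists_tau [Finite G] {d : ℕ} (hd : GB G d) (Z : Finset (Fin n))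
    (hZ : Z.card = d) : ∃ τ : Fin n → G, ∀ h : G, ∃ w ∈ fsub Z, ev τ w = h := by
  classical
  haveI := Fintype.ofFinite G
  obtain ⟨M, h1, h2, h3⟩ := hd Finset.univ
  -- an injection of `M` into `Z`
  obtain ⟨j⟩ : Nonempty (M ↪ Z) := by
    rw [Function.Embedding.nonempty_iff_card_le, Fintype.card_coe, Fintype.card_coe, hZ]
    exact h2
  refine ⟨fun x => if h : ∃ y : M, ((j y : Z) : Fin n) = x then h.choose.1 else 1, fun h => ?_⟩
  rw [exists_word_iff]
  refine Subgroup.closure_mono ?_ (h3 h (Finset.mem_univ h))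
  intro y hy
  have hy' : y ∈ M := Finset.mem_coe.1 hy
  refine ⟨((j ⟨y, hy'⟩ : Z) : Fin n), Finset.mem_coe.2 (j ⟨y, hy'⟩).2, ?_⟩
  have hex : ∃ y' : M, ((j y' : Z) : Fin n) = ((j ⟨y, hy'⟩ : Z) : Fin n) := ⟨⟨y, hy'⟩, rfl⟩
  have h6 : hex.choose = ⟨y, hy'⟩ := j.injective (Subtype.ext hex.choose_spec)
  simp only [dif_pos hex, h6]

end RED
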