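import Pool.Agent.RED.GenTop
import Pool.Agent.RED.Key
import Pool.Agent.RED.MvBasic
import Pool.Agent.RED.Rank

/-!
# Conjugation invariance of the groups generated by one-letter moves
-/

set_option autoImplicit false

namespace RED

open AFn IAQ

namespace NInv

variable {n : ℕ} {G : Type*} [Group G]

/-- the property of an automorphism -/
def P (G : Type*) [Group G] (φ : MulAut (FreeGroup (Fin n))) : Prop :=
  ∀ (g : Fin n → G) (ψ : MulAut (FreeGroup (Fin n))), ψ ∈ NN g → φ * ψ * φ⁻¹ ∈ NN (act φ g)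

theorem P_one : P G (1 : MulAut (FreeGroup (Fin n))) := by
  intro g ψ hψ
  rw [act_one, inv_one, mul_one, one_mul]
  exact hψ

theorem P_mul {φ φ' : MulAut (FreeGroup (Fin n))} (h : P G φ) (h' : P G φ') : P G (φ * φ') := by
  intro g ψ hψ
  have h1 := h (act φ' g) (φ' * ψ * φ'⁻¹) (h' g ψ hψ)
  rw [← act_mul] at h1
  have e : φ * φ' * ψ * (φ * φ')⁻¹ = φ * (φ' * ψ * φ'⁻¹) * φ⁻¹ := by group
  rw [e]
  exact h1

/-- it is enough to conjugate generators -/
theorem conj_closure {g' : Fin n → G} {s : MulAut (FreeGroup (Fin n))}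
    {S : Set (MulAut (FreeGroup (Fin n)))} (h : ∀ x ∈ S, s * x * s⁻¹ ∈ NN g')
    {ψ : MulAut (FreeGroup (Fin n))} (hψ : ψ ∈ Subgroup.closure S) : s * ψ * s⁻¹ ∈ NN g' := by
  have h1 : Subgroup.closure S ≤ (NN g').comap (MulAut.conj s).toMonoidHom := by
    rw [Subgroup.closure_le]
    intro x hx
    exact h x hx
  exact h1 hψ

theorem mem_NN {g : Fin n → G} {c : Fin n} {φ : MulAut (FreeGroup (Fin n))} (h1 : φ ∈ Gam g)
    (h2 : φ ∈ Mv c) : φ ∈ NN g := Subgroup.subset_closure ⟨h1, c, h2⟩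

/-- moves of letters whose words are preserved -/
theorem conj_pres {g : Fin n → G} {s : MulAut (FreeGroup (Fin n))} {c : Fin n}
    (hs : Pres c s) {x : MulAut (FreeGroup (Fin n))} (hx : x ∈ Mv c) (hxg : x ∈ Gam g) :
    s * x * s⁻¹ ∈ NN (act s g) :=
  mem_NN (Gam_conj hxg s) (Mv_conj hs hx)

theorem P_sg (a : Fin n) : P G (sg a) := by
  intro g ψ hψ
  refine conj_closure ?_ hψ
  rintro x ⟨hxg, c, hxc⟩
  have hsa : sg a ∈ Mv a := Subgroup.subset_closure (Or.inr rfl)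
  rcases eq_or_ne c a with rfl | hca
  · exact mem_NN (Gam_conj hxg _) ((Mv c).mul_mem ((Mv c).mul_mem hsa hxc) ((Mv c).inv_mem hsa))
  · refine conj_pres (pres_of (sg_of_ne hca) fun y hy => ?_) hxc hxg
    by_cases hya : y = a
    · subst hya
      rw [sg_of_self, map_inv, kill_of, if_neg hy]
    · rw [sg_of_ne hya, kill_of, if_neg hy]

theorem R_mem_Mv (a : Fin n) (w : FreeGroup (Fin n)) : R a w ∈ Mv a :=
  Subgroup.subset_closure (Or.inl (Or.inr ⟨w, rfl⟩))

theorem L_mem_Mv (a : Fin n) (w : FreeGroup (Fin n)) : L a w ∈ Mv a :=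
  Subgroup.subset_closure (Or.inl (Or.inl ⟨w, rfl⟩))

/-- the exceptional generators -/
theorem bracket {g : Fin n → G} {a : Fin n} {s X : MulAut (FreeGroup (Fin n))} (hs : s ∈ Mv a)
    {b : Fin n} (hX : X ∈ Mv b) (hXp : Pres a X⁻¹) (hXg : X ∈ Gam g) (hXg' : X ∈ Gam (act s g)) :
    s * X * s⁻¹ ∈ NN (act s g) := by
  have e : s * X * s⁻¹ = X * (X⁻¹ * s * (X⁻¹)⁻¹ * s⁻¹) := by group
  have h1 : s * X * s⁻¹ ∈ Gam (act s g) := Gam_conj hXg s
  have h2 : X⁻¹ * s * (X⁻¹)⁻¹ * s⁻¹ ∈ Gam (act s g) := by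
    have e2 : X⁻¹ * s * (X⁻¹)⁻¹ * s⁻¹ = X⁻¹ * (s * X * s⁻¹) := by group
    rw [e2]
    exact (Gam (act s g)).mul_mem ((Gam (act s g)).inv_mem hXg') h1
  rw [e]
  exact (NN (act s g)).mul_mem (mem_NN hXg' hX)
    (mem_NN h2 ((Mv a).mul_mem (Mv_conj hXp hs) ((Mv a).inv_mem hs)))

theorem kill_fsub {M : Finset (Fin n)} {x : Fin n} (hx : x ∉ M) {w : FreeGroup (Fin n)}
    (hw : w ∈ fsub M) : kill x w = w := by
  unfold fsub at hw
  induction hw using Subgroup.closure_induction with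
  | mem y hy =>
    obtain ⟨i, hi, rfl⟩ := hy
    exact kill_of_ne fun h => hx (h ▸ (Finset.mem_coe.1 hi))
  | one => exact map_one _
  | mul y z _ _ hy hz => rw [map_mul, hy, hz]
  | inv y _ hy => rw [map_inv, hy]

theorem P_R [Finite G] {d : ℕ} (hd : GB G d) (hn : d + 3 ≤ n) {a b : Fin n}
    (hab : a ≠ b) {w : FreeGroup (Fin n)} (hw : ∀ c, c ≠ b → kill c w = w) : P G (R a w) := by
  intro g ψ hψ
  refine conj_closure ?_ hψ
  rintro x ⟨hxg, c, hxc⟩
  have hs : R a w ∈ Mv a := R_mem_Mv a w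
  rcases eq_or_ne c a with rfl | hca
  · exact mem_NN (Gam_conj hxg _) ((Mv c).mul_mem ((Mv c).mul_mem hs hxc) ((Mv c).inv_mem hs))
  rcases eq_or_ne c b with rfl | hcb
  · -- a letter whose value is generated by the values of other letters
    obtain ⟨M, hMS, hMd, hM⟩ := exists_gen_sub hd g ({a, c}ᶜ)
    have hcard : (({a, c}ᶜ : Finset (Fin n))).card = n - 2 := by
      rw [Finset.card_compl, Fintype.card_fin, Finset.card_pair hab]
    obtain ⟨e, heS, heM⟩ : ∃ e ∈ ({a, c}ᶜ : Finset (Fin n)), e ∉ M := by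
      refine Finset.exists_mem_notMem_of_card_lt_card ?_
      omega
    obtain ⟨v, hvM, hv⟩ := hM e heS
    have hnot : ∀ y ∈ ({a, c}ᶜ : Finset (Fin n)), y ≠ a ∧ y ≠ c := by
      intro y hy
      rw [Finset.mem_compl, Finset.mem_insert, Finset.mem_singleton, not_or] at hy
      exact hy
    obtain ⟨hea, hec⟩ := hnot e heS
    have haM : a ∉ M := fun h => (hnot a (hMS h)).1 rfl
    have hcM : c ∉ M := fun h => (hnot c (hMS h)).2 rfl
    obtain ⟨z, hz⟩ : ∃ z : FreeGroup (Fin n), z = FreeGroup.of e * v⁻¹ := ⟨_, rfl⟩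
    have hkz : ∀ d, d ≠ e → d ∉ M → kill d z = z := by
      intro d h1 h2
      rw [hz, map_mul, map_inv, kill_of, if_neg h1.symm, kill_fsub h2 hvM]
    have hevg : ev g z = 1 := by
      rw [hz, map_mul, map_inv, ev_of, hv, mul_inv_cancel]
    have hevs : ev (act (R a w) g) z = 1 := by
      rw [ev_act, R_inv, R_fixed w⁻¹ (hkz a hea.symm haM), hevg]
    refine conj_closure ?_ (key hec.symm (kill_fsub hcM hvM) (kill_fsub heM hvM) hv hxc hxg)
    rw [← hz]
    rintro X ((rfl | rfl) | ⟨hXe, hXg⟩)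
    · refine bracket hs (R_mem_Mv c z) ?_ ?_ ?_
      · rw [R_inv]
        exact pres_R hab (by rw [map_inv, hkz a hea.symm haM])
      · rw [R_mem_Gam_iff, hkz c hec.symm hcM, hevg]
      · rw [R_mem_Gam_iff, hkz c hec.symm hcM, hevs]
    · refine bracket hs (L_mem_Mv c z) ?_ ?_ ?_
      · rw [← map_inv]
        exact pres_L hab (by rw [map_inv, hkz a hea.symm haM])
      · rw [L_mem_Gam_iff, hkz c hec.symm hcM, hevg]
      · rw [L_mem_Gam_iff, hkz c hec.symm hcM, hevs]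
    · exact conj_pres (pres_R hea (hw e hec)) hXe hXg
  · exact conj_pres (pres_R hca (hw c hcb)) hxc hxg

end NInv

theorem NN_conj {n : ℕ} {G : Type*} [Group G] [Finite G] {d : ℕ}
    (hd : GB G d) (hn : d + 3 ≤ n) (g : Fin n → G) (φ : MulAut (FreeGroup (Fin n))) {ψ : MulAut (FreeGroup (Fin n))}
    (hψ : ψ ∈ NN g) : φ * ψ * φ⁻¹ ∈ NN (act φ g) := by
  have hφ : φ ∈ Subgroup.closure
      ({φ : MulAut (FreeGroup (Fin n)) | ∃ a b, a ≠ b ∧ φ = R a (FreeGroup.of b)} ∪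
        {φ | ∃ a, φ = sg a}) := by
    rw [gen_top]
    exact Subgroup.mem_top φ
  have hk : ∀ b c : Fin n, c ≠ b → kill c (FreeGroup.of b) = FreeGroup.of b := by
    intro b c h
    rw [kill_of, if_neg h.symm]
  have h : NInv.P G φ ∧ NInv.P G φ⁻¹ := by
    induction hφ using Subgroup.closure_induction with
    | mem x hx =>
      rcases hx with ⟨a, b, hab, rfl⟩ | ⟨a, rfl⟩
      · refine ⟨NInv.P_R hd hn hab (hk b), ?_⟩
        rw [R_inv]
        exact NInv.P_R hd hn hab fun c hc => by rw [map_inv, hk b c hc]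
      · rw [sg_inv]
        exact ⟨NInv.P_sg a, NInv.P_sg a⟩
    | one => rw [inv_one]; exact ⟨NInv.P_one, NInv.P_one⟩
    | mul x y _ _ hx hy =>
      rw [mul_inv_rev]
      exact ⟨NInv.P_mul hx.1 hy.1, NInv.P_mul hy.2 hx.2⟩
    | inv x _ hx =>
      rw [inv_inv]
      exact ⟨hx.2, hx.1⟩
  exact h.1 g ψ hψ

end RED
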