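import Mathlib
import Pool.Agent.RED.Defs

/-!
# Loops of moves of the letters of `Y` when the other letters generate
-/

set_option autoImplicit false

namespace RED

open AFn IAQ

namespace LemY

variable {n : ℕ} {G : Type*} [Group G]

theorem ev_congr {g h : Fin n → G} {S : Finset (Fin n)} (hgh : ∀ x ∈ S, h x = g x)
    {w : FreeGroup (Fin n)} (hw : w ∈ fsub S) : ev h w = ev g w := by
  unfold fsub at hw
  induction hw using Subgroup.closure_induction with
  | mem y hy =>
    obtain ⟨x, hx, rfl⟩ := hy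
    rw [ev_of, ev_of, hgh x (Finset.mem_coe.1 hx)]
  | one => rw [map_one, map_one]
  | mul y z _ _ hy hz => rw [map_mul, map_mul, hy, hz]
  | inv y _ hy => rw [map_inv, map_inv, hy]

theorem mv_fix {c x : Fin n} (h : x ≠ c) {φ : MulAut (FreeGroup (Fin n))} (hφ : φ ∈ Mv c) :
    φ (FreeGroup.of x) = FreeGroup.of x := by
  unfold Mv at hφ
  induction hφ using Subgroup.closure_induction with
  | mem y hy =>
    rcases hy with (⟨w, rfl⟩ | ⟨w, rfl⟩) | hy
    · exact L_of_ne h w
    · exact R_of_ne h w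
    · rw [Set.mem_singleton_iff] at hy
      rw [hy]
      exact sg_of_ne h
  | one => rfl
  | mul y z _ _ hy hz => rw [MulAut.mul_apply, hz, hy]
  | inv y _ hy =>
    have h1 : y⁻¹ (y (FreeGroup.of x)) = FreeGroup.of x := by
      rw [← MulAut.mul_apply, inv_mul_cancel, MulAut.one_apply]
    rwa [hy] at h1

theorem mvs_fix {Y : Finset (Fin n)} {x : Fin n} (h : x ∉ Y) {φ : MulAut (FreeGroup (Fin n))}
    (hφ : φ ∈ MvS Y) : φ (FreeGroup.of x) = FreeGroup.of x := by
  unfold MvS at hφ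
  induction hφ using Subgroup.closure_induction with
  | mem y hy =>
    obtain ⟨c, hc, hy⟩ := hy
    have hxc : x ≠ c := by
      rintro rfl
      exact h hc
    exact mv_fix hxc hy
  | one => rfl
  | mul y z _ _ hy hz => rw [MulAut.mul_apply, hz, hy]
  | inv y _ hy =>
    have h1 : y⁻¹ (y (FreeGroup.of x)) = FreeGroup.of x := by
      rw [← MulAut.mul_apply, inv_mul_cancel, MulAut.one_apply]
    rwa [hy] at h1

theorem mvs_act (g : Fin n → G) {Y : Finset (Fin n)} {x : Fin n} (h : x ∉ Y)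
    {φ : MulAut (FreeGroup (Fin n))} (hφ : φ ∈ MvS Y) : act φ g x = g x := by
  show ev g (φ⁻¹ (FreeGroup.of x)) = g x
  rw [mvs_fix h ((MvS Y).inv_mem hφ), ev_of]

theorem mv_act (g : Fin n → G) {c x : Fin n} (h : x ≠ c) {φ : MulAut (FreeGroup (Fin n))}
    (hφ : φ ∈ Mv c) : act φ g x = g x := by
  show ev g (φ⁻¹ (FreeGroup.of x)) = g x
  rw [mv_fix h ((Mv c).inv_mem hφ), ev_of]

theorem R_mem (c : Fin n) (w : FreeGroup (Fin n)) : R c w ∈ Mv c := by
  unfold Mv
  exact Subgroup.subset_closure (Or.inl (Or.inr ⟨w, rfl⟩))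

theorem mv_le {Y : Finset (Fin n)} {c : Fin n} (hc : c ∈ Y) : Mv c ≤ MvS Y := by
  intro φ hφ
  unfold MvS
  exact Subgroup.subset_closure ⟨c, hc, hφ⟩

/-- words without `c` are fixed by `sg c` -/
theorem sg_kill (c : Fin n) (w : FreeGroup (Fin n)) : sg c (kill c w) = kill c w := by
  have h : (sgHom c).comp (kill c) = kill c := by
    ext x
    by_cases hx : x = c
    · rw [MonoidHom.comp_apply, kill_of, if_pos hx, map_one]
    · rw [MonoidHom.comp_apply, kill_of, if_neg hx]
      exact sg_of_ne hx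
  exact DFunLike.congr_fun h w

theorem mv_conj {c : Fin n} {P φ : MulAut (FreeGroup (Fin n))} (hP : Pres c P)
    (hφ : φ ∈ Mv c) : P * φ * P⁻¹ ∈ Mv c := by
  unfold Mv at hφ
  induction hφ using Subgroup.closure_induction with
  | mem y hy =>
    rcases hy with (⟨w, rfl⟩ | ⟨w, rfl⟩) | hy
    · rw [hP.conj_L]
      exact Subgroup.subset_closure (Or.inl (Or.inl ⟨_, rfl⟩))
    · rw [hP.conj_R]
      exact R_mem c _
    · rw [Set.mem_singleton_iff] at hy
      have h1 : P * sg c = sg c * P := by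
        apply aut_ext
        intro x
        rw [MulAut.mul_apply, MulAut.mul_apply]
        by_cases hx : x = c
        · subst hx
          rw [sg_of_self, map_inv, hP.1, sg_of_self]
        · have h3 : FreeGroup.of x = kill c (FreeGroup.of x) := by rw [kill_of, if_neg hx]
          rw [sg_of_ne hx, h3, ← hP.2, sg_kill]
      rw [hy, h1, mul_inv_cancel_right]
      exact Subgroup.subset_closure (Or.inr rfl)
  | one => rw [mul_one, mul_inv_cancel]; exact (Mv c).one_mem
  | mul y z _ _ hy hz =>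
    have h1 : P * (y * z) * P⁻¹ = (P * y * P⁻¹) * (P * z * P⁻¹) := by group
    rw [h1]
    exact (Mv c).mul_mem hy hz
  | inv y _ hy =>
    have h1 : P * y⁻¹ * P⁻¹ = (P * y * P⁻¹)⁻¹ := by group
    rw [h1]
    exact (Mv c).inv_mem hy

/-- the automorphism `x_y ↦ x_y * U y`, `y ∈ Y` -/
noncomputable def T (Y : Finset (Fin n)) (U : Fin n → FreeGroup (Fin n)) :
    MulAut (FreeGroup (Fin n)) := (Y.toList.map (fun y => R y (U y))).prod

theorem list_of {Y : Finset (Fin n)} {U : Fin n → FreeGroup (Fin n)}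
    (hU : ∀ y ∈ Y, U y ∈ fsub Yᶜ) (l : List (Fin n)) (hl : l.Nodup) (hlY : ∀ y ∈ l, y ∈ Y)
    (x : Fin n) : (l.map (fun y => R y (U y))).prod (FreeGroup.of x) =
      if x ∈ l then FreeGroup.of x * U x else FreeGroup.of x := by
  induction l with
  | nil => simp
  | cons y l ih =>
    rw [List.nodup_cons] at hl
    have hy : y ∈ Y := hlY y (by simp)
    have ih' := ih hl.2 (fun z hz => hlY z (List.mem_cons_of_mem _ hz))
    rw [List.map_cons, List.prod_cons, MulAut.mul_apply, ih']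
    by_cases hx : x ∈ l
    · have hxy : x ≠ y := fun e => hl.1 (e ▸ hx)
      have hxY : x ∈ Y := hlY x (List.mem_cons_of_mem _ hx)
      rw [if_pos hx, if_pos (List.mem_cons_of_mem _ hx), map_mul, R_of_ne hxy]
      have : kill y (U x) = U x := kill_eq (hU x hxY) (by simpa using hy)
      rw [R_fixed _ this]
    · rw [if_neg hx]
      by_cases hxy : x = y
      · subst hxy
        rw [if_pos (by simp), R_of_self]
        rw [kill_eq (hU x hy) (by simpa using hy)]
      · rw [if_neg (by simp [hx, hxy]), R_of_ne hxy]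

theorem T_of {Y : Finset (Fin n)} {U : Fin n → FreeGroup (Fin n)}
    (hU : ∀ y ∈ Y, U y ∈ fsub Yᶜ) (x : Fin n) : T Y U (FreeGroup.of x) =
      if x ∈ Y then FreeGroup.of x * U x else FreeGroup.of x := by
  unfold T
  rw [list_of hU Y.toList Y.nodup_toList (fun y hy => Finset.mem_toList.1 hy)]
  simp only [Finset.mem_toList]

theorem T_mem (Y : Finset (Fin n)) (U : Fin n → FreeGroup (Fin n)) : T Y U ∈ MvS Y := by
  unfold T
  apply Subgroup.list_prod_mem
  intro φ hφ
  rw [List.mem_map] at hφ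
  obtain ⟨y, hy, rfl⟩ := hφ
  exact mv_le (Finset.mem_toList.1 hy) (R_mem y _)

/-- `T Y U` fixes the words in the letters outside `Y` -/
theorem T_fix {Y : Finset (Fin n)} {U : Fin n → FreeGroup (Fin n)}
    {w : FreeGroup (Fin n)} (hw : w ∈ fsub Yᶜ) : T Y U w = w := by
  unfold fsub at hw
  induction hw using Subgroup.closure_induction with
  | mem y hy =>
    obtain ⟨x, hx, rfl⟩ := hy
    exact mvs_fix (by simpa using hx) (T_mem Y U)
  | one => rw [map_one]
  | mul y z _ _ hy hz => rw [map_mul, hy, hz]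
  | inv y _ hy => rw [map_inv, hy]

theorem T_inv {Y : Finset (Fin n)} {U : Fin n → FreeGroup (Fin n)}
    (hU : ∀ y ∈ Y, U y ∈ fsub Yᶜ) : (T Y U)⁻¹ = T Y (fun y => (U y)⁻¹) := by
  rw [inv_eq_iff_mul_eq_one]
  apply aut_ext
  intro x
  rw [MulAut.mul_apply, T_of (fun y hy => (fsub Yᶜ).inv_mem (hU y hy)), MulAut.one_apply]
  by_cases hx : x ∈ Y
  · rw [if_pos hx, map_mul, map_inv, T_of hU, if_pos hx, T_fix (hU x hx), mul_inv_cancel_right]
  · rw [if_neg hx, T_of hU, if_neg hx]

theorem T_act {Y : Finset (Fin n)} {U : Fin n → FreeGroup (Fin n)}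
    (hU : ∀ y ∈ Y, U y ∈ fsub Yᶜ) (h : Fin n → G) (x : Fin n) : act (T Y U) h x =
      if x ∈ Y then h x * (ev h (U x))⁻¹ else h x := by
  show ev h ((T Y U)⁻¹ (FreeGroup.of x)) = _
  rw [T_inv hU, T_of (fun y hy => (fsub Yᶜ).inv_mem (hU y hy))]
  by_cases hx : x ∈ Y
  · rw [if_pos hx, if_pos hx, map_mul, map_inv, ev_of]
  · rw [if_neg hx, if_neg hx, ev_of]

theorem T_split {Y : Finset (Fin n)} {U : Fin n → FreeGroup (Fin n)}
    (hU : ∀ y ∈ Y, U y ∈ fsub Yᶜ) {a : Fin n} (ha : a ∈ Y) :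
    T Y U = R a (U a) * T Y (Function.update U a 1) := by
  have hU' : ∀ y ∈ Y, Function.update U a 1 y ∈ fsub Yᶜ := by
    intro y hy
    by_cases hya : y = a
    · subst hya
      rw [Function.update_self]
      exact (fsub Yᶜ).one_mem
    · rw [Function.update_of_ne hya]
      exact hU y hy
  apply aut_ext
  intro x
  rw [MulAut.mul_apply, T_of hU, T_of hU']
  by_cases hx : x ∈ Y
  · rw [if_pos hx, if_pos hx, map_mul]
    by_cases hxa : x = a
    · subst hxa
      rw [Function.update_self, map_one, mul_one, R_of_self,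
        kill_eq (hU x ha) (by simpa using ha)]
    · rw [Function.update_of_ne hxa, R_of_ne hxa,
        R_fixed _ (kill_eq (hU x hx) (by simpa using ha))]
  · rw [if_neg hx, if_neg hx]
    have hxa : x ≠ a := fun e => hx (e ▸ ha)
    rw [R_of_ne hxa]

theorem T_pres {Y : Finset (Fin n)} {U : Fin n → FreeGroup (Fin n)}
    (hU : ∀ y ∈ Y, U y ∈ fsub Yᶜ) {a : Fin n} (ha : a ∈ Y) (hUa : U a = 1) :
    Pres a (T Y U) := by
  refine pres_of ?_ fun x hx => ?_
  · rw [T_of hU, if_pos ha, hUa, mul_one]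
  · rw [T_of hU]
    by_cases hxY : x ∈ Y
    · rw [if_pos hxY, map_mul, kill_of_ne hx, kill_eq (hU x hxY) (by simpa using ha)]
    · rw [if_neg hxY, kill_of_ne hx]

end LemY

open LemY

section main

variable {n : ℕ} {G : Type*} [Group G] {g : Fin n → G} {Y : Finset (Fin n)}

/-- the automorphism bringing the values of the letters of `Y` to `1` -/
private noncomputable def tt (Y : Finset (Fin n)) (W : G → FreeGroup (Fin n)) (h : Fin n → G) :
    MulAut (FreeGroup (Fin n)) := T Y (fun y => W (h y))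

private theorem tt_act {W : G → FreeGroup (Fin n)}
    (hW : ∀ h, W h ∈ fsub Yᶜ) (hW2 : ∀ h, ev g (W h) = h) {h : Fin n → G}
    (hh : ∀ x, x ∉ Y → h x = g x) :
    act (tt Y W h) h = fun x => if x ∈ Y then 1 else g x := by
  funext x
  show act (T Y _) h x = _
  rw [T_act (fun y _ => hW _)]
  by_cases hx : x ∈ Y
  · have h1 : ev h (W (h x)) = h x := by
      rw [ev_congr (g := g) (S := Yᶜ) (fun z hz => hh z (by simpa using hz)) (hW _), hW2]
    simp only [if_pos hx]
    rw [h1, mul_inv_cancel]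
  · simp only [if_neg hx]
    exact hh x hx

private theorem step {W : G → FreeGroup (Fin n)}
    (hW : ∀ h, W h ∈ fsub Yᶜ) (hW2 : ∀ h, ev g (W h) = h) {a : Fin n} (ha : a ∈ Y)
    {s : MulAut (FreeGroup (Fin n))} (hs : s ∈ Mv a) {h : Fin n → G}
    (hh : ∀ x, x ∉ Y → h x = g x) :
    tt Y W (act s h) * s * (tt Y W h)⁻¹ ∈ NN (fun x => if x ∈ Y then 1 else g x) := by
  have hsh : ∀ x, x ∉ Y → act s h x = g x := by
    intro x hx
    have hxa : x ≠ a := by
      rintro rfl
      exact hx ha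
    rw [mv_act h hxa hs, hh x hx]
  refine Subgroup.subset_closure ⟨?_, a, ?_⟩
  · rw [mem_Gam_iff, act_mul, act_mul]
    have h1 := tt_act hW hW2 hh
    have h2 : act (tt Y W h)⁻¹ (fun x => if x ∈ Y then 1 else g x) = h := by
      rw [← h1, act_inv_act]
    rw [h2, tt_act hW hW2 hsh]
  · have e1 : Function.update (fun y => W (act s h y)) a 1 =
        Function.update (fun y => W (h y)) a 1 := by
      funext x
      by_cases hx : x = a
      · subst hx
        rw [Function.update_self, Function.update_self]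
      · rw [Function.update_of_ne hx, Function.update_of_ne hx, mv_act h hx hs]
    have e2 : tt Y W (act s h) = R a (W (act s h a)) *
        T Y (Function.update (fun y => W (h y)) a 1) := by
      rw [← e1]
      exact T_split (fun y _ => hW _) ha
    have e3 : tt Y W h = R a (W (h a)) * T Y (Function.update (fun y => W (h y)) a 1) :=
      T_split (fun y _ => hW _) ha
    have hU' : ∀ y ∈ Y, Function.update (fun y => W (h y)) a 1 y ∈ fsub Yᶜ := by
      intro y hy
      by_cases hya : y = a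
      · subst hya
        rw [Function.update_self]
        exact (fsub Yᶜ).one_mem
      · rw [Function.update_of_ne hya]
        exact hW _
    have hP : Pres a (T Y (Function.update (fun y => W (h y)) a 1)) :=
      T_pres hU' ha (Function.update_self _ _ _)
    have h3 := mv_conj hP hs
    rw [e2, e3]
    obtain ⟨P, hPe⟩ : ∃ P, P = T Y (Function.update (fun y => W (h y)) a 1) := ⟨_, rfl⟩
    rw [← hPe] at h3 ⊢
    have e4 : R a (W (act s h a)) * P * s * (R a (W (h a)) * P)⁻¹ =
        R a (W (act s h a)) * (P * s * P⁻¹) * (R a (W (h a)))⁻¹ := by group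
    rw [e4]
    exact (Mv a).mul_mem ((Mv a).mul_mem (R_mem a _) h3) ((Mv a).inv_mem (R_mem a _))

private theorem path {W : G → FreeGroup (Fin n)}
    (hW : ∀ h, W h ∈ fsub Yᶜ) (hW2 : ∀ h, ev g (W h) = h)
    {ψ : MulAut (FreeGroup (Fin n))} (hψ : ψ ∈ MvS Y) :
    ∀ h : Fin n → G, (∀ x, x ∉ Y → h x = g x) →
      tt Y W (act ψ h) * ψ * (tt Y W h)⁻¹ ∈ NN (fun x => if x ∈ Y then 1 else g x) := by
  have hψ' := hψ
  unfold MvS at hψ'
  induction hψ' using Subgroup.closure_induction with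
  | mem s hs =>
    intro h hh
    obtain ⟨a, ha, hs⟩ := hs
    exact step hW hW2 ha hs hh
  | one =>
    intro h _
    rw [act_one, mul_one, mul_inv_cancel]
    exact (NN _).one_mem
  | mul y z hy hz ihy ihz =>
    intro h hh
    have hz' : z ∈ MvS Y := hz
    have hy' : y ∈ MvS Y := hy
    have h1 := ihz hz' h hh
    have h2 := ihy hy' (act z h) (fun x hx => by rw [mvs_act h hx hz', hh x hx])
    rw [act_mul]
    have e : tt Y W (act y (act z h)) * (y * z) * (tt Y W h)⁻¹ =
        (tt Y W (act y (act z h)) * y * (tt Y W (act z h))⁻¹) *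
          (tt Y W (act z h) * z * (tt Y W h)⁻¹) := by group
    rw [e]
    exact (NN _).mul_mem h2 h1
  | inv y hy ihy =>
    intro h hh
    have hy' : y ∈ MvS Y := hy
    have h2 := ihy hy' (act y⁻¹ h) (fun x hx => by
      rw [mvs_act h hx ((MvS Y).inv_mem hy'), hh x hx])
    have h3 : act y (act y⁻¹ h) = h := by rw [← act_mul, mul_inv_cancel, act_one]
    rw [h3] at h2
    have e : tt Y W (act y⁻¹ h) * y⁻¹ * (tt Y W h)⁻¹ =
        (tt Y W h * y * (tt Y W (act y⁻¹ h))⁻¹)⁻¹ := by group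
    rw [e]
    exact (NN _).inv_mem h2

end main

theorem lemY {n : ℕ} {G : Type*} [Group G]
    (hinv : ∀ (g : Fin n → G) (φ ψ : MulAut (FreeGroup (Fin n))),
      ψ ∈ NN g → φ * ψ * φ⁻¹ ∈ NN (act φ g))
    (g : Fin n → G) (Y : Finset (Fin n)) (hY : ∀ h : G, ∃ w ∈ fsub Yᶜ, ev g w = h)
    {φ : MulAut (FreeGroup (Fin n))} (hφ : φ ∈ MvS Y) (hφg : φ ∈ Gam g) : φ ∈ NN g := by
  choose W hW hW2 using hY
  have h1 := path hW hW2 hφ g (fun _ _ => rfl)
  rw [(mem_Gam_iff).1 hφg] at h1
  have h2 := hinv _ (tt Y W g)⁻¹ _ h1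
  rw [← tt_act hW hW2 (h := g) (fun _ _ => rfl), act_inv_act] at h2
  have e : (tt Y W g)⁻¹ * (tt Y W g * φ * (tt Y W g)⁻¹) * ((tt Y W g)⁻¹)⁻¹ = φ := by group
  rwa [e] at h2

theorem exists_set {n : ℕ} {G : Type*} [Group G]
    (g : Fin n → G) (Y : Finset (Fin n)) (hY : ∀ h : G, ∃ w ∈ fsub Yᶜ, ev g w = h)
    (σ : Fin n → G) : ∃ φ ∈ MvS Y, ∀ x, act φ g x = if x ∈ Y then σ x else g x := by
  choose W hW hW2 using hY
  obtain ⟨h, hh⟩ : ∃ h : Fin n → G, h = fun x => if x ∈ Y then σ x else g x := ⟨_, rfl⟩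
  have hh' : ∀ x, x ∉ Y → h x = g x := fun x hx => by rw [hh]; simp only [if_neg hx]
  refine ⟨(tt Y W h)⁻¹ * tt Y W g, (MvS Y).mul_mem ((MvS Y).inv_mem (T_mem Y _)) (T_mem Y _),
    fun x => ?_⟩
  rw [act_mul, tt_act hW hW2 (h := g) (fun _ _ => rfl), ← tt_act hW hW2 hh', act_inv_act, hh]

end RED
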