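import Mathlib
import Pool.Agent.RED.MvBasic
import Pool.Agent.RED.LemY
import Pool.Agent.RED.Rank

/-!
# Standard forms of generating tuples
-/

set_option autoImplicit false

namespace RED

open AFn IAQ

/-- the letters of `S` generate -/
def Gen {n : ℕ} {G : Type*} [Group G] (g : Fin n → G) (S : Finset (Fin n)) : Prop :=
  ∀ h : G, ∃ w ∈ fsub S, ev g w = h

section Psi

variable {n : ℕ} {G : Type*} [Group G]

theorem Gen_iff (g : Fin n → G) (S : Finset (Fin n)) :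
    Gen g S ↔ (⊤ : Subgroup G) ≤ (fsub S).map (ev g) := by
  constructor
  · intro h x _
    obtain ⟨w, hw, hx⟩ := h x
    exact ⟨w, hw, hx⟩
  · intro h x
    obtain ⟨w, hw, hx⟩ := h (Subgroup.mem_top x)
    exact ⟨w, hw, hx⟩

theorem Gen_mono {g : Fin n → G} {S S' : Finset (Fin n)} (h : S ⊆ S') (hS : Gen g S) :
    Gen g S' := by
  intro x
  obtain ⟨w, hw, hx⟩ := hS x
  exact ⟨w, fsub_mono h hw, hx⟩

/-- values only depend on the letters used -/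
theorem ev_congr {g g' : Fin n → G} {S : Finset (Fin n)} (h : ∀ x ∈ S, g x = g' x)
    {w : FreeGroup (Fin n)} (hw : w ∈ fsub S) : ev g w = ev g' w := by
  have h1 : fsub S ≤ MonoidHom.eqLocus (ev g) (ev g') := by
    unfold fsub
    rw [Subgroup.closure_le]
    rintro _ ⟨x, hx, rfl⟩
    change ev g (FreeGroup.of x) = ev g' (FreeGroup.of x)
    rw [ev_of, ev_of]
    exact h x hx
  exact h1 hw

theorem Gen_congr {g g' : Fin n → G} {S : Finset (Fin n)} (h : ∀ x ∈ S, g x = g' x)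
    (hS : Gen g S) : Gen g' S := by
  intro x
  obtain ⟨w, hw, hx⟩ := hS x
  exact ⟨w, hw, by rw [← ev_congr h hw, hx]⟩

/-- a small set of letters generates -/
theorem Gen_small [Finite G] {d : ℕ} (hd : GB G d) {g : Fin n → G}
    {S : Finset (Fin n)} (hS : Gen g S) : ∃ M ⊆ S, M.card ≤ d ∧ Gen g M := by
  obtain ⟨M, h1, h2, h3⟩ := exists_gen_sub hd g S
  refine ⟨M, h1, h2, ?_⟩
  rw [Gen_iff] at hS ⊢
  refine hS.trans ?_
  rw [Subgroup.map_le_iff_le_comap]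
  nth_rewrite 1 [fsub]
  rw [Subgroup.closure_le]
  rintro _ ⟨x, hx, rfl⟩
  obtain ⟨w, hw, hwx⟩ := h3 x hx
  exact ⟨w, hw, by rw [hwx, ev_of]⟩

theorem MvS_mono {Y Y' : Finset (Fin n)} (h : Y ⊆ Y') : MvS Y ≤ MvS Y' := by
  unfold MvS
  apply Subgroup.closure_mono
  rintro φ ⟨y, hy, hφ⟩
  exact ⟨y, h hy, hφ⟩

theorem Mv_le_MvS {Y : Finset (Fin n)} {a : Fin n} (h : a ∈ Y) : Mv a ≤ MvS Y := fun _ hφ =>
  Subgroup.subset_closure ⟨a, h, hφ⟩

/-- two morphisms from `g` are equivalent -/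
def Eqv (g : Fin n → G) (φ φ' : MulAut (FreeGroup (Fin n))) : Prop := φ'⁻¹ * φ ∈ NN g

theorem Eqv.refl (g : Fin n → G) (φ : MulAut (FreeGroup (Fin n))) : Eqv g φ φ := by
  unfold Eqv
  rw [inv_mul_cancel]
  exact Subgroup.one_mem _

theorem Eqv.symm {g : Fin n → G} {φ φ' : MulAut (FreeGroup (Fin n))} (h : Eqv g φ φ') :
    Eqv g φ' φ := by
  unfold Eqv at h ⊢
  have := Subgroup.inv_mem _ h
  rwa [mul_inv_rev, inv_inv] at this

theorem Eqv.trans {g : Fin n → G} {φ φ' φ'' : MulAut (FreeGroup (Fin n))} (h : Eqv g φ φ')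
    (h' : Eqv g φ' φ'') : Eqv g φ φ'' := by
  unfold Eqv at h h' ⊢
  have := Subgroup.mul_mem _ h' h
  rwa [mul_assoc, mul_inv_cancel_left] at this

theorem Eqv.left {g : Fin n → G} {φ φ' : MulAut (FreeGroup (Fin n))} (h : Eqv g φ φ')
    (ψ : MulAut (FreeGroup (Fin n))) : Eqv g (ψ * φ) (ψ * φ') := by
  unfold Eqv at h ⊢
  rwa [mul_inv_rev, mul_assoc, inv_mul_cancel_left]

variable (hinv : ∀ (g : Fin n → G) (φ ψ : MulAut (FreeGroup (Fin n))),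
      ψ ∈ NN g → φ * ψ * φ⁻¹ ∈ NN (act φ g))

include hinv

theorem Eqv.right {g : Fin n → G} {θ φ φ' : MulAut (FreeGroup (Fin n))}
    (h : Eqv (act θ g) φ φ') : Eqv g (φ * θ) (φ' * θ) := by
  unfold Eqv at h ⊢
  have h1 := hinv (act θ g) θ⁻¹ _ h
  rw [act_inv_act, inv_inv] at h1
  rw [mul_inv_rev]
  have h2 : θ⁻¹ * φ'⁻¹ * (φ * θ) = θ⁻¹ * (φ'⁻¹ * φ) * θ := by group
  rw [h2]
  exact h1

/-- two morphisms in `MvS Y` with the same end are equivalent -/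
theorem Eqv_of_MvS {g : Fin n → G} {Y : Finset (Fin n)} (hY : Gen g Yᶜ)
    {φ φ' : MulAut (FreeGroup (Fin n))} (hφ : φ ∈ MvS Y) (hφ' : φ' ∈ MvS Y)
    (h : act φ g = act φ' g) : Eqv g φ φ' := by
  refine lemY hinv g Y hY (Subgroup.mul_mem _ (Subgroup.inv_mem _ hφ') hφ) ?_
  rw [mem_Gam_iff, act_mul, h, act_inv_act]

omit hinv

/-- replace the letters of `Y` by `σ` -/
def upd (g : Fin n → G) (Y : Finset (Fin n)) (σ : Fin n → G) : Fin n → G :=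
  fun x => if x ∈ Y then σ x else g x

omit [Group G] in
theorem upd_of_mem {g σ : Fin n → G} {Y : Finset (Fin n)} {x : Fin n} (h : x ∈ Y) :
    upd g Y σ x = σ x := if_pos h

omit [Group G] in
theorem upd_of_notMem {g σ : Fin n → G} {Y : Finset (Fin n)} {x : Fin n} (h : x ∉ Y) :
    upd g Y σ x = g x := if_neg h

theorem exists_upd {g : Fin n → G} {Y : Finset (Fin n)} (hY : Gen g Yᶜ) (σ : Fin n → G) :
    ∃ φ ∈ MvS Y, act φ g = upd g Y σ := by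
  obtain ⟨φ, h1, h2⟩ := exists_set g Y hY σ
  exact ⟨φ, h1, funext h2⟩

/-- the data: for every `Z` of size `d` a tuple whose letters in `Z` generate -/
def IsTau (d : ℕ) (τ : Finset (Fin n) → Fin n → G) : Prop :=
  ∀ Z : Finset (Fin n), Z.card = d → Gen (τ Z) Z

theorem exists_isTau [Finite G] {d : ℕ} (hd : GB G d) :
    ∃ τ : Finset (Fin n) → Fin n → G, IsTau d τ := by
  classical
  have h : ∀ Z : Finset (Fin n), ∃ t : Fin n → G, Z.card = d → Gen t Z := by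
    intro Z
    by_cases hZ : Z.card = d
    · obtain ⟨t, ht⟩ := exists_tau (G := G) hd Z hZ
      exact ⟨t, fun _ => ht⟩
    · exact ⟨1, fun h => absurd h hZ⟩
  choose τ hτ using h
  exact ⟨τ, hτ⟩

theorem Gen_upd {d : ℕ} {τ : Finset (Fin n) → Fin n → G} (hτ : IsTau d τ) (g : Fin n → G)
    {Z S : Finset (Fin n)} (hZ : Z.card = d) (hZS : Z ⊆ S) : Gen (upd g Z (τ Z)) S :=
  Gen_mono hZS (Gen_congr (fun x hx => (upd_of_mem hx).symm) (hτ Z hZ))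

/-- the morphisms to the standard tuple through `Z` -/
def Path (τ : Finset (Fin n) → Fin n → G) (gs g : Fin n → G) (Z : Finset (Fin n))
    (ψ : MulAut (FreeGroup (Fin n))) : Prop :=
  ∃ φ1 ∈ MvS Z, ∃ φ2 ∈ MvS Zᶜ, ∃ φ3 ∈ MvS Z, ψ = φ3 * φ2 * φ1 ∧ act φ1 g = upd g Z (τ Z) ∧
    act φ2 (upd g Z (τ Z)) = upd gs Z (τ Z) ∧ act φ3 (upd gs Z (τ Z)) = gs

theorem Path.act_eq {τ : Finset (Fin n) → Fin n → G} {gs g : Fin n → G} {Z : Finset (Fin n)}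
    {ψ : MulAut (FreeGroup (Fin n))} (h : Path τ gs g Z ψ) : act ψ g = gs := by
  obtain ⟨φ1, -, φ2, -, φ3, -, rfl, h1, h2, h3⟩ := h
  rw [act_mul, act_mul, h1, h2, h3]

/-- `gs` is standard with respect to `Z0` -/
theorem Gen_gs {d : ℕ} {τ : Finset (Fin n) → Fin n → G} (hτ : IsTau d τ) {Z0 : Finset (Fin n)}
    (hZ0 : Z0.card = d) {gs g' : Fin n → G} (hgs : ∀ x ∈ Z0, gs x = τ Z0 x)
    {S : Finset (Fin n)} (hS : Z0 ⊆ S) (h : ∀ x ∈ Z0, g' x = gs x) : Gen g' S :=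
  Gen_mono hS (Gen_congr (fun x hx => by rw [h x hx, hgs x hx]) (hτ Z0 hZ0))

/-- paths exist -/
theorem exists_path {d : ℕ} {τ : Finset (Fin n) → Fin n → G} (hτ : IsTau d τ)
    {Z0 Z : Finset (Fin n)} (hZ0 : Z0.card = d) {gs g : Fin n → G}
    (hgs : ∀ x ∈ Z0, gs x = τ Z0 x) (hZ : Z.card = d) (hZZ : Disjoint Z0 Z)
    (hg : Gen g Zᶜ) : ∃ ψ, Path τ gs g Z ψ := by
  obtain ⟨φ1, m1, a1⟩ := exists_upd hg (τ Z)
  obtain ⟨φ2, m2, a2⟩ := exists_upd (g := upd g Z (τ Z)) (Y := Zᶜ)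
    (by rw [compl_compl]; exact Gen_upd hτ g hZ (Finset.Subset.refl _)) gs
  have h0 : Z0 ⊆ Zᶜ := fun x hx => Finset.mem_compl.2 (Finset.disjoint_left.1 hZZ hx)
  obtain ⟨φ3, m3, a3⟩ := exists_upd (g := upd gs Z (τ Z)) (Y := Z)
    (Gen_gs hτ hZ0 hgs h0 (fun x hx => upd_of_notMem (Finset.disjoint_left.1 hZZ hx))) gs
  refine ⟨φ3 * φ2 * φ1, φ1, m1, φ2, m2, φ3, m3, rfl, a1, ?_, ?_⟩
  · rw [a2]
    funext x
    by_cases hx : x ∈ Z
    · rw [upd_of_notMem (by rw [Finset.mem_compl, not_not]; exact hx), upd_of_mem hx, upd_of_mem hx]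
    · rw [upd_of_mem (Finset.mem_compl.2 hx), upd_of_notMem hx]
  · rw [a3]
    funext x
    by_cases hx : x ∈ Z
    · rw [upd_of_mem hx]
    · rw [upd_of_notMem hx, upd_of_notMem hx]

include hinv

/-- Claim B -/
theorem path_move {d : ℕ} {τ : Finset (Fin n) → Fin n → G} (hτ : IsTau d τ)
    {Z0 Z : Finset (Fin n)} (hZ0 : Z0.card = d) {gs g : Fin n → G}
    (hgs : ∀ x ∈ Z0, gs x = τ Z0 x) (hZ : Z.card = d) (hZZ : Disjoint Z0 Z)
    {a : Fin n} (haZ : a ∉ Z) {M : Finset (Fin n)} (hM : Gen g M) (haM : a ∉ M)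
    (hMZ : Disjoint M Z) {φ : MulAut (FreeGroup (Fin n))} (hφ : φ ∈ Mv a)
    {ψ ψ' : MulAut (FreeGroup (Fin n))} (hψ : Path τ gs g Z ψ) (hψ' : Path τ gs (act φ g) Z ψ') :
    Eqv g (ψ' * φ) ψ := by
  classical
  obtain ⟨φ1, m1, φ2, m2, φ3, m3, rfl, a1, a2, a3⟩ := hψ
  obtain ⟨χ1, n1, χ2, n2, χ3, n3, rfl, b1, b2, b3⟩ := hψ'
  have h0 : Z0 ⊆ Zᶜ := fun x hx => Finset.mem_compl.2 (Finset.disjoint_left.1 hZZ hx)
  -- the move after the replacement of the letters of `Z`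
  obtain ⟨φ', m', a'⟩ := exists_upd (g := upd g Z (τ Z)) (Y := {a})
    (Gen_upd hτ g hZ (fun x hx => Finset.mem_compl.2 (by
      rw [Finset.mem_singleton]; rintro rfl; exact haZ hx))) (act φ g)
  have a'' : act φ' (upd g Z (τ Z)) = upd (act φ g) Z (τ Z) := by
    rw [a']
    funext x
    by_cases hxa : x = a
    · subst hxa
      rw [upd_of_mem (Finset.mem_singleton_self _), upd_of_notMem haZ]
    · rw [upd_of_notMem (by rw [Finset.mem_singleton]; exact hxa)]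
      by_cases hxZ : x ∈ Z
      · rw [upd_of_mem hxZ, upd_of_mem hxZ]
      · rw [upd_of_notMem hxZ, upd_of_notMem hxZ, Mv_act g hxa hφ]
  have ha1 : ({a} : Finset (Fin n)) ⊆ insert a Z := by
    intro x hx
    rw [Finset.mem_singleton] at hx
    rw [hx]
    exact Finset.mem_insert_self _ _
  have hZ1 : Z ⊆ insert a Z := Finset.subset_insert _ _
  have ha2 : ({a} : Finset (Fin n)) ⊆ Zᶜ := by
    intro x hx
    rw [Finset.mem_singleton] at hx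
    rw [hx]
    exact Finset.mem_compl.2 haZ
  have hMc : M ⊆ (insert a Z)ᶜ := by
    intro x hx
    rw [Finset.mem_compl, Finset.mem_insert, not_or]
    refine ⟨?_, Finset.disjoint_left.1 hMZ hx⟩
    rintro rfl
    exact haM hx
  have s1 : Eqv g (χ1 * φ) (φ' * φ1) := by
    refine Eqv_of_MvS hinv (Y := insert a Z) (Gen_mono hMc hM)
      (Subgroup.mul_mem _ (MvS_mono hZ1 n1) (Mv_le_MvS (Finset.mem_insert_self _ _) hφ))
      (Subgroup.mul_mem _ (MvS_mono ha1 m') (MvS_mono hZ1 m1)) ?_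
    rw [act_mul, act_mul, b1, a1, a'']
  have s2 : Eqv (upd g Z (τ Z)) (χ2 * φ') φ2 := by
    refine Eqv_of_MvS hinv (Y := Zᶜ) (by rw [compl_compl]; exact Gen_upd hτ g hZ (Finset.Subset.refl _))
      (Subgroup.mul_mem _ n2 (MvS_mono ha2 m')) m2 ?_
    rw [act_mul, a'', b2, a2]
  have s3 : Eqv (upd gs Z (τ Z)) χ3 φ3 := by
    refine Eqv_of_MvS hinv (Y := Z) (Gen_gs hτ hZ0 hgs h0
      (fun x hx => upd_of_notMem (Finset.disjoint_left.1 hZZ hx))) n3 m3 ?_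
    rw [b3, a3]
  -- composition
  have t1 : Eqv g (χ3 * χ2 * χ1 * φ) (χ3 * χ2 * (φ' * φ1)) := by
    have := s1.left (χ3 * χ2)
    rwa [← mul_assoc] at this
  have t2 : Eqv g (χ2 * φ' * φ1) (φ2 * φ1) := by
    refine Eqv.right hinv ?_
    rw [a1]
    exact s2
  have t3 : Eqv g (χ3 * (χ2 * φ' * φ1)) (χ3 * (φ2 * φ1)) := t2.left χ3
  have t4 : Eqv g (χ3 * (φ2 * φ1)) (φ3 * (φ2 * φ1)) := by
    refine Eqv.right hinv ?_
    rw [act_mul, a1, a2]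
    exact s3
  have e1 : χ3 * χ2 * (φ' * φ1) = χ3 * (χ2 * φ' * φ1) := by group
  rw [e1] at t1
  have e2 : φ3 * φ2 * φ1 = φ3 * (φ2 * φ1) := mul_assoc _ _ _
  rw [e2]
  exact (t1.trans t3).trans t4

/-- Claim A, disjoint case -/
theorem path_disj {d : ℕ} {τ : Finset (Fin n) → Fin n → G} (hτ : IsTau d τ)
    {Z0 Z1 Z2 : Finset (Fin n)} (hZ0 : Z0.card = d) {gs g : Fin n → G}
    (hgs : ∀ x ∈ Z0, gs x = τ Z0 x) (hZ1 : Z1.card = d) (hZ2 : Z2.card = d)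
    (h01 : Disjoint Z0 Z1) (h02 : Disjoint Z0 Z2) (h12 : Disjoint Z1 Z2)
    {M : Finset (Fin n)} (hM : Gen g M) (hM1 : Disjoint M Z1) (hM2 : Disjoint M Z2)
    {ψ ψ' : MulAut (FreeGroup (Fin n))} (hψ : Path τ gs g Z1 ψ) (hψ' : Path τ gs g Z2 ψ') :
    Eqv g ψ ψ' := by
  classical
  obtain ⟨φ1, m1, φ2, m2, φ3, m3, rfl, a1, a2, a3⟩ := hψ
  obtain ⟨χ1, n1, χ2, n2, χ3, n3, rfl, b1, b2, b3⟩ := hψ'
  have i1 : Z1 ⊆ Z2ᶜ := fun x hx => Finset.mem_compl.2 (Finset.disjoint_left.1 h12 hx)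
  have i2 : Z2 ⊆ Z1ᶜ := fun x hx => Finset.mem_compl.2 (Finset.disjoint_right.1 h12 hx)
  have j1 : Z1 ⊆ Z1 ∪ Z2 := Finset.subset_union_left
  have j2 : Z2 ⊆ Z1 ∪ Z2 := Finset.subset_union_right
  have k1 : (Z1 ∪ Z2)ᶜ ⊆ Z1ᶜ := Finset.compl_subset_compl.2 j1
  have k2 : (Z1 ∪ Z2)ᶜ ⊆ Z2ᶜ := Finset.compl_subset_compl.2 j2
  have c0 : Z0 ⊆ (Z1 ∪ Z2)ᶜ := by
    intro x hx
    rw [Finset.mem_compl, Finset.mem_union, not_or]
    exact ⟨Finset.disjoint_left.1 h01 hx, Finset.disjoint_left.1 h02 hx⟩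
  have cM : M ⊆ (Z1 ∪ Z2)ᶜ := by
    intro x hx
    rw [Finset.mem_compl, Finset.mem_union, not_or]
    exact ⟨Finset.disjoint_left.1 hM1 hx, Finset.disjoint_left.1 hM2 hx⟩
  -- the tuples
  obtain ⟨g1, hg1⟩ : ∃ t, t = upd g Z1 (τ Z1) := ⟨_, rfl⟩
  obtain ⟨g2, hg2⟩ : ∃ t, t = upd g Z2 (τ Z2) := ⟨_, rfl⟩
  obtain ⟨g12, hg12⟩ : ∃ t, t = upd g1 Z2 (τ Z2) := ⟨_, rfl⟩
  obtain ⟨s1, hs1⟩ : ∃ t, t = upd gs Z1 (τ Z1) := ⟨_, rfl⟩
  obtain ⟨s2, hs2⟩ : ∃ t, t = upd gs Z2 (τ Z2) := ⟨_, rfl⟩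
  obtain ⟨s12, hs12⟩ : ∃ t, t = upd s1 Z2 (τ Z2) := ⟨_, rfl⟩
  have eg : g12 = upd g2 Z1 (τ Z1) := by
    rw [hg12, hg1, hg2]
    funext x
    by_cases hx : x ∈ Z1
    · rw [upd_of_notMem (Finset.disjoint_left.1 h12 hx), upd_of_mem hx, upd_of_mem hx]
    · by_cases hx2 : x ∈ Z2
      · rw [upd_of_mem hx2, upd_of_notMem hx, upd_of_mem hx2]
      · rw [upd_of_notMem hx2, upd_of_notMem hx, upd_of_notMem hx, upd_of_notMem hx2]
  have es : s12 = upd s2 Z1 (τ Z1) := by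
    rw [hs12, hs1, hs2]
    funext x
    by_cases hx : x ∈ Z1
    · rw [upd_of_notMem (Finset.disjoint_left.1 h12 hx), upd_of_mem hx, upd_of_mem hx]
    · by_cases hx2 : x ∈ Z2
      · rw [upd_of_mem hx2, upd_of_notMem hx, upd_of_mem hx2]
      · rw [upd_of_notMem hx2, upd_of_notMem hx, upd_of_notMem hx, upd_of_notMem hx2]
  rw [← hg1] at a1 a2
  rw [← hs1] at a2 a3
  rw [← hg2] at b1 b2
  rw [← hs2] at b2 b3
  have G1 : ∀ S : Finset (Fin n), Z1 ⊆ S → Gen g1 S := fun S hS => by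
    rw [hg1]; exact Gen_upd hτ g hZ1 hS
  have G2 : ∀ S : Finset (Fin n), Z2 ⊆ S → Gen g2 S := fun S hS => by
    rw [hg2]; exact Gen_upd hτ g hZ2 hS
  have G12 : ∀ S : Finset (Fin n), Z2 ⊆ S → Gen g12 S := fun S hS => by
    rw [hg12]; exact Gen_upd hτ g1 hZ2 hS
  have S12 : ∀ S : Finset (Fin n), Z0 ⊆ S → Gen s12 S := fun S hS => by
    refine Gen_gs hτ hZ0 hgs hS fun x hx => ?_
    rw [hs12, hs1, upd_of_notMem (Finset.disjoint_left.1 h02 hx),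
      upd_of_notMem (Finset.disjoint_left.1 h01 hx)]
  -- the morphisms
  obtain ⟨α, mα, aα⟩ := exists_upd (g := g1) (Y := Z2) (G1 _ i1) (τ Z2)
  rw [← hg12] at aα
  obtain ⟨β, mβ, aβ⟩ := exists_upd (g := g2) (Y := Z1) (G2 _ i2) (τ Z1)
  rw [← eg] at aβ
  obtain ⟨ω, mω, aω⟩ := exists_upd (g := g12) (Y := (Z1 ∪ Z2)ᶜ)
    (G12 _ (by rw [compl_compl]; exact j2)) gs
  have aω' : act ω g12 = s12 := by
    rw [aω]
    funext x
    by_cases hx2 : x ∈ Z2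
    · rw [upd_of_notMem (by rw [Finset.mem_compl, not_not]; exact j2 hx2), hg12, hs12,
        upd_of_mem hx2, upd_of_mem hx2]
    · by_cases hx1 : x ∈ Z1
      · rw [upd_of_notMem (by rw [Finset.mem_compl, not_not]; exact j1 hx1), hg12, hs12,
          upd_of_notMem hx2, upd_of_notMem hx2, hg1, hs1, upd_of_mem hx1, upd_of_mem hx1]
      · rw [upd_of_mem (by rw [Finset.mem_compl, Finset.mem_union, not_or]; exact ⟨hx1, hx2⟩),
          hs12, upd_of_notMem hx2, hs1, upd_of_notMem hx1]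
  obtain ⟨γ, mγ, aγ⟩ := exists_upd (g := s12) (Y := Z2) (S12 _ (fun x hx =>
    Finset.mem_compl.2 (Finset.disjoint_left.1 h02 hx))) s1
  have aγ' : act γ s12 = s1 := by
    rw [aγ]
    funext x
    by_cases hx2 : x ∈ Z2
    · rw [upd_of_mem hx2]
    · rw [upd_of_notMem hx2, hs12, upd_of_notMem hx2]
  obtain ⟨δ, mδ, aδ⟩ := exists_upd (g := s12) (Y := Z1) (S12 _ (fun x hx =>
    Finset.mem_compl.2 (Finset.disjoint_left.1 h01 hx))) s2
  have aδ' : act δ s12 = s2 := by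
    rw [aδ]
    funext x
    by_cases hx1 : x ∈ Z1
    · rw [upd_of_mem hx1]
    · rw [upd_of_notMem hx1, es, upd_of_notMem hx1]
  -- the loops
  have l1 : Eqv g (α * φ1) (β * χ1) := by
    refine Eqv_of_MvS hinv (Y := Z1 ∪ Z2) (Gen_mono cM hM)
      (Subgroup.mul_mem _ (MvS_mono j2 mα) (MvS_mono j1 m1))
      (Subgroup.mul_mem _ (MvS_mono j1 mβ) (MvS_mono j2 n1)) ?_
    rw [act_mul, act_mul, a1, b1, aα, aβ]
  have l2 : Eqv g1 φ2 (γ * ω * α) := by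
    refine Eqv_of_MvS hinv (Y := Z1ᶜ) (by rw [compl_compl]; exact G1 _ (Finset.Subset.refl _)) m2
      (Subgroup.mul_mem _ (Subgroup.mul_mem _ (MvS_mono i2 mγ) (MvS_mono k1 mω))
        (MvS_mono i2 mα)) ?_
    rw [act_mul, act_mul, aα, aω', aγ', a2]
  have l3 : Eqv g2 χ2 (δ * ω * β) := by
    refine Eqv_of_MvS hinv (Y := Z2ᶜ) (by rw [compl_compl]; exact G2 _ (Finset.Subset.refl _)) n2
      (Subgroup.mul_mem _ (Subgroup.mul_mem _ (MvS_mono i1 mδ) (MvS_mono k2 mω))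
        (MvS_mono i1 mβ)) ?_
    rw [act_mul, act_mul, aβ, aω', aδ', b2]
  have l4 : Eqv s12 (φ3 * γ) (χ3 * δ) := by
    refine Eqv_of_MvS hinv (Y := Z1 ∪ Z2) (S12 _ c0)
      (Subgroup.mul_mem _ (MvS_mono j1 m3) (MvS_mono j2 mγ))
      (Subgroup.mul_mem _ (MvS_mono j2 n3) (MvS_mono j1 mδ)) ?_
    rw [act_mul, act_mul, aγ', aδ', a3, b3]
  -- composition
  have t1 : Eqv g (φ3 * φ2 * φ1) (φ3 * (γ * ω * α) * φ1) := by
    have h : Eqv g (φ2 * φ1) (γ * ω * α * φ1) := by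
      refine Eqv.right hinv ?_
      rw [a1]
      exact l2
    have := h.left φ3
    rwa [← mul_assoc, ← mul_assoc] at this
  have t2 : Eqv g (φ3 * (γ * ω * α) * φ1) (φ3 * γ * ω * (β * χ1)) := by
    have := l1.left (φ3 * γ * ω)
    have e : φ3 * (γ * ω * α) * φ1 = φ3 * γ * ω * (α * φ1) := by group
    rw [e]
    exact this
  have t3 : Eqv g (φ3 * γ * (ω * β * χ1)) (χ3 * δ * (ω * β * χ1)) := by
    refine Eqv.right hinv ?_
    rw [act_mul, act_mul, b1, aβ, aω']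
    exact l4
  have t4 : Eqv g (χ3 * χ2 * χ1) (χ3 * (δ * ω * β) * χ1) := by
    have h : Eqv g (χ2 * χ1) (δ * ω * β * χ1) := by
      refine Eqv.right hinv ?_
      rw [b1]
      exact l3
    have := h.left χ3
    rwa [← mul_assoc, ← mul_assoc] at this
  have e1 : φ3 * γ * ω * (β * χ1) = φ3 * γ * (ω * β * χ1) := by group
  have e2 : χ3 * (δ * ω * β) * χ1 = χ3 * δ * (ω * β * χ1) := by group
  rw [e1] at t2
  rw [e2] at t4
  exact ((t1.trans t2).trans t3).trans t4.symm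

omit hinv

/-- a set of letters of given size that avoids a small set -/
theorem exists_avoid {A : Finset (Fin n)} {d : ℕ} (h : A.card + d ≤ n) :
    ∃ Z : Finset (Fin n), Z.card = d ∧ Disjoint A Z := by
  have h1 : d ≤ (Aᶜ).card := by
    rw [Finset.card_compl, Fintype.card_fin]
    omega
  obtain ⟨Z, hZ, hc⟩ := Finset.exists_subset_card_eq h1
  refine ⟨Z, hc, ?_⟩
  rw [Finset.disjoint_left]
  intro x hx hxZ
  exact (Finset.mem_compl.1 (hZ hxZ)) hx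

/-- `Z` can be used for `g` -/
def Valid (d : ℕ) (Z0 : Finset (Fin n)) (g : Fin n → G) (Z : Finset (Fin n)) : Prop :=
  Z.card = d ∧ Disjoint Z0 Z ∧ ∃ M : Finset (Fin n), M.card ≤ d ∧ Gen g M ∧
    Disjoint M Z

include hinv

/-- Claim A -/
theorem path_unique {d : ℕ} (hn : 6 * d + 5 ≤ n)
    {τ : Finset (Fin n) → Fin n → G} (hτ : IsTau d τ)
    {Z0 Z1 Z2 : Finset (Fin n)} (hZ0 : Z0.card = d) {gs g : Fin n → G}
    (hgs : ∀ x ∈ Z0, gs x = τ Z0 x) (hZ1 : Valid d Z0 g Z1) (hZ2 : Valid d Z0 g Z2)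
    {ψ ψ' : MulAut (FreeGroup (Fin n))} (hψ : Path τ gs g Z1 ψ) (hψ' : Path τ gs g Z2 ψ') :
    Eqv g ψ ψ' := by
  classical
  obtain ⟨c1, d1, M1, cM1, gM1, dM1⟩ := hZ1
  obtain ⟨c2, d2, M2, cM2, gM2, dM2⟩ := hZ2
  obtain ⟨Z3, c3, d3⟩ := exists_avoid (n := n) (A := Z0 ∪ (Z1 ∪ (Z2 ∪ (M1 ∪ M2))))
    (d := d) (by
      have h1 := Finset.card_union_le Z0 (Z1 ∪ (Z2 ∪ (M1 ∪ M2)))
      have h2 := Finset.card_union_le Z1 (Z2 ∪ (M1 ∪ M2))
      have h3 := Finset.card_union_le Z2 (M1 ∪ M2)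
      have h4 := Finset.card_union_le M1 M2
      omega)
  simp only [Finset.disjoint_union_left] at d3
  obtain ⟨e0, e1, e2, e3, e4⟩ := d3
  obtain ⟨θ, hθ⟩ := exists_path hτ hZ0 hgs c3 e0 (Gen_mono (fun x hx =>
    Finset.mem_compl.2 (Finset.disjoint_left.1 e3 hx)) gM1)
  have p1 := path_disj hinv hτ hZ0 hgs c1 c3 d1 e0 e1 gM1 dM1 e3 hψ hθ
  have p2 := path_disj hinv hτ hZ0 hgs c2 c3 d2 e0 e2 gM2 dM2 e4 hψ' hθ
  exact p1.trans p2.symm

theorem psi_aux [Finite G] {d : ℕ} (hd : GB G d) (hn : 6 * d + 5 ≤ n) :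
    ∃ (Ψ : (Fin n → G) → MulAut (FreeGroup (Fin n))) (gs : Fin n → G),
      (∀ g, Gen g Finset.univ → act (Ψ g) g = gs) ∧
      ∀ (g : Fin n → G) (a : Fin n) (φ : MulAut (FreeGroup (Fin n))), φ ∈ Mv a → Gen g {a}ᶜ →
        Ψ (act φ g) * φ * (Ψ g)⁻¹ ∈ NN gs := by
  classical
  obtain ⟨τ, hτ⟩ := exists_isTau (n := n) (G := G) hd
  obtain ⟨Z0, hZ0, -⟩ := exists_avoid (n := n) (A := ∅) (d := d) (by
    rw [Finset.card_empty]; omega)
  obtain ⟨gs, hgs'⟩ : ∃ gs : Fin n → G, gs = upd 1 Z0 (τ Z0) := ⟨_, rfl⟩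
  have hgs : ∀ x ∈ Z0, gs x = τ Z0 x := fun x hx => by rw [hgs', upd_of_mem hx]
  have hex : ∀ g : Fin n → G, ∃ ψ : MulAut (FreeGroup (Fin n)), Gen g Finset.univ →
      ∃ Z, Valid d Z0 g Z ∧ Path τ gs g Z ψ := by
    intro g
    by_cases hg : Gen g Finset.univ
    · obtain ⟨M, -, cM, gM⟩ := Gen_small hd hg
      obtain ⟨Z, cZ, dZ⟩ := exists_avoid (n := n) (A := Z0 ∪ M) (d := d) (by
        have := Finset.card_union_le Z0 M
        omega)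
      rw [Finset.disjoint_union_left] at dZ
      obtain ⟨ψ, hψ⟩ := exists_path hτ hZ0 hgs cZ dZ.1 (Gen_mono (fun x hx =>
        Finset.mem_compl.2 (Finset.disjoint_left.1 dZ.2 hx)) gM)
      exact ⟨ψ, fun _ => ⟨Z, ⟨cZ, dZ.1, M, cM, gM, dZ.2⟩, hψ⟩⟩
    · exact ⟨1, fun h => absurd h hg⟩
  choose Ψ hΨ using hex
  refine ⟨Ψ, gs, ?_, ?_⟩
  · intro g hg
    obtain ⟨Z, -, hZ⟩ := hΨ g hg
    exact hZ.act_eq
  · intro g a φ hφ hga
    obtain ⟨M, hMa, cM, gM⟩ := Gen_small hd hga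
    have haM : a ∉ M := fun h => by
      have := hMa h
      rw [Finset.mem_compl, Finset.mem_singleton] at this
      exact this rfl
    have gM' : Gen (act φ g) M := by
      refine Gen_congr (fun x hx => ?_) gM
      have hxa : x ≠ a := by
        rintro rfl
        exact haM hx
      rw [Mv_act g hxa hφ]
    have gu : Gen g Finset.univ := Gen_mono (Finset.subset_univ _) gM
    have gu' : Gen (act φ g) Finset.univ := Gen_mono (Finset.subset_univ _) gM'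
    obtain ⟨Z, cZ, dZ⟩ := exists_avoid (n := n) (A := Z0 ∪ (M ∪ {a})) (d := d) (by
      have h1 := Finset.card_union_le Z0 (M ∪ {a})
      have h2 := Finset.card_union_le M {a}
      rw [Finset.card_singleton] at h2
      omega)
    rw [Finset.disjoint_union_left, Finset.disjoint_union_left] at dZ
    obtain ⟨d0, dM, da⟩ := dZ
    have haZ : a ∉ Z := Finset.disjoint_left.1 da (Finset.mem_singleton_self a)
    have hMZ : M ⊆ Zᶜ := fun x hx => Finset.mem_compl.2 (Finset.disjoint_left.1 dM hx)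
    obtain ⟨ψ, hψ⟩ := exists_path hτ hZ0 hgs cZ d0 (Gen_mono hMZ gM)
    obtain ⟨ψ', hψ'⟩ := exists_path hτ hZ0 hgs cZ d0 (Gen_mono hMZ gM')
    have q1 : Eqv g (ψ' * φ) ψ :=
      path_move hinv hτ hZ0 hgs cZ d0 haZ gM haM dM hφ hψ hψ'
    obtain ⟨W, vW, pW⟩ := hΨ g gu
    obtain ⟨W', vW', pW'⟩ := hΨ (act φ g) gu'
    have q2 : Eqv g (Ψ g) ψ := path_unique hinv hn hτ hZ0 hgs vW ⟨cZ, d0, M, cM, gM, dM⟩ pW hψ
    have q3 : Eqv (act φ g) (Ψ (act φ g)) ψ' :=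
      path_unique hinv hn hτ hZ0 hgs vW' ⟨cZ, d0, M, cM, gM', dM⟩ pW' hψ'
    have q4 : Eqv g (Ψ (act φ g) * φ) (Ψ g) := ((Eqv.right hinv q3).trans q1).trans q2.symm
    have q5 := hinv g (Ψ g) _ q4
    rw [pW.act_eq] at q5
    have e : Ψ g * ((Ψ g)⁻¹ * (Ψ (act φ g) * φ)) * (Ψ g)⁻¹ =
        Ψ (act φ g) * φ * (Ψ g)⁻¹ := by group
    rwa [e] at q5

end Psi

/-- MODULE A5a -/
theorem psi_exists {n : ℕ} {G : Type*} [Group G] [Finite G] {d : ℕ}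
    (hd : GB G d) (hn : 6 * d + 5 ≤ n)
    (hinv : ∀ (g : Fin n → G) (φ ψ : MulAut (FreeGroup (Fin n))),
      ψ ∈ NN g → φ * ψ * φ⁻¹ ∈ NN (act φ g)) :
    ∃ (Ψ : (Fin n → G) → MulAut (FreeGroup (Fin n))) (gs : Fin n → G),
      (∀ g, Gen g Finset.univ → act (Ψ g) g = gs) ∧
      ∀ (g : Fin n → G) (a : Fin n) (φ : MulAut (FreeGroup (Fin n))), φ ∈ Mv a → Gen g {a}ᶜ →
        Ψ (act φ g) * φ * (Ψ g)⁻¹ ∈ NN gs :=
  psi_aux hinv hd hn

end RED
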