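import Mathlib

/-!
# Torsion subgroups of bounded exponent of `GL (m, ℤ)` are finite
-/

set_option autoImplicit false

namespace RED

/-- `(1 + Z) ^ q = 1 + q Z + Z ^ 2 W` -/
theorem mk_pow {R : Type*} [Ring R] (Z : R) (q : ℕ) : ∃ W : R, (1 + Z) ^ q = 1 + q * Z + Z ^ 2 * W := by
  induction q with
  | zero => exact ⟨0, by simp⟩
  | succ q ih =>
    obtain ⟨W, hW⟩ := ih
    refine ⟨q + W * (1 + Z), ?_⟩
    have hc : (q : R) * Z = Z * q := Nat.cast_comm q Z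
    rw [pow_succ, hW, Nat.cast_succ]
    have e : (1 + (q : R) * Z + Z ^ 2 * W) * (1 + Z) =
        1 + ((q : R) * Z + Z) + ((q : R) * Z * Z + Z ^ 2 * W * (1 + Z)) := by noncomm_ring
    rw [e, hc]
    have e2 : Z * (q : R) * Z = Z ^ 2 * q := by rw [mul_assoc, hc, sq, mul_assoc]
    rw [e2]
    have e3 : ((q : R) + 1) * Z = Z * q + Z := by rw [add_mul, one_mul, hc]
    rw [e3]
    noncomm_ring

section Mat

variable {m : ℕ}

theorem mk_cancel {c : ℤ} (hc : c ≠ 0) {X Y : Matrix (Fin m) (Fin m) ℤ} (h : c • X = c • Y) : X = Y := by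
  ext i j
  have h1 := congrFun (congrFun h i) j
  simp only [Matrix.smul_apply, smul_eq_mul] at h1
  exact mul_left_cancel₀ hc h1

/-- order prime to `3` -/
theorem mk_coprime {q k : ℕ} (hq : ¬ 3 ∣ q) {Y : Matrix (Fin m) (Fin m) ℤ}
    (h : (1 + (3 : ℤ) ^ (k + 1) • Y) ^ q = 1) : ∃ Y', Y = (3 : ℤ) • Y' := by
  obtain ⟨W, hW⟩ := mk_pow ((3 : ℤ) ^ (k + 1) • Y) q
  rw [h] at hW
  have h1 : (q : Matrix (Fin m) (Fin m) ℤ) * ((3 : ℤ) ^ (k + 1) • Y) +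
      ((3 : ℤ) ^ (k + 1) • Y) ^ 2 * W = 0 := by
    have : (1 : Matrix (Fin m) (Fin m) ℤ) = 1 + ((q : Matrix (Fin m) (Fin m) ℤ) * ((3 : ℤ) ^ (k + 1) • Y) +
      ((3 : ℤ) ^ (k + 1) • Y) ^ 2 * W) := by rw [← add_assoc]; exact hW
    exact left_eq_add.1 this
  have h2 : (3 : ℤ) ^ (k + 1) • ((q : ℤ) • Y) = (3 : ℤ) ^ (k + 1) • ((3 : ℤ) • (-((3 : ℤ) ^ k • (Y * Y * W)))) := by
    have e1 : (q : Matrix (Fin m) (Fin m) ℤ) * ((3 : ℤ) ^ (k + 1) • Y) = (3 : ℤ) ^ (k + 1) • ((q : ℤ) • Y) := by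
      rw [mul_smul_comm]
      congr 1
      rw [← nsmul_eq_mul, natCast_zsmul]
    have e2 : ((3 : ℤ) ^ (k + 1) • Y) ^ 2 * W = (3 : ℤ) ^ (k + 1) • ((3 : ℤ) • ((3 : ℤ) ^ k • (Y * Y * W))) := by
      rw [sq, smul_mul_smul_comm, smul_mul_assoc, smul_smul, smul_smul]
      congr 1
      ring
    rw [e1, e2] at h1
    rw [smul_neg, smul_neg]
    exact eq_neg_of_add_eq_zero_left h1
  have h3 := mk_cancel (by positivity) h2
  have hcop : IsCoprime (q : ℤ) 3 := by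
    have : Nat.Coprime q 3 := ((Nat.Prime.coprime_iff_not_dvd Nat.prime_three).2 hq).symm
    exact_mod_cast Nat.isCoprime_iff_coprime.2 this
  obtain ⟨a, b, hab⟩ := hcop
  refine ⟨a • (-((3 : ℤ) ^ k • (Y * Y * W))) + b • Y, ?_⟩
  have h4 : Y = (a * q + b * 3) • Y := by rw [hab, one_smul]
  calc Y = (a * q + b * 3) • Y := h4
    _ = a • ((q : ℤ) • Y) + (b * 3) • Y := by rw [add_smul, mul_smul]
    _ = a • ((3 : ℤ) • (-((3 : ℤ) ^ k • (Y * Y * W)))) + (3 : ℤ) • (b • Y) := by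
        rw [h3, smul_smul (3 : ℤ) b, mul_comm b 3]
    _ = _ := by rw [smul_add, smul_comm a (3 : ℤ)]

/-- order `3` -/
theorem mk_three {k : ℕ} {Y : Matrix (Fin m) (Fin m) ℤ}
    (h : (1 + (3 : ℤ) ^ (k + 1) • Y) ^ 3 = 1) : ∃ Y', Y = (3 : ℤ) • Y' := by
  have e : (1 + (3 : ℤ) ^ (k + 1) • Y) ^ 3 = 1 + (3 : ℤ) ^ (k + 2) •
      (Y + (3 : ℤ) • ((3 : ℤ) ^ k • (Y * Y) + ((3 : ℤ) ^ k * (3 : ℤ) ^ k) • (Y * Y * Y))) := by
    obtain ⟨Z, hZ⟩ : ∃ Z, Z = (3 : ℤ) ^ (k + 1) • Y := ⟨_, rfl⟩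
    have e1 : (1 + Z) ^ 3 = 1 + ((3 : ℤ) • Z + (3 : ℤ) • (Z * Z) + Z * Z * Z) := by
      noncomm_ring
    rw [← hZ, e1]
    congr 1
    have e2 : Z * Z = ((3 : ℤ) ^ (k + 1) * (3 : ℤ) ^ (k + 1)) • (Y * Y) := by
      rw [hZ, smul_mul_smul_comm]
    have e3 : Z * Z * Z = ((3 : ℤ) ^ (k + 1) * (3 : ℤ) ^ (k + 1) * (3 : ℤ) ^ (k + 1)) • (Y * Y * Y) := by
      rw [e2, hZ, smul_mul_smul_comm]
    rw [e3, e2, hZ, smul_add, smul_add, smul_smul, smul_smul, smul_smul, smul_smul, smul_add, smul_smul,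
      smul_smul, add_assoc]
    congr 1
    · congr 1
      ring
    · congr 1
      · congr 1
        ring
      · congr 1
        ring
  rw [e] at h
  have h1 := add_eq_left.1 h
  have h2 : (3 : ℤ) ^ (k + 2) • (Y + (3 : ℤ) • ((3 : ℤ) ^ k • (Y * Y) +
      ((3 : ℤ) ^ k * (3 : ℤ) ^ k) • (Y * Y * Y))) = (3 : ℤ) ^ (k + 2) • 0 := by rw [h1, smul_zero]
  have h3 := mk_cancel (by positivity) h2
  refine ⟨-((3 : ℤ) ^ k • (Y * Y) + ((3 : ℤ) ^ k * (3 : ℤ) ^ k) • (Y * Y * Y)), ?_⟩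
  rw [smul_neg]
  exact eq_neg_of_add_eq_zero_left h3

/-- descent -/
theorem mk_descent {X : Matrix (Fin m) (Fin m) ℤ} (h0 : ∃ Y, X = 1 + (3 : ℤ) • Y)
    (h : ∀ (k : ℕ) (Y : Matrix (Fin m) (Fin m) ℤ), X = 1 + (3 : ℤ) ^ (k + 1) • Y → ∃ Y', Y = (3 : ℤ) • Y') :
    X = 1 := by
  have h1 : ∀ k : ℕ, ∃ Y, X = 1 + (3 : ℤ) ^ (k + 1) • Y := by
    intro k
    induction k with
    | zero =>
      obtain ⟨Y, hY⟩ := h0
      exact ⟨Y, by rw [zero_add, pow_one]; exact hY⟩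
    | succ k ih =>
      obtain ⟨Y, hY⟩ := ih
      obtain ⟨Y', hY'⟩ := h k Y hY
      refine ⟨Y', ?_⟩
      rw [hY, hY', smul_smul, ← pow_succ]
  have h2 : X - 1 = 0 := by
    ext i j
    rw [Matrix.zero_apply]
    obtain ⟨Y, hY⟩ := h1 ((X - 1) i j).natAbs
    have h3 : (X - 1) i j = (3 : ℤ) ^ (((X - 1) i j).natAbs + 1) * Y i j := by
      have : X - 1 = (3 : ℤ) ^ (((X - 1) i j).natAbs + 1) • Y := by
        rw [sub_eq_iff_eq_add, add_comm]
        exact hY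
      have h4 := congrFun (congrFun this i) j
      rw [Matrix.smul_apply, smul_eq_mul] at h4
      exact h4
    have h5 : (3 : ℤ) ^ (((X - 1) i j).natAbs + 1) ∣ (X - 1) i j := ⟨_, h3⟩
    refine Int.eq_zero_of_abs_lt_dvd h5 ?_
    rw [Int.abs_eq_natAbs]
    have h6 : ((X - 1) i j).natAbs < 3 ^ (((X - 1) i j).natAbs + 1) :=
      lt_trans (Nat.lt_succ_self _) (Nat.lt_pow_self (by norm_num))
    exact_mod_cast h6
  exact sub_eq_zero.1 h2

/-- an integer matrix of finite order congruent to `1` modulo `3` is `1` -/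
theorem mk_torsion {X : Matrix (Fin m) (Fin m) ℤ} (h0 : ∃ Y, X = 1 + (3 : ℤ) • Y) :
    ∀ (a q : ℕ), ¬ 3 ∣ q → X ^ (3 ^ a * q) = 1 → X = 1 := by
  -- the powers are also congruent to 1
  have hpow : ∀ j : ℕ, ∃ Y, X ^ j = 1 + (3 : ℤ) • Y := by
    intro j
    obtain ⟨Y, hY⟩ := h0
    induction j with
    | zero => exact ⟨0, by simp⟩
    | succ j ih =>
      obtain ⟨Y', hY'⟩ := ih
      refine ⟨Y + Y' + (3 : ℤ) • (Y' * Y), ?_⟩
      rw [pow_succ, hY', hY]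
      noncomm_ring
  intro a
  induction a with
  | zero =>
    intro q hq h
    rw [pow_zero, one_mul] at h
    refine mk_descent h0 fun k Y hY => mk_coprime hq (k := k) ?_
    rw [← hY]
    exact h
  | succ a ih =>
    intro q hq h
    refine ih q hq ?_
    refine mk_descent (hpow _) fun k Y hY => mk_three (k := k) ?_
    rw [← hY, ← pow_mul]
    rw [← h]
    congr 1
    ring

end Mat

/-- a subgroup of `GL (m, ℤ)` of bounded exponent is finite -/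
theorem mink {m : ℕ} (A : Subgroup (Matrix.GeneralLinearGroup (Fin m) ℤ))
    (hc : ∀ x ∈ A, ∀ y ∈ A, x * y = y * x) {N : ℕ} (hN : 0 < N) (hA : ∀ x ∈ A, x ^ N = 1) :
    Finite A := by
  obtain ⟨F, hF⟩ : ∃ F : Matrix.GeneralLinearGroup (Fin m) ℤ →*
      Matrix.GeneralLinearGroup (Fin m) (ZMod 3),
      F = Matrix.GeneralLinearGroup.map (Int.castRingHom (ZMod 3)) := ⟨_, rfl⟩
  have hinj : Function.Injective (fun x : A => F x.1) := by
    intro x y hxy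
    have h1 : F (x.1⁻¹ * y.1) = 1 := by
      have hxy' : F x.1 = F y.1 := hxy
      rw [map_mul, map_inv, hxy', inv_mul_cancel]
    have hmem : x.1⁻¹ * y.1 ∈ A := A.mul_mem (A.inv_mem x.2) y.2
    obtain ⟨z, hz⟩ : ∃ z, z = x.1⁻¹ * y.1 := ⟨_, rfl⟩
    rw [← hz] at h1 hmem
    have h2 : ∃ Y : Matrix (Fin m) (Fin m) ℤ, z.1 = 1 + (3 : ℤ) • Y := by
      have h3 : ∀ i j, ∃ c : ℤ, z.1 i j = (1 : Matrix (Fin m) (Fin m) ℤ) i j + 3 * c := by
        intro i j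
        have h4 : (F z).1 i j = (1 : Matrix (Fin m) (Fin m) (ZMod 3)) i j := by rw [h1]; rfl
        have h5 : (F z).1 i j = ((z.1 i j : ℤ) : ZMod 3) := by rw [hF]; rfl
        have h6 : (1 : Matrix (Fin m) (Fin m) (ZMod 3)) i j =
            (((1 : Matrix (Fin m) (Fin m) ℤ) i j : ℤ) : ZMod 3) := by
          rw [Matrix.one_apply, Matrix.one_apply]
          split_ifs <;> simp
        rw [h5, h6, eq_comm, ZMod.intCast_eq_intCast_iff_dvd_sub] at h4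
        obtain ⟨c, hc'⟩ := h4
        refine ⟨c, ?_⟩
        push_cast at hc'
        linarith
      choose c hc' using h3
      refine ⟨Matrix.of c, ?_⟩
      ext i j
      rw [Matrix.add_apply, Matrix.smul_apply, smul_eq_mul, hc']
      rfl
    have h7 : z.1 ^ N = 1 := by
      have := hA z hmem
      have h8 := congrArg Units.val this
      rw [Units.val_pow_eq_pow_val, Units.val_one] at h8
      exact h8
    obtain ⟨a, q, hq, hNq⟩ := Nat.exists_eq_pow_mul_and_not_dvd hN.ne' 3 (by norm_num)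
    rw [hNq] at h7
    have h9 := mk_torsion h2 a q hq h7
    have h10 : z = 1 := Units.ext h9
    rw [hz, inv_mul_eq_one] at h10
    exact Subtype.ext h10
  exact Finite.of_injective _ hinj

end RED
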