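import Mathlib
import Pool.Agent.RED.Defs
import Pool.Agent.IAQ.KEng
import Pool.Agent.IAQ.MagDef

/-!
# The commutator of two letters with value one is killed (helper91)
-/

set_option autoImplicit false
set_option linter.style.haveILetI false

namespace RED

open AFn IAQ

namespace SOne

section Free

variable {n : ℕ}

theorem ret_of (S : Finset (Fin n)) (x : Fin n) :
    ret S (FreeGroup.of x) = if x ∈ S then FreeGroup.of x else 1 := by
  simp [ret]

theorem ret_one_of_mem {W : Finset (Fin n)} {w : FreeGroup (Fin n)} (hw : w ∈ fsub W) :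
    ret Wᶜ w = 1 := by
  unfold fsub at hw
  induction hw using Subgroup.closure_induction with
  | mem y hy =>
    obtain ⟨x, hx, rfl⟩ := hy
    rw [ret_of, if_neg]
    intro h
    exact (Finset.mem_compl.1 h) (Finset.mem_coe.1 hx)
  | one => exact map_one _
  | mul y z _ _ hy hz => rw [map_mul, hy, hz, one_mul]
  | inv y _ hy => rw [map_inv, hy, inv_one]

/-- the automorphisms acting trivially modulo the letters of `W` -/
def NW (W : Finset (Fin n)) : Subgroup (MulAut (FreeGroup (Fin n))) where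
  carrier := {φ | ∀ w, ret Wᶜ (φ w) = ret Wᶜ w}
  one_mem' := fun w => rfl
  mul_mem' := by
    intro a b ha hb w
    rw [MulAut.mul_apply, ha, hb]
  inv_mem' := by
    intro a ha w
    have h := ha (a⁻¹ w)
    rw [← MulAut.mul_apply, mul_inv_cancel] at h
    exact h.symm

theorem mem_NW {W : Finset (Fin n)} {φ : MulAut (FreeGroup (Fin n))} :
    φ ∈ NW W ↔ ∀ w, ret Wᶜ (φ w) = ret Wᶜ w := Iff.rfl

theorem NW_of_letters {W : Finset (Fin n)} {φ : MulAut (FreeGroup (Fin n))}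
    (h : ∀ x, ret Wᶜ (φ (FreeGroup.of x)) = ret Wᶜ (FreeGroup.of x)) : φ ∈ NW W := by
  have h1 : (ret Wᶜ).comp φ.toMonoidHom = ret Wᶜ := by
    ext x
    exact h x
  exact fun w => DFunLike.congr_fun h1 w

theorem R_mem_NW {W : Finset (Fin n)} {c : Fin n} (hc : c ∉ W) {w : FreeGroup (Fin n)}
    (hw : w ∈ fsub W) : R c w ∈ NW W := by
  refine NW_of_letters fun x => ?_
  by_cases hx : x = c
  · subst hx
    rw [R_of_self, kill_eq hw hc, map_mul, ret_one_of_mem hw, mul_one]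
  · rw [R_of_ne hx]

theorem C_mem_NW {W : Finset (Fin n)} {i : Fin n} (hi : i ∈ W) (w : FreeGroup (Fin n)) :
    C i w ∈ NW W := by
  refine NW_of_letters fun x => ?_
  by_cases hx : x = i
  · subst hx
    rw [C_of_self, map_mul, map_mul, map_inv, ret_one_of_mem (of_mem_fsub hi), mul_one,
      inv_mul_cancel]
  · rw [C_of_ne hx]

theorem conj_NW {W : Finset (Fin n)} {a d : Fin n} (ha : a ∉ W) (hd : d ∉ W) (had : a ≠ d)
    {φ : MulAut (FreeGroup (Fin n))} (hφ : φ ∈ NW W) :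
    R d (FreeGroup.of a) * φ * (R d (FreeGroup.of a))⁻¹ ∈ NW W := by
  have key : ∀ w, ret Wᶜ (R d (FreeGroup.of a) w) = R d (FreeGroup.of a) (ret Wᶜ w) := by
    have h1 : (ret Wᶜ).comp (R d (FreeGroup.of a)).toMonoidHom =
        (R d (FreeGroup.of a)).toMonoidHom.comp (ret Wᶜ) := by
      ext x
      change ret Wᶜ (R d (FreeGroup.of a) (FreeGroup.of x)) =
        R d (FreeGroup.of a) (ret Wᶜ (FreeGroup.of x))
      by_cases hx : x = d
      · subst hx
        rw [R_of_self, kill_of_ne had, map_mul, ret_of, ret_of, if_pos (Finset.mem_compl.2 hd),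
          if_pos (Finset.mem_compl.2 ha), R_of_self, kill_of_ne had]
      · rw [R_of_ne hx, ret_of]
        by_cases h : x ∈ Wᶜ
        · rw [if_pos h, R_of_ne hx]
        · rw [if_neg h, map_one]
    exact fun w => DFunLike.congr_fun h1 w
  intro w
  rw [MulAut.mul_apply, MulAut.mul_apply, key, hφ, ← key, ← MulAut.mul_apply, mul_inv_cancel]
  rfl

/-- conjugation of the words in the letters `i`, `i'` by `x_a` -/
theorem exists_chi {i i' a d : Fin n} (hii : i ≠ i') (hai : a ≠ i) (hai' : a ≠ i')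
    (hdi : d ≠ i) (hdi' : d ≠ i') (had : a ≠ d) :
    ∃ χ ∈ NW ({i, i'} : Finset (Fin n)), ∀ w ∈ fsub ({i, i'} : Finset (Fin n)),
      χ * R d w * χ⁻¹ = R d (FreeGroup.of a * w * (FreeGroup.of a)⁻¹) := by
  obtain ⟨v, hv⟩ : ∃ v : FreeGroup (Fin n), v = (FreeGroup.of a)⁻¹ := ⟨_, rfl⟩
  have hvd : kill d v = v := by rw [hv, map_inv, kill_of_ne had]
  have hvi : kill i v = v := by rw [hv, map_inv, kill_of_ne hai]
  have hvi' : kill i' v = v := by rw [hv, map_inv, kill_of_ne hai']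
  have hva : v⁻¹ = FreeGroup.of a := by rw [hv, inv_inv]
  refine ⟨C i v * C i' v, (NW _).mul_mem (C_mem_NW (by simp) v) (C_mem_NW (by simp) v), ?_⟩
  intro w hw
  have hw2 : kill d w = w := kill_eq hw (by simp [hdi, hdi'])
  have h1 := (pres_C hdi' hvd).conj_R w
  have h2 := (pres_C hdi' hvd).2 w
  rw [hw2] at h1 h2
  have h3 := (pres_C hdi hvd).conj_R (C i' v w)
  rw [h2] at h3
  have h4 : C i v (C i' v w) = FreeGroup.of a * w * (FreeGroup.of a)⁻¹ := by
    clear h1 h2 h3 hw2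
    unfold fsub at hw
    induction hw using Subgroup.closure_induction with
    | mem y hy =>
      obtain ⟨x, hx, rfl⟩ := hy
      have hx' : x = i ∨ x = i' := by simpa using hx
      rcases hx' with rfl | rfl
      · rw [C_of_ne hii, C_of_self, hvi, hva, hv]
      · rw [C_of_self, hvi', map_mul, map_mul, map_inv, C_fixed v hvi, C_of_ne hii.symm, hva,
          hv]
    | one => rw [map_one, map_one]; group
    | mul y z _ _ hy hz => rw [map_mul, map_mul, hy, hz]; group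
    | inv y _ hy => rw [map_inv, map_inv, hy]; group
  rw [h4, ← h1] at h3
  rw [← h3]
  group

end Free

section Main

variable {n m : ℕ} (Hin : Subgroup (MulAut (FreeGroup (Fin n))))
  (ρ : Hin →* Matrix.GeneralLinearGroup (Fin m) ℤ)

/-- the twists under which `NW W` stays in `Hin` -/
def BB (W : Finset (Fin n)) : Set (MulAut (FreeGroup (Fin n))) :=
  {β | ∀ φ ∈ NW W, β * φ * β⁻¹ ∈ Hin}

/-- badness -/
def Bad2 (β : MulAut (FreeGroup (Fin n))) (W : Finset (Fin n)) (c : Fin n) : Prop :=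
  ∃ w ∈ g2 (FreeGroup (Fin n)), β * R c (ret W w) * β⁻¹ ∉ KerH Hin ρ

theorem KerH_R_conj2 {β : MulAut (FreeGroup (Fin n))} {i i' a d : Fin n}
    (hβ : β ∈ BB Hin {i, i'}) (hii : i ≠ i') (hai : a ≠ i) (hai' : a ≠ i')
    (hdi : d ≠ i) (hdi' : d ≠ i') (had : a ≠ d) {w : FreeGroup (Fin n)}
    (hw : w ∈ fsub ({i, i'} : Finset (Fin n))) :
    β * R d (FreeGroup.of a * w * (FreeGroup.of a)⁻¹) * β⁻¹ ∈ KerH Hin ρ ↔
      β * R d w * β⁻¹ ∈ KerH Hin ρ := by
  obtain ⟨χ, hχ, hc⟩ := exists_chi hii hai hai' hdi hdi' had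
  have e : β * R d (FreeGroup.of a * w * (FreeGroup.of a)⁻¹) * β⁻¹ =
      (β * χ * β⁻¹) * (β * R d w * β⁻¹) * (β * χ * β⁻¹)⁻¹ := by
    rw [← hc w hw]
    group
  rw [e]
  exact KerH_conj_iff Hin ρ (hβ χ hχ)

theorem spread2 {β : MulAut (FreeGroup (Fin n))} {i i' a d : Fin n}
    (hβ : β ∈ BB Hin {i, i'}) (hii : i ≠ i') (hai : a ≠ i) (hai' : a ≠ i')
    (hdi : d ≠ i) (hdi' : d ≠ i') (had : a ≠ d) (h1 : ¬ Bad2 Hin ρ β {i, i'} a)
    (h2 : Bad2 Hin ρ β {i, i'} d) :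
    β * R d (FreeGroup.of a) ∈ BB Hin {i, i'} ∧
    Bad2 Hin ρ (β * R d (FreeGroup.of a)) {i, i'} a ∧
    Bad2 Hin ρ (β * R d (FreeGroup.of a)) {i, i'} d ∧
      ∀ c, c ∉ ({i, i'} : Finset (Fin n)) → c ≠ a → c ≠ d → Bad2 Hin ρ β {i, i'} c →
        Bad2 Hin ρ (β * R d (FreeGroup.of a)) {i, i'} c := by
  have ha : a ∉ ({i, i'} : Finset (Fin n)) := by simp [hai, hai']
  have hd : d ∉ ({i, i'} : Finset (Fin n)) := by simp [hdi, hdi']
  have e : ∀ g, (β * R d (FreeGroup.of a)) * g * (β * R d (FreeGroup.of a))⁻¹ =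
      β * (R d (FreeGroup.of a) * g * (R d (FreeGroup.of a))⁻¹) * β⁻¹ := by
    intro g; group
  refine ⟨?_, ?_, ?_, ?_⟩
  · intro φ hφ
    rw [e]
    exact hβ _ (conj_NW ha hd had hφ)
  · obtain ⟨w, hw, hw2⟩ := h2
    refine ⟨w, hw, fun hcon => hw2 ?_⟩
    have h3 : β * R a (ret {i, i'} w) * β⁻¹ ∈ KerH Hin ρ := by
      by_contra h4
      exact h1 ⟨w, hw, h4⟩
    rw [e, conj_I2 had (kill_ret hd w) (kill_ret ha w), conj_mul'] at hcon
    have h5 : β * R d (FreeGroup.of a * (ret {i, i'} w)⁻¹ * (FreeGroup.of a)⁻¹) * β⁻¹ ∈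
        KerH Hin ρ := by
      have h6 := (KerH Hin ρ).mul_mem ((KerH Hin ρ).inv_mem h3) hcon
      rwa [inv_mul_cancel_left] at h6
    rw [KerH_R_conj2 Hin ρ hβ hii hai hai' hdi hdi' had
      ((fsub ({i, i'} : Finset (Fin n))).inv_mem (ret_mem _ w)), map_inv] at h5
    have h7 := (KerH Hin ρ).inv_mem h5
    have e2 : (β * (R d (ret {i, i'} w))⁻¹ * β⁻¹)⁻¹ = β * R d (ret {i, i'} w) * β⁻¹ := by
      group
    rwa [e2] at h7
  · obtain ⟨w, hw, hw2⟩ := h2
    refine ⟨w, hw, fun hcon => hw2 ?_⟩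
    rw [e, ← map_inv, ← map_mul, ← map_mul, KerH_R_conj2 Hin ρ hβ hii hai hai' hdi hdi' had
      (ret_mem _ w)] at hcon
    exact hcon
  · rintro c hc hca hcd ⟨w, hw, hw2⟩
    refine ⟨w, hw, fun hcon => hw2 ?_⟩
    have h3 : R d (FreeGroup.of a) * R c (ret {i, i'} w) =
        R c (ret {i, i'} w) * R d (FreeGroup.of a) := by
      refine R_comm_R hcd (kill_of_ne (Ne.symm hca)) ?_
      rw [kill_ret hc, kill_ret hd]
    rw [e, h3, mul_inv_cancel_right] at hcon
    exact hcon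

/-- a bad letter makes all letters bad for some twist -/
theorem all_bad {i i' : Fin n} (hii : i ≠ i') {β : MulAut (FreeGroup (Fin n))}
    (hβ : β ∈ BB Hin {i, i'}) {a : Fin n} (ha : a ∉ ({i, i'} : Finset (Fin n)))
    (hbad : Bad2 Hin ρ β {i, i'} a) :
    ∃ β' ∈ BB Hin {i, i'}, ∀ c, c ∉ ({i, i'} : Finset (Fin n)) →
      Bad2 Hin ρ β' {i, i'} c := by
  classical
  have hne : ∀ x, x ∉ ({i, i'} : Finset (Fin n)) → x ≠ i ∧ x ≠ i' := by
    intro x hx
    simpa using hx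
  have key : ∀ s : Finset (Fin n), (∀ x ∈ s, x ∉ ({i, i'} : Finset (Fin n))) →
      ∃ β' ∈ BB Hin {i, i'}, Bad2 Hin ρ β' {i, i'} a ∧ ∀ c ∈ s, Bad2 Hin ρ β' {i, i'} c := by
    intro s
    induction s using Finset.induction_on with
    | empty => exact fun _ => ⟨β, hβ, hbad, fun c hc => absurd hc (Finset.notMem_empty c)⟩
    | insert b s hbs ih =>
      intro hs
      obtain ⟨β', h0, h1, h2⟩ := ih fun x hx => hs x (Finset.mem_insert_of_mem hx)
      have hb : b ∉ ({i, i'} : Finset (Fin n)) := hs b (Finset.mem_insert_self b s)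
      by_cases h3 : Bad2 Hin ρ β' {i, i'} b
      · refine ⟨β', h0, h1, fun c hc => ?_⟩
        rcases Finset.mem_insert.1 hc with h | h
        · rw [h]; exact h3
        · exact h2 c h
      · have hba : b ≠ a := fun h => h3 (h ▸ h1)
        obtain ⟨h4, h5, h6, h7⟩ := spread2 Hin ρ h0 hii (hne b hb).1 (hne b hb).2
          (hne a ha).1 (hne a ha).2 hba h3 h1
        refine ⟨_, h4, h6, fun c hc => ?_⟩
        by_cases hcb : c = b
        · rw [hcb]; exact h5
        · by_cases hca : c = a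
          · rw [hca]; exact h6
          · have hcs : c ∈ s := (Finset.mem_insert.1 hc).resolve_left hcb
            exact h7 c (hs c hc) hcb hca (h2 c hcs)
  obtain ⟨β', h0, -, h2⟩ := key (Finset.univ.filter fun x => x ∉ ({i, i'} : Finset (Fin n)))
    (fun x hx => (Finset.mem_filter.1 hx).2)
  exact ⟨β', h0, fun c hc => h2 c (Finset.mem_filter.2 ⟨Finset.mem_univ _, hc⟩)⟩

/-- the twisted restriction of `ρ` to `NW W` -/
def rN {W : Finset (Fin n)} {β : MulAut (FreeGroup (Fin n))} (hβ : β ∈ BB Hin W) :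
    NW W →* Matrix.GeneralLinearGroup (Fin m) ℤ where
  toFun φ := ρ ⟨β * φ.1 * β⁻¹, hβ φ.1 φ.2⟩
  map_one' := by
    rw [← map_one ρ]
    congr 1
    apply Subtype.ext
    change β * 1 * β⁻¹ = 1
    rw [mul_one, mul_inv_cancel]
  map_mul' x y := by
    rw [← map_mul ρ]
    congr 1
    apply Subtype.ext
    change β * (x.1 * y.1) * β⁻¹ = (β * x.1 * β⁻¹) * (β * y.1 * β⁻¹)
    group

theorem rN_eq_one {W : Finset (Fin n)} {β : MulAut (FreeGroup (Fin n))} (hβ : β ∈ BB Hin W)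
    (φ : NW W) : rN Hin ρ hβ φ = 1 ↔ β * φ.1 * β⁻¹ ∈ KerH Hin ρ := by
  rw [mem_KerH]
  constructor
  · intro h
    exact ⟨hβ φ.1 φ.2, h⟩
  · rintro ⟨hh, h1⟩
    exact h1

/-- a bad letter gives a noncommuting pair -/
theorem bad_ne {i i' c : Fin n} {β : MulAut (FreeGroup (Fin n))} (hβ : β ∈ BB Hin {i, i'})
    (hc : c ∉ ({i, i'} : Finset (Fin n))) (hi : i ∈ ({i, i'} : Finset (Fin n)))
    (hi' : i' ∈ ({i, i'} : Finset (Fin n))) (hbad : Bad2 Hin ρ β {i, i'} c) :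
    rN Hin ρ hβ ⟨R c (FreeGroup.of i), R_mem_NW hc (of_mem_fsub hi)⟩ *
        rN Hin ρ hβ ⟨R c (FreeGroup.of i'), R_mem_NW hc (of_mem_fsub hi')⟩ ≠
      rN Hin ρ hβ ⟨R c (FreeGroup.of i'), R_mem_NW hc (of_mem_fsub hi')⟩ *
        rN Hin ρ hβ ⟨R c (FreeGroup.of i), R_mem_NW hc (of_mem_fsub hi)⟩ := by
  intro hcon
  obtain ⟨f, hf⟩ : ∃ f : FreeGroup (Fin n) →* Matrix.GeneralLinearGroup (Fin m) ℤ,
      ∀ w, f w = rN Hin ρ hβ ⟨R c (ret {i, i'} w), R_mem_NW hc (ret_mem _ w)⟩ :=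
    ⟨(rN Hin ρ hβ).comp (((R c).comp (ret {i, i'})).codRestrict (NW {i, i'})
      fun w => R_mem_NW hc (ret_mem _ w)), fun w => rfl⟩
  have f1 : f (FreeGroup.of i) =
      rN Hin ρ hβ ⟨R c (FreeGroup.of i), R_mem_NW hc (of_mem_fsub hi)⟩ := by
    rw [hf]
    congr 1
    apply Subtype.ext
    change R c (ret {i, i'} (FreeGroup.of i)) = R c (FreeGroup.of i)
    rw [ret_eq (of_mem_fsub hi)]
  have f2 : f (FreeGroup.of i') =
      rN Hin ρ hβ ⟨R c (FreeGroup.of i'), R_mem_NW hc (of_mem_fsub hi')⟩ := by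
    rw [hf]
    congr 1
    apply Subtype.ext
    change R c (ret {i, i'} (FreeGroup.of i')) = R c (FreeGroup.of i')
    rw [ret_eq (of_mem_fsub hi')]
  have f3 : ∀ x, x ∉ ({i, i'} : Finset (Fin n)) → f (FreeGroup.of x) = 1 := by
    intro x hx
    rw [hf, rN_eq_one]
    change β * R c (ret {i, i'} (FreeGroup.of x)) * β⁻¹ ∈ KerH Hin ρ
    rw [ret_of, if_neg hx, map_one, mul_one, mul_inv_cancel]
    exact (KerH Hin ρ).one_mem
  rw [← f1, ← f2] at hcon
  have hcomm : ∀ x y, f (FreeGroup.of x) * f (FreeGroup.of y) =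
      f (FreeGroup.of y) * f (FreeGroup.of x) := by
    intro x y
    by_cases hx : x ∈ ({i, i'} : Finset (Fin n))
    · by_cases hy : y ∈ ({i, i'} : Finset (Fin n))
      · have hx' : x = i ∨ x = i' := by simpa using hx
        have hy' : y = i ∨ y = i' := by simpa using hy
        rcases hx' with rfl | rfl <;> rcases hy' with rfl | rfl <;>
          first | rfl | exact hcon | exact hcon.symm
      · rw [f3 y hy, mul_one, one_mul]
    · rw [f3 x hx, mul_one, one_mul]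
  have hker : g2 (FreeGroup (Fin n)) ≤ f.ker := by
    refine g2_le_of_letters (MonoidHom.normal_ker f) fun x y => ?_
    rw [MonoidHom.mem_ker, map_mul, map_mul, map_mul, map_inv, map_inv, hcomm]
    group
  obtain ⟨w, hw, hw2⟩ := hbad
  have h1 := hker hw
  rw [MonoidHom.mem_ker, hf, rN_eq_one] at h1
  exact hw2 h1

theorem not_bad (hf : Hin.FiniteIndex) (hm : m + 2 ≤ n) {i i' : Fin n} (hii : i ≠ i')
    {β : MulAut (FreeGroup (Fin n))} (hβ : β ∈ BB Hin {i, i'}) {a : Fin n}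
    (ha : a ∉ ({i, i'} : Finset (Fin n))) : ¬ Bad2 Hin ρ β {i, i'} a := by
  classical
  intro hbad
  obtain ⟨β', hβ', hall⟩ := all_bad Hin ρ hii hβ ha hbad
  obtain ⟨N, hN, hK⟩ := K0 Hin ρ hf hm
  have hi : i ∈ ({i, i'} : Finset (Fin n)) := by simp
  have hi' : i' ∈ ({i, i'} : Finset (Fin n)) := by simp
  haveI : Nonempty {b : Fin n // b ∉ ({i, i'} : Finset (Fin n))} := ⟨⟨a, ha⟩⟩
  have hcomm : ∀ (b c : {b : Fin n // b ∉ ({i, i'} : Finset (Fin n))}) (u v : Fin n)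
      (hu : u ∈ ({i, i'} : Finset (Fin n))) (hv : v ∈ ({i, i'} : Finset (Fin n))), b ≠ c →
      rN Hin ρ hβ' ⟨R b.1 (FreeGroup.of u), R_mem_NW b.2 (of_mem_fsub hu)⟩ *
        rN Hin ρ hβ' ⟨R c.1 (FreeGroup.of v), R_mem_NW c.2 (of_mem_fsub hv)⟩ =
      rN Hin ρ hβ' ⟨R c.1 (FreeGroup.of v), R_mem_NW c.2 (of_mem_fsub hv)⟩ *
        rN Hin ρ hβ' ⟨R b.1 (FreeGroup.of u), R_mem_NW b.2 (of_mem_fsub hu)⟩ := by
    intro b c u v hu hv hbc
    rw [← map_mul, ← map_mul]
    congr 1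
    apply Subtype.ext
    change R b.1 (FreeGroup.of u) * R c.1 (FreeGroup.of v) =
      R c.1 (FreeGroup.of v) * R b.1 (FreeGroup.of u)
    have hne : b.1 ≠ c.1 := fun h => hbc (Subtype.ext h)
    refine R_comm_R hne.symm (kill_eq (of_mem_fsub hu) c.2) ?_
    rw [kill_eq (of_mem_fsub hv) c.2, kill_eq (of_mem_fsub hv) b.2]
  have h := pair_bound (ι := {b : Fin n // b ∉ ({i, i'} : Finset (Fin n))})
    (fun b => rN Hin ρ hβ' ⟨R b.1 (FreeGroup.of i), R_mem_NW b.2 (of_mem_fsub hi)⟩)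
    (fun b => rN Hin ρ hβ' ⟨R b.1 (FreeGroup.of i'), R_mem_NW b.2 (of_mem_fsub hi')⟩)
    (fun b => by
      rw [isOfFinOrder_iff_pow_eq_one]
      refine ⟨N, hN, ?_⟩
      rw [← map_pow, rN_eq_one]
      exact (mem_kap Hin ρ).1 (hK b.1 i).1 β')
    (fun b c hbc => hcomm b c i i hi hi hbc)
    (fun b c hbc => hcomm b c i i' hi hi' hbc)
    (fun b c hbc => hcomm b c i' i' hi' hi' hbc)
    (fun b => bad_ne Hin ρ hβ' b.2 hi hi' (hall b.1 b.2))
  have hc : Fintype.card {b : Fin n // b ∉ ({i, i'} : Finset (Fin n))} =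
      n - ({i, i'} : Finset (Fin n)).card := by
    rw [Fintype.card_subtype_compl, Fintype.card_fin, Fintype.card_coe]
  rw [hc, Finset.card_pair hii] at h
  omega

end Main

end SOne

section Rep

variable {n m : ℕ} {G : Type*} [Group G] (g : Fin n → G)
  (Hin : Subgroup (MulAut (FreeGroup (Fin n))))
  (ρ : Hin →* Matrix.GeneralLinearGroup (Fin m) ℤ)

theorem SOne.NW_le_Gam {W : Finset (Fin n)} (hW : ∀ i ∈ W, g i = 1) : SOne.NW W ≤ Gam g := by
  have key : ∀ w, ev g (ret Wᶜ w) = ev g w := by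
    have h1 : (ev g).comp (ret Wᶜ) = ev g := by
      ext x
      change ev g (ret Wᶜ (FreeGroup.of x)) = ev g (FreeGroup.of x)
      rw [SOne.ret_of]
      by_cases hx : x ∈ Wᶜ
      · rw [if_pos hx]
      · rw [if_neg hx, map_one, ev_of, hW x (by simpa using hx)]
    exact fun w => DFunLike.congr_fun h1 w
  intro φ hφ w
  rw [← key (φ w), hφ w, key]

/-- MODULE S1, file Pool/Agent/RED/SOne.lean -/
theorem S1 (hf : Hin.FiniteIndex) (hm : m + 2 ≤ n) (hΓ : Gam g ≤ Hin) {i i' a : Fin n}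
    (hii : i ≠ i') (hai : a ≠ i) (hai' : a ≠ i') (hi : g i = 1) (hi' : g i' = 1) :
    R a (cm i i') ∈ KerH Hin ρ := by
  have hW : ∀ x ∈ ({i, i'} : Finset (Fin n)), g x = 1 := by
    intro x hx
    have hx' : x = i ∨ x = i' := by simpa using hx
    rcases hx' with rfl | rfl
    · exact hi
    · exact hi'
  have h1 : (1 : MulAut (FreeGroup (Fin n))) ∈ SOne.BB Hin {i, i'} := by
    intro φ hφ
    rw [one_mul, inv_one, mul_one]
    exact hΓ (SOne.NW_le_Gam g hW hφ)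
  have h2 := SOne.not_bad Hin ρ hf hm hii h1 (a := a) (by simp [hai, hai'])
  by_contra hcon
  refine h2 ⟨cm i i', cm_mem_g2 i i', ?_⟩
  rw [ret_eq (letters_mem_fsub (by simp) (by simp)), one_mul, inv_one, mul_one]
  exact hcon

end Rep

end RED
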