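import Mathlib
import Pool.Agent.RED.Defs
import Pool.Agent.IAQ.KOne
import Pool.Agent.IAQ.MagDef

/-!
# The images of the `R a u`, `u ∈ UU I a`, commute
-/

set_option autoImplicit false

namespace RED

open AFn IAQ

namespace STwo

section

variable {n : ℕ} {G : Type*} [Group G]

theorem Gam_of_letters (g : Fin n → G) {φ : MulAut (FreeGroup (Fin n))}
    (h : ∀ x, ev g (φ (FreeGroup.of x)) = g x) : φ ∈ Gam g := by
  have h1 : (ev g).comp φ.toMonoidHom = ev g := by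
    ext x
    rw [ev_of]
    exact h x
  intro w
  exact DFunLike.congr_fun h1 w

theorem R_mem (g : Fin n → G) (a : Fin n) {w : FreeGroup (Fin n)} (h : ev g (kill a w) = 1) :
    R a w ∈ Gam g := by
  refine Gam_of_letters g fun x => ?_
  rw [R_of]
  by_cases hx : x = a
  · rw [if_pos hx, map_mul, h, mul_one, ev_of]
  · rw [if_neg hx, ev_of]

theorem C_mem (g : Fin n → G) {a : Fin n} (ha : g a = 1) (w : FreeGroup (Fin n)) :
    C a w ∈ Gam g := by
  refine Gam_of_letters g fun x => ?_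
  rw [C_of]
  by_cases hx : x = a
  · rw [if_pos hx, map_mul, map_mul, map_inv, ev_of, hx, ha, mul_one, inv_mul_cancel]
  · rw [if_neg hx, ev_of]

theorem ev_ret (g : Fin n → G) {I : Finset (Fin n)} (h1 : ∀ i ∈ I, g i = 1)
    (w : FreeGroup (Fin n)) : ev g (ret Iᶜ w) = ev g w := by
  have h : (ev g).comp (ret Iᶜ) = ev g := by
    ext x
    rw [MonoidHom.comp_apply, ev_of]
    by_cases hx : x ∈ I
    · have h2 : ret Iᶜ (FreeGroup.of x) = 1 := by simp [ret, hx]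
      rw [h2, map_one, h1 x hx]
    · have h2 : ret Iᶜ (FreeGroup.of x) = FreeGroup.of x := by simp [ret, hx]
      rw [h2, ev_of]
  exact DFunLike.congr_fun h w

theorem ev_UU (g : Fin n → G) {I : Finset (Fin n)} (h1 : ∀ i ∈ I, g i = 1) {a : Fin n}
    {u : FreeGroup (Fin n)} (hu : u ∈ UU I a) : ev g (kill a u) = 1 := by
  obtain ⟨h2, h3⟩ := hu
  rw [h3, ← ev_ret g h1, h2, map_one]

/-- the generators of `UU I a` -/
def gens (I : Finset (Fin n)) (a : Fin n) : Set (FreeGroup (Fin n)) :=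
  {q | ∃ i ∈ I, i ≠ a ∧ ∃ v ∈ fsub Iᶜ, kill a v = v ∧ q = v * FreeGroup.of i * v⁻¹}

theorem gens_conj {I : Finset (Fin n)} {a : Fin n} {t : FreeGroup (Fin n)} (ht : t ∈ fsub Iᶜ)
    (hta : kill a t = t) {w : FreeGroup (Fin n)} (hw : w ∈ Subgroup.closure (gens I a)) :
    t * w * t⁻¹ ∈ Subgroup.closure (gens I a) := by
  induction hw using Subgroup.closure_induction with
  | mem y hy =>
    obtain ⟨i, hi, hia, v, hv, hva, rfl⟩ := hy
    apply Subgroup.subset_closure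
    refine ⟨i, hi, hia, t * v, (fsub Iᶜ).mul_mem ht hv, by rw [map_mul, hta, hva], ?_⟩
    group
  | one =>
    rw [mul_one, mul_inv_cancel]
    exact Subgroup.one_mem _
  | mul y z _ _ hy hz =>
    have e : t * (y * z) * t⁻¹ = (t * y * t⁻¹) * (t * z * t⁻¹) := by group
    rw [e]
    exact Subgroup.mul_mem _ hy hz
  | inv y _ hy =>
    have e : t * y⁻¹ * t⁻¹ = (t * y * t⁻¹)⁻¹ := by group
    rw [e]
    exact Subgroup.inv_mem _ hy

theorem gen_aux (I : Finset (Fin n)) (a : Fin n) (w : FreeGroup (Fin n)) :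
    kill a w * (ret Iᶜ (kill a w))⁻¹ ∈ Subgroup.closure (gens I a) := by
  have hlet : ∀ x : Fin n, kill a (FreeGroup.of x) *
      (ret Iᶜ (kill a (FreeGroup.of x)))⁻¹ ∈ Subgroup.closure (gens I a) ∧
      (kill a (FreeGroup.of x))⁻¹ * ret Iᶜ (kill a (FreeGroup.of x)) ∈
        Subgroup.closure (gens I a) := by
    intro x
    by_cases hxa : x = a
    · rw [hxa, kill_of_self, map_one, inv_one, mul_one]
      exact ⟨Subgroup.one_mem _, Subgroup.one_mem _⟩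
    · rw [kill_of_ne hxa]
      by_cases hx : x ∈ I
      · have h2 : ret Iᶜ (FreeGroup.of x) = 1 := by simp [ret, hx]
        have h3 : FreeGroup.of x ∈ Subgroup.closure (gens I a) := by
          apply Subgroup.subset_closure
          refine ⟨x, hx, hxa, 1, (fsub Iᶜ).one_mem, map_one _, ?_⟩
          group
        rw [h2, inv_one, mul_one, mul_one]
        exact ⟨h3, Subgroup.inv_mem _ h3⟩
      · have h2 : ret Iᶜ (FreeGroup.of x) = FreeGroup.of x := by simp [ret, hx]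
        rw [h2, mul_inv_cancel, inv_mul_cancel]
        exact ⟨Subgroup.one_mem _, Subgroup.one_mem _⟩
  induction w using FreeGroup.induction_on with
  | C1 =>
    rw [map_one, map_one, inv_one, mul_one]
    exact Subgroup.one_mem _
  | of x => exact (hlet x).1
  | inv_of x _ =>
    have h := (hlet x).2
    rw [map_inv, map_inv, inv_inv]
    exact h
  | mul x y hx hy =>
    rw [map_mul, map_mul, mul_inv_rev]
    have e : kill a x * kill a y * ((ret Iᶜ (kill a y))⁻¹ * (ret Iᶜ (kill a x))⁻¹) =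
        (kill a x * (ret Iᶜ (kill a x))⁻¹) *
          (ret Iᶜ (kill a x) * (kill a y * (ret Iᶜ (kill a y))⁻¹) * (ret Iᶜ (kill a x))⁻¹) := by
      group
    rw [e]
    refine Subgroup.mul_mem _ hx (gens_conj (ret_mem _ _) ?_ hy)
    have hcomm : (kill a).comp ((ret Iᶜ).comp (kill a)) = (ret Iᶜ).comp (kill a) := by
      ext z
      simp only [MonoidHom.comp_apply]
      by_cases hza : z = a
      · rw [hza, kill_of_self, map_one, map_one]
      · rw [kill_of_ne hza]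
        by_cases hz : z ∈ I
        · have h2 : ret Iᶜ (FreeGroup.of z) = 1 := by simp [ret, hz]
          rw [h2, map_one]
        · have h2 : ret Iᶜ (FreeGroup.of z) = FreeGroup.of z := by simp [ret, hz]
          rw [h2, kill_of_ne hza]
    exact DFunLike.congr_fun hcomm x

/-- `UU I a` is generated by the `v x_i v⁻¹` -/
theorem UU_le (I : Finset (Fin n)) (a : Fin n) : UU I a ≤ Subgroup.closure (gens I a) := by
  intro u hu
  obtain ⟨h2, h3⟩ := hu
  have h := gen_aux I a u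
  rwa [h3, h2, inv_one, mul_one] at h

theorem gens_UU {I : Finset (Fin n)} {a : Fin n} {q : FreeGroup (Fin n)} (hq : q ∈ gens I a) :
    q ∈ UU I a := by
  obtain ⟨i, hi, hia, v, hv, hva, rfl⟩ := hq
  refine ⟨?_, ?_⟩
  · have h2 : ret Iᶜ (FreeGroup.of i) = 1 := by simp [ret, hi]
    rw [map_mul, map_mul, map_inv, h2, mul_one, mul_inv_cancel]
  · rw [map_mul, map_mul, map_inv, hva, kill_of_ne hia]

end

section Main

variable {n m : ℕ} {G : Type*} [Group G] (g : Fin n → G) (I : Finset (Fin n))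
  (Hin : Subgroup (MulAut (FreeGroup (Fin n))))
  (ρ : Hin →* Matrix.GeneralLinearGroup (Fin m) ℤ)

/-- conjugation by an element of the stabiliser which preserves the words without `a` -/
theorem conj_comm (hΓ : Gam g ≤ Hin) {a : Fin n} {φ : MulAut (FreeGroup (Fin n))}
    (hφ : φ ∈ Gam g) (hp : Pres a φ) {w : FreeGroup (Fin n)} (hw : kill a w = w)
    (h : R a w ∈ KerH Hin ρ) : R a (φ w) ∈ KerH Hin ρ := by
  have h1 := KerH_conj Hin ρ (hΓ hφ) h
  rwa [hp.conj_R, hw] at h1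

theorem comm_ne (hΓ : Gam g ≤ Hin) (h1 : ∀ i ∈ I, g i = 1)
    (hS1 : ∀ a : Fin n, ∀ i ∈ I, ∀ i' ∈ I, i ≠ i' → a ≠ i → a ≠ i' →
      R a (cm i i') ∈ KerH Hin ρ) {a i i' : Fin n} (hi : i ∈ I) (hi' : i' ∈ I) (hia : i ≠ a)
    (hia' : i' ≠ a) (hii : i ≠ i') {v v' : FreeGroup (Fin n)} (hv : v ∈ fsub Iᶜ)
    (hv' : v' ∈ fsub Iᶜ) (hva : kill a v = v) (hva' : kill a v' = v') :
    R a ((v * FreeGroup.of i * v⁻¹) * (v' * FreeGroup.of i' * v'⁻¹) *
      (v * FreeGroup.of i * v⁻¹)⁻¹ * (v' * FreeGroup.of i' * v'⁻¹)⁻¹) ∈ KerH Hin ρ := by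
  have hniI : i ∉ Iᶜ := by simp [hi]
  have hniI' : i' ∉ Iᶜ := by simp [hi']
  have hφ : C i v⁻¹ * C i' v'⁻¹ ∈ Gam g :=
    (Gam g).mul_mem (C_mem g (h1 i hi) _) (C_mem g (h1 i' hi') _)
  have hc1 : kill a v⁻¹ = v⁻¹ := by rw [map_inv, hva]
  have hc2 : kill a v'⁻¹ = v'⁻¹ := by rw [map_inv, hva']
  have hp1 : Pres a (C i v⁻¹) := pres_C hia.symm hc1
  have hp2 : Pres a (C i' v'⁻¹) := pres_C hia'.symm hc2
  have hcm : kill a (cm i i') = cm i i' := by
    unfold cm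
    rw [map_mul, map_mul, map_mul, map_inv, map_inv, kill_of_ne hia, kill_of_ne hia']
  have k0 := conj_comm g Hin ρ hΓ (C_mem g (h1 i' hi') v'⁻¹) hp2 hcm
    (hS1 a i hi i' hi' hii hia.symm hia'.symm)
  have hcm2 : kill a (C i' v'⁻¹ (cm i i')) = C i' v'⁻¹ (cm i i') := by
    have := hp2.2 (cm i i')
    rwa [hcm] at this
  have k1 := conj_comm g Hin ρ hΓ (C_mem g (h1 i hi) v⁻¹) hp1 hcm2 k0
  have q1 : C i' v'⁻¹ (FreeGroup.of i) = FreeGroup.of i := C_of_ne hii _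
  have q2 : C i' v'⁻¹ (FreeGroup.of i') = v' * FreeGroup.of i' * v'⁻¹ := by
    rw [C_of_self, map_inv, inv_inv, kill_eq hv' hniI']
  have f1 : C i' v'⁻¹ (cm i i') = FreeGroup.of i * (v' * FreeGroup.of i' * v'⁻¹) *
      (FreeGroup.of i)⁻¹ * (v' * FreeGroup.of i' * v'⁻¹)⁻¹ := by
    simp only [cm, map_mul (C i' v'⁻¹), map_inv (C i' v'⁻¹), q1, q2]
  have f2 : C i v⁻¹ v' = v' := C_fixed _ (kill_eq hv' hniI)
  have f3 : C i v⁻¹ (FreeGroup.of i) = v * FreeGroup.of i * v⁻¹ := by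
    rw [C_of_self, map_inv, inv_inv, kill_eq hv hniI]
  have f4 : C i v⁻¹ (FreeGroup.of i') = FreeGroup.of i' := C_of_ne hii.symm _
  rw [f1] at k1
  simp only [map_mul (C i v⁻¹), map_inv (C i v⁻¹), f2, f3, f4] at k1
  exact k1

end Main

end STwo

section Rep

variable {n m : ℕ} {G : Type*} [Group G] (g : Fin n → G) (I : Finset (Fin n))
  (Hin : Subgroup (MulAut (FreeGroup (Fin n))))
  (ρ : Hin →* Matrix.GeneralLinearGroup (Fin m) ℤ)

open STwo in
/-- MODULE S2, file Pool/Agent/RED/STwo.lean -/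
theorem S2 (hΓ : Gam g ≤ Hin) (h1 : ∀ i ∈ I, g i = 1) (hI : 5 ≤ I.card)
    (hS1 : ∀ a : Fin n, ∀ i ∈ I, ∀ i' ∈ I, i ≠ i' → a ≠ i → a ≠ i' →
      R a (cm i i') ∈ KerH Hin ρ) :
    ∀ a, ∀ u ∈ UU I a, ∀ u' ∈ UU I a, R a (u * u' * u⁻¹ * u'⁻¹) ∈ KerH Hin ρ := by
  intro a
  have hmem : ∀ u : FreeGroup (Fin n), u ∈ UU I a → R a u ∈ Hin := fun u hu =>
    hΓ (R_mem g a (ev_UU g h1 hu))
  -- the homomorphism
  obtain ⟨F, hF⟩ : ∃ F : UU I a →* Matrix.GeneralLinearGroup (Fin m) ℤ,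
      ∀ (u u' : FreeGroup (Fin n)) (hu : u ∈ UU I a) (hu' : u' ∈ UU I a),
        R a (u * u' * u⁻¹ * u'⁻¹) ∈ KerH Hin ρ ↔
          F ⟨u, hu⟩ * F ⟨u', hu'⟩ = F ⟨u', hu'⟩ * F ⟨u, hu⟩ := by
    obtain ⟨F, hF⟩ : ∃ F : UU I a →* Matrix.GeneralLinearGroup (Fin m) ℤ,
        ∀ (u : FreeGroup (Fin n)) (hu : u ∈ UU I a), F ⟨u, hu⟩ = ρ ⟨R a u, hmem u hu⟩ :=
      ⟨ρ.comp ((((R a).comp (UU I a).subtype)).codRestrict Hin (fun u => hmem u.1 u.2)),
        fun _ _ => rfl⟩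
    refine ⟨F, fun u u' hu hu' => ?_⟩
    have hc : u * u' * u⁻¹ * u'⁻¹ ∈ UU I a :=
      (UU I a).mul_mem ((UU I a).mul_mem ((UU I a).mul_mem hu hu') ((UU I a).inv_mem hu))
        ((UU I a).inv_mem hu')
    have e0 : (⟨u * u' * u⁻¹ * u'⁻¹, hc⟩ : UU I a) =
        ⟨u, hu⟩ * ⟨u', hu'⟩ * (⟨u, hu⟩ : UU I a)⁻¹ * (⟨u', hu'⟩ : UU I a)⁻¹ := rfl
    have e : F ⟨u * u' * u⁻¹ * u'⁻¹, hc⟩ = 1 ↔
        F ⟨u, hu⟩ * F ⟨u', hu'⟩ = F ⟨u', hu'⟩ * F ⟨u, hu⟩ := by
      rw [e0, map_mul, map_mul, map_mul, map_inv, map_inv, mul_inv_eq_one, mul_inv_eq_iff_eq_mul]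
    rw [← e, mem_KerH, hF]
    constructor
    · rintro ⟨hh, h2⟩
      exact h2
    · intro h2
      exact ⟨hmem _ hc, h2⟩
  -- commutation of the generators
  have hgen : ∀ u u' : UU I a, u.1 ∈ gens I a → u'.1 ∈ gens I a → F u * F u' = F u' * F u := by
    rintro ⟨u, hu⟩ ⟨u', hu'⟩ hq hq'
    have hq0 := hq
    have hq0' := hq'
    obtain ⟨i, hi, hia, v, hv, hva, hqe⟩ := hq0
    obtain ⟨i', hi', hia', v', hv', hva', hqe'⟩ := hq0'
    dsimp only at hq hq' hqe hqe'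
    by_cases hii : i = i'
    · subst hii
      obtain ⟨i2, hi2, hi2i, hi2a⟩ : ∃ i2 ∈ I, i2 ≠ i ∧ i2 ≠ a := by
        have hcard : 0 < ((I.erase i).erase a).card := by
          have h2 := Finset.pred_card_le_card_erase (s := I) (a := i)
          have h3 := Finset.pred_card_le_card_erase (s := I.erase i) (a := a)
          omega
        obtain ⟨i2, h2⟩ := Finset.card_pos.1 hcard
        rw [Finset.mem_erase, Finset.mem_erase] at h2
        exact ⟨i2, h2.2.2, h2.2.1, h2.1⟩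
      have hw : v * FreeGroup.of i2 * v⁻¹ ∈ UU I a := gens_UU ⟨i2, hi2, hi2a, v, hv, hva, rfl⟩
      have k1 := comm_ne g I Hin ρ hΓ h1 hS1 hi2 hi hi2a hia hi2i hv hv' hva hva'
      -- conjugation by `R i2 x_i`
      have hR : R i2 (FreeGroup.of i) ∈ Gam g := by
        refine R_mem g i2 ?_
        rw [kill_of_ne hi2i.symm, ev_of, h1 i hi]
      have hp : Pres a (R i2 (FreeGroup.of i)) := pres_R hi2a.symm (kill_of_ne hia)
      have hni2 : i2 ∉ Iᶜ := by simp [hi2]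
      have e1 : R i2 (FreeGroup.of i) v = v := R_fixed _ (kill_eq hv hni2)
      have e2 : R i2 (FreeGroup.of i) v' = v' := R_fixed _ (kill_eq hv' hni2)
      have e3 : R i2 (FreeGroup.of i) (FreeGroup.of i) = FreeGroup.of i := R_of_ne hi2i.symm _
      have e4 : R i2 (FreeGroup.of i) (FreeGroup.of i2) = FreeGroup.of i2 * FreeGroup.of i := by
        rw [R_of_self, kill_of_ne hi2i.symm]
      have hk : kill a ((v * FreeGroup.of i2 * v⁻¹) * (v' * FreeGroup.of i * v'⁻¹) *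
          (v * FreeGroup.of i2 * v⁻¹)⁻¹ * (v' * FreeGroup.of i * v'⁻¹)⁻¹) =
          (v * FreeGroup.of i2 * v⁻¹) * (v' * FreeGroup.of i * v'⁻¹) *
          (v * FreeGroup.of i2 * v⁻¹)⁻¹ * (v' * FreeGroup.of i * v'⁻¹)⁻¹ := by
        simp only [map_mul, map_inv, hva, hva', kill_of_ne hia, kill_of_ne hi2a]
      have k2 := conj_comm g Hin ρ hΓ hR hp hk k1
      simp only [map_mul (R i2 (FreeGroup.of i)), map_inv (R i2 (FreeGroup.of i)), e1, e2, e3,
        e4] at k2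
      have e5 : v * (FreeGroup.of i2 * FreeGroup.of i) * v⁻¹ = (v * FreeGroup.of i2 * v⁻¹) * u := by
        rw [hqe]; group
      rw [e5, ← hqe'] at k2
      rw [← hqe'] at k1
      have c1 := (hF _ u' hw hu').1 k1
      have c2 := (hF _ u' ((UU I a).mul_mem hw hu) hu').1 k2
      have e6 : (⟨v * FreeGroup.of i2 * v⁻¹ * u, (UU I a).mul_mem hw hu⟩ : UU I a) =
          ⟨v * FreeGroup.of i2 * v⁻¹, hw⟩ * ⟨u, hu⟩ := rfl
      rw [e6, map_mul] at c2
      have c3 : Commute (F ⟨_, hw⟩) (F ⟨u', hu'⟩) := c1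
      have c4 : Commute (F ⟨_, hw⟩ * F ⟨u, hu⟩) (F ⟨u', hu'⟩) := c2
      have c5 := (c3.inv_left).mul_left c4
      rw [inv_mul_cancel_left] at c5
      exact c5
    · refine (hF _ _ _ _).1 ?_
      have k1 := comm_ne g I Hin ρ hΓ h1 hS1 hi hi' hia hia' hii hv hv' hva hva'
      rw [← hqe, ← hqe'] at k1
      exact k1
  -- the general case
  have step : ∀ u' : UU I a, (∀ u : UU I a, u.1 ∈ gens I a → F u * F u' = F u' * F u) →
      ∀ u : FreeGroup (Fin n), u ∈ Subgroup.closure (gens I a) →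
        ∃ h : u ∈ UU I a, F ⟨u, h⟩ * F u' = F u' * F ⟨u, h⟩ := by
    intro u' hu' u hu
    induction hu using Subgroup.closure_induction with
    | mem y hy => exact ⟨gens_UU hy, hu' ⟨y, gens_UU hy⟩ hy⟩
    | one =>
      refine ⟨(UU I a).one_mem, ?_⟩
      have e : (⟨1, (UU I a).one_mem⟩ : UU I a) = 1 := rfl
      rw [e, map_one, one_mul, mul_one]
    | mul y z _ _ hy hz =>
      obtain ⟨hy1, hy2⟩ := hy
      obtain ⟨hz1, hz2⟩ := hz
      refine ⟨(UU I a).mul_mem hy1 hz1, ?_⟩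
      have e : (⟨y * z, (UU I a).mul_mem hy1 hz1⟩ : UU I a) = ⟨y, hy1⟩ * ⟨z, hz1⟩ := rfl
      rw [e, map_mul]
      exact Commute.mul_left (show Commute _ _ from hy2) hz2
    | inv y _ hy =>
      obtain ⟨hy1, hy2⟩ := hy
      refine ⟨(UU I a).inv_mem hy1, ?_⟩
      have e : (⟨y⁻¹, (UU I a).inv_mem hy1⟩ : UU I a) = ⟨y, hy1⟩⁻¹ := rfl
      rw [e, map_inv]
      exact Commute.inv_left (show Commute _ _ from hy2)
  intro u hu u' hu'
  refine (hF u u' hu hu').2 ?_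
  have s1 : ∀ w : UU I a, w.1 ∈ gens I a → F w * F ⟨u', hu'⟩ = F ⟨u', hu'⟩ * F w := by
    intro w hw
    obtain ⟨h3, h4⟩ := step w (fun y hy => hgen y w hy hw) u' (UU_le I a hu')
    exact h4.symm
  obtain ⟨h3, h4⟩ := step ⟨u', hu'⟩ s1 u (UU_le I a hu)
  exact h4

end Rep

end RED
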