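import Mathlib
import Pool.Agent.RED.Defs
import Pool.Agent.IAQ.KEng
import Pool.Agent.IAQ.MagDef
import Pool.Agent.RED.SOne
import Pool.Agent.RED.STwo
import Pool.Agent.RED.Mink

/-!
# The hypotheses of part B for representations
-/

set_option autoImplicit false
set_option linter.style.haveILetI false

namespace RED

open AFn IAQ

section Values

variable {n : ℕ} {G : Type*} [Group G] (g : Fin n → G)

theorem hm_ev_R {a : Fin n} {w : FreeGroup (Fin n)} (hw : ev g (kill a w) = 1) :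
    R a w ∈ Gam g := by
  intro x
  have h : (ev g).comp (R a w).toMonoidHom = ev g := by
    ext y
    show ev g (R a w (FreeGroup.of y)) = ev g (FreeGroup.of y)
    rw [R_of]
    by_cases hy : y = a
    · rw [if_pos hy, map_mul, hw, mul_one]
    · rw [if_neg hy]
  exact DFunLike.congr_fun h x

variable {I : Finset (Fin n)}

theorem hm_ev_ret {g : Fin n → G} (h1 : ∀ i ∈ I, g i = 1) (w : FreeGroup (Fin n)) :
    ev g (ret Iᶜ w) = ev g w := by
  have h : (ev g).comp (ret Iᶜ) = ev g := by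
    ext y
    rw [MonoidHom.comp_apply]
    by_cases hy : y ∈ I
    · have e : ret Iᶜ (FreeGroup.of y) = 1 := by simp [ret, hy]
      rw [e, map_one, ev_of, h1 y hy]
    · have e : ret Iᶜ (FreeGroup.of y) = FreeGroup.of y := by simp [ret, hy]
      rw [e]
  exact DFunLike.congr_fun h w

theorem hm_UU {g : Fin n → G} (h1 : ∀ i ∈ I, g i = 1) {a : Fin n} {u : FreeGroup (Fin n)}
    (hu : u ∈ UU I a) : R a u ∈ Gam g := by
  refine hm_ev_R g ?_
  rw [hu.2, ← hm_ev_ret h1, hu.1, map_one]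

/-- the words without the letter `i` and trivial modulo `I` are products of conjugates of letters -/
theorem hm_UU_closure {i : Fin n} (hi : i ∈ I) {u : FreeGroup (Fin n)} (hu : u ∈ UU I i) :
    u ∈ Subgroup.closure {x : FreeGroup (Fin n) | ∃ j ∈ I, j ≠ i ∧ ∃ w, kill i w = w ∧
      x = w * FreeGroup.of j * w⁻¹} := by
  obtain ⟨N, hN⟩ : ∃ N : Subgroup (FreeGroup (Fin n)), N = Subgroup.closure
    {x : FreeGroup (Fin n) | ∃ j ∈ I, j ≠ i ∧ ∃ w, kill i w = w ∧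
      x = w * FreeGroup.of j * w⁻¹} := ⟨_, rfl⟩
  rw [← hN]
  have hconj : ∀ v : FreeGroup (Fin n), kill i v = v → ∀ x ∈ N, v * x * v⁻¹ ∈ N := by
    intro v hv x hx
    have h2 : N ≤ N.comap (MulAut.conj v).toMonoidHom := by
      conv_lhs => rw [hN]
      rw [Subgroup.closure_le]
      rintro _ ⟨j, hj, hji, w, hw, rfl⟩
      show v * (w * FreeGroup.of j * w⁻¹) * v⁻¹ ∈ N
      rw [hN]
      refine Subgroup.subset_closure ⟨j, hj, hji, v * w, ?_, ?_⟩
      · rw [map_mul, hv, hw]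
      · group
    exact h2 hx
  have key : ∀ w : FreeGroup (Fin n), kill i w * (ret Iᶜ w)⁻¹ ∈ N := by
    intro w
    induction w using FreeGroup.induction_on with
    | C1 =>
      rw [map_one, map_one, inv_one, mul_one]
      exact N.one_mem
    | of x =>
      show kill i (FreeGroup.of x) * (ret Iᶜ (FreeGroup.of x))⁻¹ ∈ N
      by_cases hx : x ∈ I
      · have e : ret Iᶜ (FreeGroup.of x) = 1 := by simp [ret, hx]
        rw [e, inv_one, mul_one]
        by_cases hxi : x = i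
        · rw [hxi, kill_of_self]
          exact N.one_mem
        · rw [kill_of_ne hxi, hN]
          exact Subgroup.subset_closure ⟨x, hx, hxi, 1, map_one _, by group⟩
      · have e : ret Iᶜ (FreeGroup.of x) = FreeGroup.of x := by simp [ret, hx]
        have hxi : x ≠ i := fun h => hx (h ▸ hi)
        rw [e, kill_of_ne hxi, mul_inv_cancel]
        exact N.one_mem
    | inv_of x ih =>
      have e : kill i (FreeGroup.of x)⁻¹ * (ret Iᶜ (FreeGroup.of x)⁻¹)⁻¹ = (kill i (FreeGroup.of x))⁻¹ *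
          (kill i (FreeGroup.of x) * (ret Iᶜ (FreeGroup.of x))⁻¹)⁻¹ * (kill i (FreeGroup.of x))⁻¹⁻¹ := by
        rw [map_inv, map_inv]
        group
      rw [e]
      refine hconj _ ?_ _ (N.inv_mem ih)
      rw [map_inv, kill_kill]
    | mul x y hx hy =>
      have e : kill i (x * y) * (ret Iᶜ (x * y))⁻¹ = (kill i x *
          (kill i y * (ret Iᶜ y)⁻¹) * (kill i x)⁻¹) * (kill i x * (ret Iᶜ x)⁻¹) := by
        rw [map_mul, map_mul]
        group
      rw [e]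
      exact N.mul_mem (hconj _ (kill_kill i x) _ hy) hx
  have h := key u
  rwa [hu.1, hu.2, inv_one, mul_one] at h

end Values

section Rep

variable {n m : ℕ} {G : Type*} [Group G] (g : Fin n → G) (I : Finset (Fin n))
  (Hin : Subgroup (MulAut (FreeGroup (Fin n))))
  (ρ : Hin →* Matrix.GeneralLinearGroup (Fin m) ℤ)

theorem hm_fe_eq_one (hΓ : Gam g ≤ Hin) {φ : MulAut (FreeGroup (Fin n))} (h : φ ∈ Gam g)
    (hK : φ ∈ KerH Hin ρ) : fe g (ρ.comp (Subgroup.inclusion hΓ)) φ = 1 := by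
  rw [fe_of_mem _ _ h]
  obtain ⟨_, h2⟩ := (mem_KerH Hin ρ).1 hK
  exact h2

theorem hm_fe_pow {T : Type*} [Group T] (f : Gam g →* T) {φ : MulAut (FreeGroup (Fin n))}
    (h : φ ∈ Gam g) (N : ℕ) : fe g f (φ ^ N) = fe g f φ ^ N := by
  rw [fe_of_mem _ _ h, fe_of_mem _ _ ((Gam g).pow_mem h N), ← map_pow]
  rfl

theorem hyp_main_of (hf : Hin.FiniteIndex) (hm : m + 2 ≤ n) (hΓ : Gam g ≤ Hin)
    (h1 : ∀ i ∈ I, g i = 1) (hJ : Iᶜ.card + 4 ≤ n)
    (hJ2 : m ≤ 2 ^ (n - 2 - Iᶜ.card) + 1)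
    (hS2 : ∀ a, ∀ u ∈ UU I a, ∀ u' ∈ UU I a, R a (u * u' * u⁻¹ * u'⁻¹) ∈ KerH Hin ρ)
    (hmink : ∀ A : Subgroup (Matrix.GeneralLinearGroup (Fin m) ℤ),
      (∀ x ∈ A, ∀ y ∈ A, x * y = y * x) → ∀ N : ℕ, 0 < N → (∀ x ∈ A, x ^ N = 1) → Finite A) :
    Hyp g I (ρ.comp (Subgroup.inclusion hΓ)) := by
  classical
  obtain ⟨N, hN, hK0⟩ := K0 Hin ρ hf hm
  have hkap : kap Hin ρ ≤ KerH Hin ρ := Subgroup.normalCore_le _
  obtain ⟨f, hf'⟩ : ∃ f : Gam g →* Matrix.GeneralLinearGroup (Fin m) ℤ,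
    f = ρ.comp (Subgroup.inclusion hΓ) := ⟨_, rfl⟩
  rw [← hf']
  have hker : ∀ φ, φ ∈ Gam g → φ ∈ KerH Hin ρ → fe g f φ = 1 := by
    intro φ h h'
    rw [hf']
    exact hm_fe_eq_one g Hin ρ hΓ h h'
  have hS : ∀ a, ∀ u ∈ UU I a, ∀ u' ∈ UU I a, Commute (fe g f (R a u)) (fe g f (R a u')) := by
    intro a u hu u' hu'
    have h2 := hker _ (hm_UU h1 ((UU I a).mul_mem ((UU I a).mul_mem ((UU I a).mul_mem hu hu')
      ((UU I a).inv_mem hu)) ((UU I a).inv_mem hu'))) (hS2 a u hu u' hu')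
    have m1 := hm_UU h1 hu
    have m2 := hm_UU h1 hu'
    rw [map_mul, map_mul, map_mul, map_inv, map_inv, fe_mul g f ((Gam g).mul_mem ((Gam g).mul_mem
      m1 m2) ((Gam g).inv_mem m1)) ((Gam g).inv_mem m2), fe_mul g f ((Gam g).mul_mem m1 m2)
      ((Gam g).inv_mem m1), fe_mul g f m1 m2, fe_inv g f m1, fe_inv g f m2, mul_inv_eq_one,
      mul_inv_eq_iff_eq_mul] at h2
    exact h2
  refine ⟨h1, hS, ?_, ?_, ?_⟩
  · -- (A)
    intro i hi
    obtain ⟨A, hA⟩ : ∃ A : Subgroup (Matrix.GeneralLinearGroup (Fin m) ℤ),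
        ∀ x, x ∈ A ↔ ∃ u ∈ UU I i, x = fe g f (R i u) := by
      refine ⟨{ carrier := {x | ∃ u ∈ UU I i, x = fe g f (R i u)}
                one_mem' := ⟨1, (UU I i).one_mem, by rw [map_one, fe_one]⟩
                mul_mem' := ?_
                inv_mem' := ?_ }, fun x => Iff.rfl⟩
      · rintro _ _ ⟨u, hu, rfl⟩ ⟨u', hu', rfl⟩
        exact ⟨u * u', (UU I i).mul_mem hu hu', by
          rw [map_mul, fe_mul g f (hm_UU h1 hu) (hm_UU h1 hu')]⟩
      · rintro _ ⟨u, hu, rfl⟩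
        exact ⟨u⁻¹, (UU I i).inv_mem hu, by rw [map_inv, fe_inv g f (hm_UU h1 hu)]⟩
    have hcomm : ∀ x ∈ A, ∀ y ∈ A, x * y = y * x := by
      intro x hx y hy
      obtain ⟨u, hu, rfl⟩ := (hA x).1 hx
      obtain ⟨u', hu', rfl⟩ := (hA y).1 hy
      exact hS i u hu u' hu'
    -- the exponent
    obtain ⟨D, hD⟩ : ∃ D : Subgroup (FreeGroup (Fin n)),
        ∀ u, u ∈ D ↔ u ∈ UU I i ∧ fe g f (R i u) ^ N = 1 := by
      refine ⟨{ carrier := {u | u ∈ UU I i ∧ fe g f (R i u) ^ N = 1}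
                one_mem' := ⟨(UU I i).one_mem, by rw [map_one, fe_one, one_pow]⟩
                mul_mem' := ?_
                inv_mem' := ?_ }, fun x => Iff.rfl⟩
      · rintro u u' ⟨hu, hu2⟩ ⟨hu', hu2'⟩
        refine ⟨(UU I i).mul_mem hu hu', ?_⟩
        rw [map_mul, fe_mul g f (hm_UU h1 hu) (hm_UU h1 hu'), (hS i u hu u' hu').mul_pow, hu2,
          hu2', mul_one]
      · rintro u ⟨hu, hu2⟩
        refine ⟨(UU I i).inv_mem hu, ?_⟩
        rw [map_inv, fe_inv g f (hm_UU h1 hu), inv_pow, hu2, inv_one]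
    have hDU : ∀ u ∈ UU I i, u ∈ D := by
      intro u hu
      have h2 := hm_UU_closure hi hu
      refine (Subgroup.closure_le D).2 ?_ h2
      rintro _ ⟨j, hj, hji, w, hw, rfl⟩
      rw [SetLike.mem_coe, hD]
      have hmem : w * FreeGroup.of j * w⁻¹ ∈ UU I i := by
        have e1 : ret Iᶜ (FreeGroup.of j) = 1 := by simp [ret, hj]
        refine ⟨?_, ?_⟩
        · rw [map_mul, map_mul, map_inv, e1, mul_one, mul_inv_cancel]
        · rw [map_mul, map_mul, map_inv, hw, kill_of_ne hji]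
      refine ⟨hmem, ?_⟩
      rw [← hm_fe_pow g f (hm_UU h1 hmem)]
      refine hker _ ((Gam g).pow_mem (hm_UU h1 hmem) N) (hkap ?_)
      have e : R i (w * FreeGroup.of j * w⁻¹) ^ N = C i w * R i (FreeGroup.of j) ^ N * (C i w)⁻¹ := by
        rw [← C_conj_R, conj_pow]
      rw [e]
      exact (kap_normal Hin ρ).conj_mem _ (hK0 i j).1 _
    have hfin : Finite A := by
      refine hmink A hcomm N hN ?_
      intro x hx
      obtain ⟨u, hu, rfl⟩ := (hA x).1 hx
      exact ((hD u).1 (hDU u hu)).2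
    have h3 : {x | ∃ u ∈ UU I i, x = fe g f (R i u)} = (A : Set _) := by
      ext x
      exact (hA x).symm
    rw [h3]
    exact Set.toFinite _
  · -- (B)
    intro i hi
    obtain ⟨K, hKf, _, hK⟩ := final_core5 n m Hin hf ρ
    have hi' : i ∉ Iᶜ := by simpa using hi
    have hval : ∀ k ∈ fsub Iᶜ, ev g k = 1 → R i k ∈ Gam g := by
      intro k hk hk1
      refine hm_ev_R g ?_
      rw [kill_eq hk hi', hk1]
    have hkill : ∀ k ∈ fsub Iᶜ, ev g k = 1 → k ∈ K → fe g f (R i k) = 1 := by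
      intro k hk hk1 hkK
      refine hker _ (hval k hk hk1) ?_
      rw [mem_KerH]
      have hkk : kill i k = k := kill_eq hk hi'
      obtain ⟨hh, h2⟩ := hK 1 Iᶜ (Or.inr ⟨hJ, hm, hJ2⟩) 1 K.one_mem (Subgroup.one_mem _)
        (fun _ => 1) (fun c => if c = i then k else 1) (by
          intro c hc
          by_cases h : c = i
          · rw [if_pos h]
            exact ⟨K.one_mem, Subgroup.one_mem _, hkK, hk⟩
          · rw [if_neg h]
            exact ⟨K.one_mem, Subgroup.one_mem _, K.one_mem, Subgroup.one_mem _⟩) (R i k) (by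
          intro c hc
          have hca : c ≠ i := fun h => hi' (h ▸ hc)
          rw [R_of_ne hca]
          group) (by
          intro c hc
          by_cases h : c = i
          · subst h
            rw [if_pos rfl, R_of_self, hkk, one_mul]
          · rw [if_neg h, R_of_ne h]
            group)
      have e : (1 : MulAut (FreeGroup (Fin n))) * R i k * 1⁻¹ = R i k := by
        rw [one_mul, inv_one, mul_one]
      have h3 : ∀ (ψ : MulAut (FreeGroup (Fin n))) (_ : ψ = R i k) (hψ : ψ ∈ Hin),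
          ρ ⟨ψ, hψ⟩ = 1 → ∃ hh : R i k ∈ Hin, ρ ⟨R i k, hh⟩ = 1 := by
        rintro ψ rfl hψ h4
        exact ⟨hψ, h4⟩
      exact h3 _ e hh h2
    haveI := hKf
    haveI : Finite (FreeGroup (Fin n) ⧸ K) := inferInstance
    refine (Set.finite_range (fun q : FreeGroup (Fin n) ⧸ K =>
      if h : ∃ k, (k ∈ fsub Iᶜ ∧ ev g k = 1) ∧ (QuotientGroup.mk k : FreeGroup (Fin n) ⧸ K) = q
        then fe g f (R i h.choose) else 1)).subset ?_
    rintro _ ⟨k, hk, hk1, rfl⟩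
    refine ⟨(QuotientGroup.mk k : FreeGroup (Fin n) ⧸ K), ?_⟩
    have h : ∃ k', (k' ∈ fsub Iᶜ ∧ ev g k' = 1) ∧
        (QuotientGroup.mk k' : FreeGroup (Fin n) ⧸ K) = QuotientGroup.mk k := ⟨k, ⟨hk, hk1⟩, rfl⟩
    show (if h : ∃ k', (k' ∈ fsub Iᶜ ∧ ev g k' = 1) ∧
        (QuotientGroup.mk k' : FreeGroup (Fin n) ⧸ K) = QuotientGroup.mk k
        then fe g f (R i h.choose) else 1) = _
    rw [dif_pos h]
    obtain ⟨⟨c1, c2⟩, c3⟩ := h.choose_spec
    obtain ⟨k', hk'⟩ : ∃ k', k' = h.choose := ⟨_, rfl⟩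
    rw [← hk'] at c1 c2 c3 ⊢
    have hKK : k'⁻¹ * k ∈ K := QuotientGroup.eq.1 c3
    have hmem : k'⁻¹ * k ∈ fsub Iᶜ := (fsub Iᶜ).mul_mem ((fsub Iᶜ).inv_mem c1) hk
    have hev : ev g (k'⁻¹ * k) = 1 := by rw [map_mul, map_inv, c2, hk1, inv_one, one_mul]
    have h4 := hkill _ hmem hev hKK
    rw [map_mul, map_inv, fe_mul g f ((Gam g).inv_mem (hval k' c1 c2)) (hval k hk hk1),
      fe_inv g f (hval k' c1 c2), inv_mul_eq_one] at h4
    exact h4
  · -- (O)
    intro j hj i hi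
    have hji : i ≠ j := fun h => hj (h ▸ hi)
    have hmem : R j (FreeGroup.of i) ∈ Gam g := by
      refine hm_ev_R g ?_
      rw [kill_of_ne hji, ev_of, h1 i hi]
    rw [isOfFinOrder_iff_pow_eq_one]
    refine ⟨N, hN, ?_⟩
    rw [← hm_fe_pow g f hmem]
    exact hker _ ((Gam g).pow_mem hmem N) (hkap (hK0 j i).1)

/-- MODULE HY -/
theorem hyp_main (hf : Hin.FiniteIndex) (hm : m + 2 ≤ n) (hΓ : Gam g ≤ Hin)
    (h1 : ∀ i ∈ I, g i = 1) (hI : 5 ≤ I.card) (hJ : Iᶜ.card + 4 ≤ n)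
    (hJ2 : m ≤ 2 ^ (n - 2 - Iᶜ.card) + 1) :
    Hyp g I (ρ.comp (Subgroup.inclusion hΓ)) :=
  hyp_main_of g I Hin ρ hf hm hΓ h1 hJ hJ2
    (S2 g I Hin ρ hΓ h1 hI fun _ i hi i' hi' hii hai hai' =>
      S1 g Hin ρ hf hm hΓ hii hai hai' (h1 i hi) (h1 i' hi'))
    (fun A hc _ hN hA => mink A hc hN hA)

end Rep

end RED
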