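import Mathlib
import Pool.Agent.RED.Rank

/-!
# A standard form: all letters but at most `d` have value `1`
-/

set_option autoImplicit false

namespace RED

open AFn IAQ

theorem act_R_of_ne {n : ℕ} {G : Type*} [Group G] (g : Fin n → G) {a x : Fin n} (h : x ≠ a)
    (w : FreeGroup (Fin n)) : act (R a w) g x = g x := by
  show ev g ((R a w)⁻¹ (FreeGroup.of x)) = g x
  rw [← map_inv, R_of_ne h, ev_of]

theorem act_R_of_self {n : ℕ} {G : Type*} [Group G] (g : Fin n → G) (a : Fin n)
    (w : FreeGroup (Fin n)) : act (R a w) g a = g a * (ev g (kill a w))⁻¹ := by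
  show ev g ((R a w)⁻¹ (FreeGroup.of a)) = _
  rw [← map_inv, R_of_self, map_mul, ev_of, map_inv, map_inv]

/-- the value of a word depends only on the values of its letters -/
theorem ev_congr_fsub {n : ℕ} {G : Type*} [Group G] {g h : Fin n → G} {S : Finset (Fin n)}
    (hS : ∀ x ∈ S, h x = g x) {w : FreeGroup (Fin n)} (hw : w ∈ fsub S) : ev h w = ev g w := by
  unfold fsub at hw
  induction hw using Subgroup.closure_induction with
  | mem y hy =>
    obtain ⟨x, hx, rfl⟩ := hy
    rw [ev_of, ev_of, hS x (Finset.mem_coe.1 hx)]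
  | one => rw [map_one, map_one]
  | mul y z _ _ hy hz => rw [map_mul, map_mul, hy, hz]
  | inv y _ hy => rw [map_inv, map_inv, hy]

/-- MODULE ST, file Pool/Agent/RED/Std.lean -/
theorem exists_std {n : ℕ} {G : Type*} [Group G] (g : Fin n → G) [Finite G] {d : ℕ}
    (hd : GB G d) :
    ∃ (φ : MulAut (FreeGroup (Fin n))) (I : Finset (Fin n)),
      Iᶜ.card ≤ d ∧ ∀ i ∈ I, act φ g i = 1 := by
  classical
  obtain ⟨M, _, hcard, hM⟩ := exists_gen_sub hd g Finset.univ
  have key : ∀ S : Finset (Fin n), ∃ φ : MulAut (FreeGroup (Fin n)),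
      (∀ i ∈ S, i ∉ M → act φ g i = 1) ∧ ∀ i, (i ∉ S ∨ i ∈ M) → act φ g i = g i := by
    intro S
    induction S using Finset.induction_on with
    | empty => exact ⟨1, fun i hi => absurd hi (Finset.notMem_empty i), fun i _ => by rw [act_one]⟩
    | insert a S ha ih =>
      obtain ⟨φ, h1, h2⟩ := ih
      by_cases haM : a ∈ M
      · refine ⟨φ, fun i hi hiM => ?_, fun i hi => ?_⟩
        · rcases Finset.mem_insert.1 hi with rfl | hi
          · exact absurd haM hiM
          · exact h1 i hi hiM
        · refine h2 i ?_
          rcases hi with hi | hi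
          · exact Or.inl fun h => hi (Finset.mem_insert_of_mem h)
          · exact Or.inr hi
      · obtain ⟨w, hw, hwa⟩ := hM a (Finset.mem_univ a)
        refine ⟨R a w * φ, fun i hi hiM => ?_, fun i hi => ?_⟩
        · rw [act_mul]
          rcases Finset.mem_insert.1 hi with rfl | hi
          · rw [act_R_of_self, kill_eq hw haM, h2 i (Or.inl ha),
              ev_congr_fsub (fun x hx => h2 x (Or.inr hx)) hw, hwa, mul_inv_cancel]
          · have hia : i ≠ a := fun h => ha (h ▸ hi)
            rw [act_R_of_ne _ hia]
            exact h1 i hi hiM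
        · rw [act_mul]
          have hia : i ≠ a := by
            rintro rfl
            rcases hi with hi | hi
            · exact hi (Finset.mem_insert_self _ _)
            · exact haM hi
          rw [act_R_of_ne _ hia]
          refine h2 i ?_
          rcases hi with hi | hi
          · exact Or.inl fun h => hi (Finset.mem_insert_of_mem h)
          · exact Or.inr hi
  obtain ⟨φ, h1, _⟩ := key Finset.univ
  refine ⟨φ, Mᶜ, by rwa [compl_compl], fun i hi => h1 i (Finset.mem_univ _) (Finset.mem_compl.1 hi)⟩

end RED
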