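import Mathlib
import Pool.Agent.RED.HypMain
import Pool.Agent.RED.Std
import Pool.Agent.RED.Rank
import Pool.Agent.RED.GenAll
import Pool.Agent.RED.BMain

set_option autoImplicit false

namespace RED

open AFn IAQ

theorem final_num {m n c j : ℕ} (hn : 6 * c + 5 ≤ n) (hm : m + 2 ≤ n) (hj : j ≤ c) :
    m ≤ 2 ^ (n - 2 - j) + 1 := by
  obtain ⟨s, hs⟩ : ∃ s, n - 2 - j = s + 1 := ⟨n - 2 - j - 1, by omega⟩
  have h1 : s < 2 ^ s := Nat.lt_two_pow_self
  rw [hs, pow_succ]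
  omega

theorem final_gam_range {n m : ℕ} {G : Type*} [Group G] [Finite G] (g : Fin n → G)
    (hg : Function.Surjective (ev g)) (Hin : Subgroup (MulAut (FreeGroup (Fin n))))
    (ρ : Hin →* Matrix.GeneralLinearGroup (Fin m) ℤ) (I : Finset (Fin n))
    {d : ℕ} (hd : GB G d) (hn : 6 * d + 5 ≤ n)
    (hf : Hin.FiniteIndex) (hm : m + 2 ≤ n)
    (hΓ : Gam g ≤ Hin) (hIc : Iᶜ.card ≤ d) (h1 : ∀ i ∈ I, g i = 1) :
    {y | ∃ (x : MulAut (FreeGroup (Fin n))) (hx : x ∈ Gam g), y = ρ ⟨x, hΓ hx⟩}.Finite := by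
  have hcard : I.card + Iᶜ.card = n := by
    have := Finset.card_add_card_compl I
    rwa [Fintype.card_fin] at this
  have hI : 5 ≤ I.card := by omega
  have hyp : Hyp g I (ρ.comp (Subgroup.inclusion hΓ)) :=
    hyp_main g I Hin ρ hf hm hΓ h1 hI (by omega) (final_num hn hm hIc)
  have hE := all_finite g I (ρ.comp (Subgroup.inclusion hΓ)) hyp hI
  set E := Subgroup.closure {x | ∃ φ, φ ∈ Gam g ∧ (∃ c, φ ∈ Mv c) ∧
    x = fe g (ρ.comp (Subgroup.inclusion hΓ)) φ} with hEd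
  have key : ∀ φ ∈ NN g, φ ∈ Gam g ∧ fe g (ρ.comp (Subgroup.inclusion hΓ)) φ ∈ E := by
    intro φ hφ
    induction hφ using Subgroup.closure_induction with
    | mem x hx =>
      exact ⟨hx.1, Subgroup.subset_closure ⟨x, hx.1, hx.2, rfl⟩⟩
    | one => exact ⟨(Gam g).one_mem, by rw [fe_one]; exact E.one_mem⟩
    | mul x y _ _ hx hy =>
      refine ⟨(Gam g).mul_mem hx.1 hy.1, ?_⟩
      rw [fe_mul _ _ hx.1 hy.1]
      exact E.mul_mem hx.2 hy.2
    | inv x _ hx =>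
      refine ⟨(Gam g).inv_mem hx.1, ?_⟩
      rw [fe_inv _ _ hx.1]
      exact E.inv_mem hx.2
  have hEf : (E : Set (Matrix.GeneralLinearGroup (Fin m) ℤ)).Finite := Set.toFinite _
  refine hEf.subset ?_
  rintro y ⟨x, hx, rfl⟩
  have h2 := (key x (gen_all hd hn g hg hx)).2
  rw [fe_of_mem _ _ hx] at h2
  exact h2

theorem final_of_finite {n m : ℕ} {G : Type*} [Group G] [Finite G] (g : Fin n → G)
    (Hin : Subgroup (MulAut (FreeGroup (Fin n))))
    (ρ : Hin →* Matrix.GeneralLinearGroup (Fin m) ℤ) (hΓ : Gam g ≤ Hin)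
    (hS : {y | ∃ (x : MulAut (FreeGroup (Fin n))) (hx : x ∈ Gam g), y = ρ ⟨x, hΓ hx⟩}.Finite) :
    Finite ρ.range := by
  classical
  have hr : ∀ v : Fin n → G, ∃ r : Hin, (∃ x : Hin, act (x : MulAut (FreeGroup (Fin n))) g = v) →
      act (r : MulAut (FreeGroup (Fin n))) g = v := by
    intro v
    by_cases h : ∃ x : Hin, act (x : MulAut (FreeGroup (Fin n))) g = v
    · exact ⟨h.choose, fun _ => h.choose_spec⟩
    · exact ⟨1, fun h' => absurd h' h⟩
  choose r hr using hr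
  have hfin : (⋃ v : Fin n → G, (fun y => ρ (r v) * y) ''
      {y | ∃ (x : MulAut (FreeGroup (Fin n))) (hx : x ∈ Gam g), y = ρ ⟨x, hΓ hx⟩}).Finite :=
    Set.finite_iUnion fun v => hS.image _
  refine (hfin.subset ?_).to_subtype
  rintro _ ⟨x, rfl⟩
  rw [Set.mem_iUnion]
  refine ⟨act (x : MulAut (FreeGroup (Fin n))) g, ?_⟩
  have h1 := hr (act (x : MulAut (FreeGroup (Fin n))) g) ⟨x, rfl⟩
  set s := r (act (x : MulAut (FreeGroup (Fin n))) g) with hs
  have h2 : (s : MulAut (FreeGroup (Fin n)))⁻¹ * (x : MulAut (FreeGroup (Fin n))) ∈ Gam g := by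
    rw [mem_Gam_iff, act_mul, ← h1, act_inv_act]
  refine ⟨ρ ⟨_, hΓ h2⟩, ⟨_, h2, rfl⟩, ?_⟩
  show ρ s * ρ _ = ρ x
  rw [← map_mul]
  congr 1
  apply Subtype.ext
  show (s : MulAut (FreeGroup (Fin n))) * ((s : MulAut (FreeGroup (Fin n)))⁻¹ *
    (x : MulAut (FreeGroup (Fin n)))) = x
  rw [mul_inv_cancel_left]

theorem final_surj {n m : ℕ} {G : Type*} [Group G] [Finite G] (g : Fin n → G)
    (hg : Function.Surjective (ev g)) (Hin : Subgroup (MulAut (FreeGroup (Fin n))))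
    (ρ : Hin →* Matrix.GeneralLinearGroup (Fin m) ℤ)
    {d : ℕ} (hd : GB G d) (hn : 6 * d + 5 ≤ n)
    (hf : Hin.FiniteIndex) (hm : m + 2 ≤ n)
    (hΓ : Gam g ≤ Hin) : Finite ρ.range := by
  obtain ⟨φ, I, hIc, h1⟩ := exists_std g hd
  set cj : MulAut (FreeGroup (Fin n)) →* MulAut (FreeGroup (Fin n)) :=
    (MulAut.conj φ⁻¹).toMonoidHom with hcj
  have hcja : ∀ x, cj x = φ⁻¹ * x * φ := by
    intro x
    show φ⁻¹ * x * φ⁻¹⁻¹ = _
    rw [inv_inv]
  have hg1 : Function.Surjective (ev (act φ g)) := by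
    intro y
    obtain ⟨w, hw⟩ := hg y
    refine ⟨φ w, ?_⟩
    rw [ev_act, MulAut.inv_apply_self, hw]
  have hΓ' : Gam (act φ g) ≤ Hin.comap cj := by
    intro x hx
    rw [Subgroup.mem_comap, hcja]
    apply hΓ
    have h2 := Gam_conj hx φ⁻¹
    rwa [act_inv_act, inv_inv] at h2
  have hsj : Function.Surjective cj := (MulAut.conj φ⁻¹).surjective
  have hfi : (Hin.comap cj).FiniteIndex :=
    ⟨by rw [Subgroup.index_comap_of_surjective Hin hsj]; exact hf.index_ne_zero⟩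
  have h3 := final_gam_range (act φ g) hg1 (Hin.comap cj) (ρ.comp (cj.subgroupComap Hin)) I hd
    hn hfi hm hΓ' hIc h1
  refine final_of_finite g Hin ρ hΓ (h3.subset ?_)
  rintro y ⟨x, hx, rfl⟩
  refine ⟨φ * x * φ⁻¹, Gam_conj hx φ, ?_⟩
  show ρ _ = ρ _
  congr 1
  apply Subtype.ext
  show x = cj (φ * x * φ⁻¹)
  rw [hcja]
  group

theorem final {n m : ℕ} {G : Type*} [Group G] (g : Fin n → G)
    (Hin : Subgroup (MulAut (FreeGroup (Fin n))))
    (ρ : Hin →* Matrix.GeneralLinearGroup (Fin m) ℤ) [Finite G]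
    {d : ℕ} (hd : GB G d) (hn : 6 * d + 5 ≤ n)
    (hf : Hin.FiniteIndex)
    (hm : m + 2 ≤ n) (hΓ : Gam g ≤ Hin) : Finite ρ.range := by
  set g' : Fin n → (ev g).range := fun x => ⟨g x, ⟨FreeGroup.of x, ev_of g x⟩⟩ with hg'
  have hev : ∀ w, ((ev g' w : (ev g).range) : G) = ev g w := by
    intro w
    have h : ((ev g).range.subtype).comp (ev g') = ev g := by
      ext x
      rw [MonoidHom.comp_apply, ev_of, ev_of]
      rfl
    exact DFunLike.congr_fun h w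
  have hs : Function.Surjective (ev g') := by
    rintro ⟨y, w, hw⟩
    exact ⟨w, Subtype.ext (by rw [hev, hw])⟩
  have hΓ' : Gam g' ≤ Hin := by
    intro x hx
    apply hΓ
    intro w
    rw [← hev, ← hev, hx w]
  exact final_surj g' hs Hin ρ (hd.subgroup _) hn hf hm hΓ'

end RED
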