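import Pool.Agent.RED.Inv

/-!
# Conjugation of one-letter moves if a letter has value `1`
-/

set_option autoImplicit false

namespace RED

open AFn IAQ

variable {n : ℕ} {G : Type*} [Group G]

theorem inv_R {g : Fin n → G} {e y : Fin n} (hey : e ≠ y) {w : FreeGroup (Fin n)}
    (hwy : kill y w = w) (hwe : kill e w = w) (hge : g e = 1)
    {ψ : MulAut (FreeGroup (Fin n))} (hψ : ψ ∈ NN g) :
    R y w * ψ * (R y w)⁻¹ ∈ NN (act (R y w) g) := by
  refine NInv.conj_closure ?_ hψ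
  rintro x ⟨hxg, c, hxc⟩
  have hs : R y w ∈ Mv y := NInv.R_mem_Mv y w
  rcases eq_or_ne c y with rfl | hcy
  · exact NInv.mem_NN (Gam_conj hxg _)
      ((Mv c).mul_mem ((Mv c).mul_mem hs hxc) ((Mv c).inv_mem hs))
  rcases eq_or_ne c e with rfl | hce
  · exact NInv.conj_pres (pres_R hcy hwe) hxc hxg
  obtain ⟨z, hz⟩ : ∃ z : FreeGroup (Fin n), z = FreeGroup.of e * 1⁻¹ := ⟨_, rfl⟩
  have hkz : ∀ d, d ≠ e → kill d z = z := by
    intro d h1
    rw [hz, map_mul, map_inv, map_one, kill_of, if_neg h1.symm]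
  have hevg : ev g z = 1 := by
    rw [hz, map_mul, map_inv, map_one, ev_of, hge, inv_one, mul_one]
  have hevs : ev (act (R y w) g) z = 1 := by
    rw [ev_act, R_inv, R_fixed w⁻¹ (hkz y hey.symm), hevg]
  refine NInv.conj_closure ?_ (key hce (map_one _) (map_one _)
    (by rw [map_one, hge]) hxc hxg)
  rw [← hz]
  rintro X ((rfl | rfl) | ⟨hXe, hXg⟩)
  · refine NInv.bracket hs (NInv.R_mem_Mv c z) ?_ ?_ ?_
    · rw [R_inv]
      exact pres_R hcy.symm (by rw [map_inv, hkz y hey.symm])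
    · rw [R_mem_Gam_iff, hkz c hce, hevg]
    · rw [R_mem_Gam_iff, hkz c hce, hevs]
  · refine NInv.bracket hs (NInv.L_mem_Mv c z) ?_ ?_ ?_
    · rw [← map_inv]
      exact pres_L hcy.symm (by rw [map_inv, hkz y hey.symm])
    · rw [L_mem_Gam_iff, hkz c hce, hevg]
    · rw [L_mem_Gam_iff, hkz c hce, hevs]
  · exact NInv.conj_pres (pres_R hey hwe) hXe hXg

theorem inv_sg (g : Fin n → G) (a : Fin n) {ψ : MulAut (FreeGroup (Fin n))} (hψ : ψ ∈ NN g) :
    sg a * ψ * (sg a)⁻¹ ∈ NN (act (sg a) g) :=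
  NInv.P_sg a g ψ hψ

end RED
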