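import Mathlib
import Pool.Agent.RED.LemY

/-!
# Loops of moves of the letters of `Y` which have value `1`, without a conjugation
-/

set_option autoImplicit false

namespace RED

open AFn IAQ LemY

section main

variable {n : ℕ} {G : Type*} [Group G] {g : Fin n → G} {Y : Finset (Fin n)}

/-- the automorphism bringing the values of the letters of `Y` to `1` -/
private noncomputable def tt (Y : Finset (Fin n)) (W : G → FreeGroup (Fin n)) (h : Fin n → G) :
    MulAut (FreeGroup (Fin n)) := T Y (fun y => W (h y))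

private theorem tt_act {W : G → FreeGroup (Fin n)}
    (hW : ∀ h, W h ∈ fsub Yᶜ) (hW2 : ∀ h, ev g (W h) = h) {h : Fin n → G}
    (hh : ∀ x, x ∉ Y → h x = g x) :
    act (tt Y W h) h = fun x => if x ∈ Y then 1 else g x := by
  funext x
  show act (T Y _) h x = _
  rw [T_act (fun y _ => hW _)]
  by_cases hx : x ∈ Y
  · have h1 : ev h (W (h x)) = h x := by
      rw [ev_congr (g := g) (S := Yᶜ) (fun z hz => hh z (by simpa using hz)) (hW _), hW2]
    simp only [if_pos hx]
    rw [h1, mul_inv_cancel]
  · simp only [if_neg hx]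
    exact hh x hx

private theorem step {W : G → FreeGroup (Fin n)}
    (hW : ∀ h, W h ∈ fsub Yᶜ) (hW2 : ∀ h, ev g (W h) = h) {a : Fin n} (ha : a ∈ Y)
    {s : MulAut (FreeGroup (Fin n))} (hs : s ∈ Mv a) {h : Fin n → G}
    (hh : ∀ x, x ∉ Y → h x = g x) :
    tt Y W (act s h) * s * (tt Y W h)⁻¹ ∈ NN (fun x => if x ∈ Y then 1 else g x) := by
  have hsh : ∀ x, x ∉ Y → act s h x = g x := by
    intro x hx
    have hxa : x ≠ a := by
      rintro rfl
      exact hx ha
    rw [mv_act h hxa hs, hh x hx]
  refine Subgroup.subset_closure ⟨?_, a, ?_⟩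
  · rw [mem_Gam_iff, act_mul, act_mul]
    have h1 := tt_act hW hW2 hh
    have h2 : act (tt Y W h)⁻¹ (fun x => if x ∈ Y then 1 else g x) = h := by
      rw [← h1, act_inv_act]
    rw [h2, tt_act hW hW2 hsh]
  · have e1 : Function.update (fun y => W (act s h y)) a 1 =
        Function.update (fun y => W (h y)) a 1 := by
      funext x
      by_cases hx : x = a
      · subst hx
        rw [Function.update_self, Function.update_self]
      · rw [Function.update_of_ne hx, Function.update_of_ne hx, mv_act h hx hs]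
    have e2 : tt Y W (act s h) = R a (W (act s h a)) *
        T Y (Function.update (fun y => W (h y)) a 1) := by
      rw [← e1]
      exact T_split (fun y _ => hW _) ha
    have e3 : tt Y W h = R a (W (h a)) * T Y (Function.update (fun y => W (h y)) a 1) :=
      T_split (fun y _ => hW _) ha
    have hU' : ∀ y ∈ Y, Function.update (fun y => W (h y)) a 1 y ∈ fsub Yᶜ := by
      intro y hy
      by_cases hya : y = a
      · subst hya
        rw [Function.update_self]
        exact (fsub Yᶜ).one_mem
      · rw [Function.update_of_ne hya]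
        exact hW _
    have hP : Pres a (T Y (Function.update (fun y => W (h y)) a 1)) :=
      T_pres hU' ha (Function.update_self _ _ _)
    have h3 := mv_conj hP hs
    rw [e2, e3]
    obtain ⟨P, hPe⟩ : ∃ P, P = T Y (Function.update (fun y => W (h y)) a 1) := ⟨_, rfl⟩
    rw [← hPe] at h3 ⊢
    have e4 : R a (W (act s h a)) * P * s * (R a (W (h a)) * P)⁻¹ =
        R a (W (act s h a)) * (P * s * P⁻¹) * (R a (W (h a)))⁻¹ := by group
    rw [e4]
    exact (Mv a).mul_mem ((Mv a).mul_mem (R_mem a _) h3) ((Mv a).inv_mem (R_mem a _))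

private theorem path {W : G → FreeGroup (Fin n)}
    (hW : ∀ h, W h ∈ fsub Yᶜ) (hW2 : ∀ h, ev g (W h) = h)
    {ψ : MulAut (FreeGroup (Fin n))} (hψ : ψ ∈ MvS Y) :
    ∀ h : Fin n → G, (∀ x, x ∉ Y → h x = g x) →
      tt Y W (act ψ h) * ψ * (tt Y W h)⁻¹ ∈ NN (fun x => if x ∈ Y then 1 else g x) := by
  have hψ' := hψ
  unfold MvS at hψ'
  induction hψ' using Subgroup.closure_induction with
  | mem s hs =>
    intro h hh
    obtain ⟨a, ha, hs⟩ := hs
    exact step hW hW2 ha hs hh
  | one =>
    intro h _
    rw [act_one, mul_one, mul_inv_cancel]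
    exact (NN _).one_mem
  | mul y z hy hz ihy ihz =>
    intro h hh
    have hz' : z ∈ MvS Y := hz
    have hy' : y ∈ MvS Y := hy
    have h1 := ihz hz' h hh
    have h2 := ihy hy' (act z h) (fun x hx => by rw [mvs_act h hx hz', hh x hx])
    rw [act_mul]
    have e : tt Y W (act y (act z h)) * (y * z) * (tt Y W h)⁻¹ =
        (tt Y W (act y (act z h)) * y * (tt Y W (act z h))⁻¹) *
          (tt Y W (act z h) * z * (tt Y W h)⁻¹) := by group
    rw [e]
    exact (NN _).mul_mem h2 h1
  | inv y hy ihy =>
    intro h hh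
    have hy' : y ∈ MvS Y := hy
    have h2 := ihy hy' (act y⁻¹ h) (fun x hx => by
      rw [mvs_act h hx ((MvS Y).inv_mem hy'), hh x hx])
    have h3 : act y (act y⁻¹ h) = h := by rw [← act_mul, mul_inv_cancel, act_one]
    rw [h3] at h2
    have e : tt Y W (act y⁻¹ h) * y⁻¹ * (tt Y W h)⁻¹ =
        (tt Y W h * y * (tt Y W (act y⁻¹ h))⁻¹)⁻¹ := by group
    rw [e]
    exact (NN _).inv_mem h2

end main

/-- the tuple `g` with the letters of `Y` set to `1` -/
def rs {n : ℕ} {G : Type*} [Group G] (g : Fin n → G) (Y : Finset (Fin n)) : Fin n → G :=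
  fun x => if x ∈ Y then 1 else g x

theorem lemY0 {n : ℕ} {G : Type*} [Group G] (g : Fin n → G) (Y : Finset (Fin n))
    (hY : ∀ h : G, ∃ w ∈ fsub Yᶜ, ev g w = h)
    {φ : MulAut (FreeGroup (Fin n))} (hφ : φ ∈ MvS Y) (hφg : φ ∈ Gam (rs g Y)) :
    φ ∈ NN (rs g Y) := by
  classical
  choose W hW hW2 using hY
  have hW' : ∀ h, Function.update W 1 1 h ∈ fsub Yᶜ := by
    intro h
    by_cases h1 : h = 1
    · subst h1
      rw [Function.update_self]
      exact (fsub Yᶜ).one_mem
    · rw [Function.update_of_ne h1]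
      exact hW h
  have hW2' : ∀ h, ev g (Function.update W 1 1 h) = h := by
    intro h
    by_cases h1 : h = 1
    · subst h1
      rw [Function.update_self, map_one]
    · rw [Function.update_of_ne h1]
      exact hW2 h
  have h1 := path hW' hW2' hφ (rs g Y) (fun x hx => by simp only [rs, if_neg hx])
  rw [(mem_Gam_iff).1 hφg] at h1
  have h2 : tt Y (Function.update W 1 1) (rs g Y) = 1 := by
    apply aut_ext
    intro x
    show T Y _ (FreeGroup.of x) = _
    rw [T_of (fun y _ => hW' _), MulAut.one_apply]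
    by_cases hx : x ∈ Y
    · rw [if_pos hx]
      simp only [rs, if_pos hx]
      rw [Function.update_self, mul_one]
    · rw [if_neg hx]
  rw [h2, one_mul, inv_one, mul_one] at h1
  exact h1

end RED
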