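import Mathlib
import Pool.Agent.RED.Psi
import Pool.Agent.RED.Inv2
import Pool.Agent.RED.LemY0

/-!
# Transport of the groups `NN` (module N2)
-/

set_option autoImplicit false

namespace RED

open AFn IAQ

section

variable {n : ℕ} {G : Type*} [Group G]

/-- `t` brings `g` to `rs g Y` -/
def Val (g : Fin n → G) (Y : Finset (Fin n)) (t : MulAut (FreeGroup (Fin n))) : Prop :=
  Y.Nonempty ∧ Gen g Yᶜ ∧ t ∈ MvS Y ∧ act t g = rs g Y

theorem ns1_rs_mem {g : Fin n → G} {Y : Finset (Fin n)} {x : Fin n} (h : x ∈ Y) :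
    rs g Y x = 1 := by
  unfold rs
  rw [if_pos h]

theorem ns1_rs_notMem {g : Fin n → G} {Y : Finset (Fin n)} {x : Fin n} (h : x ∉ Y) :
    rs g Y x = g x := by
  unfold rs
  rw [if_neg h]

/-- the step of the transport -/
theorem ns1_act {g : Fin n → G} {Y : Finset (Fin n)} {y : Fin n} (hy : y ∉ Y)
    {w : FreeGroup (Fin n)} (hw : w ∈ fsub (insert y Y)ᶜ) (hwg : ev g w = g y) :
    act (R y w) (rs g Y) = rs g (insert y Y) := by
  funext x
  show ev (rs g Y) ((R y w)⁻¹ (FreeGroup.of x)) = rs g (insert y Y) x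
  rw [R_inv]
  by_cases hx : x = y
  · subst hx
    rw [R_of_self, map_mul, ev_of, ns1_rs_notMem hy, ns1_rs_mem (Finset.mem_insert_self _ _)]
    have h1 : kill x w = w := kill_eq hw (by simp)
    have h2 : ev (rs g Y) w = ev g w := ev_congr (fun z hz => by
      rw [Finset.mem_compl, Finset.mem_insert, not_or] at hz
      exact ns1_rs_notMem hz.2) hw
    rw [map_inv (kill x), h1, map_inv, h2, hwg, mul_inv_cancel]
  · rw [R_of_ne hx, ev_of]
    unfold rs
    simp [hx]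

/-- two elements with the same effect -/
theorem ns1_same {g : Fin n → G} {Y : Finset (Fin n)} (hY : Gen g Yᶜ)
    {t t' : MulAut (FreeGroup (Fin n))} (ht : t ∈ MvS Y) (hta : act t g = rs g Y)
    (ht' : t' ∈ MvS Y) (hta' : act t' g = rs g Y) {φ : MulAut (FreeGroup (Fin n))}
    (h : t * φ * t⁻¹ ∈ NN (rs g Y)) : t' * φ * t'⁻¹ ∈ NN (rs g Y) := by
  have h1 : t' * t⁻¹ ∈ MvS Y := (MvS Y).mul_mem ht' ((MvS Y).inv_mem ht)
  have h2 : t' * t⁻¹ ∈ Gam (rs g Y) := by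
    rw [mem_Gam_iff, act_mul]
    nth_rewrite 1 [← hta]
    rw [act_inv_act, hta']
  have h3 := lemY0 g Y hY h1 h2
  have h4 : t' * φ * t'⁻¹ = (t' * t⁻¹) * (t * φ * t⁻¹) * (t' * t⁻¹)⁻¹ := by group
  rw [h4]
  exact Subgroup.mul_mem _ (Subgroup.mul_mem _ h3 h) (Subgroup.inv_mem _ h3)

theorem NS_step {g : Fin n → G} {Y : Finset (Fin n)} {y : Fin n} (hy : y ∉ Y)
    {t t' : MulAut (FreeGroup (Fin n))} (ht : Val g Y t) (ht' : Val g (insert y Y) t')
    (φ : MulAut (FreeGroup (Fin n))) :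
    t * φ * t⁻¹ ∈ NN (rs g Y) ↔ t' * φ * t'⁻¹ ∈ NN (rs g (insert y Y)) := by
  obtain ⟨⟨e, he⟩, -, ht2, ht3⟩ := ht
  obtain ⟨-, hG, ht2', ht3'⟩ := ht'
  obtain ⟨w, hw, hwg⟩ := hG (g y)
  have hey : e ≠ y := fun h => hy (h ▸ he)
  have hwy : kill y w = w := kill_eq hw (by simp)
  have hwe : kill e w = w := kill_eq hw (by simp [he])
  have hs : act (R y w) (rs g Y) = rs g (insert y Y) := ns1_act hy hw hwg
  have hsM : R y w * t ∈ MvS (insert y Y) :=
    Subgroup.mul_mem _ (Mv_le_MvS (Finset.mem_insert_self _ _) (R_mem_Mv y w))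
      (MvS_mono (Finset.subset_insert _ _) ht2)
  have hsA : act (R y w * t) g = rs g (insert y Y) := by rw [act_mul, ht3, hs]
  constructor
  · intro h
    have h1 := inv_R hey hwy hwe (ns1_rs_mem he) h
    rw [hs] at h1
    refine ns1_same hG hsM hsA ht2' ht3' ?_
    have h2 : R y w * t * φ * (R y w * t)⁻¹ = R y w * (t * φ * t⁻¹) * (R y w)⁻¹ := by group
    rw [h2]
    exact h1
  · intro h
    have h1 := ns1_same hG ht2' ht3' hsM hsA h
    have hwy' : kill y w⁻¹ = w⁻¹ := by rw [map_inv, hwy]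
    have hwe' : kill e w⁻¹ = w⁻¹ := by rw [map_inv, hwe]
    have h2 := inv_R hey hwy' hwe' (ns1_rs_mem (Finset.mem_insert_of_mem he)) h1
    rw [← R_inv, inv_inv] at h2
    have h3 : act (R y w)⁻¹ (rs g (insert y Y)) = rs g Y := by rw [← hs, act_inv_act]
    rw [h3] at h2
    have h4 : (R y w)⁻¹ * (R y w * t * φ * (R y w * t)⁻¹) * R y w = t * φ * t⁻¹ := by group
    rw [h4] at h2
    exact h2

theorem ns1_exists {g : Fin n → G} {Y : Finset (Fin n)} (hY : Y.Nonempty) (hG : Gen g Yᶜ) :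
    ∃ t, Val g Y t := by
  obtain ⟨t, ht1, ht2⟩ := exists_upd hG (fun _ => 1)
  refine ⟨t, hY, hG, ht1, ?_⟩
  rw [ht2]
  funext x
  by_cases hx : x ∈ Y
  · rw [upd_of_mem hx, ns1_rs_mem hx]
  · rw [upd_of_notMem hx, ns1_rs_notMem hx]

theorem NS_mono {g : Fin n → G} {Y Y' : Finset (Fin n)} (hYY : Y ⊆ Y')
    {t t' : MulAut (FreeGroup (Fin n))} (ht : Val g Y t) (ht' : Val g Y' t')
    (φ : MulAut (FreeGroup (Fin n))) :
    t * φ * t⁻¹ ∈ NN (rs g Y) ↔ t' * φ * t'⁻¹ ∈ NN (rs g Y') := by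
  classical
  have key : ∀ Z : Finset (Fin n), Disjoint Z Y → ∀ t' : MulAut (FreeGroup (Fin n)),
      Val g (Z ∪ Y) t' →
      (t * φ * t⁻¹ ∈ NN (rs g Y) ↔ t' * φ * t'⁻¹ ∈ NN (rs g (Z ∪ Y))) := by
    intro Z
    induction Z using Finset.induction_on with
    | empty =>
      intro _ t' ht'
      rw [Finset.empty_union] at ht' ⊢
      exact ⟨ns1_same ht.2.1 ht.2.2.1 ht.2.2.2 ht'.2.2.1 ht'.2.2.2,
        ns1_same ht.2.1 ht'.2.2.1 ht'.2.2.2 ht.2.2.1 ht.2.2.2⟩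
    | insert z Z hz ih =>
      intro hd t' ht'
      rw [Finset.disjoint_insert_left] at hd
      rw [Finset.insert_union] at ht' ⊢
      have hz' : z ∉ Z ∪ Y := by
        rw [Finset.mem_union, not_or]
        exact ⟨hz, hd.1⟩
      obtain ⟨t'', h''⟩ := ns1_exists (g := g) (Y := Z ∪ Y) (ht.1.mono Finset.subset_union_right)
        (Gen_mono (Finset.compl_subset_compl.2 (Finset.subset_insert _ _)) ht'.2.1)
      exact (ih hd.2 t'' h'').trans (NS_step hz' h'' ht' φ)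
  have h1 : (Y' \ Y) ∪ Y = Y' := Finset.sdiff_union_of_subset hYY
  have h2 := key (Y' \ Y) Finset.sdiff_disjoint t' (by rw [h1]; exact ht')
  rwa [h1] at h2

end

end RED
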