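import Mathlib
import Pool.Agent.RED.Psi

/-!
# Small generating sets of letters inside generating sets
-/

set_option autoImplicit false

namespace RED

open AFn IAQ

/-- every finite generating set of `G` contains a generating set with at most `d` elements -/
def MB (G : Type*) [Group G] (d : ℕ) : Prop :=
  ∀ S : Finset G, Subgroup.closure (S : Set G) = ⊤ →
    ∃ M : Finset G, M ⊆ S ∧ M.card ≤ d ∧ Subgroup.closure (M : Set G) = ⊤

theorem GB.mb {G : Type*} [Group G] {d : ℕ} (h : GB G d) : MB G d := by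
  intro S hS
  obtain ⟨M, h1, h2, h3⟩ := h S
  refine ⟨M, h1, h2, ?_⟩
  rw [eq_top_iff, ← hS, Subgroup.closure_le]
  exact fun x hx => h3 x hx

theorem Gen_iff_closure {n : ℕ} {G : Type*} [Group G] (g : Fin n → G) (S : Finset (Fin n)) :
    Gen g S ↔ Subgroup.closure (g '' (S : Set (Fin n))) = ⊤ := by
  rw [eq_top_iff]
  constructor
  · intro h x _
    exact (exists_word_iff g S x).1 (h x)
  · intro h x
    exact (exists_word_iff g S x).2 (h (Subgroup.mem_top x))

theorem Gen_small2 {n : ℕ} {G : Type*} [Group G] [Finite G] {d : ℕ} (hd : MB G d)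
    {g : Fin n → G} {S : Finset (Fin n)} (hS : Gen g S) : ∃ M ⊆ S, M.card ≤ d ∧ Gen g M := by
  classical
  rw [Gen_iff_closure] at hS
  obtain ⟨T, h1, h2, h3⟩ := hd (S.image g) (by rw [Finset.coe_image]; exact hS)
  have hex : ∀ t : T, ∃ x, x ∈ S ∧ g x = t := by
    intro t
    obtain ⟨x, hx, hxt⟩ := Finset.mem_image.1 (h1 t.2)
    exact ⟨x, hx, hxt⟩
  choose r hr1 hr2 using hex
  refine ⟨Finset.univ.image r, ?_, ?_, ?_⟩
  · intro x hx
    obtain ⟨t, -, rfl⟩ := Finset.mem_image.1 hx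
    exact hr1 t
  · refine Finset.card_image_le.trans ?_
    rw [Finset.card_univ, Fintype.card_coe]
    exact h2
  · rw [Gen_iff_closure, eq_top_iff, ← h3]
    refine Subgroup.closure_mono ?_
    intro t ht
    have ht' : t ∈ T := ht
    exact ⟨r ⟨t, ht'⟩, Finset.mem_coe.2 (Finset.mem_image_of_mem r (Finset.mem_univ _)),
      hr2 ⟨t, ht'⟩⟩

/-- `G` is generated by `r` elements -/
def RB (G : Type*) [Group G] (r : ℕ) : Prop :=
  ∃ M : Finset G, M.card ≤ r ∧ Subgroup.closure (M : Set G) = ⊤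

/-- `r` letters can be given generating values -/
theorem exists_tau2 {n : ℕ} {G : Type*} [Group G] {r : ℕ} (hr : RB G r)
    (Z : Finset (Fin n)) (hZ : Z.card = r) : ∃ τ : Fin n → G, Gen τ Z := by
  classical
  obtain ⟨M, h2, h3⟩ := hr
  -- an injection of `M` into `Z`
  obtain ⟨j⟩ : Nonempty (M ↪ Z) := by
    rw [Function.Embedding.nonempty_iff_card_le, Fintype.card_coe, Fintype.card_coe, hZ]
    exact h2
  refine ⟨fun x => if h : ∃ y : M, ((j y : Z) : Fin n) = x then h.choose.1 else 1, ?_⟩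
  rw [Gen_iff_closure, eq_top_iff, ← h3]
  refine Subgroup.closure_mono ?_
  intro y hy
  have hy' : y ∈ M := Finset.mem_coe.1 hy
  refine ⟨((j ⟨y, hy'⟩ : Z) : Fin n), Finset.mem_coe.2 (j ⟨y, hy'⟩).2, ?_⟩
  have hex : ∃ y' : M, ((j y' : Z) : Fin n) = ((j ⟨y, hy'⟩ : Z) : Fin n) := ⟨⟨y, hy'⟩, rfl⟩
  have h6 : hex.choose = ⟨y, hy'⟩ := j.injective (Subtype.ext hex.choose_spec)
  simp only [dif_pos hex, h6]

theorem exists_isTau2 {n : ℕ} {G : Type*} [Group G] {r : ℕ} (hr : RB G r) :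
    ∃ τ : Finset (Fin n) → Fin n → G, IsTau r τ := by
  classical
  have h : ∀ Z : Finset (Fin n), ∃ t : Fin n → G, Z.card = r → Gen t Z := by
    intro Z
    by_cases hZ : Z.card = r
    · obtain ⟨t, ht⟩ := exists_tau2 (G := G) hr Z hZ
      exact ⟨t, fun _ => ht⟩
    · exact ⟨1, fun h => absurd h hZ⟩
  choose τ hτ using h
  exact ⟨τ, hτ⟩

end RED
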