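import Mathlib
import Pool.Agent.RED.NS1
import Pool.Agent.RED.Rank2

/-!
# Independence of the transport (module N4)
-/

set_option autoImplicit false

namespace RED

open AFn IAQ

section

variable {n : ℕ} {G : Type*} [Group G]

theorem NS_indep [Finite G] {d : ℕ} (hd : MB G d) (hn : 2 * d + 2 < n) {g : Fin n → G}
    {Y Y' : Finset (Fin n)} {t t' : MulAut (FreeGroup (Fin n))} (ht : Val g Y t)
    (ht' : Val g Y' t') (φ : MulAut (FreeGroup (Fin n))) :
    t * φ * t⁻¹ ∈ NN (rs g Y) ↔ t' * φ * t'⁻¹ ∈ NN (rs g Y') := by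
  obtain ⟨M, hMY, hMc, hM⟩ := Gen_small2 hd ht.2.1
  obtain ⟨M', hMY', hMc', hM'⟩ := Gen_small2 hd ht'.2.1
  have hYM : Y ⊆ Mᶜ := by
    intro y hy
    rw [Finset.mem_compl]
    intro h
    exact (Finset.mem_compl.1 (hMY h)) hy
  have hYM' : Y' ⊆ M'ᶜ := by
    intro y hy
    rw [Finset.mem_compl]
    intro h
    exact (Finset.mem_compl.1 (hMY' h)) hy
  have hne : ((M ∪ M')ᶜ : Finset (Fin n)).Nonempty := by
    rw [← Finset.card_pos, Finset.card_compl, Fintype.card_fin]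
    have h1 := Finset.card_union_le M M'
    omega
  obtain ⟨t₁, ht₁⟩ := ns1_exists (g := g) (Y := Mᶜ) (ht.1.mono hYM) (by rwa [compl_compl])
  obtain ⟨t₂, ht₂⟩ := ns1_exists (g := g) (Y := (M ∪ M')ᶜ) hne
    (by rw [compl_compl]; exact Gen_mono Finset.subset_union_left hM)
  obtain ⟨t₃, ht₃⟩ := ns1_exists (g := g) (Y := M'ᶜ) (ht'.1.mono hYM') (by rwa [compl_compl])
  have e1 := NS_mono hYM ht ht₁ φ
  have e2 := NS_mono (Finset.compl_subset_compl.2 (Finset.subset_union_left : M ⊆ M ∪ M')) ht₂ ht₁ φ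
  have e3 := NS_mono (Finset.compl_subset_compl.2 (Finset.subset_union_right : M' ⊆ M ∪ M')) ht₂ ht₃ φ
  have e4 := NS_mono hYM' ht' ht₃ φ
  exact e1.trans (e2.symm.trans (e3.trans e4.symm))

/-- the transported group -/
def NS (g : Fin n → G) : Subgroup (MulAut (FreeGroup (Fin n))) where
  carrier := {φ | ∀ (Y : Finset (Fin n)) (t : MulAut (FreeGroup (Fin n))), Val g Y t →
    t * φ * t⁻¹ ∈ NN (rs g Y)}
  one_mem' := by
    intro Y t _
    rw [mul_one, mul_inv_cancel]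
    exact Subgroup.one_mem _
  mul_mem' := by
    intro a b ha hb Y t h
    have e : t * (a * b) * t⁻¹ = (t * a * t⁻¹) * (t * b * t⁻¹) := by group
    rw [e]
    exact Subgroup.mul_mem _ (ha Y t h) (hb Y t h)
  inv_mem' := by
    intro a ha Y t h
    have e : t * a⁻¹ * t⁻¹ = (t * a * t⁻¹)⁻¹ := by group
    rw [e]
    exact Subgroup.inv_mem _ (ha Y t h)

theorem mem_NS_of [Finite G] {d : ℕ} (hd : MB G d) (hn : 2 * d + 2 < n) {g : Fin n → G}
    {Y : Finset (Fin n)} {t : MulAut (FreeGroup (Fin n))} (ht : Val g Y t)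
    {φ : MulAut (FreeGroup (Fin n))} (h : t * φ * t⁻¹ ∈ NN (rs g Y)) : φ ∈ NS g := by
  intro Y' t' ht'
  exact (NS_indep hd hn ht ht' φ).1 h

end

end RED
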