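import Mathlib
import Pool.Agent.RED.NS2
import Pool.Agent.RED.GenTop
import Pool.Agent.RED.Inv2

/-!
# The transported groups are conjugated into each other

`φ * ψ * φ⁻¹ ∈ NS (act φ g)` for `ψ ∈ NS g`.
-/

set_option autoImplicit false

namespace RED

open AFn IAQ

/-! ### conjugation of the transported groups -/

namespace NConj

variable {n : ℕ} {G : Type*} [Group G]

theorem mem_fu (w : FreeGroup (Fin n)) : w ∈ fsub (Finset.univ : Finset (Fin n)) := by
  have h : (⊤ : Subgroup (FreeGroup (Fin n))) ≤ fsub Finset.univ := by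
    rw [← FreeGroup.closure_range_of, Subgroup.closure_le]
    rintro _ ⟨x, rfl⟩
    exact of_mem_fsub (Finset.mem_univ x)
  exact h (Subgroup.mem_top w)

theorem act_rs {s : MulAut (FreeGroup (Fin n))} {Y : Finset (Fin n)}
    (h1 : ∀ x ∈ Y, s⁻¹ (FreeGroup.of x) = FreeGroup.of x)
    (h2 : ∀ x, x ∉ Y → s⁻¹ (FreeGroup.of x) ∈ fsub Yᶜ) (g : Fin n → G) :
    act s (rs g Y) = rs (act s g) Y := by
  funext x
  change ev (rs g Y) (s⁻¹ (FreeGroup.of x)) = if x ∈ Y then 1 else ev g (s⁻¹ (FreeGroup.of x))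
  by_cases hx : x ∈ Y
  · rw [if_pos hx, h1 x hx, ev_of]
    exact if_pos hx
  · rw [if_neg hx]
    refine ev_congr (fun z hz => ?_) (h2 x hx)
    exact if_neg (Finset.mem_compl.1 hz)

theorem conj_MvS {s t : MulAut (FreeGroup (Fin n))} {Y : Finset (Fin n)}
    (hs : ∀ y ∈ Y, Pres y s) (ht : t ∈ MvS Y) : s * t * s⁻¹ ∈ MvS Y := by
  have h1 : MvS Y ≤ (MvS Y).comap (MulAut.conj s).toMonoidHom := by
    nth_rewrite 1 [MvS]
    rw [Subgroup.closure_le]
    rintro x ⟨y, hy, hx⟩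
    exact Subgroup.subset_closure ⟨y, hy, Mv_conj (hs y hy) hx⟩
  exact h1 ht

theorem Gen_act_univ {g : Fin n → G} (s : MulAut (FreeGroup (Fin n)))
    (hg : Gen g Finset.univ) : Gen (act s g) Finset.univ := by
  intro h
  obtain ⟨w, -, hw⟩ := hg h
  refine ⟨s w, mem_fu _, ?_⟩
  · rw [ev_act, ← MulAut.mul_apply, inv_mul_cancel, MulAut.one_apply, hw]

/-- the core: `s` moves only letters outside of `Y` -/
theorem core [Finite G] {d : ℕ} (hd : MB G d) (hn : 2 * d + 2 < n)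
    {s : MulAut (FreeGroup (Fin n))} {a b : Fin n}
    (hs1 : ∀ y, y ≠ a → y ≠ b → Pres y s)
    (hs2 : ∀ x, x ≠ a → s⁻¹ (FreeGroup.of x) = FreeGroup.of x)
    (hs3 : s⁻¹ (FreeGroup.of a) ∈ fsub {a, b})
    (hs4 : ∀ (g : Fin n → G) (e : Fin n) (ψ : MulAut (FreeGroup (Fin n))), e ≠ a → e ≠ b →
      g e = 1 → ψ ∈ NN g → s * ψ * s⁻¹ ∈ NN (act s g))
    (g : Fin n → G) (ψ : MulAut (FreeGroup (Fin n))) (hψ : ψ ∈ NS g) :
    s * ψ * s⁻¹ ∈ NS (act s g) := by
  by_cases hg : Gen g Finset.univ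
  · have hg' := Gen_act_univ s hg
    obtain ⟨M, -, hMc, hM⟩ := Gen_small2 hd hg
    obtain ⟨M', -, hMc', hM'⟩ := Gen_small2 hd hg'
    obtain ⟨Y, hY⟩ : ∃ Y, Y = (M ∪ M' ∪ {a, b})ᶜ := ⟨_, rfl⟩
    have hYc : Yᶜ = M ∪ M' ∪ {a, b} := by rw [hY, compl_compl]
    have hYne : Y.Nonempty := by
      rw [← Finset.card_pos, hY, Finset.card_compl, Fintype.card_fin]
      have h1 := Finset.card_union_le (M ∪ M') {a, b}
      have h2 := Finset.card_union_le M M'
      have h3 : ({a, b} : Finset (Fin n)).card ≤ 2 := Finset.card_le_two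
      omega
    have hMY : M ⊆ Yᶜ := by
      rw [hYc]
      exact Finset.subset_union_left.trans Finset.subset_union_left
    have hMY' : M' ⊆ Yᶜ := by
      rw [hYc]
      exact Finset.subset_union_right.trans Finset.subset_union_left
    have hab : ({a, b} : Finset (Fin n)) ⊆ Yᶜ := by
      rw [hYc]
      exact Finset.subset_union_right
    have haY : a ∉ Y := Finset.mem_compl.1 (hab (by simp))
    have hbY : b ∉ Y := Finset.mem_compl.1 (hab (by simp))
    have hG := Gen_mono hMY hM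
    obtain ⟨t, ht, hta⟩ := exists_upd hG (fun _ => 1)
    have hta : act t g = rs g Y := hta
    have hV : Val g Y t := ⟨hYne, hG, ht, hta⟩
    have hrs : act s (rs g Y) = rs (act s g) Y := by
      refine act_rs (fun x hx => hs2 x fun h => haY (h ▸ hx)) (fun x hx => ?_) g
      by_cases hxa : x = a
      · rw [hxa]
        exact fsub_mono hab hs3
      · rw [hs2 x hxa]
        exact of_mem_fsub (Finset.mem_compl.2 hx)
    have hV' : Val (act s g) Y (s * t * s⁻¹) := by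
      refine ⟨hYne, Gen_mono hMY' hM', conj_MvS (fun y hy => hs1 y (fun h => haY (h ▸ hy))
        fun h => hbY (h ▸ hy)) ht, ?_⟩
      rw [← act_mul, inv_mul_cancel_right, act_mul, hta, hrs]
    refine mem_NS_of hd hn hV' ?_
    obtain ⟨e, he⟩ := hYne
    have h1 := hs4 (rs g Y) e (t * ψ * t⁻¹) (fun h => haY (h ▸ he)) (fun h => hbY (h ▸ he))
      (if_pos he) (hψ Y t hV)
    rw [hrs] at h1
    have e1 : s * t * s⁻¹ * (s * ψ * s⁻¹) * (s * t * s⁻¹)⁻¹ = s * (t * ψ * t⁻¹) * s⁻¹ := by group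
    rw [e1]
    exact h1
  · intro Y t hV
    refine absurd (fun h => ?_) hg
    obtain ⟨w, -, hw⟩ := hV.2.1 h
    rw [ev_act] at hw
    exact ⟨s⁻¹ w, mem_fu _, hw⟩

/-- the property of an automorphism -/
def PS (G : Type*) [Group G] (φ : MulAut (FreeGroup (Fin n))) : Prop :=
  ∀ (g : Fin n → G) (ψ : MulAut (FreeGroup (Fin n))), ψ ∈ NS g → φ * ψ * φ⁻¹ ∈ NS (act φ g)

theorem PS_one : PS G (1 : MulAut (FreeGroup (Fin n))) := by
  intro g ψ hψ
  rw [act_one, inv_one, mul_one, one_mul]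
  exact hψ

theorem PS_mul {φ φ' : MulAut (FreeGroup (Fin n))} (h : PS G φ) (h' : PS G φ') :
    PS G (φ * φ') := by
  intro g ψ hψ
  have h1 := h (act φ' g) (φ' * ψ * φ'⁻¹) (h' g ψ hψ)
  rw [← act_mul] at h1
  have e : φ * φ' * ψ * (φ * φ')⁻¹ = φ * (φ' * ψ * φ'⁻¹) * φ⁻¹ := by group
  rw [e]
  exact h1

theorem PS_sg [Finite G] {d : ℕ} (hd : MB G d) (hn : 2 * d + 2 < n) (a : Fin n) :
    PS G (sg a) := by
  intro g ψ hψ
  refine core hd hn (a := a) (b := a) (fun y hy _ => pres_sg hy) (fun x hx => ?_) ?_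
    (fun g e ψ _ _ _ h => inv_sg g a h) g ψ hψ
  · rw [sg_inv, sg_of_ne hx]
  · rw [sg_inv, sg_of_self]
    exact (fsub _).inv_mem (of_mem_fsub (by simp))

theorem PS_R [Finite G] {d : ℕ} (hd : MB G d) (hn : 2 * d + 2 < n) {a b : Fin n} (hab : a ≠ b)
    {w : FreeGroup (Fin n)} (hw : w ∈ fsub {b}) : PS G (R a w) := by
  intro g ψ hψ
  have hk : ∀ y, y ≠ b → kill y w = w := fun y hy => kill_eq hw (by simpa using hy)
  refine core hd hn (a := a) (b := b) (fun y hya hyb => pres_R hya (hk y hyb)) (fun x hx => ?_) ?_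
    (fun g e ψ hea heb hge h => inv_R hea (hk a hab) (hk e heb) hge h) g ψ hψ
  · rw [R_inv, R_of_ne hx]
  · rw [R_inv, R_of_self, map_inv, hk a hab]
    refine (fsub _).mul_mem (of_mem_fsub (by simp)) ((fsub _).inv_mem ?_)
    exact fsub_mono (by simp) hw

end NConj

theorem NS_conj {n : ℕ} {G : Type*} [Group G] [Finite G] {d : ℕ} (hd : MB G d)
    (hn : 2 * d + 2 < n) (g : Fin n → G)
    (φ ψ : MulAut (FreeGroup (Fin n))) (hψ : ψ ∈ NS g) : φ * ψ * φ⁻¹ ∈ NS (act φ g) := by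
  have hφ : φ ∈ Subgroup.closure
      ({φ : MulAut (FreeGroup (Fin n)) | ∃ a b, a ≠ b ∧ φ = R a (FreeGroup.of b)} ∪
        {φ | ∃ a, φ = sg a}) := by
    rw [gen_top]
    exact Subgroup.mem_top φ
  have h : NConj.PS G φ ∧ NConj.PS G φ⁻¹ := by
    induction hφ using Subgroup.closure_induction with
    | mem x hx =>
      rcases hx with ⟨a, b, hab, rfl⟩ | ⟨a, rfl⟩
      · have hb : FreeGroup.of b ∈ fsub {b} := of_mem_fsub (by simp)
        refine ⟨NConj.PS_R hd hn hab hb, ?_⟩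
        rw [R_inv]
        exact NConj.PS_R hd hn hab ((fsub _).inv_mem hb)
      · rw [sg_inv]
        exact ⟨NConj.PS_sg hd hn a, NConj.PS_sg hd hn a⟩
    | one => rw [inv_one]; exact ⟨NConj.PS_one, NConj.PS_one⟩
    | mul x y _ _ hx hy =>
      rw [mul_inv_rev]
      exact ⟨NConj.PS_mul hx.1 hy.1, NConj.PS_mul hy.2 hx.2⟩
    | inv x _ hx =>
      rw [inv_inv]
      exact ⟨hx.2, hx.1⟩
  exact h.1 g ψ hψ

end RED
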