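import Pool.Agent.RED.NS2

/-!
# The transported group: moves of the letters of `Y`, standard tuples
-/

set_option autoImplicit false

namespace RED

open AFn IAQ

section

variable {n : ℕ} {G : Type*} [Group G]

theorem NS_lemY [Finite G] {d : ℕ} (hd : MB G d) (hn : 2 * d + 2 < n) (g : Fin n → G)
    (Y : Finset (Fin n)) (hY : ∀ h : G, ∃ w ∈ fsub Yᶜ, ev g w = h)
    {φ : MulAut (FreeGroup (Fin n))} (hφ : φ ∈ MvS Y) (hφg : φ ∈ Gam g) : φ ∈ NS g := by
  rcases Y.eq_empty_or_nonempty with rfl | hne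
  · have h1 : MvS (∅ : Finset (Fin n)) = ⊥ := by
      have h2 : {φ : MulAut (FreeGroup (Fin n)) | ∃ y ∈ (∅ : Finset (Fin n)), φ ∈ Mv y} = ∅ := by
        ext φ
        simp
      rw [MvS, h2, Subgroup.closure_empty]
    rw [h1, Subgroup.mem_bot] at hφ
    rw [hφ]
    exact Subgroup.one_mem _
  · obtain ⟨t, htM, hta⟩ := exists_upd (g := g) (Y := Y) hY (fun _ => 1)
    have hta' : act t g = rs g Y := hta
    have hV : Val g Y t := ⟨hne, hY, htM, hta'⟩
    refine mem_NS_of hd hn hV (lemY0 g Y hY ?_ ?_)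
    · exact (MvS Y).mul_mem ((MvS Y).mul_mem htM hφ) ((MvS Y).inv_mem htM)
    · rw [← hta']
      exact Gam_conj hφg t

theorem NS_std {g : Fin n → G} {Y : Finset (Fin n)} (hYne : Y.Nonempty)
    (hY : Gen g Yᶜ) (h1 : ∀ y ∈ Y, g y = 1) : NS g ≤ NN g := by
  intro φ hφ
  have h2 : rs g Y = g := by
    funext x
    by_cases hx : x ∈ Y
    · rw [rs, if_pos hx, h1 x hx]
    · rw [rs, if_neg hx]
  have h3 : Val g Y 1 := ⟨hYne, hY, (MvS Y).one_mem, by rw [act_one, h2]⟩
  have h4 := hφ Y 1 h3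
  rw [one_mul, inv_one, mul_one, h2] at h4
  exact h4

end

end RED
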