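import Mathlib
import Pool.Agent.RED.Psi
import Pool.Agent.RED.Rank2
import Pool.Agent.RED.NS3
import Pool.Agent.RED.NS4

/-!
# Standard forms of generating tuples, with the transported groups
-/

set_option autoImplicit false

namespace RED

open AFn IAQ

namespace Two

variable {n : ℕ} {G : Type*} [Group G]

/-- `Z` can be used for `g` -/
def Valid2 (r d : ℕ) (Z0 : Finset (Fin n)) (g : Fin n → G) (Z : Finset (Fin n)) : Prop :=
  Z.card = r ∧ Disjoint Z0 Z ∧ ∃ M : Finset (Fin n), M.card ≤ d ∧ Gen g M ∧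
    Disjoint M Z

/-- two morphisms from `g` are equivalent -/
def Eqv (g : Fin n → G) (φ φ' : MulAut (FreeGroup (Fin n))) : Prop := φ'⁻¹ * φ ∈ NS g

theorem Eqv.refl (g : Fin n → G) (φ : MulAut (FreeGroup (Fin n))) : Eqv g φ φ := by
  unfold Eqv
  rw [inv_mul_cancel]
  exact Subgroup.one_mem _

theorem Eqv.symm {g : Fin n → G} {φ φ' : MulAut (FreeGroup (Fin n))} (h : Eqv g φ φ') :
    Eqv g φ' φ := by
  unfold Eqv at h ⊢
  have := Subgroup.inv_mem _ h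
  rwa [mul_inv_rev, inv_inv] at this

theorem Eqv.trans {g : Fin n → G} {φ φ' φ'' : MulAut (FreeGroup (Fin n))} (h : Eqv g φ φ')
    (h' : Eqv g φ' φ'') : Eqv g φ φ'' := by
  unfold Eqv at h h' ⊢
  have := Subgroup.mul_mem _ h' h
  rwa [mul_assoc, mul_inv_cancel_left] at this

theorem Eqv.left {g : Fin n → G} {φ φ' : MulAut (FreeGroup (Fin n))} (h : Eqv g φ φ')
    (ψ : MulAut (FreeGroup (Fin n))) : Eqv g (ψ * φ) (ψ * φ') := by
  unfold Eqv at h ⊢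
  rwa [mul_inv_rev, mul_assoc, inv_mul_cancel_left]

variable (hinv : ∀ (g : Fin n → G) (φ ψ : MulAut (FreeGroup (Fin n))),
      ψ ∈ NS g → φ * ψ * φ⁻¹ ∈ NS (act φ g))

include hinv

theorem Eqv.right {g : Fin n → G} {θ φ φ' : MulAut (FreeGroup (Fin n))}
    (h : Eqv (act θ g) φ φ') : Eqv g (φ * θ) (φ' * θ) := by
  unfold Eqv at h ⊢
  have h1 := hinv (act θ g) θ⁻¹ _ h
  rw [act_inv_act, inv_inv] at h1
  rw [mul_inv_rev]
  have h2 : θ⁻¹ * φ'⁻¹ * (φ * θ) = θ⁻¹ * (φ'⁻¹ * φ) * θ := by group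
  rw [h2]
  exact h1

omit hinv

variable (hlem : ∀ (g : Fin n → G) (Y : Finset (Fin n)), Gen g Yᶜ →
    ∀ φ ∈ MvS Y, φ ∈ Gam g → φ ∈ NS g)

include hlem

/-- two morphisms in `MvS Y` with the same end are equivalent -/
theorem Eqv_of_MvS {g : Fin n → G} {Y : Finset (Fin n)} (hY : Gen g Yᶜ)
    {φ φ' : MulAut (FreeGroup (Fin n))} (hφ : φ ∈ MvS Y) (hφ' : φ' ∈ MvS Y)
    (h : act φ g = act φ' g) : Eqv g φ φ' := by
  refine hlem g Y hY _ (Subgroup.mul_mem _ (Subgroup.inv_mem _ hφ') hφ) ?_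
  rw [mem_Gam_iff, act_mul, h, act_inv_act]

include hinv

/-- Claim B -/
theorem path_move {d : ℕ} {τ : Finset (Fin n) → Fin n → G} (hτ : IsTau d τ)
    {Z0 Z : Finset (Fin n)} (hZ0 : Z0.card = d) {gs g : Fin n → G}
    (hgs : ∀ x ∈ Z0, gs x = τ Z0 x) (hZ : Z.card = d) (hZZ : Disjoint Z0 Z)
    {a : Fin n} (haZ : a ∉ Z) {M : Finset (Fin n)} (hM : Gen g M) (haM : a ∉ M)
    (hMZ : Disjoint M Z) {φ : MulAut (FreeGroup (Fin n))} (hφ : φ ∈ Mv a)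
    {ψ ψ' : MulAut (FreeGroup (Fin n))} (hψ : Path τ gs g Z ψ) (hψ' : Path τ gs (act φ g) Z ψ') :
    Eqv g (ψ' * φ) ψ := by
  classical
  obtain ⟨φ1, m1, φ2, m2, φ3, m3, rfl, a1, a2, a3⟩ := hψ
  obtain ⟨χ1, n1, χ2, n2, χ3, n3, rfl, b1, b2, b3⟩ := hψ'
  have h0 : Z0 ⊆ Zᶜ := fun x hx => Finset.mem_compl.2 (Finset.disjoint_left.1 hZZ hx)
  -- the move after the replacement of the letters of `Z`
  obtain ⟨φ', m', a'⟩ := exists_upd (g := upd g Z (τ Z)) (Y := {a})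
    (Gen_upd hτ g hZ (fun x hx => Finset.mem_compl.2 (by
      rw [Finset.mem_singleton]; rintro rfl; exact haZ hx))) (act φ g)
  have a'' : act φ' (upd g Z (τ Z)) = upd (act φ g) Z (τ Z) := by
    rw [a']
    funext x
    by_cases hxa : x = a
    · subst hxa
      rw [upd_of_mem (Finset.mem_singleton_self _), upd_of_notMem haZ]
    · rw [upd_of_notMem (by rw [Finset.mem_singleton]; exact hxa)]
      by_cases hxZ : x ∈ Z
      · rw [upd_of_mem hxZ, upd_of_mem hxZ]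
      · rw [upd_of_notMem hxZ, upd_of_notMem hxZ, Mv_act g hxa hφ]
  have ha1 : ({a} : Finset (Fin n)) ⊆ insert a Z := by
    intro x hx
    rw [Finset.mem_singleton] at hx
    rw [hx]
    exact Finset.mem_insert_self _ _
  have hZ1 : Z ⊆ insert a Z := Finset.subset_insert _ _
  have ha2 : ({a} : Finset (Fin n)) ⊆ Zᶜ := by
    intro x hx
    rw [Finset.mem_singleton] at hx
    rw [hx]
    exact Finset.mem_compl.2 haZ
  have hMc : M ⊆ (insert a Z)ᶜ := by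
    intro x hx
    rw [Finset.mem_compl, Finset.mem_insert, not_or]
    refine ⟨?_, Finset.disjoint_left.1 hMZ hx⟩
    rintro rfl
    exact haM hx
  have s1 : Eqv g (χ1 * φ) (φ' * φ1) := by
    refine Eqv_of_MvS hlem (Y := insert a Z) (Gen_mono hMc hM)
      (Subgroup.mul_mem _ (MvS_mono hZ1 n1) (Mv_le_MvS (Finset.mem_insert_self _ _) hφ))
      (Subgroup.mul_mem _ (MvS_mono ha1 m') (MvS_mono hZ1 m1)) ?_
    rw [act_mul, act_mul, b1, a1, a'']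
  have s2 : Eqv (upd g Z (τ Z)) (χ2 * φ') φ2 := by
    refine Eqv_of_MvS hlem (Y := Zᶜ) (by rw [compl_compl]; exact Gen_upd hτ g hZ (Finset.Subset.refl _))
      (Subgroup.mul_mem _ n2 (MvS_mono ha2 m')) m2 ?_
    rw [act_mul, a'', b2, a2]
  have s3 : Eqv (upd gs Z (τ Z)) χ3 φ3 := by
    refine Eqv_of_MvS hlem (Y := Z) (Gen_gs hτ hZ0 hgs h0
      (fun x hx => upd_of_notMem (Finset.disjoint_left.1 hZZ hx))) n3 m3 ?_
    rw [b3, a3]
  -- composition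
  have t1 : Eqv g (χ3 * χ2 * χ1 * φ) (χ3 * χ2 * (φ' * φ1)) := by
    have := s1.left (χ3 * χ2)
    rwa [← mul_assoc] at this
  have t2 : Eqv g (χ2 * φ' * φ1) (φ2 * φ1) := by
    refine Eqv.right hinv ?_
    rw [a1]
    exact s2
  have t3 : Eqv g (χ3 * (χ2 * φ' * φ1)) (χ3 * (φ2 * φ1)) := t2.left χ3
  have t4 : Eqv g (χ3 * (φ2 * φ1)) (φ3 * (φ2 * φ1)) := by
    refine Eqv.right hinv ?_
    rw [act_mul, a1, a2]
    exact s3
  have e1 : χ3 * χ2 * (φ' * φ1) = χ3 * (χ2 * φ' * φ1) := by group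
  rw [e1] at t1
  have e2 : φ3 * φ2 * φ1 = φ3 * (φ2 * φ1) := mul_assoc _ _ _
  rw [e2]
  exact (t1.trans t3).trans t4

/-- Claim A, disjoint case -/
theorem path_disj {d : ℕ} {τ : Finset (Fin n) → Fin n → G} (hτ : IsTau d τ)
    {Z0 Z1 Z2 : Finset (Fin n)} (hZ0 : Z0.card = d) {gs g : Fin n → G}
    (hgs : ∀ x ∈ Z0, gs x = τ Z0 x) (hZ1 : Z1.card = d) (hZ2 : Z2.card = d)
    (h01 : Disjoint Z0 Z1) (h02 : Disjoint Z0 Z2) (h12 : Disjoint Z1 Z2)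
    {M : Finset (Fin n)} (hM : Gen g M) (hM1 : Disjoint M Z1) (hM2 : Disjoint M Z2)
    {ψ ψ' : MulAut (FreeGroup (Fin n))} (hψ : Path τ gs g Z1 ψ) (hψ' : Path τ gs g Z2 ψ') :
    Eqv g ψ ψ' := by
  classical
  obtain ⟨φ1, m1, φ2, m2, φ3, m3, rfl, a1, a2, a3⟩ := hψ
  obtain ⟨χ1, n1, χ2, n2, χ3, n3, rfl, b1, b2, b3⟩ := hψ'
  have i1 : Z1 ⊆ Z2ᶜ := fun x hx => Finset.mem_compl.2 (Finset.disjoint_left.1 h12 hx)
  have i2 : Z2 ⊆ Z1ᶜ := fun x hx => Finset.mem_compl.2 (Finset.disjoint_right.1 h12 hx)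
  have j1 : Z1 ⊆ Z1 ∪ Z2 := Finset.subset_union_left
  have j2 : Z2 ⊆ Z1 ∪ Z2 := Finset.subset_union_right
  have k1 : (Z1 ∪ Z2)ᶜ ⊆ Z1ᶜ := Finset.compl_subset_compl.2 j1
  have k2 : (Z1 ∪ Z2)ᶜ ⊆ Z2ᶜ := Finset.compl_subset_compl.2 j2
  have c0 : Z0 ⊆ (Z1 ∪ Z2)ᶜ := by
    intro x hx
    rw [Finset.mem_compl, Finset.mem_union, not_or]
    exact ⟨Finset.disjoint_left.1 h01 hx, Finset.disjoint_left.1 h02 hx⟩
  have cM : M ⊆ (Z1 ∪ Z2)ᶜ := by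
    intro x hx
    rw [Finset.mem_compl, Finset.mem_union, not_or]
    exact ⟨Finset.disjoint_left.1 hM1 hx, Finset.disjoint_left.1 hM2 hx⟩
  -- the tuples
  obtain ⟨g1, hg1⟩ : ∃ t, t = upd g Z1 (τ Z1) := ⟨_, rfl⟩
  obtain ⟨g2, hg2⟩ : ∃ t, t = upd g Z2 (τ Z2) := ⟨_, rfl⟩
  obtain ⟨g12, hg12⟩ : ∃ t, t = upd g1 Z2 (τ Z2) := ⟨_, rfl⟩
  obtain ⟨s1, hs1⟩ : ∃ t, t = upd gs Z1 (τ Z1) := ⟨_, rfl⟩
  obtain ⟨s2, hs2⟩ : ∃ t, t = upd gs Z2 (τ Z2) := ⟨_, rfl⟩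
  obtain ⟨s12, hs12⟩ : ∃ t, t = upd s1 Z2 (τ Z2) := ⟨_, rfl⟩
  have eg : g12 = upd g2 Z1 (τ Z1) := by
    rw [hg12, hg1, hg2]
    funext x
    by_cases hx : x ∈ Z1
    · rw [upd_of_notMem (Finset.disjoint_left.1 h12 hx), upd_of_mem hx, upd_of_mem hx]
    · by_cases hx2 : x ∈ Z2
      · rw [upd_of_mem hx2, upd_of_notMem hx, upd_of_mem hx2]
      · rw [upd_of_notMem hx2, upd_of_notMem hx, upd_of_notMem hx, upd_of_notMem hx2]
  have es : s12 = upd s2 Z1 (τ Z1) := by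
    rw [hs12, hs1, hs2]
    funext x
    by_cases hx : x ∈ Z1
    · rw [upd_of_notMem (Finset.disjoint_left.1 h12 hx), upd_of_mem hx, upd_of_mem hx]
    · by_cases hx2 : x ∈ Z2
      · rw [upd_of_mem hx2, upd_of_notMem hx, upd_of_mem hx2]
      · rw [upd_of_notMem hx2, upd_of_notMem hx, upd_of_notMem hx, upd_of_notMem hx2]
  rw [← hg1] at a1 a2
  rw [← hs1] at a2 a3
  rw [← hg2] at b1 b2
  rw [← hs2] at b2 b3
  have G1 : ∀ S : Finset (Fin n), Z1 ⊆ S → Gen g1 S := fun S hS => by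
    rw [hg1]; exact Gen_upd hτ g hZ1 hS
  have G2 : ∀ S : Finset (Fin n), Z2 ⊆ S → Gen g2 S := fun S hS => by
    rw [hg2]; exact Gen_upd hτ g hZ2 hS
  have G12 : ∀ S : Finset (Fin n), Z2 ⊆ S → Gen g12 S := fun S hS => by
    rw [hg12]; exact Gen_upd hτ g1 hZ2 hS
  have S12 : ∀ S : Finset (Fin n), Z0 ⊆ S → Gen s12 S := fun S hS => by
    refine Gen_gs hτ hZ0 hgs hS fun x hx => ?_
    rw [hs12, hs1, upd_of_notMem (Finset.disjoint_left.1 h02 hx),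
      upd_of_notMem (Finset.disjoint_left.1 h01 hx)]
  -- the morphisms
  obtain ⟨α, mα, aα⟩ := exists_upd (g := g1) (Y := Z2) (G1 _ i1) (τ Z2)
  rw [← hg12] at aα
  obtain ⟨β, mβ, aβ⟩ := exists_upd (g := g2) (Y := Z1) (G2 _ i2) (τ Z1)
  rw [← eg] at aβ
  obtain ⟨ω, mω, aω⟩ := exists_upd (g := g12) (Y := (Z1 ∪ Z2)ᶜ)
    (G12 _ (by rw [compl_compl]; exact j2)) gs
  have aω' : act ω g12 = s12 := by
    rw [aω]
    funext x
    by_cases hx2 : x ∈ Z2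
    · rw [upd_of_notMem (by rw [Finset.mem_compl, not_not]; exact j2 hx2), hg12, hs12,
        upd_of_mem hx2, upd_of_mem hx2]
    · by_cases hx1 : x ∈ Z1
      · rw [upd_of_notMem (by rw [Finset.mem_compl, not_not]; exact j1 hx1), hg12, hs12,
          upd_of_notMem hx2, upd_of_notMem hx2, hg1, hs1, upd_of_mem hx1, upd_of_mem hx1]
      · rw [upd_of_mem (by rw [Finset.mem_compl, Finset.mem_union, not_or]; exact ⟨hx1, hx2⟩),
          hs12, upd_of_notMem hx2, hs1, upd_of_notMem hx1]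
  obtain ⟨γ, mγ, aγ⟩ := exists_upd (g := s12) (Y := Z2) (S12 _ (fun x hx =>
    Finset.mem_compl.2 (Finset.disjoint_left.1 h02 hx))) s1
  have aγ' : act γ s12 = s1 := by
    rw [aγ]
    funext x
    by_cases hx2 : x ∈ Z2
    · rw [upd_of_mem hx2]
    · rw [upd_of_notMem hx2, hs12, upd_of_notMem hx2]
  obtain ⟨δ, mδ, aδ⟩ := exists_upd (g := s12) (Y := Z1) (S12 _ (fun x hx =>
    Finset.mem_compl.2 (Finset.disjoint_left.1 h01 hx))) s2
  have aδ' : act δ s12 = s2 := by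
    rw [aδ]
    funext x
    by_cases hx1 : x ∈ Z1
    · rw [upd_of_mem hx1]
    · rw [upd_of_notMem hx1, es, upd_of_notMem hx1]
  -- the loops
  have l1 : Eqv g (α * φ1) (β * χ1) := by
    refine Eqv_of_MvS hlem (Y := Z1 ∪ Z2) (Gen_mono cM hM)
      (Subgroup.mul_mem _ (MvS_mono j2 mα) (MvS_mono j1 m1))
      (Subgroup.mul_mem _ (MvS_mono j1 mβ) (MvS_mono j2 n1)) ?_
    rw [act_mul, act_mul, a1, b1, aα, aβ]
  have l2 : Eqv g1 φ2 (γ * ω * α) := by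
    refine Eqv_of_MvS hlem (Y := Z1ᶜ) (by rw [compl_compl]; exact G1 _ (Finset.Subset.refl _)) m2
      (Subgroup.mul_mem _ (Subgroup.mul_mem _ (MvS_mono i2 mγ) (MvS_mono k1 mω))
        (MvS_mono i2 mα)) ?_
    rw [act_mul, act_mul, aα, aω', aγ', a2]
  have l3 : Eqv g2 χ2 (δ * ω * β) := by
    refine Eqv_of_MvS hlem (Y := Z2ᶜ) (by rw [compl_compl]; exact G2 _ (Finset.Subset.refl _)) n2
      (Subgroup.mul_mem _ (Subgroup.mul_mem _ (MvS_mono i1 mδ) (MvS_mono k2 mω))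
        (MvS_mono i1 mβ)) ?_
    rw [act_mul, act_mul, aβ, aω', aδ', b2]
  have l4 : Eqv s12 (φ3 * γ) (χ3 * δ) := by
    refine Eqv_of_MvS hlem (Y := Z1 ∪ Z2) (S12 _ c0)
      (Subgroup.mul_mem _ (MvS_mono j1 m3) (MvS_mono j2 mγ))
      (Subgroup.mul_mem _ (MvS_mono j2 n3) (MvS_mono j1 mδ)) ?_
    rw [act_mul, act_mul, aγ', aδ', a3, b3]
  -- composition
  have t1 : Eqv g (φ3 * φ2 * φ1) (φ3 * (γ * ω * α) * φ1) := by
    have h : Eqv g (φ2 * φ1) (γ * ω * α * φ1) := by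
      refine Eqv.right hinv ?_
      rw [a1]
      exact l2
    have := h.left φ3
    rwa [← mul_assoc, ← mul_assoc] at this
  have t2 : Eqv g (φ3 * (γ * ω * α) * φ1) (φ3 * γ * ω * (β * χ1)) := by
    have := l1.left (φ3 * γ * ω)
    have e : φ3 * (γ * ω * α) * φ1 = φ3 * γ * ω * (α * φ1) := by group
    rw [e]
    exact this
  have t3 : Eqv g (φ3 * γ * (ω * β * χ1)) (χ3 * δ * (ω * β * χ1)) := by
    refine Eqv.right hinv ?_
    rw [act_mul, act_mul, b1, aβ, aω']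
    exact l4
  have t4 : Eqv g (χ3 * χ2 * χ1) (χ3 * (δ * ω * β) * χ1) := by
    have h : Eqv g (χ2 * χ1) (δ * ω * β * χ1) := by
      refine Eqv.right hinv ?_
      rw [b1]
      exact l3
    have := h.left χ3
    rwa [← mul_assoc, ← mul_assoc] at this
  have e1 : φ3 * γ * ω * (β * χ1) = φ3 * γ * (ω * β * χ1) := by group
  have e2 : χ3 * (δ * ω * β) * χ1 = χ3 * δ * (ω * β * χ1) := by group
  rw [e1] at t2
  rw [e2] at t4
  exact ((t1.trans t2).trans t3).trans t4.symm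

/-- Claim A -/
theorem path_unique {r d : ℕ} (hn : 4 * r + 2 * d + 5 ≤ n)
    {τ : Finset (Fin n) → Fin n → G} (hτ : IsTau r τ)
    {Z0 Z1 Z2 : Finset (Fin n)} (hZ0 : Z0.card = r) {gs g : Fin n → G}
    (hgs : ∀ x ∈ Z0, gs x = τ Z0 x) (hZ1 : Valid2 r d Z0 g Z1) (hZ2 : Valid2 r d Z0 g Z2)
    {ψ ψ' : MulAut (FreeGroup (Fin n))} (hψ : Path τ gs g Z1 ψ) (hψ' : Path τ gs g Z2 ψ') :
    Eqv g ψ ψ' := by
  classical
  obtain ⟨c1, d1, M1, cM1, gM1, dM1⟩ := hZ1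
  obtain ⟨c2, d2, M2, cM2, gM2, dM2⟩ := hZ2
  obtain ⟨Z3, c3, d3⟩ := exists_avoid (n := n) (A := Z0 ∪ (Z1 ∪ (Z2 ∪ (M1 ∪ M2))))
    (d := r) (by
      have h1 := Finset.card_union_le Z0 (Z1 ∪ (Z2 ∪ (M1 ∪ M2)))
      have h2 := Finset.card_union_le Z1 (Z2 ∪ (M1 ∪ M2))
      have h3 := Finset.card_union_le Z2 (M1 ∪ M2)
      have h4 := Finset.card_union_le M1 M2
      omega)
  simp only [Finset.disjoint_union_left] at d3
  obtain ⟨e0, e1, e2, e3, e4⟩ := d3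
  obtain ⟨θ, hθ⟩ := exists_path hτ hZ0 hgs c3 e0 (Gen_mono (fun x hx =>
    Finset.mem_compl.2 (Finset.disjoint_left.1 e3 hx)) gM1)
  have p1 := path_disj hinv hlem hτ hZ0 hgs c1 c3 d1 e0 e1 gM1 dM1 e3 hψ hθ
  have p2 := path_disj hinv hlem hτ hZ0 hgs c2 c3 d2 e0 e2 gM2 dM2 e4 hψ' hθ
  exact p1.trans p2.symm

theorem psi_aux [Finite G] {r d : ℕ} (hr : RB G r) (hd : MB G d)
    (hn : 4 * r + 2 * d + 5 ≤ n) :
    ∃ (Ψ : (Fin n → G) → MulAut (FreeGroup (Fin n))) (gs : Fin n → G),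
      (∃ Z0 : Finset (Fin n), Z0.card = r ∧ (∀ x, x ∉ Z0 → gs x = 1) ∧ Gen gs Z0) ∧
      (∀ g, Gen g Finset.univ → act (Ψ g) g = gs) ∧
      ∀ (g : Fin n → G) (a : Fin n) (φ : MulAut (FreeGroup (Fin n))), φ ∈ Mv a → Gen g {a}ᶜ →
        Ψ (act φ g) * φ * (Ψ g)⁻¹ ∈ NS gs := by
  classical
  obtain ⟨τ, hτ⟩ := exists_isTau2 (n := n) (G := G) hr
  obtain ⟨Z0, hZ0, -⟩ := exists_avoid (n := n) (A := ∅) (d := r) (by
    rw [Finset.card_empty]; omega)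
  obtain ⟨gs, hgs'⟩ : ∃ gs : Fin n → G, gs = upd 1 Z0 (τ Z0) := ⟨_, rfl⟩
  have hgs : ∀ x ∈ Z0, gs x = τ Z0 x := fun x hx => by rw [hgs', upd_of_mem hx]
  have hex : ∀ g : Fin n → G, ∃ ψ : MulAut (FreeGroup (Fin n)), Gen g Finset.univ →
      ∃ Z, Valid2 r d Z0 g Z ∧ Path τ gs g Z ψ := by
    intro g
    by_cases hg : Gen g Finset.univ
    · obtain ⟨M, -, cM, gM⟩ := Gen_small2 hd hg
      obtain ⟨Z, cZ, dZ⟩ := exists_avoid (n := n) (A := Z0 ∪ M) (d := r) (by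
        have := Finset.card_union_le Z0 M
        omega)
      rw [Finset.disjoint_union_left] at dZ
      obtain ⟨ψ, hψ⟩ := exists_path hτ hZ0 hgs cZ dZ.1 (Gen_mono (fun x hx =>
        Finset.mem_compl.2 (Finset.disjoint_left.1 dZ.2 hx)) gM)
      exact ⟨ψ, fun _ => ⟨Z, ⟨cZ, dZ.1, M, cM, gM, dZ.2⟩, hψ⟩⟩
    · exact ⟨1, fun h => absurd h hg⟩
  choose Ψ hΨ using hex
  refine ⟨Ψ, gs, ⟨Z0, hZ0, ?_, ?_⟩, ?_, ?_⟩
  · intro x hx
    rw [hgs', upd_of_notMem hx]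
    rfl
  · exact Gen_gs hτ hZ0 hgs (Finset.Subset.refl _) (fun _ _ => rfl)
  · intro g hg
    obtain ⟨Z, -, hZ⟩ := hΨ g hg
    exact hZ.act_eq
  · intro g a φ hφ hga
    obtain ⟨M, hMa, cM, gM⟩ := Gen_small2 hd hga
    have haM : a ∉ M := fun h => by
      have := hMa h
      rw [Finset.mem_compl, Finset.mem_singleton] at this
      exact this rfl
    have gM' : Gen (act φ g) M := by
      refine Gen_congr (fun x hx => ?_) gM
      have hxa : x ≠ a := by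
        rintro rfl
        exact haM hx
      rw [Mv_act g hxa hφ]
    have gu : Gen g Finset.univ := Gen_mono (Finset.subset_univ _) gM
    have gu' : Gen (act φ g) Finset.univ := Gen_mono (Finset.subset_univ _) gM'
    obtain ⟨Z, cZ, dZ⟩ := exists_avoid (n := n) (A := Z0 ∪ (M ∪ {a})) (d := r) (by
      have h1 := Finset.card_union_le Z0 (M ∪ {a})
      have h2 := Finset.card_union_le M {a}
      rw [Finset.card_singleton] at h2
      omega)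
    rw [Finset.disjoint_union_left, Finset.disjoint_union_left] at dZ
    obtain ⟨d0, dM, da⟩ := dZ
    have haZ : a ∉ Z := Finset.disjoint_left.1 da (Finset.mem_singleton_self a)
    have hMZ : M ⊆ Zᶜ := fun x hx => Finset.mem_compl.2 (Finset.disjoint_left.1 dM hx)
    obtain ⟨ψ, hψ⟩ := exists_path hτ hZ0 hgs cZ d0 (Gen_mono hMZ gM)
    obtain ⟨ψ', hψ'⟩ := exists_path hτ hZ0 hgs cZ d0 (Gen_mono hMZ gM')
    have q1 : Eqv g (ψ' * φ) ψ :=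
      path_move hinv hlem hτ hZ0 hgs cZ d0 haZ gM haM dM hφ hψ hψ'
    obtain ⟨W, vW, pW⟩ := hΨ g gu
    obtain ⟨W', vW', pW'⟩ := hΨ (act φ g) gu'
    have q2 : Eqv g (Ψ g) ψ := path_unique hinv hlem hn hτ hZ0 hgs vW ⟨cZ, d0, M, cM, gM, dM⟩ pW hψ
    have q3 : Eqv (act φ g) (Ψ (act φ g)) ψ' :=
      path_unique hinv hlem hn hτ hZ0 hgs vW' ⟨cZ, d0, M, cM, gM', dM⟩ pW' hψ'
    have q4 : Eqv g (Ψ (act φ g) * φ) (Ψ g) := ((Eqv.right hinv q3).trans q1).trans q2.symm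
    have q5 := hinv g (Ψ g) _ q4
    rw [pW.act_eq] at q5
    have e : Ψ g * ((Ψ g)⁻¹ * (Ψ (act φ g) * φ)) * (Ψ g)⁻¹ =
        Ψ (act φ g) * φ * (Ψ g)⁻¹ := by group
    rwa [e] at q5

end Two

theorem psi_exists2 {n : ℕ} {G : Type*} [Group G] [Finite G] {r d : ℕ}
    (hr : RB G r) (hd : MB G d) (hn : 4 * r + 2 * d + 5 ≤ n) :
    ∃ (Ψ : (Fin n → G) → MulAut (FreeGroup (Fin n))) (gs : Fin n → G),
      (∃ Z0 : Finset (Fin n), Z0.card = r ∧ (∀ x, x ∉ Z0 → gs x = 1) ∧ Gen gs Z0) ∧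
      (∀ g, Gen g Finset.univ → act (Ψ g) g = gs) ∧
      ∀ (g : Fin n → G) (a : Fin n) (φ : MulAut (FreeGroup (Fin n))), φ ∈ Mv a → Gen g {a}ᶜ →
        Ψ (act φ g) * φ * (Ψ g)⁻¹ ∈ NS gs :=
  Two.psi_aux (fun g φ ψ h => NS_conj hd (by omega) g φ ψ h)
    (fun g Y hY φ hφ hg => NS_lemY hd (by omega) g Y hY hφ hg) hr hd hn

end RED
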