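import Mathlib
import Pool.Agent.RED.Defs
import Pool.Agent.RED.GenTop
import Pool.Agent.RED.MvBasic
import Pool.Agent.RED.Psi2
import Pool.Agent.RED.NS3
import Pool.Agent.RED.NS4

/-!
# The stabiliser lies in the transported group
-/

set_option autoImplicit false

namespace RED

open AFn IAQ

namespace Two

section

variable {n : ℕ} {G : Type*} [Group G]

private theorem surj_act {g : Fin n → G} (φ : MulAut (FreeGroup (Fin n)))
    (h : Function.Surjective (ev g)) : Function.Surjective (ev (act φ g)) := by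
  intro x
  obtain ⟨w, hw⟩ := h x
  refine ⟨φ w, ?_⟩
  rw [ev_act, ← MulAut.mul_apply, inv_mul_cancel]
  exact hw

private theorem gen_transfer {g g' : Fin n → G} {M S : Finset (Fin n)} (hM : Gen g M)
    (h : ∀ x ∈ M, ∃ y ∈ S, g' y = g x) : Gen g' S := by
  have key : ∀ w ∈ fsub M, ∃ w' ∈ fsub S, ev g' w' = ev g w := by
    intro w hw
    induction hw using Subgroup.closure_induction with
    | mem x hx =>
      obtain ⟨y, hy, rfl⟩ := hx
      obtain ⟨z, hz, hzy⟩ := h y hy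
      exact ⟨FreeGroup.of z, of_mem_fsub hz, by rw [ev_of, ev_of, hzy]⟩
    | one => exact ⟨1, one_mem _, by rw [map_one, map_one]⟩
    | mul x y _ _ hx hy =>
      obtain ⟨x', hx', ex⟩ := hx
      obtain ⟨y', hy', ey⟩ := hy
      exact ⟨x' * y', mul_mem hx' hy', by rw [map_mul, map_mul, ex, ey]⟩
    | inv x _ hx =>
      obtain ⟨x', hx', ex⟩ := hx
      exact ⟨x'⁻¹, inv_mem hx', by rw [map_inv, map_inv, ex]⟩
  intro k
  obtain ⟨w, hw, hk⟩ := hM k
  obtain ⟨w', hw', e'⟩ := key w hw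
  exact ⟨w', hw', e'.trans hk⟩

private theorem ret_univ (w : FreeGroup (Fin n)) : ret Finset.univ w = w := by
  have h : ret (Finset.univ : Finset (Fin n)) = MonoidHom.id _ := by
    ext x
    simp [ret]
  rw [h]
  rfl

private theorem gen_univ {g : Fin n → G} (hg : Function.Surjective (ev g)) :
    Gen g Finset.univ := by
  intro h
  obtain ⟨w, hw⟩ := hg h
  exact ⟨w, by rw [← ret_univ w]; exact ret_mem _ _, hw⟩

private theorem exists_M [Finite G] {d : ℕ} (hd : MB G d) {g : Fin n → G}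
    (hg : Function.Surjective (ev g)) : ∃ M : Finset (Fin n), M.card ≤ d ∧ Gen g M := by
  obtain ⟨M, -, h1, h2⟩ := Gen_small2 hd (gen_univ hg)
  exact ⟨M, h1, h2⟩

private theorem pres_sg' {i a : Fin n} (h : i ≠ a) : Pres i (sg a) := by
  refine pres_of (sg_of_ne h) fun x hx => ?_
  by_cases hxa : x = a
  · subst hxa
    rw [sg_of_self, map_inv, kill_of_ne hx]
  · rw [sg_of_ne hxa, kill_of_ne hx]

private theorem kill_mem {i : Fin n} {w : FreeGroup (Fin n)} (h : kill i w = w) :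
    w ∈ fsub ({i}ᶜ : Finset (Fin n)) := by
  have h1 : kill i = ret ({i}ᶜ : Finset (Fin n)) := by
    ext x
    by_cases hx : x = i <;> simp [kill, ret, hx]
  rw [← h, h1]
  exact ret_mem _ _

/-- the transported element -/
private def PP (Ψ : (Fin n → G) → MulAut (FreeGroup (Fin n))) (g : Fin n → G)
    (φ : MulAut (FreeGroup (Fin n))) : MulAut (FreeGroup (Fin n)) :=
  Ψ (act φ g) * φ * (Ψ g)⁻¹

private theorem PP_mul (Ψ : (Fin n → G) → MulAut (FreeGroup (Fin n))) (g : Fin n → G)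
    (φ ψ : MulAut (FreeGroup (Fin n))) : PP Ψ g (φ * ψ) = PP Ψ (act ψ g) φ * PP Ψ g ψ := by
  unfold PP
  rw [act_mul]
  group

private theorem step [Finite G] {d : ℕ} (hd : MB G d) (hn : d + 2 < n)
    {Ψ : (Fin n → G) → MulAut (FreeGroup (Fin n))} {gs : Fin n → G}
    (h2 : ∀ (g : Fin n → G) (a : Fin n) (φ : MulAut (FreeGroup (Fin n))), φ ∈ Mv a →
      Gen g {a}ᶜ → PP Ψ g φ ∈ NS gs)
    {a b : Fin n} {s : MulAut (FreeGroup (Fin n))} (hs : s ∈ Mv a)
    (hp : ∀ i, i ≠ a → i ≠ b → Pres i s) {g : Fin n → G}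
    (hg : Function.Surjective (ev g)) : PP Ψ g s ∈ NS gs := by
  obtain ⟨M, hMc, hM⟩ := exists_M hd hg
  obtain ⟨i, hi⟩ : ∃ i, i ∉ M ∪ {a, b} := by
    by_contra hcon
    push Not at hcon
    have h1 : (Finset.univ : Finset (Fin n)).card ≤ (M ∪ {a, b}).card :=
      Finset.card_le_card fun x _ => hcon x
    have h3 := Finset.card_union_le M {a, b}
    have h4 : ({a, b} : Finset (Fin n)).card ≤ 2 := Finset.card_le_two
    rw [Finset.card_univ, Fintype.card_fin] at h1
    omega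
  simp only [Finset.mem_union, Finset.mem_insert, Finset.mem_singleton, not_or] at hi
  obtain ⟨hiM, hia, hib⟩ := hi
  obtain ⟨w, hw, hwv⟩ := hM ((g a)⁻¹ * g i)
  have hkw : kill i w = w := kill_eq hw hiM
  have hpi := hp i hia hib
  have hcomm : s * R i w = R i (s w) * s := by
    have h1 := hpi.conj_R w
    rw [hkw] at h1
    rw [← h1]
    group
  have e1 : PP Ψ g s = (PP Ψ (act s g) (R i (s w)))⁻¹ *
      (PP Ψ (act (R i w) g) s * PP Ψ g (R i w)) := by
    rw [← PP_mul, hcomm, PP_mul]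
    group
  rw [e1]
  refine mul_mem (inv_mem ?_) (mul_mem ?_ ?_)
  · refine h2 _ i _ (R_mem_Mv i _) ?_
    intro k
    obtain ⟨u, hu, hk⟩ := hM k
    refine ⟨s u, kill_mem ?_, ?_⟩
    · have h3 := hpi.2 u
      rwa [kill_eq hu hiM] at h3
    · rw [ev_act, ← MulAut.mul_apply, inv_mul_cancel]
      exact hk
  · refine h2 _ a _ hs (gen_transfer hM fun x hx => ?_)
    by_cases hxa : x = a
    · refine ⟨i, by simp [hia], ?_⟩
      show ev g ((R i w)⁻¹ (FreeGroup.of i)) = g x
      rw [R_inv, R_of_self, map_inv, hkw, map_mul, map_inv, hwv, ev_of, hxa]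
      group
    · refine ⟨x, by simp [hxa], ?_⟩
      have hxi : x ≠ i := fun h => hiM (h ▸ hx)
      show ev g ((R i w)⁻¹ (FreeGroup.of x)) = g x
      rw [R_inv, R_of_ne hxi, ev_of]
  · refine h2 _ i _ (R_mem_Mv i _) (gen_transfer hM fun x hx => ⟨x, ?_, rfl⟩)
    simp only [Finset.mem_compl, Finset.mem_singleton]
    exact fun h => hiM (h ▸ hx)

end

end Two

open Two in
theorem gen_all2 {n : ℕ} {G : Type*} [Group G] [Finite G] {r d : ℕ} (hr : RB G r)
    (hd : MB G d) (hn : 4 * r + 2 * d + 5 ≤ n) (g : Fin n → G) (hg : Function.Surjective (ev g)) : Gam g ≤ NS g := by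
  have hinv : ∀ (g : Fin n → G) (φ ψ : MulAut (FreeGroup (Fin n))),
      ψ ∈ NS g → φ * ψ * φ⁻¹ ∈ NS (act φ g) :=
    fun g φ ψ hψ => NS_conj hd (by omega) g φ ψ hψ
  obtain ⟨Ψ, gs, -, h1, h2⟩ := psi_exists2 hr hd hn
  have all : ∀ (φ : MulAut (FreeGroup (Fin n))) (g : Fin n → G), Function.Surjective (ev g) →
      PP Ψ g φ ∈ NS gs := by
    intro φ
    have hφ : φ ∈ Subgroup.closure
        ({φ : MulAut (FreeGroup (Fin n)) | ∃ a b, a ≠ b ∧ φ = R a (FreeGroup.of b)} ∪
          {φ | ∃ a, φ = sg a}) := by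
      rw [gen_top]
      exact Subgroup.mem_top φ
    induction hφ using Subgroup.closure_induction with
    | mem s hs =>
      intro g hg
      rcases hs with ⟨a, b, _, rfl⟩ | ⟨a, rfl⟩
      · exact step hd (by omega) h2 (R_mem_Mv a _)
          (fun i hia hib => pres_R hia (kill_of_ne (Ne.symm hib))) hg
      · exact step hd (b := a) (by omega) h2 (sg_mem_Mv a) (fun i hia _ => pres_sg' hia) hg
    | one =>
      intro g hg
      unfold PP
      rw [act_one, mul_one, mul_inv_cancel]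
      exact one_mem _
    | mul φ ψ _ _ hφ hψ =>
      intro g hg
      rw [PP_mul]
      exact mul_mem (hφ _ (surj_act ψ hg)) (hψ g hg)
    | inv φ _ hφ =>
      intro g hg
      have h3 := hφ (act φ⁻¹ g) (surj_act φ⁻¹ hg)
      have h4 : PP Ψ g φ⁻¹ = (PP Ψ (act φ⁻¹ g) φ)⁻¹ := by
        have h5 := PP_mul Ψ g φ φ⁻¹
        rw [mul_inv_cancel] at h5
        have h6 : PP Ψ g 1 = 1 := by
          unfold PP
          rw [act_one, mul_one, mul_inv_cancel]
        rw [h6] at h5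
        exact eq_inv_of_mul_eq_one_right h5.symm
      rw [h4]
      exact inv_mem h3
  intro φ hφ
  have h3 := all φ g hg
  unfold PP at h3
  rw [mem_Gam_iff.1 hφ] at h3
  have h4 := hinv gs (Ψ g)⁻¹ _ h3
  have h5 : act (Ψ g)⁻¹ gs = g := by
    rw [← h1 g (gen_univ hg), act_inv_act]
  rw [h5] at h4
  have h6 : (Ψ g)⁻¹ * (Ψ g * φ * (Ψ g)⁻¹) * ((Ψ g)⁻¹)⁻¹ = φ := by group
  rwa [h6] at h4

end RED
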