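import Mathlib
import Pool.Agent.RED.HypMain
import Pool.Agent.RED.GenAll2
import Pool.Agent.RED.BMain
import Pool.Agent.RED.Final

/-!
# Finite image, general form
-/

set_option autoImplicit false

namespace RED

open AFn IAQ

theorem final_num2 {m n r d j : ℕ} (hn : 4 * r + 2 * d + 5 ≤ n) (hm : m + 2 ≤ n)
    (hj : j ≤ r) : m ≤ 2 ^ (n - 2 - j) + 1 := by
  obtain ⟨s, hs⟩ : ∃ s, n - 2 - j = s + 1 := ⟨n - 2 - j - 1, by omega⟩
  have h1 : s < 2 ^ s := Nat.lt_two_pow_self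
  rw [hs, pow_succ]
  omega

theorem final_gam_range2 {n m : ℕ} {G : Type*} [Group G] [Finite G] (g : Fin n → G)
    (hg : Function.Surjective (ev g)) (Hin : Subgroup (MulAut (FreeGroup (Fin n))))
    (ρ : Hin →* Matrix.GeneralLinearGroup (Fin m) ℤ) (I : Finset (Fin n))
    {r d : ℕ} (hr : RB G r) (hd : MB G d) (hn : 4 * r + 2 * d + 5 ≤ n)
    (hf : Hin.FiniteIndex) (hm : m + 2 ≤ n)
    (hΓ : Gam g ≤ Hin) (hIc : Iᶜ.card ≤ r) (hgen : Gen g Iᶜ) (h1 : ∀ i ∈ I, g i = 1) :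
    {y | ∃ (x : MulAut (FreeGroup (Fin n))) (hx : x ∈ Gam g), y = ρ ⟨x, hΓ hx⟩}.Finite := by
  have hcard : I.card + Iᶜ.card = n := by
    have := Finset.card_add_card_compl I
    rwa [Fintype.card_fin] at this
  have hI : 5 ≤ I.card := by omega
  have hyp : Hyp g I (ρ.comp (Subgroup.inclusion hΓ)) :=
    hyp_main g I Hin ρ hf hm hΓ h1 hI (by omega) (final_num2 hn hm hIc)
  have hE := all_finite g I (ρ.comp (Subgroup.inclusion hΓ)) hyp hI
  set E := Subgroup.closure {x | ∃ φ, φ ∈ Gam g ∧ (∃ c, φ ∈ Mv c) ∧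
    x = fe g (ρ.comp (Subgroup.inclusion hΓ)) φ} with hEd
  have key : ∀ φ ∈ NN g, φ ∈ Gam g ∧ fe g (ρ.comp (Subgroup.inclusion hΓ)) φ ∈ E := by
    intro φ hφ
    induction hφ using Subgroup.closure_induction with
    | mem x hx =>
      exact ⟨hx.1, Subgroup.subset_closure ⟨x, hx.1, hx.2, rfl⟩⟩
    | one => exact ⟨(Gam g).one_mem, by rw [fe_one]; exact E.one_mem⟩
    | mul x y _ _ hx hy =>
      refine ⟨(Gam g).mul_mem hx.1 hy.1, ?_⟩
      rw [fe_mul _ _ hx.1 hy.1]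
      exact E.mul_mem hx.2 hy.2
    | inv x _ hx =>
      refine ⟨(Gam g).inv_mem hx.1, ?_⟩
      rw [fe_inv _ _ hx.1]
      exact E.inv_mem hx.2
  have hEf : (E : Set (Matrix.GeneralLinearGroup (Fin m) ℤ)).Finite := Set.toFinite _
  have hIne : I.Nonempty := Finset.card_pos.1 (by omega)
  refine hEf.subset ?_
  rintro y ⟨x, hx, rfl⟩
  have h2 := (key x (NS_std hIne hgen h1 (gen_all2 hr hd hn g hg hx))).2
  rw [fe_of_mem _ _ hx] at h2
  exact h2

/-- a surjective tuple can be brought to a standard form -/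
theorem exists_std2 {n : ℕ} {G : Type*} [Group G] [Finite G] {r d : ℕ} (hr : RB G r)
    (hd : MB G d) (hn : 4 * r + 2 * d + 5 ≤ n) (g : Fin n → G)
    (hg : Function.Surjective (ev g)) :
    ∃ (φ : MulAut (FreeGroup (Fin n))) (I : Finset (Fin n)), Iᶜ.card ≤ r ∧
      Gen (act φ g) Iᶜ ∧ ∀ i ∈ I, act φ g i = 1 := by
  obtain ⟨Ψ, gs, ⟨Z0, h1, h2, h3⟩, h4, -⟩ := psi_exists2 (n := n) hr hd hn
  have h5 : act (Ψ g) g = gs := by
    refine h4 g ?_
    intro x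
    obtain ⟨w, hw⟩ := hg x
    refine ⟨w, ?_, hw⟩
    have h6 : fsub (Finset.univ : Finset (Fin n)) = ⊤ := by
      rw [eq_top_iff, ← FreeGroup.closure_range_of]
      unfold fsub
      refine Subgroup.closure_mono ?_
      rintro _ ⟨y, rfl⟩
      exact ⟨y, by simp, rfl⟩
    rw [h6]
    exact Subgroup.mem_top w
  refine ⟨Ψ g, Z0ᶜ, ?_, ?_, ?_⟩
  · rw [compl_compl, h1]
  · rw [compl_compl, h5]
    exact h3
  · intro i hi
    rw [h5]
    exact h2 i (Finset.mem_compl.1 hi)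

theorem final2 {n m : ℕ} {G : Type*} [Group G] [Finite G] (g : Fin n → G)
    (hg : Function.Surjective (ev g)) (Hin : Subgroup (MulAut (FreeGroup (Fin n))))
    (ρ : Hin →* Matrix.GeneralLinearGroup (Fin m) ℤ)
    {r d : ℕ} (hr : RB G r) (hd : MB G d) (hn : 4 * r + 2 * d + 5 ≤ n)
    (hf : Hin.FiniteIndex) (hm : m + 2 ≤ n)
    (hΓ : Gam g ≤ Hin) : Finite ρ.range := by
  obtain ⟨φ, I, hIc, hgen, h1⟩ := exists_std2 hr hd hn g hg
  set cj : MulAut (FreeGroup (Fin n)) →* MulAut (FreeGroup (Fin n)) :=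
    (MulAut.conj φ⁻¹).toMonoidHom with hcj
  have hcja : ∀ x, cj x = φ⁻¹ * x * φ := by
    intro x
    show φ⁻¹ * x * φ⁻¹⁻¹ = _
    rw [inv_inv]
  have hg1 : Function.Surjective (ev (act φ g)) := by
    intro y
    obtain ⟨w, hw⟩ := hg y
    refine ⟨φ w, ?_⟩
    rw [ev_act, MulAut.inv_apply_self, hw]
  have hΓ' : Gam (act φ g) ≤ Hin.comap cj := by
    intro x hx
    rw [Subgroup.mem_comap, hcja]
    apply hΓ
    have h2 := Gam_conj hx φ⁻¹
    rwa [act_inv_act, inv_inv] at h2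
  have hsj : Function.Surjective cj := (MulAut.conj φ⁻¹).surjective
  have hfi : (Hin.comap cj).FiniteIndex :=
    ⟨by rw [Subgroup.index_comap_of_surjective Hin hsj]; exact hf.index_ne_zero⟩
  have h3 := final_gam_range2 (act φ g) hg1 (Hin.comap cj) (ρ.comp (cj.subgroupComap Hin)) I hr hd
    hn hfi hm hΓ' hIc hgen h1
  refine final_of_finite g Hin ρ hΓ (h3.subset ?_)
  rintro y ⟨x, hx, rfl⟩
  refine ⟨φ * x * φ⁻¹, Gam_conj hx φ, ?_⟩
  show ρ _ = ρ _
  congr 1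
  apply Subtype.ext
  show x = cj (φ * x * φ⁻¹)
  rw [hcja]
  group

end RED
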