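import Mathlib
import Pool.Agent.RED.Defs

/-!
# The stabiliser has finite index
-/

set_option autoImplicit false

namespace RED

open AFn IAQ

theorem Gam_finiteIndex {n : ℕ} {G : Type*} [Group G] [Finite G] (g : Fin n → G) :
    (Gam g).FiniteIndex := by
  have h1 : ∀ φ ψ : MulAut (FreeGroup (Fin n)), φ⁻¹ * ψ ∈ Gam g ↔ act φ g = act ψ g := by
    intro φ ψ
    rw [mem_Gam_iff, act_mul]
    constructor
    · intro h
      have h2 : act φ (act φ⁻¹ (act ψ g)) = act φ g := by rw [h]
      rw [← act_mul, mul_inv_cancel, act_one] at h2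
      exact h2.symm
    · intro h
      rw [← h, act_inv_act]
  have h2 : Finite (MulAut (FreeGroup (Fin n)) ⧸ Gam g) := by
    refine Finite.of_injective (β := Fin n → G)
      (Quotient.lift (fun φ => act φ g) fun φ ψ h => ?_) ?_
    · exact (h1 φ ψ).1 (QuotientGroup.leftRel_apply.1 h)
    · intro x y
      refine Quotient.inductionOn₂ x y fun φ ψ h => ?_
      exact Quotient.sound (QuotientGroup.leftRel_apply.2 ((h1 φ ψ).2 h))
  exact Subgroup.finiteIndex_of_finite_quotient

end RED
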